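import Pool.Agent.PFC.StmtsB5b

/-!
# Squad PFC, block B5a (helper79): the local structure `A(Q) = Mat_n(F) ⊗ F V` and separability

Complete proofs in the docstrings.  `V` is a finite abelian `ℓ`-group, `F` a field of characteristic
`ℓ`, `β : V → B` an interior `V`-algebra, `bi F β (u, v) x = β u * x * β v⁻¹`,
`cj F β u x = β u * x * β u⁻¹`.

* Part 1: combinatorics of frames (OMZ, TRS, FVT).
* Part 2: symmetric algebras over a group algebra: relative dual bases (FDB, CUG, CAS, BKI, UNS).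
* Part 3: the complement of `F V` (QFR, ALV, SPV, MUV).
* Part 4: the lifting theorem and the local structure (NIL, KWA, KWB, LFT, SUV, INJ, LOC, CPS).
* Part 5: the algebra `A(Q)` (QEX, QFC, QFM, QPS, QTP, QMT, LOQ).
* Part 6: separability of the final algebra (LAM, SPG, SEX).
-/

open scoped BigOperators TensorProduct

noncomputable section

namespace Pool.Agent.PFC.B5a

section defs

variable (F : Type) {Γ V B A : Type} [Field F] [Group Γ] [CommGroup V] [Ring B] [Algebra F B]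
  [Ring A] [Algebra F A]

/-- `E(x) = ∑ lam(g⁻¹ x) g`: the bimodule map from `B` to the span of `Γ` -/
def Ee [Fintype Γ] (γ : Γ →* B) (lam : B →ₗ[F] F) (x : B) : B := ∑ g, lam (γ g⁻¹ * x) • γ g

/-- `c'` is the inverse of `E(1) = ∑ lam(g⁻¹) g`, it commutes with `Γ` and is in the span of `Γ`. -/
structure Ci [Fintype Γ] (γ : Γ →* B) (lam : B →ₗ[F] F) (c' : B) : Prop where
  lin : c' * Ee F γ lam 1 = 1
  rin : Ee F γ lam 1 * c' = 1
  com : ∀ g, c' * γ g = γ g * c'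
  spn : c' ∈ Submodule.span F (Set.range γ)

/-- dual bases of `lam` -/
def Du (lam : B →ₗ[F] F) {κ : Type} [Fintype κ] (b b' : κ → B) : Prop :=
  ∀ x, ∑ k, lam (b' k * x) • b k = x

/-- Casimir element over `Γ` -/
def Csm (γ : Γ →* B) {κ : Type} [Fintype κ] (u v : κ → B) : Prop :=
  ∀ (X : Type) [AddCommGroup X] [Module F X] (T : B →ₗ[F] B →ₗ[F] X),
    (∀ a b g, T (a * γ g) b = T a (γ g * b)) →
    ∀ c, ∑ k, T (c * u k) (v k) = ∑ k, T (u k) (v k * c)

/-- A frame for the projection `q`: `q x = ∑ c ω x • b ω`, `b` and `c` are equivariant, and the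
stabilisers are diagonal subgroups of `V × V`, different from the whole diagonal. -/
structure Qf (β : V →* B) (q : B →ₗ[F] B) {Ω : Type} [Fintype Ω] [MulAction (V × V) Ω]
    (b : Ω → B) (c : Ω → (B →ₗ[F] F)) : Prop where
  eb : ∀ (w : V × V) (ω : Ω), b (w • ω) = bi F β w (b ω)
  ec : ∀ (w : V × V) (ω : Ω) (x : B), c (w • ω) (bi F β w x) = c ω x
  sum : ∀ x : B, ∑ ω, c ω x • b ω = q x
  st : ∀ ω : Ω, ∃ R : Subgroup V, R ≠ ⊤ ∧
    MulAction.stabilizer (V × V) ω = tw (MonoidHom.id V) R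

/-- the augmentation of `F V` -/
def au (V : Type) [CommGroup V] : MonoidAlgebra F V →ₐ[F] F := MonoidAlgebra.lift F F V 1

/-- `f : B → Mat_n(F V)` lifts `π : B → Mat_n(F)` and maps `u` to `π(u) ⊗ u`. -/
structure Lf (β : V →* B) (n : ℕ) (π : B →ₐ[F] Matrix (Fin n) (Fin n) F)
    (f : B → Matrix (Fin n) (Fin n) (MonoidAlgebra F V)) : Prop where
  aug : ∀ x i j, au F V (f x i j) = π x i j
  grp : ∀ u i j, f (β u) i j = MonoidAlgebra.single u (π (β u) i j)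

/-- The local data: `B = A(Q)` for `Q ≠ 1`. -/
structure LB [Fintype V] (β : V →* B) (n : ℕ) (π : B →ₐ[F] Matrix (Fin n) (Fin n) F) : Prop where
  fin : FiniteDimensional F B
  frm : ∃ lam, Frm F β lam
  loc : IsLocalRing (Cz F β ⊤)
  ps : PS (fun K => ∃ R : Subgroup V, K = tw (MonoidHom.id V) R) (bi F β)
  top : Tpv F β
  pos : 0 < n
  sur : Function.Surjective π
  nil : ∀ b, π b = 0 → IsNilpotent b
  cop : (n : F) ≠ 0

/-- `V → Cz F α Q` (`V` is commutative) -/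
def zin (α : V →* A) (Q : Subgroup V) : V →* Cz F α Q where
  toFun u := ⟨α u, by
    rw [Cz, Subalgebra.mem_centralizer_iff]
    rintro _ ⟨v, -, rfl⟩
    rw [← map_mul, ← map_mul, mul_comm]⟩
  map_one' := by
    apply Subtype.ext
    exact map_one α
  map_mul' u v := by
    apply Subtype.ext
    exact map_mul α u v

/-- `q : Cz F α Q → B` is the quotient map to `B = A(Q)`. -/
structure QA (α : V →* A) (Q : Subgroup V) (q : Cz F α Q →ₐ[F] B) : Prop where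
  sur : Function.Surjective q
  ker : ∀ a : Cz F α Q, q a = 0 ↔ (a : A) ∈ BK (cj F α) Q

/-- the structure homomorphism of `A(Q)` -/
def be (α : V →* A) (Q : Subgroup V) (q : Cz F α Q →ₐ[F] B) : V →* B :=
  (q : Cz F α Q →* B).comp (zin F α Q)

end defs

/-! ## Part 1 -/

/-- OMZ: representatives of the orbits of `1 × V`, stable under the diagonal.

Proof.  Choose a point `ω_O` in every orbit `O` of `V × V` on `Ω` (`Quotient.out`), its stabiliser is
`{(r, r) | r ∈ R}`, and put `Ω₀ = {ω | ∃ a, ω = (a, a) • ω_O, O the orbit of ω}` (a filter of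
`Finset.univ`).  `Ω₀` is stable under the diagonal.  The map `(ω, h) ↦ (1, h) • ω` from `Ω₀ × V` to
`Ω` is bijective: `(a, b) • ω_O = (1, b a⁻¹) • ((a, a) • ω_O)`; and if
`(1, h) • (a, a) • ω_O = (1, h') • (a', a') • ω_O`, then
`(a'⁻¹ a, a'⁻¹ h'⁻¹ h a)` is in the stabiliser, so its two coordinates are equal and `h = h'`; then
`(a, a) • ω_O = (a', a') • ω_O` as `(1, h) • ` is injective.  Now the formula is
`Finset.sum_bij` / `Function.Bijective.sum_comp`. -/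
def OmzStmt : Prop := ∀ (V Ω : Type) [CommGroup V] [Fintype V] [Fintype Ω]
  [MulAction (V × V) Ω],
  (∀ ω : Ω, ∃ R : Subgroup V, MulAction.stabilizer (V × V) ω = tw (MonoidHom.id V) R) →
  ∃ Ω₀ : Finset Ω, (∀ g : V, ∀ ω ∈ Ω₀, ((g, g) : V × V) • ω ∈ Ω₀) ∧
    ∀ (M : Type) [AddCommMonoid M] (f : Ω → M),
      ∑ ω, f ω = ∑ ω ∈ Ω₀, ∑ h : V, f (((1, h) : V × V) • ω)

/-- TRS: the sum of an equivariant family over a finite `H`-set without `P`-fixed points is in the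
Brauer kernel.

Proof.  Induction on the size of the set `T`, as in `orbit_BK` (`PFC/B4/Key.lean`): take `ω ∈ T`, the
transversal `S` of `P ⊓ stabilizer ω` in `P` from `exTv`, the orbit `O = S.image (· • ω)`;
`∑_{O} W = ∑_{x ∈ S} ρ x (W ω)`, `W ω` is fixed by `P ⊓ stabilizer ω`, which is a proper subgroup of
`P`. -/
def TrsStmt : Prop := ∀ (F H M Ω : Type) [Field F] [Group H] [Finite H] [AddCommGroup M]
  [Module F M] [MulAction H Ω] (ρ : H →* (M →ₗ[F] M)) (P : Subgroup H) (W : Ω → M)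
  (T : Finset Ω), (∀ ω ∈ T, ∀ h ∈ P, h • ω ∈ T) → (∀ ω ∈ T, ¬ ∀ h ∈ P, h • ω = ω) →
  (∀ h ∈ P, ∀ ω, W (h • ω) = ρ h (W ω)) → ∑ ω ∈ T, W ω ∈ BK ρ P

/-- FVT: an `ℓ`-group acting on a nonzero `F`-space has a nonzero fixed vector.

Proof.  Let `S` be the additive subgroup of `N` generated by the finitely many elements `ρ h m`.  It
is a finitely generated `ZMod ℓ`-module (`ℓ x = 0` for all `x`), so it is finite, its order is a power
of `ℓ` and it is not trivial; `H` acts on it; `0` is a fixed point, so there is another one by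
`IsPGroup.exists_fixed_point_of_prime_dvd_card_of_fixed_point`. -/
def FvtStmt : Prop := ∀ (ℓ : ℕ) [Fact ℓ.Prime] (F H M : Type) [Field F] [CharP F ℓ] [Group H]
  [Finite H] [AddCommGroup M] [Module F M] (ρ : H →* (M →ₗ[F] M)) (N : Submodule F M),
  IsPGroup ℓ H → (∀ h : H, ∀ m ∈ N, ρ h m ∈ N) → N ≠ ⊥ → ∃ m ∈ N, m ≠ 0 ∧ m ∈ Fx ρ ⊤

/-! ## Part 2 -/

/-- FDB: dual bases.

Proof.  Take a basis `b` of `B` and the dual basis `b'` for the bilinear form `lam (x y)`, so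
`lam (b' i * b j) = δ_ij` (`LinearMap.BilinForm.dualBasis`, or invert the Gram matrix). -/
def FdbStmt : Prop := ∀ (F B : Type) [Field F] [Ring B] [Algebra F B] [FiniteDimensional F B]
  (lam : B →ₗ[F] F), (∀ a b, lam (a * b) = lam (b * a)) →
  (∀ a, (∀ b, lam (a * b) = 0) → a = 0) →
  ∃ (m : ℕ) (b b' : Fin m → B), Du F lam b b' ∧ ∀ x, ∑ k, lam (x * b k) • b' k = x

/-- CUG: `E(1)` is a unit.

Proof.  Let `c = E(1) = ∑ lam(g⁻¹) g`.  `γ h * c = c * γ h`:
`γ h c γ h⁻¹ = ∑ lam(γ g⁻¹) γ(h g h⁻¹) = ∑ lam(γ(h⁻¹ g⁻¹ h)) γ g = c` by the symmetry of `lam`.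
Left multiplication by `c` is injective: let `N = {b | c b = 0}`; it is stable under left
multiplication by `Γ`, so if `N ≠ 0` there is `b ∈ N`, `b ≠ 0`, `γ w b = b` for all `w ∈ W` (FVT for
the group `W`).  Group the sum by the cosets `t W`: if `t ∉ W` then for all `w ∈ W` the element `t w` is
conjugate to `t` by an element of `W`: the map `W → W`, `w ↦ t⁻¹ w t w⁻¹` (in `W` as `W` is normal) is
injective, as `t⁻¹ w t w⁻¹ = t⁻¹ v t v⁻¹` gives that `v⁻¹ w` commutes with `t` (`W` commutative), so it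
is surjective, and `w t w⁻¹ = t (t⁻¹ w t w⁻¹)`.  So `lam(γ (t w)⁻¹) = lam(γ t⁻¹)` for all `w`, and
the coset contributes `|W| lam(γ t⁻¹) γ t b = 0` (`ℓ` divides `|W|`).  The coset `W` contributes
`(∑_{w ∈ W} lam(γ w⁻¹)) b = lam(∑_W γ w) b`.  So `0 = c b = lam(∑_W γ w) b ≠ 0`, a contradiction.
The span `L` of `γ(Γ)` is a finite dimensional subalgebra which contains `c`; `x ↦ c x` is an injective
map from `L` to `L`, so it is surjective: `c c' = 1` with `c' ∈ L`; it is also a left inverse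
(`c (c' c - 1) = 0`), and it commutes with `Γ`. -/
def CugStmt : Prop := FvtStmt → ∀ (ℓ : ℕ) [Fact ℓ.Prime] (F Γ B : Type) [Field F] [CharP F ℓ]
  [Group Γ] [Fintype Γ] [Ring B] [Algebra F B] [FiniteDimensional F B] (γ : Γ →* B)
  (lam : B →ₗ[F] F) (W : Subgroup Γ), (∀ a b, lam (a * b) = lam (b * a)) → W.Normal →
  W ≠ ⊥ → IsPGroup ℓ W → (∀ a ∈ W, ∀ b ∈ W, a * b = b * a) →
  (∀ t, t ∉ W → ∀ w ∈ W, t * w = w * t → w = 1) →
  lam (∑ᶠ w : W, γ w) ≠ 0 → ∃ c', Ci F γ lam c'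

/-- CAS: the relative dual basis and the Casimir element.  `al` is the projectivity of the
complement as a right `Γ`-module.

Proof.  Let `E = Ee F γ lam`, `x_0 = c'`, `y_0 = 1`, `x_k = al (b k)`, `y_k = b' k`.  (1) `E` is
`F`-linear, `E(γ g x) = γ g E(x)`, `E(x γ g) = E(x) γ g` (symmetry of `lam`), the values are in the
span of `Γ`, so `c'` commutes with them.  (2) `a = ∑ x_i E(y_i a)`:
`∑_k al(b k) E(b' k a) = ∑_h al(∑_k lam(γ h⁻¹ b' k a) b k) γ h = ∑_h al(a γ h⁻¹) γ h`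
(`lam(γ h⁻¹ b' k a) = lam(b' k a γ h⁻¹)`, `Du`) `= a - E(a) c'`.  (3) `lam(z E(y)) = lam(E(z) y)`:
both are `∑ lam(γ g⁻¹ y) lam(z γ g)`, `∑ lam(γ g⁻¹ z) lam(γ g y)`, replace `g` by `g⁻¹`.  (4) so
`lam(b a) = ∑ lam(b x_i E(y_i a)) = lam((∑ E(b x_i) y_i) a)` for all `a`, so
`b = ∑ E(b x_i) y_i`.  (5) For balanced `T`: `∑_i T(c x_i)(y_i) = ∑_{i,j} T(x_j E(y_j c x_i))(y_i) =
∑_{i,j} T(x_j)(E(y_j c x_i) y_i) = ∑_j T(x_j)(y_j c)`. -/
def CasStmt : Prop := ∀ (F Γ B : Type) [Field F] [Group Γ] [Fintype Γ] [Ring B] [Algebra F B]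
  (γ : Γ →* B) (lam : B →ₗ[F] F) (c' : B) (al : B →ₗ[F] B) (m : ℕ) (b b' : Fin m → B),
  (∀ a b, lam (a * b) = lam (b * a)) → (∀ a, (∀ b, lam (a * b) = 0) → a = 0) →
  Ci F γ lam c' → (∀ x, ∑ h, al (x * γ h⁻¹) * γ h = x - Ee F γ lam x * c') → Du F lam b b' →
  Csm F γ (fun k : Option (Fin m) => k.elim c' (fun k => al (b k)))
    (fun k : Option (Fin m) => k.elim 1 b')

/-- BKI: the Brauer kernel is an ideal of the centraliser.

Proof.  `a ∈ Cz F α Q`, `n = ∑_{x ∈ S} x m x⁻¹`, `S ⊆ Q`: `a n = ∑ x (a m) x⁻¹` and `a m` is fixed by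
`P'` if `m` is.  The Brauer kernel consists of fixed vectors: `BK_le_Fx` (`PFC/B4/Key.lean`), and
`Fx (cj F α) Q` is the centraliser. -/
def BkiStmt : Prop := ∀ (F V A : Type) [Field F] [CommGroup V] [Finite V] [Ring A] [Algebra F A]
  (α : V →* A) (Q : Subgroup V),
  (∀ a : A, a ∈ Fx (cj F α) Q ↔ a ∈ Cz F α Q) ∧
  (∀ a ∈ BK (cj F α) Q, a ∈ Cz F α Q) ∧
  ∀ a ∈ Cz F α Q, ∀ n ∈ BK (cj F α) Q, a * n ∈ BK (cj F α) Q ∧ n * a ∈ BK (cj F α) Q

/-- UNS: from a Casimir element to separability.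

Proof.  `z = ∑ u k * v k` is central: `Csm` for `T(a)(b) = a b`.  `w = z - c'` is in the Brauer kernel,
an ideal of the local ring `Cz F δ ⊤` which does not contain `1` (BKI).  `c'` is a unit of
`Cz F δ ⊤` (its inverse `d` commutes with `δ(V)` as well), `c' = z + (-w)`; if `z` is not a unit of
the local ring then `-w` is a unit, and `1 = w⁻¹ w` is in the Brauer kernel, a contradiction.  So
`z z' = z' z = 1`, and `z'` is central.  Take `u k`, `v k * z'`; for balanced `T` apply `Csm` to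
`(a, b) ↦ T(a)(b z')`. -/
def UnsStmt : Prop := BkiStmt → ∀ (F Γ V B : Type) [Field F] [Group Γ] [CommGroup V] [Finite V]
  [Ring B] [Algebra F B] (γ : Γ →* B) (δ : V →* B) (κ : Type) [Fintype κ] (u v : κ → B)
  (c' d : B), Csm F γ u v → (∑ k, u k * v k) - c' ∈ BK (cj F δ) ⊤ → c' * d = 1 → d * c' = 1 →
  (∀ g, c' * δ g = δ g * c') → IsLocalRing (Cz F δ ⊤) → (1 : B) ∉ BK (cj F δ) ⊤ → Sep F γ

/-! ## Part 3 -/

/-- QFR: a frame for the projection to the complement of `F V`, without full stabilisers.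

Proof.  `E = Ee F β lam` is linear, `E(β u x) = β u E(x)`, `E(x β u) = E(x) β u` (symmetry of `lam`), so
`E(x s) = E(x) s` for `s` in the span of `β(V)`, in particular `E(x c') = E(x) c'` and
`E(c') = E(1) c' = 1`.  `q x = x - E(x) c'`: `q (β u x) = β u q x`, `q (x β u) = q x β u`, `q (β u) = 0`;
`E(E(x) c') = E(x)` because `E(x)` is in the span (`E(s c') = s E(c') = s`), so `E(q x) = 0` and
`q (q x) = q x`.  Let `(Ω, b, c)` be the frame from `PS`.  If `ω` is fixed by the diagonal, then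
`b ω ∈ Fx (cj F β) ⊤`, `b ω = ∑ k_u β u + m`, `m ∈ BK (cj F β) ⊤` (`Tpv`), and `q (b ω) = q m` is in the
Brauer kernel (`q` commutes with conjugation); so `c ω' (q (b ω)) = 0` for `ω, ω'` both fixed by the
diagonal: the functional `c ω'` of a point fixed by the diagonal kills the Brauer kernel (`frame_BK`
for the frame restricted to the diagonal copy of `V`: `cj F β u = bi F β (u, u)`, the action of `V` on
`Ω` by `MulAction.compHom`).  Take the `V × V`-set `Ω₂` of the pairs `(ω, ω')` which are not both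
fixed by the diagonal (a subtype of `Ω × Ω`), `b₂ (ω, ω') = c ω' (q (b ω)) • b ω'`,
`c₂ (ω, ω') x = c ω (q x)`.  Then `∑ c₂ b₂ = ∑_ω c ω (q x) • q (b ω) = q (q x) = q x` (the pairs which are
left out contribute zero).  The stabiliser of `(ω, ω')` is the intersection `tw id (R ⊓ R')`, and
`R ⊓ R' ≠ ⊤` (if `R = ⊤` then `ω` is fixed by the diagonal). -/
def QfrStmt : Prop := ∀ (ℓ : ℕ) [Fact ℓ.Prime] (F V B : Type) [Field F] [CharP F ℓ]
  [CommGroup V] [Fintype V] [Ring B] [Algebra F B] [FiniteDimensional F B] (β : V →* B)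
  (lam : B →ₗ[F] F) (c' : B), IsPGroup ℓ V → Frm F β lam → Ci F β lam c' →
  PS (fun K => ∃ R : Subgroup V, K = tw (MonoidHom.id V) R) (bi F β) → Tpv F β →
  ∃ q : B →ₗ[F] B, (∀ x, q x = x - Ee F β lam x * c') ∧ (∀ x, q (q x) = q x) ∧
    ∃ (Ω : Type) (_ : Fintype Ω) (_ : MulAction (V × V) Ω) (b : Ω → B) (c : Ω → (B →ₗ[F] F)),
      Qf F β q b c

/-- ALV: projectivity of the complement as a right module.

Proof.  Let `Ω₀` be as in OMZ and `al x = ∑_{ω ∈ Ω₀} c ω x • b ω`.  `Qf` gives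
`q x = ∑_{ω ∈ Ω₀} ∑_h c ((1,h) • ω) x • b ((1,h) • ω)`, `b ((1,h) • ω) = b ω β h⁻¹`,
`c ((1,h) • ω) x = c ω (x β h)`; replace `h` by `h⁻¹`: the first claim.  Second claim: let
`W ω = ∑_k c ω (d_k) • (b ω * d'_k)`; `∑_{Ω₀} W = ∑_k al(d_k) d'_k`.  The element
`s ω = ∑_k c ω (d_k) • d'_k` satisfies `lam(s ω * x) = c ω x` for all `x` (`Du`), it is determined by
this, so `s ((g,g) • ω) = β g (s ω) β g⁻¹` and `W ((g,g) • ω) = β g (W ω) β g⁻¹`.  TRS for the group `V`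
acting on `Ω` through the diagonal (`MulAction.compHom`), `ρ = cj F β`, `P = ⊤`, `T = Ω₀`: no point is
fixed by the diagonal, because the stabiliser is `tw id R` with `R ≠ ⊤`. -/
def AlvStmt : Prop := OmzStmt → TrsStmt → ∀ (F V B : Type)
  [Field F] [CommGroup V] [Fintype V] [Ring B] [Algebra F B] [FiniteDimensional F B]
  (β : V →* B) (lam : B →ₗ[F] F) (q : B →ₗ[F] B) (Ω : Type) [Fintype Ω] [MulAction (V × V) Ω]
  (b : Ω → B) (c : Ω → (B →ₗ[F] F)), Frm F β lam → Qf F β q b c →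
  ∃ al : B →ₗ[F] B, (∀ x, ∑ h, al (x * β h⁻¹) * β h = q x) ∧
    ∀ (m : ℕ) (d d' : Fin m → B), Du F lam d d' → ∑ k, al (d k) * d' k ∈ BK (cj F β) ⊤

/-- SPV: `B` is separable over `F V`.

Proof.  CUG with `Γ = V`, `W = ⊤` gives `c'` (`V` is not trivial).  QFR, ALV give `al`, FDB the dual
bases, CAS the Casimir element, its product is `c' + ∑ al(b k) b' k`; UNS with `δ = β`,
`d = E(1)`; `1 ∉ BK (cj F β) ⊤` by `Tpv.free` for the indicator function of `1`. -/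
def SpvStmt : Prop := FvtStmt → OmzStmt → TrsStmt → BkiStmt → FdbStmt → CugStmt →
  CasStmt → UnsStmt → QfrStmt → AlvStmt → ∀ (ℓ : ℕ) [Fact ℓ.Prime] (F V B : Type) [Field F]
  [CharP F ℓ] [CommGroup V] [Fintype V] [Nontrivial V] [Ring B] [Algebra F B] (β : V →* B)
  (n : ℕ) (π : B →ₐ[F] Matrix (Fin n) (Fin n) F), IsPGroup ℓ V → LB F β n π → Sep F β

/-- MUV: `B` is relatively projective with respect to the diagonal.

Proof.  The frame `(Ω, b, c)` of `PS`, `Ω₀` of OMZ, `μ x = ∑_{ω ∈ Ω₀} c ω x • b ω`.  As in ALV.  `μ`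
commutes with the conjugation because `Ω₀` is stable under the diagonal. -/
def MuvStmt : Prop := OmzStmt → ∀ (F V B : Type) [Field F] [CommGroup V] [Fintype V] [Ring B]
  [Algebra F B] (β : V →* B),
  PS (fun K => ∃ R : Subgroup V, K = tw (MonoidHom.id V) R) (bi F β) →
  ∃ μ : B →ₗ[F] B, (∀ g x, μ (β g * x * β g⁻¹) = β g * μ x * β g⁻¹) ∧
    ∀ x, ∑ h, μ (x * β h⁻¹) * β h = x

/-! ## Part 4 -/

/-- NIL: the augmentation ideal is nilpotent.

Proof.  The kernel is generated by the finitely many elements `u - 1` (`MonoidAlgebra.of F V u - 1`),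
`(u - 1) ^ |V| = u ^ |V| - 1 = 0` if `|V|` is a power of `ℓ`; a finitely generated nil ideal of a
commutative ring is nilpotent (`Ideal.FG.isNilpotent_iff_le_nilradical`). -/
def NilStmt : Prop := ∀ (ℓ : ℕ) [Fact ℓ.Prime] (F V : Type) [Field F] [CharP F ℓ] [CommGroup V]
  [Fintype V], IsPGroup ℓ V → ∃ N : ℕ, RingHom.ker (au F V) ^ N = ⊥

/-- KWA: the bimodule lift.

Proof.  `τ u = π (β u)`, `g u = τ u ⊗ u` (the matrix with entries `single u (τ u i j)`),
`f₀ b = ∑_v (π(μ(b β v⁻¹)) τ v) ⊗ v`.  Augmentation: `π(∑ μ(b β v⁻¹) β v) = π b`.  Right: `f₀(b β w) =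
f₀(b) g w` (substitute `v = v' w`).  Left: `μ(β w b β v⁻¹) = β w μ(b β(w v⁻¹)) β w⁻¹`, so
`f₀(β w b) = g w f₀(b)` (substitute `v = w v'`; `V` is commutative).  `f₀ 1` commutes with all
`g w`, and its augmentation is `1`, so `f₀ 1 = 1 + ν` with `ν` nilpotent (NIL: `ν` has entries in the
augmentation ideal, `ν ^ N = 0`), it is a unit; take `f b = f₀ b (f₀ 1)⁻¹`. -/
def KwaStmt : Prop := NilStmt → ∀ (ℓ : ℕ) [Fact ℓ.Prime] (F V B : Type) [Field F] [CharP F ℓ]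
  [CommGroup V] [Fintype V] [Ring B] [Algebra F B] (β : V →* B) (n : ℕ)
  (π : B →ₐ[F] Matrix (Fin n) (Fin n) F) (μ : B →ₗ[F] B), IsPGroup ℓ V →
  (∀ g x, μ (β g * x * β g⁻¹) = β g * μ x * β g⁻¹) → (∀ x, ∑ h, μ (x * β h⁻¹) * β h = x) →
  ∃ f : B →ₗ[F] Matrix (Fin n) (Fin n) (MonoidAlgebra F V), Lf F β n π f ∧ f 1 = 1 ∧
    (∀ u x, f (β u * x) = f (β u) * f x) ∧ ∀ u x, f (x * β u) = f x * f (β u)

/-- KWB: the correction step (Külshammer, Okuyama, Watanabe).  `I` is the augmentation ideal.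

Proof.  `ω(a, b) = f(a b) - f(a) f(b)`, exactly `ω(a b, c) + ω(a, b) f(c) = ω(a, b c) + f(a) ω(b, c)`.
`T(x)(y) = f(x) ω(y, a)` is balanced: `f(x β g) = f(x) f(β g)`, `ω(β g y, a) = f(β g) ω(y, a)`.
`ν(a) = ∑_k f(u_k) ω(v_k, a)`, `f' = f + ν`.  From the identity with `(v_k, a, b)`:
`ν(a b) = ∑ f(u_k) ω(v_k a, b) + ν(a) f(b) - (∑ f(u_k) f(v_k)) ω(a, b)`; by the Casimir property the
first sum is `∑ f(a u_k) ω(v_k, b) = f(a) ν(b) + ∑ ω(a, u_k) ω(v_k, b)`, and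
`∑ f(u_k) f(v_k) = f(1) - ∑ ω(u_k, v_k) = 1 - ∑ ω(u_k, v_k)`.  So
`f'(a b) - f'(a) f'(b) = ω(a,b) + ν(ab) - f(a) ν(b) - ν(a) f(b) - ν(a) ν(b)` has entries in
`(I ^ k) ^ 2 ≤ I ^ (k + 1)`.  `ν` has entries in `I ^ k ≤ I`, so the augmentation does not change;
`ν(1) = ∑ f(u_k) ω(v_k, 1) = 0`; `ν(a β w) = ν(a) f(β w)`; `ω(v_k, β w a) = ω(v_k β w, a)`, so
`ν(β w a) = ∑ f(u_k) ω(v_k β w, a) = ∑ f(β w u_k) ω(v_k, a) = f(β w) ν(a)`;
`ν(β w) = ν(1) f(β w) = 0`, so `f'(β w) = f(β w)`. -/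
def KwbStmt : Prop := ∀ (F V B : Type) [Field F] [CommGroup V] [Fintype V] [Ring B]
  [Algebra F B] (β : V →* B) (n : ℕ) (π : B →ₐ[F] Matrix (Fin n) (Fin n) F) (k : ℕ)
  (f : B →ₗ[F] Matrix (Fin n) (Fin n) (MonoidAlgebra F V)), Sep F β → 1 ≤ k →
  Lf F β n π f → f 1 = 1 → (∀ u x, f (β u * x) = f (β u) * f x) →
  (∀ u x, f (x * β u) = f x * f (β u)) →
  (∀ x y i j, (f (x * y) - f x * f y) i j ∈ RingHom.ker (au F V) ^ k) →
  ∃ f' : B →ₗ[F] Matrix (Fin n) (Fin n) (MonoidAlgebra F V), Lf F β n π f' ∧ f' 1 = 1 ∧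
    (∀ u x, f' (β u * x) = f' (β u) * f' x) ∧ (∀ u x, f' (x * β u) = f' x * f' (β u)) ∧
    ∀ x y i j, (f' (x * y) - f' x * f' y) i j ∈ RingHom.ker (au F V) ^ (k + 1)

/-- LFT: the lifting theorem.

Proof.  MUV, KWA; the defect `f(x y) - f(x) f(y)` has entries in `I ^ 1` because `π` is
multiplicative; KWB and induction, `I ^ N = 0` (NIL). -/
def LftStmt : Prop := OmzStmt → MuvStmt → NilStmt → KwaStmt → KwbStmt → ∀ (ℓ : ℕ) [Fact ℓ.Prime]
  (F V B : Type) [Field F] [CharP F ℓ] [CommGroup V] [Fintype V] [Ring B] [Algebra F B]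
  (β : V →* B) (n : ℕ) (π : B →ₐ[F] Matrix (Fin n) (Fin n) F), IsPGroup ℓ V → Sep F β →
  PS (fun K => ∃ R : Subgroup V, K = tw (MonoidHom.id V) R) (bi F β) →
  ∃ f : B →ₐ[F] Matrix (Fin n) (Fin n) (MonoidAlgebra F V), Lf F β n π f

/-- SUV: the lift is surjective.

Proof.  `I` the augmentation ideal of `F V`, `B₁` the range of `f`.  Let
`U = {a ∈ I | ∃ b ∈ B₁, all entries of b - a • 1 are in I ^ 2}`, an `F`-subspace of `I` which contains
`I ^ 2`.  Claim: `U = I`.  Otherwise `u₀ - 1 ∉ U` for some `u₀ ∈ V` (the `u - 1` span `I`), and there is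
a linear functional `θ` on `F V` with `θ(1) = 0`, `θ(U) = 0` and `θ(u₀) ≠ 0` (`u₀ - 1` is not in
`F 1 + U`: apply the augmentation).  Put `t₁(b) = θ(tr(f b))`, an `F`-linear map `B → F` with
`t₁(b b') = t₁(b' b)`.  It vanishes on `ker π`: if `π b = 0` then the entries `x_ij` of `f b` are in
`I`; let `e_k, e'_k ∈ B` be preimages under `π` of the matrix units `E_ki`, `E_jk`; the element
`∑_k e_k b e'_k` has `f`-value congruent to `x_ij • 1` modulo `I ^ 2` (the entries of `f e_k` are those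
of `E_ki` modulo `I`), so `x_ij ∈ U` and `θ(x_ij) = 0`.  So `t₁ = t ∘ π` for a linear
`t : Mat_n(F) → F` which vanishes on the commutators, so `t = c tr` for some `c : F`, and
`c n = t(1) = θ(n) = 0`, so `c = 0` and `t₁ = 0`.  But `t₁(β u) = θ(tr(τ u) u) = tr(τ u) θ(u)`, and
`tr(τ u) = n ≠ 0` because `τ u - 1` is nilpotent (`(τ u - 1) ^ |V| = τ(u ^ |V|) - 1 = 0` in
characteristic `ℓ`; the trace of a nilpotent matrix is `0`).  So `θ(u) = 0` for all `u`, a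
contradiction.
Now every matrix with entries in `I ^ k` is in `B₁` modulo the matrices with entries in `I ^ (k+1)`:
for `k = 0` lift `π`; for `k ≥ 1` it is enough to take `a_1 ... a_k E_ij` with `a_s ∈ I`; with
`b_s ∈ B₁` congruent to `a_s • 1` modulo `I ^ 2` and `e ∈ B₁` congruent to `E_ij` modulo `I`, the
product `b_1 ... b_k e` is congruent to it modulo `I ^ (k+1)`.  `I ^ N = 0` (NIL), so `B₁` is
everything. -/
def SuvStmt : Prop := NilStmt → ∀ (ℓ : ℕ) [Fact ℓ.Prime] (F V B : Type) [Field F] [CharP F ℓ]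
  [CommGroup V] [Fintype V] [Ring B] [Algebra F B] (β : V →* B) (n : ℕ)
  (π : B →ₐ[F] Matrix (Fin n) (Fin n) F)
  (f : B →ₐ[F] Matrix (Fin n) (Fin n) (MonoidAlgebra F V)), IsPGroup ℓ V →
  Function.Surjective π → (n : F) ≠ 0 → Lf F β n π f → Function.Surjective f

/-- INJ: the lift is injective.

Proof.  `C = Mat_n(F V)`, `g u = τ u ⊗ u`.  For `c ∈ C` let `y_u(c)` be the matrix of the coefficients at
`u` of the entries, `κ_u(c) = τ u⁻¹ y_u(c)`, so `c = ∑_u g u (κ_u(c) ⊗ 1)`, and `κ_u(g v c) =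
κ_{v⁻¹u}(c)`.  Put `w_ij(c) = ∑_u κ_u(c)_ij β u ∈ B`: `w_ij(g v c) = β v w_ij(c)` and
`c = ∑_ij f(w_ij(c)) (E_ij ⊗ 1)`.  With the separability element `u_k, v_k` put
`s_ij(c) = ∑_k u_k w_ij(f(v_k) c)`.  By the Casimir property for the balanced map
`T(x)(y) = x w_ij(f(y) c)`: `s_ij(f(b) c) = b s_ij(c)`; and `∑_ij f(s_ij(c)) (E_ij ⊗ 1) =
∑_k f(u_k) f(v_k) c = c`.  Let `f k = 0`.  For all `b`: `k b s_ij(1) = s_ij(f(k b)) = 0`.  Not all
`π(s_ij(1))` are zero: otherwise the entries of `1 = ∑ f(s_ij(1)) (E_ij ⊗ 1)` are in the augmentation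
ideal, but `n > 0`.  Let `x = s_ij(1)`, `π(x)_pq ≠ 0`, `e_m, e'_m ∈ B` preimages of `E_mp`, `E_qm`,
`y = π(x)_pq⁻¹ ∑_m e_m x e'_m`; then `π y = 1`, `k y = 0`, and `1 - y` is nilpotent, so `y` is a unit
and `k = 0`. -/
def InjStmt : Prop := ∀ (F V B : Type) [Field F] [CommGroup V] [Fintype V] [Ring B]
  [Algebra F B] (β : V →* B) (n : ℕ) (π : B →ₐ[F] Matrix (Fin n) (Fin n) F)
  (f : B →ₐ[F] Matrix (Fin n) (Fin n) (MonoidAlgebra F V)), 0 < n → Sep F β →
  Function.Surjective π → (∀ b, π b = 0 → IsNilpotent b) → Lf F β n π f → Function.Injective f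

/-- LOC: the local structure.

Proof.  SPV, LFT, SUV, INJ. -/
def LocStmt : Prop := FvtStmt → OmzStmt → TrsStmt → BkiStmt → FdbStmt → CugStmt →
  CasStmt → UnsStmt → QfrStmt → AlvStmt → MuvStmt → NilStmt → KwaStmt → KwbStmt →
  SpvStmt → LftStmt → SuvStmt → InjStmt → ∀ (ℓ : ℕ) [Fact ℓ.Prime] (F V B : Type)
  [Field F] [CharP F ℓ] [CommGroup V] [Fintype V] [Nontrivial V] [Ring B] [Algebra F B]
  (β : V →* B) (n : ℕ) (π : B →ₐ[F] Matrix (Fin n) (Fin n) F), IsPGroup ℓ V → LB F β n π →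
  ∃ f : B →ₐ[F] Matrix (Fin n) (Fin n) (MonoidAlgebra F V), Lf F β n π f ∧
    Function.Bijective f

/-- CPS: `Mat_n(F)` with the conjugation by `τ u = π (β u)` is a summand of a permutation module.

Proof.  The frame `(Ω, b, c)` of `bi F β`, `V` acts on `Ω` through the diagonal.  `s : Mat_n(F) → B`,
`s(x) = f⁻¹(x ⊗ 1)` (entries `single 1 (x i j)`), `r : B → Mat_n(F)`, `r(b)` = the coefficients at
`1` of the entries of `f b`.  `r(s x) = x`; both commute with the conjugations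
(`f(β u b β u⁻¹) = (τ u ⊗ u) f(b) (τ u⁻¹ ⊗ u⁻¹)`, `V` is commutative).  The new frame is
`r (b ω)`, `x ↦ c ω (s x)`. -/
def CpsStmt : Prop := ∀ (F V B : Type) [Field F] [CommGroup V] [Fintype V] [Ring B]
  [Algebra F B] (β : V →* B) (n : ℕ) (π : B →ₐ[F] Matrix (Fin n) (Fin n) F)
  (f : B →ₐ[F] Matrix (Fin n) (Fin n) (MonoidAlgebra F V)) (X : Subgroup (V × V) → Prop),
  Lf F β n π f → Function.Bijective f → PS X (bi F β) →
  PS (fun _ => True) (cj F ((π : B →* Matrix (Fin n) (Fin n) F).comp β))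

/-! ## Part 5 -/

/-- QEX: the quotient algebra exists.

Proof.  By BKI the elements of `Cz F α Q` which are in the Brauer kernel form a two-sided ideal; take
the quotient ring (`Ideal.Quotient.mkₐ`, `Ideal.IsTwoSided`). -/
def QexStmt : Prop := BkiStmt → ∀ (F V A : Type) [Field F] [CommGroup V] [Finite V] [Ring A]
  [Algebra F A] (α : V →* A) (Q : Subgroup V),
  ∃ (B : Type) (_ : Ring B) (_ : Algebra F B) (q : Cz F α Q →ₐ[F] B), QA F α Q q

/-- QFC: the frame of `A(Q)`.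

Proof.  `bi F α` has the frame `(Ω, b, c)`.  Let `Ω'` be the set of the points fixed by the
subgroup `Δ = tw id Q`; it is stable under `V × V` (commutative).  `b ω` (`ω ∈ Ω'`) is in `Cz F α Q`
(`BKI`), put `b' ω = q ⟨b ω, _⟩`.  `c ω` (`ω ∈ Ω'`) vanishes on `BK (cj F α) Q`: `frame_BK` for the frame
restricted to the diagonal copy of `V` (`cj F α u = bi F α (u, u)`), so there is `c' ω` with
`c' ω (q a) = c ω a`.  Equivariance: `q` commutes with the multiplications by `α u`.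
`q a = ∑_{Ω'} c ω a • b' ω`: `frame_sub` (again for the diagonal copy of `V`). -/
def QfcStmt : Prop := BkiStmt → ∀ (ℓ : ℕ) [Fact ℓ.Prime] (F V A B : Type) [Field F] [CharP F ℓ]
  [CommGroup V] [Fintype V] [Ring A] [Algebra F A] [Ring B] [Algebra F B] (α : V →* A)
  (Q : Subgroup V) (q : Cz F α Q →ₐ[F] B) (Ω : Type) [Fintype Ω] [MulAction (V × V) Ω]
  (b : Ω → A) (c : Ω → (A →ₗ[F] F)), IsPGroup ℓ V → QA F α Q q → IsFr (bi F α) b c →
  ∃ (Ω' : Type) (_ : Fintype Ω') (_ : MulAction (V × V) Ω') (j : Ω' → Ω) (b' : Ω' → B)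
    (c' : Ω' → (B →ₗ[F] F)), IsFr (bi F (be F α Q q)) b' c' ∧ Function.Injective j ∧
    (∀ ω : Ω, (∃ ω', j ω' = ω) ↔ ∀ u ∈ Q, ((u, u) : V × V) • ω = ω) ∧
    (∀ (w : V × V) (ω' : Ω'), j (w • ω') = w • j ω') ∧
    (∀ (ω' : Ω') (a : Cz F α Q), c' ω' (q a) = c (j ω') a) ∧
    ∀ (ω' : Ω'), ∃ a : Cz F α Q, (a : A) = b (j ω') ∧ q a = b' ω'

/-- QFM: the form of `A(Q)`.

Proof.  `lam` vanishes on `BK (cj F α) Q`: it is invariant under conjugation, so it maps a relative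
trace to `|S| lam(m)`, and `ℓ` divides `|S|` (`card_tv`, as in `frame_BK`).  So there is `lam'` with
`lam'(q a) = lam a`.  Nondegenerate: let `a ∈ Cz F α Q`, `lam(a b) = 0` for all `b ∈ Cz F α Q`.  For a
point `ω` of the frame fixed by the diagonal of `Q`, let `s ∈ A` with `c ω x = lam(s x)` for all
`x` (`lam` is nondegenerate, `A` is finite dimensional); `c ω (u x u⁻¹) = c ω x` for `u ∈ Q` gives
`s ∈ Cz F α Q`, and `c ω a = lam(s a) = lam(a s) = 0`.  By `frame_iff` (the frame restricted to the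
diagonal copy of `V`) `a ∈ BK (cj F α) Q`, so `q a = 0`.  `lam'(∑ be u) = lam(∑ α u) ≠ 0`. -/
def QfmStmt : Prop := BkiStmt → ∀ (ℓ : ℕ) [Fact ℓ.Prime] (F V A B : Type) [Field F] [CharP F ℓ]
  [CommGroup V] [Fintype V] [Ring A] [Algebra F A] [FiniteDimensional F A] [Ring B] [Algebra F B]
  (α : V →* A) (Q : Subgroup V) (q : Cz F α Q →ₐ[F] B) (X : Subgroup (V × V) → Prop)
  (lam : A →ₗ[F] F), IsPGroup ℓ V → QA F α Q q → PS X (bi F α) → Frm F α lam →
  ∃ lam' : B →ₗ[F] F, Frm F (be F α Q q) lam'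

/-- QPS: the stabilisers for `A(Q)`.

Proof.  QFC.  The stabiliser of `ω'` is that of `j ω'` (`j` is injective and equivariant), it is
`tw (φ e) R` and contains `(u, u)` for `u ∈ Q`; take `u ∉ W`: `(u, u) = (φ e r, r)`, so `φ e u = u` and
`e = 1` (`Ctf.free`). -/
def QpsStmt : Prop := BkiStmt → QfcStmt → ∀ (ℓ : ℕ) [Fact ℓ.Prime] (F V E A B : Type) [Field F]
  [CharP F ℓ] [CommGroup V] [Fintype V] [Group E] [Ring A] [Algebra F A] [Ring B] [Algebra F B]
  (φ : E →* MulAut V) (W : Subgroup V) (α : V →* A) (Q : Subgroup V) (q : Cz F α Q →ₐ[F] B),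
  Ctf ℓ φ W → QA F α Q q → ¬ Q ≤ W →
  PS (fun K => ∃ (e : E) (R : Subgroup V), K = tw (φ e).toMonoidHom R) (bi F α) →
  PS (fun K => ∃ R : Subgroup V, K = tw (MonoidHom.id V) R) (bi F (be F α Q q))

/-- QTP: `A(Q)(V) = A(V) = F V`, and the centraliser of `V` in `A(Q)` is local.

Proof.  QFC.  (1) Every `x` in the centraliser of `be(V)` is `q a` with `a ∈ Cz F α ⊤`: `x = q a₁`,
`a = ∑_{ω'} c' ω' x • b (j ω')`; `c' (w • ω') x = c' ω' x` for `w` in the diagonal of `V`, because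
`x` is fixed; so `a` is fixed by the diagonal of `V`, and `q a = ∑ c' ω' x • b' ω' = x`.  (2) For
`a ∈ Cz F α ⊤`: `q a ∈ BK (cj F be) ⊤` iff `a ∈ BK (cj F α) ⊤`: both are equivalent to `c ω a = 0` for all
`ω` fixed by the diagonal of `V` (`frame_iff` for the two frames restricted to the diagonal copy of
`V`; the points of `Ω'` fixed by the diagonal of `V` are those of `Ω`).  (3) `Tpv`: span and free by
(1), (2).  (4) The centraliser of `be(V)` is the image of the local ring `Cz F α ⊤` and it is not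
trivial by `Tpv.free`; in a quotient `x + y = 1`: lift `x` to `a`, then `a` or `1 - a` is a unit. -/
def QtpStmt : Prop := BkiStmt → QfcStmt → ∀ (ℓ : ℕ) [Fact ℓ.Prime] (F V A B : Type) [Field F]
  [CharP F ℓ] [CommGroup V] [Fintype V] [Ring A] [Algebra F A] [Ring B] [Algebra F B]
  (α : V →* A) (Q : Subgroup V) (q : Cz F α Q →ₐ[F] B) (X : Subgroup (V × V) → Prop),
  IsPGroup ℓ V → QA F α Q q → PS X (bi F α) → Tpv F α → IsLocalRing (Cz F α ⊤) →
  Tpv F (be F α Q q) ∧ IsLocalRing (Cz F (be F α Q q) ⊤)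

/-- QMT: the map to the matrix algebra.

Proof.  `π a = 0` if `q a = 0` (`Lcq.bk`), so `π = π' ∘ q`, `π'` is surjective; its kernel is nil by
`Lcq.nil`.  `B` is finite dimensional as a quotient of a subspace of `A`. -/
def QmtStmt : Prop := ∀ (F V A B : Type) [Field F] [CommGroup V] [Fintype V] [Ring A]
  [Algebra F A] [FiniteDimensional F A] [Ring B] [Algebra F B] (α : V →* A) (Q : Subgroup V)
  (q : Cz F α Q →ₐ[F] B) (n : ℕ) (π : Cz F α Q →ₐ[F] Matrix (Fin n) (Fin n) F),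
  QA F α Q q → Lcq F α Q n π →
  ∃ π' : B →ₐ[F] Matrix (Fin n) (Fin n) F, (∀ a, π' (q a) = π a) ∧ Function.Surjective π' ∧
    FiniteDimensional F B ∧ ∀ b, π' b = 0 → IsNilpotent b

/-- LOQ: the local structure of `A(Q)`.

Proof.  QEX, `β = be F α Q q`; `LB F β n π'` by QMT, QFM, QPS, QTP (`V` is not trivial, `Ctf.nt`); LOC gives
`f : B → Mat_n(F V)`, bijective; `Mat_n(F V) = Mat_n(F) ⊗ F V` (`matrixEquivTensor` and
`Algebra.TensorProduct.comm`); compose with `q`.  `f(β u) = τ u ⊗ u` with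
`τ u = π' (β u) = π (zin u)`.  The first claim is CPS. -/
def LoqStmt : Prop := BkiStmt → QexStmt → QfcStmt → QfmStmt → QpsStmt → QtpStmt → QmtStmt →
  CpsStmt → (∀ (ℓ : ℕ) [Fact ℓ.Prime] (F V B : Type)
    [Field F] [CharP F ℓ] [CommGroup V] [Fintype V] [Nontrivial V] [Ring B] [Algebra F B]
    (β : V →* B) (n : ℕ) (π : B →ₐ[F] Matrix (Fin n) (Fin n) F), IsPGroup ℓ V → LB F β n π →
    ∃ f : B →ₐ[F] Matrix (Fin n) (Fin n) (MonoidAlgebra F V), Lf F β n π f ∧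
      Function.Bijective f) →
  ∀ (F V E A : Type) [Field F] [CommGroup V] [Fintype V] [Group E] [Ring A] [Algebra F A]
    (ℓ : ℕ) [CharP F ℓ] (φ : E →* MulAut V) (W : Subgroup V) (α : V →* A) (Q : Subgroup V) (n : ℕ)
    (π : Cz F α Q →ₐ[F] Matrix (Fin n) (Fin n) F),
    Ctf ℓ φ W → PIn F φ W α → ¬ Q ≤ W → Lcq F α Q n π →
    PS (fun _ => True) (cj F ((π : Cz F α Q →* Matrix (Fin n) (Fin n) F).comp (zin F α Q))) ∧
    ∃ q : Cz F α Q →ₐ[F] Matrix (Fin n) (Fin n) F ⊗[F] MonoidAlgebra F V,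
      Function.Surjective q ∧ (∀ a : Cz F α Q, q a = 0 ↔ (a : A) ∈ BK (cj F α) Q) ∧
      ∀ u, q (zin F α Q u) = π (zin F α Q u) ⊗ₜ[F] MonoidAlgebra.of F V u

/-! ## Part 6 -/

/-- LAM: the functional of the retraction to `F Γ`, `Γ = V ⋊ E`.

Proof.  CUG with `W` = the range of `SemidirectProduct.inl` (normal; `t ∉ W` has a component `e ≠ 1` and
`t w = w t` gives `φ e w = w`, so `w = 1`) gives `c'`.  `lam x = mu (x * c')`.  As in QFR, `E = Ee F γ mu`:
`E(γ g x) = γ g E(x)`, `E(x s) = E(x) s` for `s` in the span of `γ(Γ)`, `E(c') = E(1) c' = 1`.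
The `γ g` are linearly independent: let `N` be the space of the `k : Γ → F` with `∑ k_g γ g = 0`; it is
stable under the left translations with `V`; if it is not zero, it contains a nonzero `k` with
`k_{v g} = k_g` for `v ∈ V` (FVT), so `∑_{e ∈ E} κ_e σ γ(inr e) = 0`, `σ = ∑_{u ∈ V} γ(inl u)`; multiply by
`γ(inr e₁)⁻¹` from the right, `κ_{e₁} ≠ 0`, and apply `mu`: for `e ≠ 1` `mu(σ γ(inr e)) = 0`, because
the elements `inl u * inr e`, `u ∈ V`, are all conjugate under `V` (`e` acts freely), so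
`mu(σ γ(inr e)) = |V| mu(γ(inr e)) = 0`; so `κ_{e₁} mu(σ) = 0`, a contradiction.  Now
`∑_g mu(γ g⁻¹ γ h c') γ g = E(γ h c') = γ h E(c') = γ h`, so `lam (γ g⁻¹ γ h) = 1` if `g = h` and `0`
otherwise: `lam 1 = 1`, `lam (γ g) = 0` for `g ≠ 1`.
`lam (γ g a) = mu (γ g a c') = mu (a c' γ g) = mu (a γ g c') = lam (a γ g)`.  And
`∑ lam(γ g⁻¹ x) γ g = E(x c') = E(x) c'`. -/
def LamStmt : Prop := FvtStmt → CugStmt → ∀ (ℓ : ℕ) [Fact ℓ.Prime] (F V E A : Type) [Field F]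
  [CharP F ℓ] [CommGroup V] [Fintype V] [Group E] [Fintype E] [Ring A] [Algebra F A]
  [FiniteDimensional F A] (φ : E →* MulAut V) (e0 : E) [Fintype (V ⋊[φ] E)]
  (γ : V ⋊[φ] E →* A) (mu : A →ₗ[F] F), Ctx ℓ φ e0 →
  Frm F (γ.comp (SemidirectProduct.inl : V →* V ⋊[φ] E)) mu →
  ∃ c', Ci F γ mu c' ∧ ∃ lam : A →ₗ[F] F, (∀ x, lam x = mu (x * c')) ∧ lam 1 = 1 ∧
    (∀ g, g ≠ 1 → lam (γ g) = 0) ∧ (∀ g a, lam (γ g * a) = lam (a * γ g)) ∧
    ∀ x, Ee F γ mu x * c' = ∑ g, lam (γ g⁻¹ * x) • γ g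

/-- SPG: separability of the final algebra over `F Γ`.

Proof.  `al₁(y) = ∑_g γ g * al(γ g⁻¹ * y)`, so `∑_h al₁(x γ h⁻¹) γ h = cpr F γ lam x =
x - E(x) c'`.  FDB, CAS give the Casimir element; its product is `c' + w`,
`w = ∑_k al₁(b_k) b'_k = ∑_g γ g (∑_k al(γ g⁻¹ b_k) b'_k) = ∑_g γ g w₀ γ g⁻¹`,
`w₀ = ∑_k al(b_k) b'_k`: the element `∑_k al(b_k) b'_k` does not depend on the dual bases
(`b''_k = γ g⁻¹ b_k`, `b'''_k = b'_k γ g` are dual bases, and two dual bases give the same element: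
expand `b''_j = ∑_k mu(b'_k b''_j) b_k`, `∑_j mu(b'_k b''_j) b'''_j = b'_k`).  The sum over `Γ` is a sum
over `V` of conjugates of `∑_{e ∈ E} ..` (every `g` is `inl v * inr e`), so `w` is the relative trace from
`1` to `V` of one element, `w ∈ BK (cj F (γ.comp inl)) ⊤` (`⊥ < ⊤`).  UNS with `δ = γ.comp inl`,
`d = E(1)` (it commutes with `γ`, `c'` commutes with `γ`). -/
def SpgStmt : Prop := BkiStmt → FdbStmt → CasStmt → UnsStmt → ∀ (F V E A : Type) [Field F]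
  [CommGroup V] [Fintype V] [Nontrivial V] [Group E] [Fintype E] [Ring A] [Algebra F A]
  [FiniteDimensional F A] (φ : E →* MulAut V) [Fintype (V ⋊[φ] E)] (γ : V ⋊[φ] E →* A)
  (mu lam : A →ₗ[F] F) (c' : A) (al : A →ₗ[F] A),
  (∀ a b, mu (a * b) = mu (b * a)) → (∀ a, (∀ b, mu (a * b) = 0) → a = 0) →
  Ci F γ mu c' → (∀ x, Ee F γ mu x * c' = ∑ g, lam (γ g⁻¹ * x) • γ g) →
  (∀ x, ∑ g, ∑ h, γ g * al (γ g⁻¹ * x * γ h⁻¹) * γ h = cpr F γ lam x) →
  IsLocalRing (Cz F (γ.comp (SemidirectProduct.inl : V →* V ⋊[φ] E)) ⊤) →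
  (1 : A) ∉ BK (cj F (γ.comp (SemidirectProduct.inl : V →* V ⋊[φ] E))) ⊤ → Sep F γ

/-- SEX: `SexStmt` of `StmtsB5b.lean` from the rows of this file.

Proof.  LAM gives `c'` and `lam`, `HigA` the Higman map for `lam`, SPG the separability, `frob` is
`Frm.sym`, `Frm.nd`. -/
def SexRow : Prop := FvtStmt → BkiStmt → FdbStmt → CugStmt → CasStmt → UnsStmt → LamStmt →
  SpgStmt → SexStmt

end Pool.Agent.PFC.B5a
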