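import Pool.Agent.PFC.B4.Key

/-!
Squad PFC, block B4, statements a (helper71): Brauer quotients of summands of permutation
modules, removal of stabilisers, projectivity test, Higman criterion.
-/

namespace Pool.Agent.PFC

open TensorProduct

/-- π is a model of the Brauer quotient M(P): it is surjective on the fixed vectors and its
kernel there is the Brauer kernel. (π is a linear map on all of M; only its values on the
fixed vectors matter.) -/
def IsBQ {F H M N : Type} [Field F] [Group H] [AddCommGroup M] [Module F M]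
    [AddCommGroup N] [Module F N] (ρ : H →* (M →ₗ[F] M)) (P : Subgroup H)
    (π : M →ₗ[F] N) : Prop :=
  (∀ m ∈ Fx ρ P, π m = 0 ↔ m ∈ BK ρ P) ∧ ∀ n : N, ∃ m ∈ Fx ρ P, π m = n

/-- Tensor product of two representations. -/
noncomputable def tns {F H M N : Type} [Field F] [Group H] [AddCommGroup M] [Module F M]
    [AddCommGroup N] [Module F N] (ρ : H →* (M →ₗ[F] M)) (σ : H →* (N →ₗ[F] N)) :
    H →* (M ⊗[F] N →ₗ[F] M ⊗[F] N) where
  toFun := fun h => TensorProduct.map (ρ h) (σ h)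
  map_one' := by
    rw [map_one, map_one]
    exact TensorProduct.map_id
  map_mul' := by
    intro x y
    rw [map_mul, map_mul]
    exact TensorProduct.map_mul _ _ _ _

/-- Dual representation: (h f) m = f (h⁻¹ m). -/
def dul {F H M : Type} [Field F] [Group H] [AddCommGroup M] [Module F M]
    (ρ : H →* (M →ₗ[F] M)) : H →* ((M →ₗ[F] F) →ₗ[F] (M →ₗ[F] F)) where
  toFun := fun h =>
    { toFun := fun f => f.comp (ρ h⁻¹)
      map_add' := by
        intro f g
        rfl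
      map_smul' := by
        intro c f
        rfl }
  map_one' := by
    ext f m
    simp
  map_mul' := by
    intro x y
    ext f m
    simp

/-- SUR: M^P → M(R)^P is surjective for R normalised by P. -/
def SurStmt : Prop :=
  ∀ (ℓ : ℕ) [Fact ℓ.Prime] (F H M : Type) [Field F] [CharP F ℓ] [Group H] [Finite H]
    [AddCommGroup M] [Module F M] (ρ : H →* (M →ₗ[F] M)) (X : Subgroup H → Prop),
    PS X ρ → ∀ (R P : Subgroup H), IsPGroup ℓ R → R ≤ P →
    (∀ x ∈ P, ∀ r ∈ R, x * r * x⁻¹ ∈ R) →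
    ∀ m ∈ Fx ρ R, (∀ x ∈ P, ρ x m - m ∈ BK ρ R) → ∃ m' ∈ Fx ρ P, m' - m ∈ BK ρ R

/-- CMP: a P-fixed vector in the Brauer kernel of R ≤ P is in the Brauer kernel of P. -/
def CmpStmt : Prop :=
  ∀ (ℓ : ℕ) [Fact ℓ.Prime] (F H M : Type) [Field F] [CharP F ℓ] [Group H] [Finite H]
    [AddCommGroup M] [Module F M] (ρ : H →* (M →ₗ[F] M)) (X : Subgroup H → Prop),
    PS X ρ → ∀ (R P : Subgroup H), IsPGroup ℓ P → R ≤ P →
    ∀ m ∈ Fx ρ P, m ∈ BK ρ R → m ∈ BK ρ P

/-- EXF: an invariant functional on M(R) comes from an invariant functional on M. -/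
def ExfStmt : Prop :=
  ∀ (ℓ : ℕ) [Fact ℓ.Prime] (F H M : Type) [Field F] [CharP F ℓ] [Group H] [Finite H]
    [AddCommGroup M] [Module F M] (ρ : H →* (M →ₗ[F] M)) (X : Subgroup H → Prop),
    PS X ρ → ∀ (R : Subgroup H), IsPGroup ℓ R → R.Normal →
    ∀ (lam : M →ₗ[F] F), (∀ m ∈ BK ρ R, lam m = 0) →
    (∀ (h : H), ∀ m ∈ Fx ρ R, lam (ρ h m) = lam m) →
    ∃ τ : M →ₗ[F] F, (∀ (h : H) (m : M), τ (ρ h m) = τ m) ∧ ∀ m ∈ Fx ρ R, τ m = lam m

/-- TEM: Brauer quotients of tensor products (only the first factor is a summand of a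
permutation module). -/
def TemStmt : Prop :=
  ∀ (ℓ : ℕ) [Fact ℓ.Prime] (F H M N M' N' : Type) [Field F] [CharP F ℓ] [Group H] [Finite H]
    [AddCommGroup M] [Module F M] [AddCommGroup N] [Module F N]
    [AddCommGroup M'] [Module F M'] [AddCommGroup N'] [Module F N']
    (ρ : H →* (M →ₗ[F] M)) (σ : H →* (N →ₗ[F] N)) (X : Subgroup H → Prop),
    PS X ρ → ∀ (P : Subgroup H), IsPGroup ℓ P →
    ∀ (π : M →ₗ[F] M') (π' : N →ₗ[F] N'), IsBQ ρ P π → IsBQ σ P π' →
    (∃ q : M ⊗[F] N →ₗ[F] M' ⊗[F] N', IsBQ (tns ρ σ) P q ∧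
      ∀ m ∈ Fx ρ P, ∀ n ∈ Fx σ P, q (m ⊗ₜ[F] n) = π m ⊗ₜ[F] π' n) ∧
    ∀ x ∈ Fx (tns ρ σ) P, ∃ y ∈ Submodule.span F
      {z : M ⊗[F] N | ∃ m ∈ Fx ρ P, ∃ n ∈ Fx σ P, z = m ⊗ₜ[F] n},
      x - y ∈ BK (tns ρ σ) P

/-- DIM: the dimension of M and of M(H) agree modulo ℓ. -/
def DimStmt : Prop :=
  ∀ (ℓ : ℕ) [Fact ℓ.Prime] (F H M N : Type) [Field F] [CharP F ℓ] [Group H] [Finite H]
    [AddCommGroup M] [Module F M] [AddCommGroup N] [Module F N]
    (ρ : H →* (M →ₗ[F] M)) (X : Subgroup H → Prop),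
    PS X ρ → ∀ (P : Subgroup H), IsPGroup ℓ P → ∀ (π : M →ₗ[F] N), IsBQ ρ P π →
    (Module.finrank F M : F) = (Module.finrank F N : F)

/-- PSX: H an abelian l-group; the orbits whose stabiliser K has M(K) = 0 can be removed. -/
def PsxStmt : Prop :=
  ∀ (ℓ : ℕ) [Fact ℓ.Prime] (F H M : Type) [Field F] [CharP F ℓ] [Group H] [Finite H]
    [AddCommGroup M] [Module F M] (ρ : H →* (M →ₗ[F] M)) (X : Subgroup H → Prop),
    IsPGroup ℓ H → (∀ x y : H, x * y = y * x) → PS X ρ →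
    PS (fun K => X K ∧ ¬ Fx ρ K ≤ BK ρ K) ρ

/-- UPW: if M(C) = 0 then M(K) = 0 for every K ≥ C. -/
def UpwStmt : Prop :=
  ∀ (ℓ : ℕ) [Fact ℓ.Prime] (F H M : Type) [Field F] [CharP F ℓ] [Group H] [Finite H]
    [AddCommGroup M] [Module F M] (ρ : H →* (M →ₗ[F] M)) (X : Subgroup H → Prop),
    PS X ρ → ∀ (C K : Subgroup H), IsPGroup ℓ K → C ≤ K → Fx ρ C ≤ BK ρ C →
    Fx ρ K ≤ BK ρ K

/-- PRJ: the projectivity test. -/
def PrjStmt : Prop :=
  ∀ (ℓ : ℕ) [Fact ℓ.Prime] (F H M : Type) [Field F] [CharP F ℓ] [Group H] [Fintype H]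
    [AddCommGroup M] [Module F M] (ρ : H →* (M →ₗ[F] M)) (X : Subgroup H → Prop),
    IsPGroup ℓ H → (∀ x y : H, x * y = y * x) → PS X ρ →
    (∀ C : Subgroup H, Nat.card C = ℓ → Fx ρ C ≤ BK ρ C) → Hig ρ

/-- HGX: from a subgroup of index prime to l to the whole group. -/
def HgxStmt : Prop :=
  ∀ (ℓ : ℕ) [Fact ℓ.Prime] (F H K M : Type) [Field F] [CharP F ℓ] [Group H] [Fintype H]
    [Group K] [Fintype K] [AddCommGroup M] [Module F M] (ρ : H →* (M →ₗ[F] M))
    (φ : K →* H), Function.Injective φ → ¬ ℓ ∣ φ.range.index →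
    Hig (rst ρ φ) → Hig ρ

/-- HGR: restriction to a subgroup preserves the Higman form. -/
def HgrStmt : Prop :=
  ∀ (F H K M : Type) [Field F] [Group H] [Fintype H]
    [Group K] [Fintype K] [AddCommGroup M] [Module F M] (ρ : H →* (M →ₗ[F] M))
    (φ : K →* H), Function.Injective φ → Hig ρ → Hig (rst ρ φ)

/-- HGS: a summand of a projective is projective; HGM: fixed vectors are traces. -/
def HgsStmt : Prop :=
  ∀ (F H M N : Type) [Field F] [Group H] [Fintype H] [AddCommGroup M] [Module F M]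
    [AddCommGroup N] [Module F N] (ρ : H →* (M →ₗ[F] M)) (σ : H →* (N →ₗ[F] N)),
    Hig ρ → ((∀ (i : N →ₗ[F] M) (p : M →ₗ[F] N), (∀ h n, i (σ h n) = ρ h (i n)) →
      (∀ h m, p (ρ h m) = σ h (p m)) → (∀ n, p (i n) = n) → Hig σ) ∧
      (∀ m ∈ Fx ρ ⊤, ∃ m', m = ∑ h : H, ρ h m'))

/-- YSP: a submodule with the Higman property is a direct summand. -/
def YspStmt : Prop :=
  ∀ (F H M N : Type) [Field F] [Group H] [Fintype H] [AddCommGroup M] [Module F M]
    [AddCommGroup N] [Module F N] (ρ : H →* (M →ₗ[F] M)) (σ : H →* (N →ₗ[F] N)),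
    Hig σ → ((∀ (i : N →ₗ[F] M), (∀ h n, i (σ h n) = ρ h (i n)) → Function.Injective i →
      ∃ p : M →ₗ[F] N, (∀ h m, p (ρ h m) = σ h (p m)) ∧ ∀ n, p (i n) = n) ∧
      (∀ (p : M →ₗ[F] N), (∀ h m, p (ρ h m) = σ h (p m)) → Function.Surjective p →
      ∃ i : N →ₗ[F] M, (∀ h n, i (σ h n) = ρ h (i n)) ∧ ∀ n, p (i n) = n))

/-- PSR: restriction along a homomorphism. -/
def PsrStmt : Prop :=
  ∀ (F H K M : Type) [Field F] [Group H] [Group K] [AddCommGroup M] [Module F M]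
    (ρ : H →* (M →ₗ[F] M)) (φ : K →* H) (X : Subgroup H → Prop),
    PS X ρ → PS (fun L => ∃ S : Subgroup H, X S ∧ L = S.comap φ) (rst ρ φ)

/-- PSM: equivariant retracts. -/
def PsmStmt : Prop :=
  ∀ (F H M N : Type) [Field F] [Group H] [AddCommGroup M] [Module F M]
    [AddCommGroup N] [Module F N] (ρ : H →* (M →ₗ[F] M)) (σ : H →* (N →ₗ[F] N))
    (X : Subgroup H → Prop) (i : N →ₗ[F] M) (p : M →ₗ[F] N),
    (∀ h n, i (σ h n) = ρ h (i n)) → (∀ h m, p (ρ h m) = σ h (p m)) →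
    (∀ n, p (i n) = n) → PS X ρ → PS X σ

/-- PST: tensor products. -/
def PstStmt : Prop :=
  ∀ (F H M N : Type) [Field F] [Group H] [AddCommGroup M] [Module F M]
    [AddCommGroup N] [Module F N] (ρ : H →* (M →ₗ[F] M)) (σ : H →* (N →ₗ[F] N))
    (X Y : Subgroup H → Prop), PS X ρ → PS Y σ →
    PS (fun K => ∃ S T : Subgroup H, X S ∧ Y T ∧ K = S ⊓ T) (tns ρ σ)

/-- PSD: the dual. -/
def PsdStmt : Prop :=
  ∀ (F H M : Type) [Field F] [Group H] [AddCommGroup M] [Module F M]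
    (ρ : H →* (M →ₗ[F] M)) (X : Subgroup H → Prop), PS X ρ → PS X (dul ρ)

/-- PSQ: a quotient of a (V × W)-module by the right action of W, with the residual action
of V (used for Z4). -/
def PsqStmt : Prop :=
  ∀ (F V W M S : Type) [Field F] [Group V] [Group W] [AddCommGroup M] [Module F M]
    [AddCommGroup S] [Module F S] (ρ : V × W →* (M →ₗ[F] M)) (σ : V →* (S →ₗ[F] S))
    (X : Subgroup (V × W) → Prop), PS X ρ →
    ∀ (q : M →ₗ[F] S) (s : S →ₗ[F] M) (f : V → W),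
    (∀ w m, q (ρ w m) = σ w.1 (q m)) → (∀ u x, s (σ u x) = ρ (u, f u) (s x)) →
    (∀ x, q (s x) = x) → PS (fun _ => True) σ

/-- PSF: the permutation module itself and its corners: M is a module with a basis
permuted by H, and N a retract of it; in frame form: the family b permuted by H and
functionals. FG-version: for a group G, a homomorphism u : V → G, and e in FG commuting with
the image of V, idempotent, the corner e FG e is a summand of the V × V-permutation module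
G. -/
def PsgStmt : Prop :=
  ∀ (F G V A : Type) [Field F] [Group G] [Finite G] [Group V] [Ring A] [Algebra F A]
    (u : V →* G) (e : MonoidAlgebra F G), e * e = e →
    (∀ v : V, e * MonoidAlgebra.of F G (u v) = MonoidAlgebra.of F G (u v) * e) →
    ∀ (i : A →ₗ[F] MonoidAlgebra F G) (α : V →* A), Function.Injective i →
    (∀ a b : A, i (a * b) = i a * i b) → (∀ x, (∃ a, i a = x) ↔ e * x * e = x) →
    (∀ v : V, i (α v) = e * MonoidAlgebra.of F G (u v)) →
    PS (fun K => ∃ g : G, ∀ w : V × V, w ∈ K ↔ u w.1 * g = g * u w.2) (bi F α)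

end Pool.Agent.PFC
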