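import Mathlib

/-!
# Squad PFC: the output of part (0) (stable equivalence) and the number of simple modules
-/

open scoped BigOperators TensorProduct

noncomputable section

namespace Pool.Agent.PFC

section ls

variable (F A : Type) [Field F] [Ring A] [Algebra F A]

/-- The kernels of the irreducible representations of `A` (over an algebraically closed field the
irreducible representations are the surjective homomorphisms to matrix algebras of positive
size). -/
def kers : Set (Set A) :=
  {K | ∃ (n : ℕ) (ρ : A →ₐ[F] Matrix (Fin n) (Fin n) F), 0 < n ∧ Function.Surjective ρ ∧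
    K = {a | ρ a = 0}}

/-- the number of simple modules of `A` -/
def ls : ℕ := (kers F A).ncard

end ls

section sep

variable (F : Type) {A Γ : Type} [Field F] [Ring A] [Algebra F A] [Group Γ]

/-- `A` is relatively separable over the image of `γ`. -/
def Sep (γ : Γ →* A) : Prop :=
  ∃ (κ : Type) (_ : Fintype κ) (u v : κ → A), ∑ k, u k * v k = 1 ∧
    ∀ (X : Type) [AddCommGroup X] [Module F X] (B : A →ₗ[F] A →ₗ[F] X),
      (∀ a b g, B (a * γ g) b = B a (γ g * b)) →
      ∀ c, ∑ k, B (c * u k) (v k) = ∑ k, B (u k) (v k * c)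

/-- the projection to the complement of `F Γ` which is given by the functional `lam` -/
def cpr [Fintype Γ] (γ : Γ →* A) (lam : A →ₗ[F] F) (a : A) : A :=
  a - ∑ g, lam (γ g⁻¹ * a) • γ g

/-- The output of part (0): `A = F Γ + P`, `P` a projective `Γ`-bimodule, `A` is relatively
`Γ`-separable and symmetric. -/
structure SExt [Fintype Γ] (γ : Γ →* A) : Prop where
  fin : FiniteDimensional F A
  sep : Sep F γ
  frob : ∃ μ : A →ₗ[F] F, (∀ a b, μ (a * b) = μ (b * a)) ∧ ∀ a, (∀ b, μ (a * b) = 0) → a = 0
  hig : ∃ lam : A →ₗ[F] F, lam 1 = 1 ∧ (∀ g, g ≠ 1 → lam (γ g) = 0) ∧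
    (∀ g a, lam (γ g * a) = lam (a * γ g)) ∧
    ∃ al : A →ₗ[F] A, ∀ x, ∑ g, ∑ h, γ g * al (γ g⁻¹ * x * γ h⁻¹) * γ h = cpr F γ lam x

end sep

end Pool.Agent.PFC
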