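import Pool.Agent.PFC.DefsB1
import Pool.Agent.PFC.DefsP

/-!
Squad PFC, part B1 (helper51): statements of the rows.
`PowerSeries F` is the ring `R = F[[t]]`, `t = PowerSeries.X`.
-/

namespace Pool.Agent.PFC.B1

open MulOpposite

/-! ### Part 1: Casimir calculus -/

/-- CAS: the Casimir identity for balanced (here: `R`-bilinear) maps. -/
def CasStmt : Prop :=
  ∀ (R A I X : Type) [CommRing R] [Ring A] [Algebra R A] [Fintype I] [AddCommGroup X] [Module R X]
    (c : FS R A I) (B : A →ₗ[R] A →ₗ[R] X) (x : A),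
    ∑ i, B (x * c.b i) (c.b' i) = ∑ i, B (c.b i) (c.b' i * x)

/-- TRH: the trace operator gives intertwiners and is compatible with intertwiners. -/
def TrhStmt : Prop :=
  (∀ (R A I k M N : Type) [CommRing R] [Ring A] [Algebra R A] [Fintype I] [CommRing k]
    [Algebra R k] [AddCommGroup M] [Module k M] [AddCommGroup N] [Module k N]
    (c : FS R A I) (ρ : Rp R A k M) (σ : Rp R A k N) (f : M →ₗ[k] N),
    IsHom ρ σ (c.tr ρ σ f)) ∧
  (∀ (R A I k M N M' N' : Type) [CommRing R] [Ring A] [Algebra R A] [Fintype I] [CommRing k]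
    [Algebra R k] [AddCommGroup M] [Module k M] [AddCommGroup N] [Module k N]
    [AddCommGroup M'] [Module k M'] [AddCommGroup N'] [Module k N']
    (c : FS R A I) (ρ : Rp R A k M) (σ : Rp R A k N) (ρ' : Rp R A k M') (σ' : Rp R A k N')
    (f : M →ₗ[k] N) (g : M' →ₗ[k] M) (h : N →ₗ[k] N'),
    IsHom ρ' ρ g → IsHom σ σ' h → h ∘ₗ c.tr ρ σ f ∘ₗ g = c.tr ρ' σ' (h ∘ₗ f ∘ₗ g))

/-- PIN: Higman projective representations are projective and injective relative to `k`,
and retracts of HP are HP. -/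
def PinStmt : Prop :=
  (∀ (R A I k M N X : Type) [CommRing R] [Ring A] [Algebra R A] [Fintype I] [CommRing k]
    [Algebra R k] [AddCommGroup M] [Module k M] [AddCommGroup N] [Module k N]
    [AddCommGroup X] [Module k X] (c : FS R A I) (ρ : Rp R A k M) (σ : Rp R A k N)
    (τ : Rp R A k X), HP c ρ →
    (∀ (p : X →ₗ[k] N) (s : N →ₗ[k] X) (f : M →ₗ[k] N), IsHom τ σ p → p ∘ₗ s = LinearMap.id →
      IsHom ρ σ f → ∃ g : M →ₗ[k] X, IsHom ρ τ g ∧ p ∘ₗ g = f) ∧
    (∀ (i : N →ₗ[k] X) (r : X →ₗ[k] N) (f : N →ₗ[k] M), IsHom σ τ i → r ∘ₗ i = LinearMap.id →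
      IsHom σ ρ f → ∃ g : X →ₗ[k] M, IsHom τ ρ g ∧ g ∘ₗ i = f)) ∧
  (∀ (R A I k M N : Type) [CommRing R] [Ring A] [Algebra R A] [Fintype I] [CommRing k]
    [Algebra R k] [AddCommGroup M] [Module k M] [AddCommGroup N] [Module k N]
    (c : FS R A I) (ρ : Rp R A k M) (σ : Rp R A k N) (i : N →ₗ[k] M) (p : M →ₗ[k] N),
    IsHom σ ρ i → IsHom ρ σ p → p ∘ₗ i = LinearMap.id → HP c ρ → HP c σ)

/-- UNI: an endomorphism of a finite `F[[t]]`-module congruent to the identity modulo `t` is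
bijective. -/
def UniStmt : Prop :=
  ∀ (F M : Type) [Field F] [AddCommGroup M] [Module (PowerSeries F) M]
    [Module.Finite (PowerSeries F) M] (u : M →ₗ[PowerSeries F] M),
    (∀ x, ∃ y, u x - x = (PowerSeries.X : PowerSeries F) • y) → Function.Bijective u

/-- HPL: Higman projectivity modulo `t` lifts. -/
def HplStmt : Prop :=
  ∀ (F A I M : Type) [Field F] [Ring A] [Algebra (PowerSeries F) A] [Fintype I]
    [AddCommGroup M] [Module (PowerSeries F) M] [Module.Finite (PowerSeries F) M]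
    (c : FS (PowerSeries F) A I) (ρ : Rp (PowerSeries F) A (PowerSeries F) M)
    (a : M →ₗ[PowerSeries F] M),
    (∀ x, ∃ y, c.tr ρ ρ a x - x = (PowerSeries.X : PowerSeries F) • y) → HP c ρ

/-- RES: restriction to `Γ` preserves HP. -/
def ResStmt : Prop :=
  ∀ (R Γ A I J k T : Type) [CommRing R] [Ring Γ] [Algebra R Γ] [Ring A] [Algebra R A]
    [Fintype I] [Fintype J] [CommRing k] [Algebra R k] [AddCommGroup T] [Module k T]
    (c : FS R Γ I) (d : FS R A J) (sp : Split c A) (τ : Rp R A k T),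
    HP d τ → HP c (τ.res sp.j)

/-- COH: coinduction preserves HP. -/
def CohStmt : Prop :=
  ∀ (R Γ A I J k S : Type) [CommRing R] [Ring Γ] [Algebra R Γ] [Ring A] [Algebra R A]
    [Fintype I] [Fintype J] [CommRing k] [Algebra R k] [AddCommGroup S] [Module k S]
    (c : FS R Γ I) (d : FS R A J) (j : Γ →ₐ[R] A) (σ : Rp R Γ k S),
    HP c σ → HP d (coRp j σ)

/-- COS: `σ` is a direct summand of the restriction of its coinduced representation. -/
def CosStmt : Prop :=
  ∀ (R Γ A I k S : Type) [CommRing R] [Ring Γ] [Algebra R Γ] [Ring A] [Algebra R A]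
    [Fintype I] [CommRing k] [Algebra R k] [AddCommGroup S] [Module k S]
    (c : FS R Γ I) (sp : Split c A) (σ : Rp R Γ k S),
    ∃ (i : S →ₗ[k] Co sp.j σ) (p : Co sp.j σ →ₗ[k] S),
      IsHom σ ((coRp sp.j σ).res sp.j) i ∧ IsHom ((coRp sp.j σ).res sp.j) σ p ∧
      (∀ f, p f = f.1 1) ∧ p ∘ₗ i = LinearMap.id

/-- QEX: the exact sequence `0 → T → Coind T → QQ T → 0`. -/
def QexStmt : Prop :=
  ∀ (R Γ A k T : Type) [CommRing R] [Ring Γ] [Algebra R Γ] [Ring A] [Algebra R A]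
    [CommRing k] [Algebra R k] [AddCommGroup T] [Module k T]
    (j : Γ →ₐ[R] A) (τ : Rp R A k T),
    ∃ (ι : T →ₗ[k] Co j (τ.res j)) (π : Co j (τ.res j) →ₗ[k] QQ j τ)
      (s : QQ j τ →ₗ[k] Co j (τ.res j)),
      IsHom τ (coRp j (τ.res j)) ι ∧ IsHom (coRp j (τ.res j)) (qqRp j τ) π ∧
      (∀ t x, (ι t).1 x = τ.ρ x t) ∧ (∀ f x, (π f).1 x = f.1 x - τ.ρ x (f.1 1)) ∧
      (∀ f x, (s f).1 x = f.1 x) ∧ Function.Injective ι ∧ π ∘ₗ s = LinearMap.id ∧
      LinearMap.ker π = LinearMap.range ι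

/-! ### Part 2: successive approximation, idempotents, lifting of the bimodule -/

/-- SUC: successive approximation over `F[[t]]`. -/
def SucStmt : Prop :=
  ∀ (F M : Type) [Field F] [AddCommGroup M] [Module (PowerSeries F) M]
    [Module.Finite (PowerSeries F) M] [Module.Free (PowerSeries F) M] (P : ℕ → M → Prop),
    (∀ n x z, P n x → P n (x + (PowerSeries.X : PowerSeries F) ^ n • z)) →
    (∀ n x, 1 ≤ n → P n x → ∃ z, P (n + 1) (x + (PowerSeries.X : PowerSeries F) ^ n • z)) →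
    ∀ x, P 1 x → ∃ z, ∀ n, 1 ≤ n → P n (x + (PowerSeries.X : PowerSeries F) • z)

/-- IDL: lifting of idempotent endomorphisms commuting with a given set of endomorphisms. -/
def IdlStmt : Prop :=
  ∀ (F M : Type) [Field F] [AddCommGroup M] [Module (PowerSeries F) M]
    [Module.Finite (PowerSeries F) M] [Module.Free (PowerSeries F) M]
    (S : Set (Module.End (PowerSeries F) M)) (e : Module.End (PowerSeries F) M),
    (∀ s ∈ S, s * e = e * s) → (∀ x, ∃ y, e (e x) - e x = (PowerSeries.X : PowerSeries F) • y) →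
    ∃ g : Module.End (PowerSeries F) M, g * g = g ∧ (∀ s ∈ S, s * g = g * s) ∧
      ∀ x, ∃ y, g x - e x = (PowerSeries.X : PowerSeries F) • y

/-- bimodules over `Γ` (`R`-central), as commuting algebra maps to the endomorphism ring;
`rm (op γ) x` is `x γ`. -/
structure BiM (R Γ P : Type) [CommRing R] [Ring Γ] [Algebra R Γ] [AddCommGroup P]
    [Module R P] where
  lm : Γ →ₐ[R] Module.End R P
  rm : Γᵐᵒᵖ →ₐ[R] Module.End R P
  comm : ∀ a b x, lm a (rm b x) = rm b (lm a x)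

/-- the residue level: an `F[[t]]`-algebra `A` killed by `t` with a map `j : Γ → A` (kernel
`t Γ`), the projector `e` onto the image of `j` with complement the bimodule `P0 = ker e`, and
the Higman operator `a` of `P0`. -/
structure Res (F Γ A I : Type) [Field F] [Ring Γ] [Algebra (PowerSeries F) Γ] [Ring A]
    [Algebra (PowerSeries F) A] [Fintype I] (c : FS (PowerSeries F) Γ I) where
  j : Γ →ₐ[PowerSeries F] A
  hX : algebraMap (PowerSeries F) A PowerSeries.X = 0
  hj : ∀ γ, j γ = 0 → ∃ γ', γ = (PowerSeries.X : PowerSeries F) • γ'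
  e : A →ₗ[PowerSeries F] A
  e1 : ∀ x, ∃ γ, e x = j γ
  e2 : ∀ γ, e (j γ) = j γ
  e3 : ∀ γ x, e (j γ * x) = j γ * e x
  e4 : ∀ γ x, e (x * j γ) = e x * j γ
  a : A →ₗ[PowerSeries F] A
  a_id : ∀ x, ∑ i, ∑ l, j (c.b i) * a (j (c.b' i) * x * j (c.b l)) * j (c.b' l) = x - e x

/-- a lift `P` over `F[[t]]` of the bimodule `P0 = ker e` -/
structure PL (F Γ A I P : Type) [Field F] [Ring Γ] [Algebra (PowerSeries F) Γ] [Ring A]
    [Algebra (PowerSeries F) A] [Fintype I] (c : FS (PowerSeries F) Γ I) (D : Res F Γ A I c)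
    [AddCommGroup P] [Module (PowerSeries F) P] extends BiM (PowerSeries F) Γ P where
  q : P →ₗ[PowerSeries F] A
  q1 : ∀ γ x, q (lm γ x) = D.j γ * q x
  q2 : ∀ γ x, q (rm (op γ) x) = q x * D.j γ
  q3 : ∀ x, D.e (q x) = 0
  q4 : ∀ y, D.e y = 0 → ∃ x, q x = y
  q5 : ∀ x, q x = 0 → ∃ y, x = (PowerSeries.X : PowerSeries F) • y
  a' : P →ₗ[PowerSeries F] P
  a'_id : ∀ x, q (∑ i, ∑ l, lm (c.b i) (rm (op (c.b' l))
    (a' (lm (c.b' i) (rm (op (c.b l)) x))))) = q x

/-- PLF: the projective bimodule lifts. -/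
def PlfStmt : Prop :=
  ∀ (F Γ A I : Type) [Field F] [Ring Γ] [Algebra (PowerSeries F) Γ]
    [Module.Finite (PowerSeries F) Γ] [Module.Free (PowerSeries F) Γ] [Ring A]
    [Algebra (PowerSeries F) A] [Module.Finite (PowerSeries F) A] [Fintype I]
    (c : FS (PowerSeries F) Γ I) (D : Res F Γ A I c),
    ∃ (P : Type) (_ : AddCommGroup P) (_ : Module (PowerSeries F) P)
      (_ : Module.Finite (PowerSeries F) P) (_ : Module.Free (PowerSeries F) P),
      Nonempty (PL F Γ A I P c D)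

/-! ### Part 3: lifting the multiplication -/

section
variable {R Γ P : Type} [CommRing R] [Ring Γ] [Algebra R Γ] [AddCommGroup P] [Module R P]

/-- left action of `Γ` on `Γ × P` -/
def BiM.la (B : BiM R Γ P) (γ : Γ) (x : Γ × P) : Γ × P := (γ * x.1, B.lm γ x.2)

/-- right action of `Γ` on `Γ × P` -/
def BiM.ra (B : BiM R Γ P) (x : Γ × P) (γ : Γ) : Γ × P := (x.1 * γ, B.rm (op γ) x.2)

/-- balanced bilinear maps `P × P → Γ × P` -/
def BiM.Bal (B : BiM R Γ P) (β : P →ₗ[R] P →ₗ[R] Γ × P) : Prop :=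
  (∀ γ p p', β (B.lm γ p) p' = B.la γ (β p p')) ∧
  (∀ γ p p', β (B.rm (op γ) p) p' = β p (B.lm γ p')) ∧
  (∀ γ p p', β p (B.rm (op γ) p') = B.ra (β p p') γ)

/-- the multiplication on `Γ × P` given by `β` -/
def BiM.mu (B : BiM R Γ P) (β : P →ₗ[R] P →ₗ[R] Γ × P) (x y : Γ × P) : Γ × P :=
  (x.1 * y.1, B.lm x.1 y.2 + B.rm (op y.1) x.2) + β x.2 y.2

/-- the associator -/
def BiM.as (B : BiM R Γ P) (β : P →ₗ[R] P →ₗ[R] Γ × P) (x y z : Γ × P) : Γ × P :=
  B.mu β (B.mu β x y) z - B.mu β x (B.mu β y z)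

end

/-- the map `Γ × P → A` -/
noncomputable def PL.qq {F Γ A I P : Type} [Field F] [Ring Γ] [Algebra (PowerSeries F) Γ] [Ring A]
    [Algebra (PowerSeries F) A] [Fintype I] {c : FS (PowerSeries F) Γ I} {D : Res F Γ A I c}
    [AddCommGroup P] [Module (PowerSeries F) P] (L : PL F Γ A I P c D) (x : Γ × P) : A :=
  D.j x.1 + L.q x.2

/-- LFB: a balanced bilinear map to `A` lifts to a balanced bilinear map to `Γ × P`. -/
def LfbStmt : Prop :=
  ∀ (F Γ A I P : Type) [Field F] [Ring Γ] [Algebra (PowerSeries F) Γ]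
    [Module.Finite (PowerSeries F) Γ] [Module.Free (PowerSeries F) Γ] [Ring A]
    [Algebra (PowerSeries F) A] [Fintype I]
    (c : FS (PowerSeries F) Γ I) (D : Res F Γ A I c)
    [AddCommGroup P] [Module (PowerSeries F) P] [Module.Finite (PowerSeries F) P]
    [Module.Free (PowerSeries F) P] (L : PL F Γ A I P c D)
    (β0 : P →ₗ[PowerSeries F] P →ₗ[PowerSeries F] A),
    (∀ γ p p', β0 (L.lm γ p) p' = D.j γ * β0 p p') →
    (∀ γ p p', β0 (L.rm (op γ) p) p' = β0 p (L.lm γ p')) →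
    (∀ γ p p', β0 p (L.rm (op γ) p') = β0 p p' * D.j γ) →
    ∃ β : P →ₗ[PowerSeries F] P →ₗ[PowerSeries F] Γ × P, L.toBiM.Bal β ∧
      ∀ p p', L.qq (β p p') = β0 p p'

/-- PEN: general identities for balanced `β`: the associator is balanced in all places, vanishes
if one of the arguments is in `Γ`, and satisfies the pentagon identity. -/
def PenStmt : Prop :=
  ∀ (R Γ P : Type) [CommRing R] [Ring Γ] [Algebra R Γ] [AddCommGroup P] [Module R P]
    (B : BiM R Γ P) (β : P →ₗ[R] P →ₗ[R] Γ × P), B.Bal β →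
    (∀ γ y z, B.as β (γ, 0) y z = 0) ∧ (∀ γ x z, B.as β x (γ, 0) z = 0) ∧
    (∀ γ x y, B.as β x y (γ, 0) = 0) ∧
    (∀ γ x y z, B.as β (B.la γ x) y z = B.la γ (B.as β x y z)) ∧
    (∀ γ x y z, B.as β (B.ra x γ) y z = B.as β x (B.la γ y) z) ∧
    (∀ γ x y z, B.as β x (B.ra y γ) z = B.as β x y (B.la γ z)) ∧
    (∀ γ x y z, B.as β x y (B.ra z γ) = B.ra (B.as β x y z) γ) ∧
    (∀ x y z u, B.mu β (B.as β x y z) u + B.as β x (B.mu β y z) u +
      B.mu β x (B.as β y z u) = B.as β (B.mu β x y) z u + B.as β x y (B.mu β z u))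

/-- STP: one step of the lifting of the multiplication. -/
def StpStmt : Prop :=
  ∀ (F Γ A I K P : Type) [Field F] [Ring Γ] [Algebra (PowerSeries F) Γ]
    [Module.Finite (PowerSeries F) Γ] [Module.Free (PowerSeries F) Γ] [Ring A]
    [Algebra (PowerSeries F) A] [Fintype I] [Fintype K]
    (c : FS (PowerSeries F) Γ I) (D : Res F Γ A I c) (_ : Sep Γ A K D.j.toRingHom)
    [AddCommGroup P] [Module (PowerSeries F) P] [Module.Finite (PowerSeries F) P]
    [Module.Free (PowerSeries F) P] (L : PL F Γ A I P c D)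
    (β : P →ₗ[PowerSeries F] P →ₗ[PowerSeries F] Γ × P) (n : ℕ), 1 ≤ n → L.toBiM.Bal β →
    (∀ p p', L.qq (β p p') = L.q p * L.q p') →
    (∀ x y z, ∃ w, L.toBiM.as β x y z = (PowerSeries.X : PowerSeries F) ^ n • w) →
    ∃ ν : P →ₗ[PowerSeries F] P →ₗ[PowerSeries F] Γ × P, L.toBiM.Bal ν ∧
      (∀ x y z, ∃ w, L.toBiM.as (β + (PowerSeries.X : PowerSeries F) ^ n • ν) x y z =
        (PowerSeries.X : PowerSeries F) ^ (n + 1) • w)

/-- ALG: the multiplication lifts. -/
def AlgStmt : Prop :=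
  ∀ (F Γ A I K P : Type) [Field F] [Ring Γ] [Algebra (PowerSeries F) Γ]
    [Module.Finite (PowerSeries F) Γ] [Module.Free (PowerSeries F) Γ] [Ring A]
    [Algebra (PowerSeries F) A] [Fintype I] [Fintype K]
    (c : FS (PowerSeries F) Γ I) (D : Res F Γ A I c) (_ : Sep Γ A K D.j.toRingHom)
    [AddCommGroup P] [Module (PowerSeries F) P] [Module.Finite (PowerSeries F) P]
    [Module.Free (PowerSeries F) P] (L : PL F Γ A I P c D),
    ∃ β : P →ₗ[PowerSeries F] P →ₗ[PowerSeries F] Γ × P, L.toBiM.Bal β ∧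
      (∀ x y z, L.toBiM.as β x y z = 0) ∧ ∀ p p', L.qq (β p p') = L.q p * L.q p'

/-- RNG: an associative balanced `β` gives an algebra `A'` with `Γ → A'` split. -/
def RngStmt : Prop :=
  ∀ (R Γ P : Type) [CommRing R] [Ring Γ] [Algebra R Γ] [AddCommGroup P] [Module R P]
    (B : BiM R Γ P) (β : P →ₗ[R] P →ₗ[R] Γ × P), B.Bal β → (∀ x y z, B.as β x y z = 0) →
    ∃ (A' : Type) (_ : Ring A') (_ : Algebra R A') (φ : (Γ × P) ≃ₗ[R] A'),
      φ (1, 0) = 1 ∧ (∀ x y, φ (B.mu β x y) = φ x * φ y)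

/-- USE: the Higman identity for `P` modulo `t` becomes exact after a change of the operator. -/
def UseStmt : Prop :=
  ∀ (F Γ A I P : Type) [Field F] [Ring Γ] [Algebra (PowerSeries F) Γ]
    [Module.Finite (PowerSeries F) Γ] [Module.Free (PowerSeries F) Γ] [Ring A]
    [Algebra (PowerSeries F) A] [Fintype I]
    (c : FS (PowerSeries F) Γ I) (D : Res F Γ A I c)
    [AddCommGroup P] [Module (PowerSeries F) P] [Module.Finite (PowerSeries F) P]
    [Module.Free (PowerSeries F) P] (L : PL F Γ A I P c D),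
    ∃ a : P →ₗ[PowerSeries F] P, ∀ x, ∑ i, ∑ l, L.lm (c.b i) (L.rm (op (c.b' l))
      (a (L.lm (c.b' i) (L.rm (op (c.b l)) x)))) = x

/-! ### Part 4: the deformed algebra -/

/-- the special fibre map `q : A' → A` of an `F[[t]]`-algebra onto an `F`-algebra -/
structure Fib (F A' A : Type) [Field F] [Ring A'] [Algebra (PowerSeries F) A'] [Ring A]
    [Algebra F A] where
  q : A' →+* A
  sc : ∀ r : PowerSeries F,
    q (algebraMap (PowerSeries F) A' r) = algebraMap F A (PowerSeries.constantCoeff r)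
  surj : Function.Surjective q
  ker : ∀ x, q x = 0 → ∃ y, x = (PowerSeries.X : PowerSeries F) • y

/-- FSL: a Frobenius system of the special fibre lifts. -/
def FslStmt : Prop :=
  ∀ (F A' A J : Type) [Field F] [Ring A'] [Algebra (PowerSeries F) A']
    [Module.Finite (PowerSeries F) A'] [Module.Free (PowerSeries F) A'] [Ring A] [Algebra F A]
    [Fintype J] (_ : Fib F A' A) (_ : FS F A J),
    ∃ (J' : Type) (_ : Fintype J'), Nonempty (FS (PowerSeries F) A' J')

/-- CNV: change of the Frobenius system in the Higman identity of the complement. -/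
def CnvStmt : Prop :=
  ∀ (F Γ Γ0 A I I0 : Type) [Field F] [Ring Γ] [Algebra (PowerSeries F) Γ] [Ring Γ0]
    [Algebra F Γ0] [Ring A] [Algebra F A] [Fintype I] [Fintype I0]
    (c : FS (PowerSeries F) Γ I) (c0 : FS F Γ0 I0) (f : Fib F Γ Γ0) (sp : Split c0 A),
    ∃ a : A →ₗ[F] A, ∀ x, ∑ i, ∑ l, sp.j (f.q (c.b i)) *
      a (sp.j (f.q (c.b' i)) * x * sp.j (f.q (c.b l))) * sp.j (f.q (c.b' l)) =
        x - sp.j (sp.pr x)

/-- the full deformation data of `(Γ0 → A)` along `Γ` -/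
structure Dfm (F Γ Γ0 A A' I I0 J' : Type) [Field F] [Ring Γ] [Algebra (PowerSeries F) Γ]
    [Ring Γ0] [Algebra F Γ0] [Ring A] [Algebra F A] [Ring A'] [Algebra (PowerSeries F) A']
    [Fintype I] [Fintype I0] [Fintype J']
    (c : FS (PowerSeries F) Γ I) (c0 : FS F Γ0 I0) (f : Fib F Γ Γ0) (sp0 : Split c0 A) where
  d : FS (PowerSeries F) A' J'
  sp : Split c A'
  fb : Fib F A' A
  cj : ∀ γ, fb.q (sp.j γ) = sp0.j (f.q γ)
  cp : ∀ x, sp0.pr (fb.q x) = f.q (sp.pr x)

/-- EXI: existence of the deformation. -/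
def ExiStmt : Prop :=
  ∀ (F Γ Γ0 A I I0 J K : Type) [Field F] [Ring Γ] [Algebra (PowerSeries F) Γ]
    [Module.Finite (PowerSeries F) Γ] [Module.Free (PowerSeries F) Γ]
    [Ring Γ0] [Algebra F Γ0] [Ring A] [Algebra F A] [Module.Finite F A]
    [Fintype I] [Fintype I0] [Fintype J] [Fintype K]
    (c : FS (PowerSeries F) Γ I) (c0 : FS F Γ0 I0) (f : Fib F Γ Γ0) (sp0 : Split c0 A)
    (_ : Sep Γ0 A K sp0.j.toRingHom) (_ : FS F A J),
    ∃ (A' J' : Type) (_ : Ring A') (_ : Algebra (PowerSeries F) A')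
      (_ : Module.Finite (PowerSeries F) A') (_ : Module.Free (PowerSeries F) A')
      (_ : Fintype J'), Nonempty (Dfm F Γ Γ0 A A' I I0 J' c c0 f sp0)

/-- ZID: the operator on `QQ` given by relative separability of the special fibre is a Higman
operator modulo `t` (for a representation over any commutative `F[[t]]`-algebra `k`, pointwise
modulo `t T`).  The operator is `f ↦ z (f ∘ b)`, with `b : A' → A'` left `Γ`-linear. -/
def ZidStmt : Prop :=
  ∀ (F Γ Γ0 A A' I I0 J' K : Type) [Field F] [Ring Γ] [Algebra (PowerSeries F) Γ]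
    [Ring Γ0] [Algebra F Γ0] [Ring A] [Algebra F A] [Ring A'] [Algebra (PowerSeries F) A']
    [Fintype I] [Fintype I0] [Fintype J'] [Fintype K]
    (c : FS (PowerSeries F) Γ I) (c0 : FS F Γ0 I0) (f : Fib F Γ Γ0) (sp0 : Split c0 A)
    (_ : Sep Γ0 A K sp0.j.toRingHom) (D : Dfm F Γ Γ0 A A' I I0 J' c c0 f sp0),
    ∃ (z : A') (b : A' →ₗ[PowerSeries F] A'),
      (∀ γ x, b (D.sp.j γ * x) = D.sp.j γ * b x) ∧ b 1 = 0 ∧
      ∀ (k T : Type) [CommRing k] [Algebra (PowerSeries F) k] [AddCommGroup T] [Module k T]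
        (τ : Rp (PowerSeries F) A' k T) (a : QQ D.sp.j τ →ₗ[k] QQ D.sp.j τ)
        (_ : ∀ g x, (a g).1 x = g.1 (b (x * z)) - τ.ρ x (g.1 (b z))),
        ∀ g x, ∃ y, (D.d.tr (qqRp D.sp.j τ) (qqRp D.sp.j τ) a g).1 x - g.1 x =
          algebraMap (PowerSeries F) k PowerSeries.X • y

/-- QHR: `QQ T` is Higman projective for lattices `T`. -/
def QhrStmt : Prop :=
  ∀ (F Γ Γ0 A A' I I0 J' K T : Type) [Field F] [Ring Γ] [Algebra (PowerSeries F) Γ]
    [Ring Γ0] [Algebra F Γ0] [Ring A] [Algebra F A] [Ring A'] [Algebra (PowerSeries F) A']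
    [Module.Finite (PowerSeries F) A'] [Module.Free (PowerSeries F) A']
    [Fintype I] [Fintype I0] [Fintype J'] [Fintype K]
    (c : FS (PowerSeries F) Γ I) (c0 : FS F Γ0 I0) (f : Fib F Γ Γ0) (sp0 : Split c0 A)
    (_ : Sep Γ0 A K sp0.j.toRingHom) (D : Dfm F Γ Γ0 A A' I I0 J' c c0 f sp0)
    [AddCommGroup T] [Module (PowerSeries F) T] [Module.Finite (PowerSeries F) T]
    [Module.Free (PowerSeries F) T] (τ : Rp (PowerSeries F) A' (PowerSeries F) T),
    HP D.d (qqRp D.sp.j τ)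

/-- QHK: `QQ T` is Higman projective for finite dimensional representations over the fraction
field. -/
def QhkStmt : Prop :=
  ∀ (F Γ Γ0 A A' I I0 J' K L T : Type) [Field F] [Ring Γ] [Algebra (PowerSeries F) Γ]
    [Ring Γ0] [Algebra F Γ0] [Ring A] [Algebra F A] [Ring A'] [Algebra (PowerSeries F) A']
    [Module.Finite (PowerSeries F) A'] [Module.Free (PowerSeries F) A']
    [Fintype I] [Fintype I0] [Fintype J'] [Fintype K]
    (c : FS (PowerSeries F) Γ I) (c0 : FS F Γ0 I0) (f : Fib F Γ Γ0) (sp0 : Split c0 A)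
    (_ : Sep Γ0 A K sp0.j.toRingHom) (D : Dfm F Γ Γ0 A A' I I0 J' c c0 f sp0)
    [Field L] [Algebra (PowerSeries F) L] [IsFractionRing (PowerSeries F) L]
    [AddCommGroup T] [Module L T] [Module.Finite L T] (τ : Rp (PowerSeries F) A' L T),
    HP D.d (qqRp D.sp.j τ)

/-- LAT: existence of invariant lattices in finite dimensional representations over the fraction
field. -/
def LatStmt : Prop :=
  ∀ (F A' L T : Type) [Field F] [Ring A'] [Algebra (PowerSeries F) A']
    [Module.Finite (PowerSeries F) A']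
    [Field L] [Algebra (PowerSeries F) L] [IsFractionRing (PowerSeries F) L]
    [AddCommGroup T] [Module L T] [Module.Finite L T] (τ : Rp (PowerSeries F) A' L T),
    ∃ (T' : Type) (_ : AddCommGroup T') (_ : Module (PowerSeries F) T')
      (_ : Module.Finite (PowerSeries F) T') (_ : Module.Free (PowerSeries F) T')
      (τ' : Rp (PowerSeries F) A' (PowerSeries F) T') (i : T' →+ T),
      Function.Injective i ∧
      (∀ (r : PowerSeries F) x, i (r • x) = algebraMap (PowerSeries F) L r • i x) ∧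
      (∀ a x, i (τ'.ρ a x) = τ.ρ a (i x)) ∧
      ∀ t : T, ∃ (n : ℕ) (x : T'), algebraMap (PowerSeries F) L PowerSeries.X ^ n • t = i x

/-- INP: from the output `SExt` of part (0) (`DefsP.lean`) to the input of the deformation. -/
def InpStmt : Prop :=
  ∀ (F A G : Type) [Field F] [Ring A] [Algebra F A] [Group G] [Fintype G] (α : G →* A),
    Pool.Agent.PFC.SExt F α →
    ∃ (c0 : FS F (MonoidAlgebra F G) G) (sp : Split c0 A),
      (∀ g, c0.b g = MonoidAlgebra.of F G g) ∧ (∀ g, c0.b' g = MonoidAlgebra.of F G g⁻¹) ∧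
      (∀ g, sp.j (MonoidAlgebra.of F G g) = α g) ∧
      (∃ (K : Type) (_ : Fintype K), Nonempty (Sep (MonoidAlgebra F G) A K sp.j.toRingHom)) ∧
      ∃ (J : Type) (_ : Fintype J), Nonempty (FS F A J)

end Pool.Agent.PFC.B1
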