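import Pool.Agent.PFC.DefsB3
import Pool.Agent.PFC.StmtsB1

/-!
# Squad PFC, block B3: statements of the rows (author helper18)

Proof ideas are in the comments.  `R = PowerSeries F`, `t = PowerSeries.X`.
-/

open scoped BigOperators

noncomputable section

namespace Pool.Agent.PFC.B3

open MvPolynomial

/-! ### Part 1: the basis of reduced monomials -/

/-- the span of the monomials of degree less than `d` -/
def Lt (k I : Type) [CommRing k] (d : ℕ) : Submodule k (MvPolynomial I k) :=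
  Submodule.span k {z | ∃ m : I →₀ ℕ, m.degree < d ∧ z = monomial m 1}

/-- TOP: the leading form of a product of the relations.  (`Lt a * Lt b` is in `Lt (a + b)`, also
`monomial m 1 * Lt a` is in `Lt (m.degree + a)`; induction over the factors.) -/
def TopStmt : Prop :=
  ∀ (k I : Type) [CommRing k] [Fintype I] (q : I → ℕ) (f : I → MvPolynomial I k),
    (∀ i, 0 < q i) → (∀ i, f i ∈ Lt k I (q i)) → ∀ γ : I →₀ ℕ,
    (∏ i, (X i ^ q i - f i) ^ (γ i / q i) * X i ^ (γ i % q i)) - monomial γ 1 ∈ Lt k I γ.degree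

/-- BIJ: a linear map which is the identity up to lower degree is bijective.  (Surjective:
induction on the degree; injective: compare the coefficients of the monomials of maximal
degree.) -/
def BijStmt : Prop :=
  ∀ (k I : Type) [CommRing k] [Fintype I]
    (T : MvPolynomial I k →ₗ[k] MvPolynomial I k),
    (∀ γ : I →₀ ℕ, T (monomial γ 1) - monomial γ 1 ∈ Lt k I γ.degree) → Function.Bijective T

/-- BAS: the reduced monomials are a basis of the quotient.  Proof.  Let `T` be the linear map with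
`T (monomial γ 1) = ∏ i, (X i ^ q i - f i) ^ (γ i / q i) * X i ^ (γ i % q i)`; it is bijective (TOP,
BIJ).  `(X i ^ q i - f i) * T (monomial γ 1) = T (monomial (γ + q i • e_i) 1)`, so the ideal is the
image under `T` of the span of the `monomial γ 1` with `q i ≤ γ i` for some `i`, and `T` is the
identity on the reduced monomials. -/
def BasStmt : Prop :=
  ∀ (k I : Type) [CommRing k] [Fintype I] (q : I → ℕ) (f : I → MvPolynomial I k),
    (∀ i, 0 < q i) → (∀ i, f i ∈ Lt k I (q i)) →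
    ∃ b : Module.Basis (∀ i, Fin (q i)) k (MvPolynomial I k ⧸ JJ q f),
      ∀ α, b α = Ideal.Quotient.mk (JJ q f) (mo k I α)

/-- SKE: the presented algebra exists.  Proof.  `D = MvPolynomial I k ⧸ JJ q f`,
`f i = C (c i) * X (p i)`; `E` acts on `D` by `X i ↦ C (η i e) * X i`
(the relations go to multiples of relations); `Λ = SkewMonoidAlgebra D E` (Mathlib: ring, algebra,
`liftNCRingHom`, `basisSingleOne`, `single_mul_single`, `Module.Basis.smulTower`). -/
def SkeStmt : Prop :=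
  ∀ (k I E : Type) [CommRing k] [Fintype I] [Group E] (q : I → ℕ) (p : I → I) (c : I → k)
    (η : I → E →* kˣ), (∀ i, 2 ≤ q i) → (∀ i e, η i e ^ q i = η (p i) e) →
    ∃ (Λ : Type) (_ : Ring Λ) (_ : Algebra k Λ), Nonempty (Pre k I E Λ q p c η)

/-! ### Part 2: the normal element -/

/-- MAP: from the order to the algebra over the fraction field (by `up`; basis goes to basis). -/
def MapStmt : Prop :=
  ∀ (F I E Λ L Λ' : Type) [Field F] [Fintype I] [Group E] [Finite E] [Ring Λ]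
    [Algebra (PowerSeries F) Λ]
    [Field L] [Algebra (PowerSeries F) L] [IsFractionRing (PowerSeries F) L] [Ring Λ']
    [Algebra L Λ'] (q : I → ℕ) (p : I → I) (c : I → PowerSeries F) (c' : I → L)
    (η : I → E →* (PowerSeries F)ˣ) (η' : I → E →* Lˣ) (P : Pre (PowerSeries F) I E Λ q p c η)
    (P' : Pre L I E Λ' q p c' η'), (∀ i, c' i = algebraMap (PowerSeries F) L (c i)) →
    (∀ i e, (η' i e : L) = algebraMap (PowerSeries F) L (η i e)) →
    ∃ h : Λ →+* Λ', (∀ i, h (P.j (X i)) = P'.j (X i)) ∧ (∀ e, h (P.ε e) = P'.ε e) ∧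
      (∀ (r : PowerSeries F) a, h (r • a) = algebraMap (PowerSeries F) L r • h a) ∧
      Function.Injective h ∧
      ∀ z, ∃ (n : ℕ) (a : Λ), algebraMap (PowerSeries F) L PowerSeries.X ^ n • z = h a

/-- CYC: the elements `y i`, `i` in the cycle of `i0`, are (up to powers of `t`) powers of
`y (p i0)`.  (`i = p ^ s i0`, induction on `s`; `y (p i0) ^ (q_1 ⋯ q_s) = t ^ n • y (p ^ (s+1) i0)`,
and the last relation is `y i0 ^ q i0 = 0`.) -/
def CycStmt : Prop :=
  ∀ (k I Λ : Type) [CommRing k] [Fintype I] [DecidableEq I] [Ring Λ] [Algebra k Λ] (q : I → ℕ)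
    (p : Equiv.Perm I) (t : k) (i0 : I) (y : I → Λ), (∀ i, 2 ≤ q i) →
    (∀ i, y i ^ q i = cc k I t i0 i • y (p i)) →
    (∀ i, p.SameCycle i0 i → ∃ n m : ℕ, 1 ≤ m ∧ y (p i0) ^ m = t ^ n • y i) ∧
    y (p i0) ^ (∏ i ∈ Finset.univ.filter (fun i => p.SameCycle i0 i), q i) = 0

/-- ANL: linear algebra.  (`dim N^i M / N^(i+1) M ≤ dim M / N M`, so all are equal, and
`dim ker N^i = i dim (M / N M) = dim N^(Q-i) M`.) -/
def AnlStmt : Prop :=
  ∀ (L M : Type) [Field L] [AddCommGroup M] [Module L M] [Module.Finite L M]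
    (N : M →ₗ[L] M) (Q : ℕ), N ^ Q = 0 →
    Q * Module.finrank L (M ⧸ LinearMap.range N) ≤ Module.finrank L M →
    ∀ i, i ≤ Q → ∀ m, (N ^ i) m = 0 → ∃ m', m = (N ^ (Q - i)) m'

/-- DMQ: the dimension of `Λ / x Λ` over a field.  (The basis vectors `x ^ α ε e` with `α i ≠ 0` for
some `i` in the cycle of `i0` are in `x Λ` by CYC, all `j (X i)` commute; the others are
`dim Λ / ∏ q i` in number.) -/
def DmqStmt : Prop :=
  ∀ (L I E Λ : Type) [Field L] [Fintype I] [DecidableEq I] [Group E] [Finite E] [Ring Λ]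
    [Algebra L Λ] (q : I → ℕ) (p : Equiv.Perm I) (t : L) (i0 : I) (η : I → E →* Lˣ)
    (P : Pre L I E Λ q p (cc L I t i0) η), (∀ i, 2 ≤ q i) → t ≠ 0 →
    Module.Finite L Λ ∧
    (∏ i ∈ Finset.univ.filter (fun i => p.SameCycle i0 i), q i) *
      Module.finrank L (Λ ⧸ LinearMap.range (LinearMap.mulLeft L (P.j (X (p i0))))) ≤
      Module.finrank L Λ

/-- ANN: the annihilators of the powers of `x` in the order.  (SKE over the fraction field, MAP, CYC,
DMQ, ANL for `N` = left multiplication by `x`; clear denominators.) -/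
def AnnStmt : Prop :=
  ∀ (F I E Λ : Type) [Field F] [Fintype I] [DecidableEq I] [Group E] [Finite E] [Ring Λ]
    [Algebra (PowerSeries F) Λ] (q : I → ℕ) (p : Equiv.Perm I) (i0 : I)
    (η : I → E →* (PowerSeries F)ˣ)
    (P : Pre (PowerSeries F) I E Λ q p (cc (PowerSeries F) I PowerSeries.X i0) η),
    (∀ i, 2 ≤ q i) → (∀ i e, η i e ^ q i = η (p i) e) →
    ∀ s, s ≤ (∏ i ∈ Finset.univ.filter (fun i => p.SameCycle i0 i), q i) →
    ∀ a, P.j (X (p i0)) ^ s * a = 0 → ∃ (n : ℕ) (b : Λ), (PowerSeries.X : PowerSeries F) ^ n • a =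
      P.j (X (p i0)) ^ ((∏ i ∈ Finset.univ.filter (fun i => p.SameCycle i0 i), q i) - s) * b

/-- NRM: `x` is normal.  (`sg` by `up` with `ε' e = (η i e)⁻¹ • ε e`; its inverse is given by
`η i e • ε e`; check on the basis.) -/
def NrmStmt : Prop :=
  ∀ (k I E Λ : Type) [CommRing k] [Fintype I] [Group E] [Finite E] [Ring Λ]
    [Algebra k Λ] (q : I → ℕ) (p : I → I) (c : I → k) (η : I → E →* kˣ)
    (P : Pre k I E Λ q p c η) (i : I),
    ∃ sg : Λ →+* Λ, Function.Surjective sg ∧ ∀ a, P.j (X i) * a = sg a * P.j (X i)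

/-- AUG: the augmentations.  (By `up`: `X i ↦ 0`, `ε e ↦ θ e`.) -/
def AugStmt : Prop :=
  ∀ (k I E Λ : Type) [CommRing k] [Fintype I] [Group E] [Finite E] [Ring Λ]
    [Algebra k Λ] (q : I → ℕ) (p : I → I) (c : I → k) (η : I → E →* kˣ)
    (P : Pre k I E Λ q p c η) (θ : E →* kˣ), (∀ i, 2 ≤ q i) →
    ∃ a : Λ →ₐ[k] k, (∀ i, a (P.j (X i)) = 0) ∧ ∀ e, a (P.ε e) = (θ e : k)

/-! ### Part 3: semisimplicity modulo `x` -/

/-- RED: a commutative finite-dimensional algebra spanned by `ℓ`-th powers is reduced.  (Then it is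
also spanned by the `ℓ ^ n`-th powers; for large `n` the map `d ↦ d ^ (ℓ ^ n)` kills the
nilradical `N`, and the `ℓ ^ n`-th powers of representatives of a basis of `D / N` span `D`: so
`dim D ≤ dim D / N`.) -/
def RedStmt : Prop :=
  ∀ (ℓ : ℕ) [Fact ℓ.Prime] (L D : Type) [Field L] [CharP L ℓ] [CommRing D] [Algebra L D]
    [Module.Finite L D], Submodule.span L (Set.range fun d : D => d ^ ℓ) = ⊤ → IsReduced D

/-- SST: commuting operators which are scalar multiples of `ℓ`-th powers act semisimply.  (The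
subalgebra `D` generated by them is commutative, finite-dimensional and spanned by `ℓ`-th
powers: it is reduced by RED, so semisimple (`IsArtinianRing`), and every `D`-submodule of `T` has a
complement.) -/
def SstStmt : Prop :=
  ∀ (ℓ : ℕ) [Fact ℓ.Prime] (L I T : Type) [Field L] [CharP L ℓ] [AddCommGroup T] [Module L T]
    [Module.Finite L T] (y : I → Module.End L T), (∀ i i', y i * y i' = y i' * y i) →
    (∀ i, ∃ z ∈ Algebra.adjoin L (Set.range y), ∃ s : L, y i = s • z ^ ℓ) →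
    ∀ U : Submodule L T, (∀ i, ∀ u ∈ U, y i u ∈ U) →
      ∃ U' : Submodule L T, IsCompl U U' ∧ ∀ i, ∀ u ∈ U', y i u ∈ U'

/-- AVG: averaging of an invariant complement.  (Projection `π` onto `U` along `U'`;
`|E|⁻¹ ∑ e, ρ e ∘ π ∘ ρ e⁻¹` is a projection onto `U` which commutes with all `y i` and `ρ e`; its
kernel is the new complement.) -/
def AvgStmt : Prop :=
  ∀ (L I E T : Type) [Field L] [Group E] [Fintype E] [AddCommGroup T] [Module L T]
    (y : I → Module.End L T) (ρ : E →* Module.End L T) (η : I → E →* Lˣ),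
    (Fintype.card E : L) ≠ 0 → (∀ i e, ρ e * y i = (η i e : L) • (y i * ρ e)) →
    ∀ U U' : Submodule L T, IsCompl U U' → (∀ i, ∀ u ∈ U, y i u ∈ U) →
      (∀ i, ∀ u ∈ U', y i u ∈ U') → (∀ e, ∀ u ∈ U, ρ e u ∈ U) →
      ∃ W : Submodule L T, IsCompl U W ∧ (∀ i, ∀ u ∈ W, y i u ∈ W) ∧ ∀ e, ∀ u ∈ W, ρ e u ∈ W

/-- SSR: the representations over the fraction field with `x = 0` are semisimple.  (The operators
`τ (j (X i))` vanish for `i` in the cycle of `i0` by CYC; for `i` outside the cycle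
`j (X i) ^ q i = t • j (X (p i))`, so every `τ (j (X i))` is `t⁻¹` times the `q i'`-th power of
`τ (j (X i'))`, `i' = p⁻¹ i`; SST, then AVG; the order is spanned by the `j f * ε e`.) -/
def SsrStmt : Prop :=
  ∀ (ℓ : ℕ) [Fact ℓ.Prime] (F I E Λ : Type) [Field F] [CharP F ℓ] [Fintype I] [DecidableEq I]
    [Group E] [Fintype E] [Ring Λ] [Algebra (PowerSeries F) Λ] (a : I → ℕ) (p : Equiv.Perm I)
    (i0 : I) (η : I → E →* (PowerSeries F)ˣ)
    (P : Pre (PowerSeries F) I E Λ (fun i => ℓ ^ a i) p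
      (cc (PowerSeries F) I PowerSeries.X i0) η),
    (∀ i, 1 ≤ a i) → (Fintype.card E : F) ≠ 0 →
    ∀ (L T : Type) [Field L] [Algebra (PowerSeries F) L] [IsFractionRing (PowerSeries F) L]
      [AddCommGroup T] [Module L T] [Module.Finite L T]
      (τ : B1.Rp (PowerSeries F) Λ L T), (∀ u, τ.ρ (P.j (X (p i0))) u = 0) →
      ∀ U : Submodule L T, (∀ z, ∀ u ∈ U, τ.ρ z u ∈ U) →
        ∃ U' : Submodule L T, IsCompl U U' ∧ ∀ z, ∀ u ∈ U', τ.ρ z u ∈ U'

/-- NKF: the order has the properties `Nak` (CYC, ANN, NRM, AUG, SSR, with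
`Q = ∏ q i` over the cycle of `i0`). -/
def NkfStmt : Prop :=
  ∀ (ℓ : ℕ) [Fact ℓ.Prime] (F I E Λ : Type) [Field F] [CharP F ℓ] [Fintype I] [DecidableEq I]
    [Group E] [Fintype E] [Ring Λ] [Algebra (PowerSeries F) Λ] (a : I → ℕ) (p : Equiv.Perm I)
    (i0 : I) (η : I → E →* Fˣ)
    (P : Pre (PowerSeries F) I E Λ (fun i => ℓ ^ a i) p
      (cc (PowerSeries F) I PowerSeries.X i0) (ηη (PowerSeries F) η)),
    (∀ i, 1 ≤ a i) → (∀ i e, η i e ^ ℓ ^ a i = η (p i) e) → (Fintype.card E : F) ≠ 0 →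
    ∃ N : Nak F E Λ, N.ε = P.ε

/-! ### Part 4: eigenvectors in the group algebra of `V` -/

/-- DEC: eigenspaces of a finite commutative group of order prime to the characteristic. -/
def DecStmt : Prop :=
  ∀ (F E M : Type) [Field F] [IsAlgClosed F] [CommGroup E] [Fintype E] [Finite (E →* Fˣ)]
    [AddCommGroup M] [Module F M] [Module.Finite F M] (T : E →* Module.End F M),
    (Fintype.card E : F) ≠ 0 →
    (∀ U : Submodule F M, (∀ e, ∀ u ∈ U, T e u ∈ U) →
      Module.finrank F U = ∑ᶠ η : E →* Fˣ,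
        Module.finrank F (U ⊓ Eg F (fun e => T e) η : Submodule F M) ∧
      U = ⨆ η : E →* Fˣ, (U ⊓ Eg F (fun e => T e) η : Submodule F M)) ∧
    ∀ A B : Submodule F M, (∀ e, ∀ u ∈ A, T e u ∈ A) → (∀ e, ∀ u ∈ B, T e u ∈ B) →
      ∀ η : E →* Fˣ, (A ⊔ B) ⊓ Eg F (fun e => T e) η =
        (A ⊓ Eg F (fun e => T e) η) ⊔ (B ⊓ Eg F (fun e => T e) η)

/-- LIN: vectors of `A` which form a basis of `U` modulo `W`. -/
def LinStmt : Prop :=
  ∀ (F M : Type) [Field F] [AddCommGroup M] [Module F M] [Module.Finite F M]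
    (A W U : Submodule F M), W ≤ U → U = A ⊔ W →
    ∃ x : Fin (Module.finrank F U - Module.finrank F W) → M, (∀ k, x k ∈ A) ∧
      Submodule.span F (Set.range x) ⊔ W = U

/-- FRB: the coefficient Frobenius `∑ c v • v ↦ ∑ c v ^ ℓ • v` (a bijective semilinear ring
automorphism which commutes with `E`) maps `Ua a ⊓ Eg η` onto `Ua a ⊓ Eg (η ^ ℓ)`. -/
def FrbStmt : Prop :=
  ∀ (ℓ : ℕ) [Fact ℓ.Prime] (F V E : Type) [Field F] [CharP F ℓ] [IsAlgClosed F] [CommGroup V]
    [Finite V] [Group E] (φ : E →* MulAut V) (a : ℕ) (η : E →* Fˣ),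
    Module.finrank F (Ua F V ℓ a ⊓ Eg F (fun e => (ac F φ e).toLinearMap) η :
        Submodule F (MonoidAlgebra F V)) =
      Module.finrank F (Ua F V ℓ a ⊓ Eg F (fun e => (ac F φ e).toLinearMap) (η ^ ℓ) :
        Submodule F (MonoidAlgebra F V))

/-- SPN: `Au / Ua a` is spanned by the classes of the `v - 1`, `v` in a set of generators of
`V / Ka a` (an elementary abelian `ℓ`-group): `v ↦ v - 1` is a homomorphism
modulo `Au2`. -/
def SpnStmt : Prop :=
  ∀ (ℓ : ℕ) [Fact ℓ.Prime] (F V : Type) [Field F] [CharP F ℓ] [CommGroup V] [Finite V] (a : ℕ),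
    Ua F V ℓ a ≤ Au F V ∧
    ℓ ^ (Module.finrank F (Au F V) - Module.finrank F (Ua F V ℓ a)) ≤ (Ka V ℓ a).index

/-- CNT: `V / Ka a` is isomorphic to `V ^ (ℓ ^ a) / V ^ (ℓ ^ (a+1))`. -/
def CntStmt : Prop :=
  ∀ (ℓ : ℕ) [Fact ℓ.Prime] (V : Type) [CommGroup V] [Finite V] (m : ℕ),
    (∀ v : V, v ^ ℓ ^ m = 1) → ∏ a ∈ Finset.range m, (Ka V ℓ a).index = Nat.card V

/-- NKY: if the `x i` span `Au` modulo `Au2` and `x i ^ q i = 0` then the reduced monomials span
`F V` (`Au` is nilpotent since `V` is an `ℓ`-group). -/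
def NkyStmt : Prop :=
  ∀ (ℓ : ℕ) [Fact ℓ.Prime] (F V I : Type) [Field F] [CharP F ℓ] [CommGroup V] [Finite V]
    [Fintype I] (q : I → ℕ) (x : I → MonoidAlgebra F V), IsPGroup ℓ V → (∀ i, 0 < q i) →
    Submodule.span F (Set.range x) ⊔ Au2 F V = Au F V → (∀ i, x i ^ q i = 0) →
    Submodule.span F (Set.range fun α : ∀ i, Fin (q i) => ∏ i, x i ^ (α i : ℕ)) = ⊤

/-- the eigenvector presentation of the group algebra of `V` -/
structure Eig (ℓ : ℕ) (F V E I : Type) [Field F] [CommGroup V] [Group E] [Fintype I]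
    (φ : E →* MulAut V) where
  a : I → ℕ
  a1 : ∀ i, 1 ≤ a i
  p : Equiv.Perm I
  η : I → E →* Fˣ
  hη : ∀ i e, η i e ^ ℓ ^ a i = η (p i) e
  x : I → MonoidAlgebra F V
  x0 : ∀ i, x i ^ ℓ ^ a i = 0
  xe : ∀ i e, ac F φ e (x i) = (η i e : F) • x i
  b : Module.Basis (∀ i, Fin (ℓ ^ a i)) F (MonoidAlgebra F V)
  hb : ∀ α, b α = ∏ i, x i ^ (α i : ℕ)

/-- EIG: existence of the eigenvector presentation.  Proof.  `ℓ ^ m` the exponent of `V`;
`n a η = finrank (Ua a ⊓ Eg η) - finrank (Ua (a-1) ⊓ Eg η)`, `n a η = n a (η ^ ℓ)` by FRB;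
`I = {(a, η, s) : 1 ≤ a ≤ m, s < n a η}`, `p (a, η, s) = (a, η ^ (ℓ ^ a), s)` (bijective: the order of `η`
is prime to `ℓ`); vectors `x` in `Ia a ⊓ Eg η` by LIN and DEC (`Ua a = Ia a ⊔ Ua (a-1)`); they span `Au`
modulo `Au2` (DEC); NKY; the number of reduced monomials is
`ℓ ^ ∑ a (dim Ua a - dim Ua (a-1)) = ∏ (a < m) ℓ ^ (dim Au - dim Ua a) ≤ |V|` by SPN and CNT, so they are
a basis. -/
def EigStmt : Prop :=
  ∀ (ℓ : ℕ) [Fact ℓ.Prime] (F V E : Type) [Field F] [CharP F ℓ] [IsAlgClosed F] [CommGroup V]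
    [Finite V] [CommGroup E] [Fintype E] (φ : E →* MulAut V), IsPGroup ℓ V → Nontrivial V →
    (Fintype.card E : F) ≠ 0 →
    ∃ (I : Type) (_ : Fintype I) (_ : Nonempty I), Nonempty (Eig ℓ F V E I φ)

/-! ### Part 5: the special fibre and the final statement -/

/-- FIB: the special fibre.  (`fb.q` by `up`: `X i ↦ x i`, `ε e ↦ inr e`, scalars by
`constantCoeff`; the basis of the order goes to the basis `x ^ α * e` of `F[V ⋊ E]`.) -/
def FibStmt : Prop :=
  ∀ (ℓ : ℕ) [Fact ℓ.Prime] (F V E I Λ : Type) [Field F] [CharP F ℓ] [CommGroup V] [Finite V]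
    [CommGroup E] [Fintype E] [Fintype I] [DecidableEq I] [Ring Λ] [Algebra (PowerSeries F) Λ]
    (φ : E →* MulAut V) (D : Eig ℓ F V E I φ) (i0 : I)
    (P : Pre (PowerSeries F) I E Λ (fun i => ℓ ^ D.a i) D.p
      (cc (PowerSeries F) I PowerSeries.X i0) (ηη (PowerSeries F) D.η)),
    ∃ fb : B1.Fib F Λ (MonoidAlgebra F (V ⋊[φ] E)),
      ∀ e, fb.q (P.ε e) = MonoidAlgebra.of F (V ⋊[φ] E) (SemidirectProduct.inr e)

/-- FAM: the output of block B3 (SKE, NKF, EIG, FIB). -/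
def FamStmt : Prop :=
  ∀ (ℓ : ℕ) [Fact ℓ.Prime] (F V E : Type) [Field F] [CharP F ℓ] [IsAlgClosed F] [Group V]
    [Group E] (φ : E →* MulAut V) [Fintype (V ⋊[φ] E)],
    (∀ a b : V, a * b = b * a) → (∀ a b : E, a * b = b * a) → IsPGroup ℓ V → Nontrivial V →
    ¬ ℓ ∣ Nat.card E →
    ∃ (Γ : Type) (_ : Ring Γ) (_ : Algebra (PowerSeries F) Γ)
      (_ : Module.Finite (PowerSeries F) Γ) (_ : Module.Free (PowerSeries F) Γ)
      (fb : B1.Fib F Γ (MonoidAlgebra F (V ⋊[φ] E))) (N : Nak F E Γ),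
      ∀ e, fb.q (N.ε e) = MonoidAlgebra.of F (V ⋊[φ] E) (SemidirectProduct.inr e)

end Pool.Agent.PFC.B3
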