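import Pool.Agent.PFC.DefsP2
import Pool.Agent.WAX.Stmts

/-!
# Squad PFC: the chain of the final steps

`ls F A` (`DefsP.lean`) is the number of simple `A`-modules, `SExt F γ` the output of part (0) and
`PIn F φ α` (`DefsP2.lean`) its input.
`Cy V γ`: the inertial quotient is cyclic.  `Fr V γ` (squad AT8): it acts freely on `V - 1`.

blocks: `PibStmt` (B6) gives `PIn`; `PuiStmt` (B4, B5; `DefsP2.lean`) gives `SExt`; `DefStmt` (B1, B2,
B3) gives the lower bound; `FctStmt` is theorem FC.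
-/

open scoped BigOperators

noncomputable section

namespace Pool.Agent.PFC

open Pool.Agent.Helper51_AWC Pool.Agent.Helper79_WRA Pool.Agent.PP Pool.Agent.PP.KF
open Pool.Agent.PP.K9 Pool.Agent.PP.K9.H97 Pool.Agent.PP.H75 Pool.Agent.PP.T3 Pool.Agent.PP.T2
open Pool.Agent.PP.T8 (Fr)

attribute [local instance] Ideal.Quotient.field

section defs

variable {G : Type} [Group G]

/-- The inertial quotient is cyclic: `T` is generated by `C(V)` and one element. -/
def Cy {F : Type} (V : Subgroup G) (γ : G → F) : Prop :=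
  ∃ t ∈ Tg V γ, ∀ x ∈ Tg V γ, ∃ k : ℕ, t ^ k * x⁻¹ ∈ Subgroup.centralizer (V : Set G)

end defs

/-- DEF: the deformation theorem (blocks B1, B2, B3).

`A` is an algebra over an algebraically closed field of characteristic `ℓ` with the structure `SExt`
over the group algebra of `V ⋊ E`, `V ≠ 1` an abelian `ℓ`-group, `E` cyclic, free on `V - 1`.  Then `A`
has at least `|E|` simple modules. -/
def DefStmt : Prop :=
  ∀ (F V E A : Type) [Field F] [IsAlgClosed F] [CommGroup V] [Fintype V] [Group E] [Fintype E]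
    [Ring A] [Algebra F A] (ℓ : ℕ) [CharP F ℓ] (φ : E →* MulAut V) (e0 : E)
    [Fintype (V ⋊[φ] E)] (γ : V ⋊[φ] E →* A), Ctx ℓ φ e0 → SExt F γ → Nat.card E ≤ ls F A

/-- PIB: the input of part (0) for blocks (block B6). -/
def PibStmt : Prop := ∀ (ℓ : ℕ) [Fact ℓ.Prime] (M : Ideal (integralClosure ℤ ℂ)) [M.IsMaximal],
  (ℓ : integralClosure ℤ ℂ) ∈ M → ∀ (G : Type) [Group G] [Finite G] (e : G → FF M)
  (V : Subgroup G) (γ : G → FF M), Ld ℓ e V γ → V ≠ ⊥ → Fr V γ → Cy V γ →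
  ∃ (W E A : Type) (_ : CommGroup W) (_ : Fintype W) (_ : Group E) (_ : Fintype E) (_ : Ring A)
    (_ : Algebra (FF M) A) (φ : E →* MulAut W) (e0 : E) (α : W →* A),
    Ctx ℓ φ e0 ∧ PIn (FF M) φ ⊥ α ∧ Nat.card E = ix V γ ∧ ls (FF M) A ≤ ln e

/-- FCT: theorem FC.  Proof.  PIB, `PuiStmt`, DEF (`Nat.card E ≤ ls F A' ≤ ls F A ≤ ln e`,
`Nat.card E = ix V γ`), and `T8.LfrStmt` for the other inequality. -/
def FctStmt : Prop := ∀ (ℓ : ℕ) [Fact ℓ.Prime] (M : Ideal (integralClosure ℤ ℂ)) [M.IsMaximal],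
  (ℓ : integralClosure ℤ ℂ) ∈ M → ℓ ≠ 2 → ∀ (G : Type) [Group G] [Finite G] (e : G → FF M)
  (V : Subgroup G) (γ : G → FF M), Ld ℓ e V γ → V ≠ ⊥ → Fr V γ → Cy V γ → ln e = ix V γ

end Pool.Agent.PFC
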