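import Mathlib

/-!
Squad PFC, block B4: linear representations of a finite group H on an F-space M,
fixed vectors, Brauer kernels, permutation summands (frames), the Higman form of
projectivity, and the bimodule representation of an interior algebra.
-/

namespace Pool.Agent.PFC

section Defs

variable {F H M : Type} [Field F] [Group H] [AddCommGroup M] [Module F M]

/-- The vectors fixed by the subgroup P. -/
def Fx (ρ : H →* (M →ₗ[F] M)) (P : Subgroup H) : Submodule F M where
  carrier := {m | ∀ h ∈ P, ρ h m = m}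
  add_mem' := by
    intro a b ha hb h hh
    rw [map_add, ha h hh, hb h hh]
  zero_mem' := by
    intro h _
    exact map_zero _
  smul_mem' := by
    intro c a ha h hh
    rw [map_smul, ha h hh]

/-- S is a left transversal of P' in P. -/
def IsTv (P' P : Subgroup H) (S : Finset H) : Prop :=
  (∀ s ∈ S, s ∈ P) ∧ ∀ p ∈ P, ∃! s, s ∈ S ∧ s⁻¹ * p ∈ P'

/-- The Brauer kernel at P: the span of all relative traces from proper subgroups of P.
The Brauer quotient M(P) is Fx ρ P modulo BK ρ P. -/
def BK (ρ : H →* (M →ₗ[F] M)) (P : Subgroup H) : Submodule F M :=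
  Submodule.span F {n | ∃ (P' : Subgroup H) (S : Finset H) (m : M),
    P' < P ∧ IsTv P' P S ∧ m ∈ Fx ρ P' ∧ n = ∑ x ∈ S, ρ x m}

/-- An equivariant frame: vectors b and functionals c indexed by a finite H-set with
m = sum of c ω m • b ω. It is the same as a realisation of M as a direct summand of the
permutation module of Ω. -/
def IsFr (ρ : H →* (M →ₗ[F] M)) {Ω : Type} [Fintype Ω] [MulAction H Ω]
    (b : Ω → M) (c : Ω → (M →ₗ[F] F)) : Prop :=
  (∀ (h : H) (ω : Ω), b (h • ω) = ρ h (b ω)) ∧
  (∀ (h : H) (ω : Ω) (m : M), c (h • ω) (ρ h m) = c ω m) ∧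
  ∀ m : M, ∑ ω, c ω m • b ω = m

/-- M is a direct summand of a permutation module all whose stabilisers satisfy X. -/
def PS (X : Subgroup H → Prop) (ρ : H →* (M →ₗ[F] M)) : Prop :=
  ∃ (Ω : Type) (_ : Fintype Ω) (_ : MulAction H Ω) (b : Ω → M) (c : Ω → (M →ₗ[F] F)),
    IsFr ρ b c ∧ ∀ ω : Ω, X (MulAction.stabilizer H ω)

/-- Higman form of projectivity (for the whole finite group H). -/
def Hig [Fintype H] (ρ : H →* (M →ₗ[F] M)) : Prop :=
  ∃ a : M →ₗ[F] M, ∀ m : M, ∑ h : H, ρ h (a (ρ h⁻¹ m)) = m

/-- Restriction of a representation along a homomorphism. -/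
def rst {K : Type} [Group K] (ρ : H →* (M →ₗ[F] M)) (φ : K →* H) : K →* (M →ₗ[F] M) :=
  ρ.comp φ

end Defs

section Interior

variable {F V A : Type} [Field F] [Group V] [Ring A] [Algebra F A]

/-- The V × V representation of an interior V-algebra: (u, v) a = u a v⁻¹. -/
def bi (F : Type) [Field F] [Algebra F A] (α : V →* A) : V × V →* (A →ₗ[F] A) where
  toFun := fun w =>
    (LinearMap.mulLeft F (α w.1)).comp (LinearMap.mulRight F (α w.2⁻¹))
  map_one' := by
    ext a
    simp
  map_mul' := by
    intro x y
    ext a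
    simp [mul_assoc]

/-- The conjugation representation of an interior V-algebra: u a u⁻¹. -/
def cj (F : Type) [Field F] [Algebra F A] (α : V →* A) : V →* (A →ₗ[F] A) where
  toFun := fun u => bi F α (u, u)
  map_one' := (bi F α).map_one
  map_mul' := by
    intro x y
    have h : ((x * y, x * y) : V × V) = (x, x) * (y, y) := rfl
    rw [h, (bi F α).map_mul]

/-- The twisted diagonal subgroup of V × V: all (φ u, u) with u in R. -/
def tw (φ : V →* V) (R : Subgroup V) : Subgroup (V × V) :=
  R.map (φ.prod (MonoidHom.id V))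

end Interior

end Pool.Agent.PFC
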