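import Pool.Agent.PFC.DefsP
import Pool.Agent.PFC.DefsB4

/-!
# Squad PFC: the input of part (0) (the stable equivalence), and its chain

`F` is an algebraically closed field of characteristic `ℓ`, `V` a finite abelian `ℓ`-group, `E` a
cyclic `ℓ'`-group with generator `e0` which acts freely on `V - 1`, `A` a finite-dimensional
`F`-algebra and `α : V → A` a homomorphism to the units (an interior `V`-algebra).
-/

open scoped BigOperators TensorProduct

noncomputable section

namespace Pool.Agent.PFC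

/-- The groups: `V` an `ℓ`-group, the order of `E` is prime to `ℓ`, `W ≠ V` an `E`-stable subgroup
with an `E`-stable complement, and `E` acts freely on the complement, i.e. the nontrivial elements of
`E` have their fixed points in `W`.  (`W = 1`: `E` acts freely on `V - 1`.) -/
structure Ctf {V E : Type} [CommGroup V] [Group E] (ℓ : ℕ) (φ : E →* MulAut V)
    (W : Subgroup V) : Prop where
  pr : ℓ.Prime
  pg : IsPGroup ℓ V
  nt : ∃ u : V, u ∉ W
  cop : ¬ ℓ ∣ Nat.card E
  stab : ∀ e : E, ∀ u ∈ W, φ e u ∈ W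
  cmp : ∃ U : Subgroup V, IsCompl U W ∧ ∀ e : E, ∀ u ∈ U, φ e u ∈ U
  free : ∀ (e : E) (u : V), φ e u = u → e = 1 ∨ u ∈ W

/-- The groups for `E` cyclic: `V` a nontrivial `ℓ`-group, `E` cyclic with generator `e0`, of order
prime to `ℓ`, free on `V - 1`. -/
structure Ctx {V E : Type} [CommGroup V] [Group E] (ℓ : ℕ) (φ : E →* MulAut V) (e0 : E) :
    Prop where
  pr : ℓ.Prime
  pg : IsPGroup ℓ V
  nt : ∃ u : V, u ≠ 1
  cop : ¬ ℓ ∣ Nat.card E
  gen : ∀ e : E, e ∈ Subgroup.zpowers e0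
  free : ∀ (e : E) (u : V), φ e u = u → e = 1 ∨ u = 1

theorem Ctx.ctf {V E : Type} [CommGroup V] [Group E] {ℓ : ℕ} {φ : E →* MulAut V} {e0 : E}
    (h : Ctx ℓ φ e0) : Ctf ℓ φ ⊥ := by
  refine ⟨h.pr, h.pg, ?_, h.cop, ?_, ⟨⊤, isCompl_top_bot, fun _ _ _ => trivial⟩, ?_⟩
  · obtain ⟨u, hu⟩ := h.nt
    exact ⟨u, fun h' => hu (Subgroup.mem_bot.1 h')⟩
  · intro e u hu
    rw [Subgroup.mem_bot.1 hu, map_one]
    exact Subgroup.one_mem _
  · intro e u hu
    rcases h.free e u hu with h1 | h1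
    · exact Or.inl h1
    · exact Or.inr (Subgroup.mem_bot.2 h1)

section inp

variable (F : Type) {V E A : Type} [Field F] [CommGroup V] [Group E] [Ring A] [Algebra F A]

/-- the centraliser of the subgroup `Q` of `V` in `A` -/
def Cz (α : V →* A) (Q : Subgroup V) : Subalgebra F A :=
  Subalgebra.centralizer F (α '' (Q : Set V))

/-- `lam` is a symmetrising form, and it does not vanish at the sum of the elements of `V`. -/
structure Frm [Fintype V] (α : V →* A) (lam : A →ₗ[F] F) : Prop where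
  sym : ∀ a b, lam (a * b) = lam (b * a)
  nd : ∀ a, (∀ b, lam (a * b) = 0) → a = 0
  nz : lam (∑ u, α u) ≠ 0

/-- `A(V) = F V`: the centraliser of `V` is the direct sum of the span of `V` (which is free) and
of the Brauer kernel. -/
structure Tpv [Fintype V] (α : V →* A) : Prop where
  span : ∀ a ∈ Fx (cj F α) ⊤, ∃ c : V → F, a - ∑ u, c u • α u ∈ BK (cj F α) ⊤
  free : ∀ c : V → F, ∑ u, c u • α u ∈ BK (cj F α) ⊤ → c = 0

/-- `π` is the surjection `A(Q) → A(Q)/J(A(Q)) = Mat_n(F)`, and `n` is prime to `ℓ`. -/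
structure Lcq (α : V →* A) (Q : Subgroup V) (n : ℕ)
    (π : Cz F α Q →ₐ[F] Matrix (Fin n) (Fin n) F) : Prop where
  pos : 0 < n
  sur : Function.Surjective π
  bk : ∀ a : Cz F α Q, (a : A) ∈ BK (cj F α) Q → π a = 0
  nil : ∀ a : Cz F α Q, π a = 0 → ∃ N : ℕ, (a : A) ^ N ∈ BK (cj F α) Q
  cop : (n : F) ≠ 0

/-- The input of part (0): the local conditions are for the subgroups which are not in `W`. -/
structure PIn [Fintype V] (φ : E →* MulAut V) (W : Subgroup V) (α : V →* A) : Prop where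
  fin : FiniteDimensional F A
  frm : ∃ lam, Frm F α lam
  loc : IsLocalRing (Cz F α ⊤)
  ps : PS (fun K => ∃ (e : E) (R : Subgroup V), K = tw (φ e).toMonoidHom R) (bi F α)
  top : Tpv F α
  lcq : ∀ Q : Subgroup V, ¬ Q ≤ W → ∃ n π, Lcq F α Q n π
  uni : ∀ e : E, ∃ y y' : A, y * y' = 1 ∧ y' * y = 1 ∧ ∀ u, y * α u = α (φ e u) * y

/-- The output of part (0) for every `E` (before the choice of the units which give the group
algebra of `V : E`, or the twisted group algebra): `A(R) = F V` for all `R` not in `W`. -/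
structure PMid [Fintype V] (φ : E →* MulAut V) (W : Subgroup V) (α : V →* A) : Prop where
  fin : FiniteDimensional F A
  frm : ∃ lam, Frm F α lam
  loc : IsLocalRing (Cz F α ⊤)
  one : (1 : A) ∉ BK (cj F α) ⊤
  ps : PS (fun K => ∃ (e : E) (R : Subgroup V), K = tw (φ e).toMonoidHom R) (bi F α)
  spn : ∀ R : Subgroup V, ¬ R ≤ W → ∀ a ∈ Fx (cj F α) R, ∃ c : V → F,
    a - ∑ u, c u • α u ∈ BK (cj F α) R
  uni : ∀ e : E, ∃ y y' : A, y * y' = 1 ∧ y' * y = 1 ∧ ∀ u, y * α u = α (φ e u) * y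

end inp

/-- Part (0) for every `E`. -/
def PmdStmt : Prop :=
  ∀ (F V E A : Type) [Field F] [IsAlgClosed F] [CommGroup V] [Fintype V] [Group E] [Fintype E]
    [Ring A] [Algebra F A] (ℓ : ℕ) [CharP F ℓ] (φ : E →* MulAut V) (W : Subgroup V)
    (α : V →* A), Ctf ℓ φ W → PIn F φ W α →
    ∃ (A' : Type) (_ : Ring A') (_ : Algebra F A') (α' : V →* A'),
      PMid F φ W α' ∧ ls F A' ≤ ls F A

/-- Part (0) for every `E`, with the dimension of the centre. -/
def PmzStmt : Prop :=
  ∀ (F V E A : Type) [Field F] [IsAlgClosed F] [CommGroup V] [Fintype V] [Group E] [Fintype E]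
    [Ring A] [Algebra F A] (ℓ : ℕ) [CharP F ℓ] (φ : E →* MulAut V) (W : Subgroup V)
    (α : V →* A), Ctf ℓ φ W → PIn F φ W α →
    ∃ (A' : Type) (_ : Ring A') (_ : Algebra F A') (α' : V →* A'),
      PMid F φ W α' ∧ ls F A' = ls F A ∧ Module.finrank F (Subalgebra.center F A') =
        Module.finrank F (Subalgebra.center F A)

/-- Part (0), `E` cyclic: from the input to the stably trivial extension of `F[V : E]`. -/
def PuiStmt : Prop :=
  ∀ (F V E A : Type) [Field F] [IsAlgClosed F] [CommGroup V] [Fintype V] [Group E] [Fintype E]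
    [Ring A] [Algebra F A] (ℓ : ℕ) [CharP F ℓ] (φ : E →* MulAut V) (e0 : E) (α : V →* A)
    [Fintype (V ⋊[φ] E)],
    Ctx ℓ φ e0 → PIn F φ ⊥ α →
    ∃ (A' : Type) (_ : Ring A') (_ : Algebra F A') (γ : V ⋊[φ] E →* A'),
      SExt F γ ∧ ls F A' ≤ ls F A

end Pool.Agent.PFC
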