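import Pool.Agent.PFC.DefsB4b
import Pool.Agent.PFC.StmtsB4a
import Pool.Agent.PFC.DefsP2

/-!
# Squad PFC, block B4b: statements (split Brauer quotients, interior algebras, gluing)

Definitions: `DefsB4.lean` (`Fx`, `IsTv`, `BK`, `IsFr`, `PS`, `bi`, `cj`, `tw`), `DefsB4b.lean` (`PT`, `BrS`, `IA`,
`ABr`, `BQ`, `CP`, `Iso`, `IsoT`, `IA.tens`, `IA.op`, `IA.one`, `IA.gr`, `Cor`, `Mx`, `Ret`, `Rz`, `Chr`, `Loc`, `prd`),
`DefsP2.lean` (`Cz`).  Key lemma on frames: `B4/Key.lean`.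

Two standard remarks, used everywhere.
(R1) Let `V` be a finite abelian `ℓ`-group, `char F = ℓ`, `K < Q ≤ V`, `S` a transversal of `K` in `Q`.
`|S|` is divisible by `ℓ`, so `|S| = 0` in `F`.  If `φ : M → N` is linear, `φ(ρ(q) m) = φ(m)` for `q ∈ Q`, then
`φ` kills `BK ρ Q`.
(R2) `PT ρ Q` is stable under left and right multiplication by linear maps which commute with all
`ρ(q)`, `q ∈ Q`; an element `T` of `PT ρ Q` maps `Fx ρ Q` into `BK ρ Q`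
(`T m = ∑ ρ(x) h(ρ(x⁻¹) m) = ∑ ρ(x) (h m)`, `h m ∈ Fx ρ K`).
-/

open scoped BigOperators TensorProduct

noncomputable section

namespace Pool.Agent.PFC

/-! ## Modules -/

/-- QSB: a summand of a permutation module has split Brauer quotients.

Proof.  Frame `b, c` on `Ω`.  `T(m) = ∑_(ω fixed by Q) c_ω(m) b_ω` commutes with `V` (`V` is abelian, so
`V` permutes the points fixed by `Q`), its values are in `Fx ρ Q`.  `D = 1 - T ∈ PT ρ Q`: the sum over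
the other points; for a `Q`-orbit of `ω`, `K` the stabiliser of `ω` in `Q`, `S` a transversal
(`exTv` in `B4/Key.lean`): `∑_(x ∈ S) c_(xω)(m) b_(xω) = ∑_x ρ(x) h(ρ(x⁻¹) m)` with `h(m) = c_ω(m) b_ω`.
`T` kills `BK ρ Q` (R1: `T` is equivariant with values in `Fx`: `T(∑ ρ(x) m) = ∑ ρ(x) T m = |S| T m = 0`),
and `T D T m ∈ T(BK) = 0` (R2), so `T² = T³`, `e = T²` is an idempotent which commutes with `V`.
`N` = the range of `e`, `ρ'` the restriction, `s` the inclusion, `β = e`; `1 - e = D (1 + T) ∈ PT`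
(R2). -/
def QsbStmt : Prop :=
  ∀ (ℓ : ℕ) [Fact ℓ.Prime] (F V M : Type) [Field F] [CharP F ℓ] [CommGroup V] [Finite V]
    [AddCommGroup M] [Module F M] (ρ : V →* (M →ₗ[F] M)), IsPGroup ℓ V →
    PS (fun _ => True) ρ → ∀ Q : Subgroup V,
    ∃ (N : Type) (_ : AddCommGroup N) (_ : Module F N) (ρ' : V →* (N →ₗ[F] N))
      (β : M →ₗ[F] N) (s : N →ₗ[F] M), BrS ρ ρ' Q β s

/-- QKE: kernel and image of a split Brauer quotient on the fixed vectors.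

Proof.  (1) `ρ(q) s(n) = s(ρ'(q) n) = s(n)`.  (2) `β(BK) = 0` by (R1); if `β m = 0`, `m` fixed, then
`m = (1 - sβ) m ∈ BK` by (R2).  (3) the same. -/
def QkeStmt : Prop :=
  ∀ (ℓ : ℕ) [Fact ℓ.Prime] (F V M N : Type) [Field F] [CharP F ℓ] [CommGroup V] [Finite V]
    [AddCommGroup M] [Module F M] [AddCommGroup N] [Module F N]
    (ρ : V →* (M →ₗ[F] M)) (ρ' : V →* (N →ₗ[F] N)) (Q : Subgroup V) (β : M →ₗ[F] N)
    (s : N →ₗ[F] M), IsPGroup ℓ V → BrS ρ ρ' Q β s →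
    (∀ n, s n ∈ Fx ρ Q) ∧ (∀ m ∈ Fx ρ Q, β m = 0 ↔ m ∈ BK ρ Q) ∧
    ∀ m ∈ Fx ρ Q, m - s (β m) ∈ BK ρ Q

/-- QDI: dimensions modulo `ℓ`.

Proof.  The trace of an element of `PT ρ Q` is `0`: `tr(∑_x ρ(x) h ρ(x)⁻¹) = |S| tr(h) = 0`.  So
`dim M = tr(1) = tr(s β) = tr(β s) = dim N` in `F`. -/
def QdiStmt : Prop :=
  ∀ (ℓ : ℕ) [Fact ℓ.Prime] (F V M N : Type) [Field F] [CharP F ℓ] [CommGroup V] [Finite V]
    [AddCommGroup M] [Module F M] [Module.Finite F M] [AddCommGroup N] [Module F N]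
    [Module.Finite F N]
    (ρ : V →* (M →ₗ[F] M)) (ρ' : V →* (N →ₗ[F] N)) (Q : Subgroup V) (β : M →ₗ[F] N)
    (s : N →ₗ[F] M), IsPGroup ℓ V → BrS ρ ρ' Q β s →
    (Module.finrank F M : F) = (Module.finrank F N : F)

/-- QTM: tensor products of split Brauer quotients.

Proof.  `1 - (sβ ⊗ s'β') = (1 - sβ) ⊗ 1 + sβ ⊗ (1 - s'β')`; `h ⊗ 1` commutes with `ρ(k) ⊗ σ(k)` if `h`
commutes with `ρ(k)`, and `∑ (ρ(x) ⊗ σ(x)) (h ⊗ 1) (ρ(x)⁻¹ ⊗ σ(x)⁻¹) = (∑ ρ(x) h ρ(x)⁻¹) ⊗ 1`; in the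
second term `sβ` commutes with `ρ(x)`: `∑ (ρ(x) ⊗ σ(x)) (sβ ⊗ h') (..)⁻¹ = sβ ⊗ ∑ σ(x) h' σ(x)⁻¹`. -/
def QtmStmt : Prop :=
  ∀ (F V M N M' N' : Type) [Field F] [CommGroup V] [Finite V]
    [AddCommGroup M] [Module F M] [AddCommGroup N] [Module F N]
    [AddCommGroup M'] [Module F M'] [AddCommGroup N'] [Module F N']
    (ρ : V →* (M →ₗ[F] M)) (ρ' : V →* (N →ₗ[F] N)) (σ : V →* (M' →ₗ[F] M'))
    (σ' : V →* (N' →ₗ[F] N')) (Q : Subgroup V) (β : M →ₗ[F] N) (s : N →ₗ[F] M)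
    (β' : M' →ₗ[F] N') (s' : N' →ₗ[F] M'), BrS ρ ρ' Q β s → BrS σ σ' Q β' s' →
    BrS (tns ρ σ) (tns ρ' σ') Q (TensorProduct.map β β') (TensorProduct.map s s')

/-! ## Algebras -/

/-- QAL: existence of `X(Q)` as an interior algebra.

Proof.  QSB for `cj` gives `N, β, s`.  `Fx (cj) Q` is the centraliser of `Q`, `BK (cj) Q` is a two-sided
ideal of it (`a ∑ x m x⁻¹ = ∑ x (a m) x⁻¹` for `a` in the centraliser of `Q`).  By QKE `β` induces a
linear isomorphism of the quotient algebra with `N`; take `Y.A` = the quotient algebra of the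
centraliser `Cz F X.ι Q` by the ideal (or `N` with the transported multiplication
`n n' = β(s n · s n')`), `Y.ι v` the class of `X.ι v` (`V` is abelian).  The action `ρ'` of `BrS` is `cj` of `Y`:
`β(v m v⁻¹) = β(v) β(m) β(v)⁻¹` for `m = s n`. -/
def QalStmt : Prop :=
  ∀ (ℓ : ℕ) [Fact ℓ.Prime] (F V : Type) [Field F] [CharP F ℓ] [CommGroup V] [Finite V]
    (X : IA F V), IsPGroup ℓ V → CP X → ∀ Q : Subgroup V, ∃ Y : IA F V, BQ X Y Q

/-- QAH: a given model of `X(Q)`.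

Proof.  QAL gives `Y', β', s'`.  By QKE (for `β'`) and the hypothesis on `π` both have the kernel
`BK` on the fixed algebra, and both are surjective on it, so there is an isomorphism `e : Y' → Y` of
algebras, `e(β' a) = π a` for fixed `a`.  `β = e β'`, `s = s' e⁻¹`. -/
def QahStmt : Prop :=
  ∀ (ℓ : ℕ) [Fact ℓ.Prime] (F V : Type) [Field F] [CharP F ℓ] [CommGroup V] [Finite V]
    (X Y : IA F V), IsPGroup ℓ V → CP X → ∀ (Q : Subgroup V) (π : Cz F X.ι Q →ₐ[F] Y.A),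
    Function.Surjective π → (∀ a, π a = 0 ↔ (a : X.A) ∈ BK (cj F X.ι) Q) →
    (∀ (v : V) (h : X.ι v ∈ Cz F X.ι Q), π ⟨X.ι v, h⟩ = Y.ι v) →
    ∃ (β : X.A →ₗ[F] Y.A) (s : Y.A →ₗ[F] X.A), ABr X Y Q β s ∧ ∀ a : Cz F X.ι Q, β a = π a

/-- QUN: uniqueness of `X(Q)`.  Proof.  `e(y) = β'(s y)`; by QKE `β` and `β'` have the same kernel on
the fixed vectors, so `e(β x) = β'(x)` for fixed `x`. -/
def QunStmt : Prop :=
  ∀ (ℓ : ℕ) [Fact ℓ.Prime] (F V : Type) [Field F] [CharP F ℓ] [CommGroup V] [Finite V]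
    (X Y Y' : IA F V) (Q : Subgroup V) (β : X.A →ₗ[F] Y.A) (s : Y.A →ₗ[F] X.A)
    (β' : X.A →ₗ[F] Y'.A) (s' : Y'.A →ₗ[F] X.A), IsPGroup ℓ V → ABr X Y Q β s → ABr X Y' Q β' s' →
    ∃ e : Y.A ≃ₐ[F] Y'.A, (∀ v, e (Y.ι v) = Y'.ι v) ∧ ∀ x ∈ Fx (cj F X.ι) Q, e (β x) = β' x

/-- QIS: `BQ` and the other notions are invariant under isomorphism; `Iso` is an equivalence relation
and respects tensor products and opposites; twisted isomorphisms.  All parts are formal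
(`Algebra.TensorProduct.congr`, `Algebra.TensorProduct.comm`, `Algebra.TensorProduct.assoc`,
`Algebra.TensorProduct.lid`, `AlgEquiv.op`). -/
def QisStmt : Prop :=
  ∀ (F V : Type) [Field F] [CommGroup V] [Finite V],
    (∀ X : IA F V, Iso X X) ∧ (∀ X Y : IA F V, Iso X Y → Iso Y X) ∧
    (∀ X Y Z : IA F V, Iso X Y → Iso Y Z → Iso X Z) ∧
    (∀ (X X' Y Y' : IA F V) (Q : Subgroup V), Iso X X' → Iso Y Y' → BQ X Y Q → BQ X' Y' Q) ∧
    (∀ X Y : IA F V, Iso X Y → CP X → CP Y) ∧ (∀ X Y : IA F V, Iso X Y → Mx X → Mx Y) ∧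
    (∀ X Y : IA F V, Iso X Y → Ret X → Ret Y) ∧
    (∀ X X' Y Y' : IA F V, Iso X X' → Iso Y Y' → Iso (X.tens Y) (X'.tens Y')) ∧
    (∀ X Y : IA F V, Iso X Y → Iso X.op Y.op) ∧
    (∀ X Y : IA F V, Iso (X.tens Y) (Y.tens X)) ∧
    (∀ X Y Z : IA F V, Iso ((X.tens Y).tens Z) (X.tens (Y.tens Z))) ∧
    (∀ X : IA F V, Iso ((IA.one F V).tens X) X) ∧ Iso (IA.one F V).op (IA.one F V) ∧
    (∀ (σ τ : MulAut V) (X Y Z : IA F V), IsoT σ X Y → IsoT τ Y Z → IsoT (τ * σ) X Z) ∧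
    (∀ (X Y : IA F V), IsoT 1 X Y ↔ Iso X Y) ∧
    (∀ (σ : MulAut V) (X X' Y Y' : IA F V), IsoT σ X X' → IsoT σ Y Y' →
      IsoT σ (X.tens Y) (X'.tens Y')) ∧
    (∀ (σ : MulAut V) (X Y : IA F V), IsoT σ X Y → IsoT σ X.op Y.op) ∧
    ∀ σ : MulAut V, IsoT σ (IA.one F V) (IA.one F V)

/-- QTE: tensor products of algebras.

Proof.  `TensorProduct.map β β'`, `TensorProduct.map s s'`, `BrS` by QTM (`cj` of the tensor product is
`tns` of the `cj`, check on pure tensors).  Multiplicativity on the fixed algebra: for `t` fixed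
`t = t₀ + z` with `t₀ = (sβ ⊗ s'β') t` in the span of the products of fixed vectors and
`z ∈ BK` (R2), `BK` is a two-sided ideal of the fixed algebra killed by `β ⊗ β'` (R1); on products
of fixed vectors `β ⊗ β'` is multiplicative. -/
def QteStmt : Prop :=
  ∀ (ℓ : ℕ) [Fact ℓ.Prime] (F V : Type) [Field F] [CharP F ℓ] [CommGroup V] [Finite V]
    (X Y X' Y' : IA F V) (Q : Subgroup V) (β : X.A →ₗ[F] Y.A) (s : Y.A →ₗ[F] X.A)
    (β' : X'.A →ₗ[F] Y'.A) (s' : Y'.A →ₗ[F] X'.A), IsPGroup ℓ V → ABr X Y Q β s →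
    ABr X' Y' Q β' s' →
    ABr (X.tens X') (Y.tens Y') Q (TensorProduct.map β β') (TensorProduct.map s s')

/-- QOP: opposite algebras and the trivial cases.

Proof.  `cj` of `X.op` is the same representation as `cj` of `X` (through `MulOpposite.op`), `β` and `s` are the
same maps; `mul` for the opposite is `mul` with the factors exchanged.  `V` acts trivially on `F` and
(by conjugation) on `F V`: `β = s = 1`. -/
def QopStmt : Prop :=
  ∀ (F V : Type) [Field F] [CommGroup V] [Finite V],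
    (∀ (X Y : IA F V) (Q : Subgroup V), BQ X Y Q → BQ X.op Y.op Q) ∧
    (∀ Q : Subgroup V, BQ (IA.one F V) (IA.one F V) Q) ∧
    ∀ Q : Subgroup V, BQ (IA.gr F V) (IA.gr F V) Q

/-- QCP: summands of permutation modules.

Proof.  Tensor products: `PstStmt`-frame `b_ω ⊗ b_ω'`, `c_ω ⊗ c_ω'` (`cj` of the tensor product is `tns`).
Opposite: the same frame.  Brauer quotient: `β b_ω`, `c_ω s` (`β` and `s` are equivariant, `β s = 1`).
Corner: `κ⁻¹(j b_ω j)`, `c_ω κ` (`j` commutes with `V`).  `F` and `F V`: trivial action, basis. -/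
def QcpStmt : Prop :=
  ∀ (F V : Type) [Field F] [CommGroup V] [Finite V],
    (∀ X Y : IA F V, CP X → CP Y → CP (X.tens Y)) ∧ (∀ X : IA F V, CP X → CP X.op) ∧
    (∀ (X Y : IA F V) (Q : Subgroup V), BQ X Y Q → CP X → CP Y) ∧
    (∀ (X Y : IA F V) (j : X.A) (κ : Y.A →ₗ[F] X.A), Cor X Y j κ → CP X → CP Y) ∧
    (∀ (P : Subgroup (V × V) → Prop) (X Y : IA F V) (j : X.A) (κ : Y.A →ₗ[F] X.A),
      Cor X Y j κ → PS P (bi F X.ι) → PS P (bi F Y.ι)) ∧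
    CP (IA.one F V) ∧ CP (IA.gr F V)

/-- QTR: transitivity.

Proof.  `CP Y` (QCP), so there is `Z'` with `BQ Y Z' R` (QAL).  Frame `b, c` of `X`; `β b_ω`, `c_ω s` is a
frame of `Y`, also if one uses only the points `ω` fixed by `Q` (`β b_ω`.. : for `y ∈ Y`,
`s y = ∑_(ω fixed by Q) c_ω(s y) b_ω + BK` by `frame_sub`, apply `β`).  With the key lemma
`frame_iff`: for `x` fixed by `Q ⊔ R`: `β x ∈ BK (cj Y) R` iff `c_ω(s β x) = 0` for all `ω` fixed by `Q` and `R`,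
and `c_ω(s β x) = c_ω(x)` for these (`x - s β x ∈ BK (cj X) Q`, `frame_BK`), iff `x ∈ BK (cj X) (Q ⊔ R)`.
The map `Fx X (Q ⊔ R) → Fx Y R → Z'` is surjective (use the sections `s`; `s` of an `R`-fixed element is
fixed by `Q` and by `R`).  So `Z` and `Z'` are the same quotient, `Iso Z' Z`, and QIS. -/
def QtrStmt : Prop :=
  ∀ (ℓ : ℕ) [Fact ℓ.Prime] (F V : Type) [Field F] [CharP F ℓ] [CommGroup V] [Finite V]
    (X Y Z : IA F V) (Q R : Subgroup V), IsPGroup ℓ V → CP X → BQ X Y Q → BQ X Z (Q ⊔ R) →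
    BQ Y Z R

/-- QCE: existence of corners.  Proof.  `Y.A` = the subspace `{a : j a = a, a j = a}` with the
multiplication of `X.A` and the unit `j`, `Y.ι v = X.ι v * j`. -/
def QceStmt : Prop :=
  ∀ (F V : Type) [Field F] [CommGroup V] (X : IA F V) (j : X.A), j * j = j →
    (∀ v, X.ι v * j = j * X.ι v) → ∃ (Y : IA F V) (κ : Y.A →ₗ[F] X.A), Cor X Y j κ

/-- QCB: the Brauer quotient of a corner.

Proof.  `θ(a) = j a j` on `X.A`, `κ'(b) = β(j) b β(j)` on `Y.A`, both commute with `V`, `X'.A = θ(X.A)`,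
`Y'.A = κ'(Y.A)` through `κ`, `κy`.  Put `β'(a) = κ'(β a)`, `s'(b) = θ(s b)`.  For fixed `a`:
`β(j a j) = β(j) β(a) β(j)`, so `β' s' = 1` and `β'(a) = β(a)` for fixed `a` in the corner.
`1 - s'β' ∈ PT`: `φ = β θ - κ' β` is equivariant and vanishes on `Fx Q`, so
`φ = φ (sβ + T) = φ T` with `T = 1 - sβ ∈ PT`; on the corner
`1 - s'β' = θ - θ s κ' β = θ - θ s β θ + θ s φ = θ T θ + θ s φ T` (`θ = 1` on the corner, `sβ = 1 - T`),
in `PT` by (R2) (transport to the corner with `κ`: `h` becomes `κ⁻¹ θ h κ`). -/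
def QcbStmt : Prop :=
  ∀ (ℓ : ℕ) [Fact ℓ.Prime] (F V : Type) [Field F] [CharP F ℓ] [CommGroup V] [Finite V]
    (X Y X' Y' : IA F V) (Q : Subgroup V) (β : X.A →ₗ[F] Y.A) (s : Y.A →ₗ[F] X.A) (j : X.A)
    (κ : X'.A →ₗ[F] X.A) (κy : Y'.A →ₗ[F] Y.A), IsPGroup ℓ V → ABr X Y Q β s → Cor X X' j κ →
    Cor Y Y' (β j) κy →
    ∃ (β' : X'.A →ₗ[F] Y'.A) (s' : Y'.A →ₗ[F] X'.A), ABr X' Y' Q β' s' ∧
      ∀ a ∈ Fx (cj F X'.ι) Q, κy (β' a) = β (κ a)

/-- QCA: cancellation of `F V`.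

Proof.  Let `g : S ⊗ F V → S' ⊗ F V → S'` be the isomorphism followed by the augmentation, a surjective
homomorphism with `g(S.ι v ⊗ v) = S'.ι v`.  The augmentation ideal `J` of `F V` is nilpotent (`V` is an
`ℓ`-group), `S ⊗ J` is a nilpotent ideal, its image in the simple algebra `S'` is a nilpotent ideal,
so `0`.  So `g` factors through `S ⊗ F V → S` (augmentation): `g' : S → S'` surjective,
`g'(S.ι v) = S'.ι v`.  The dimensions of `S` and `S'` agree (`dim S |V| = dim S' |V|`). -/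
def QcaStmt : Prop :=
  ∀ (ℓ : ℕ) [Fact ℓ.Prime] (F V : Type) [Field F] [CharP F ℓ] [CommGroup V] [Finite V]
    (S S' : IA F V), IsPGroup ℓ V → Mx S' → Iso (S.tens (IA.gr F V)) (S'.tens (IA.gr F V)) →
    Iso S S'

/-- QMX: matrix algebras.  Proof.  `Mat_n ⊗ Mat_m = Mat_nm`, transpose, `F = Mat_1`. -/
def QmxStmt : Prop :=
  ∀ (F V : Type) [Field F] [CommGroup V],
    (∀ X Y : IA F V, Mx X → Mx Y → Mx (X.tens Y)) ∧ (∀ X : IA F V, Mx X → Mx X.op) ∧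
    Mx (IA.one F V)

/-- QRE: `S ⊗ S^op` has the trivial summand.

Proof.  Identify `S` with `Mat_n(F)`, `n ≠ 0` in `F` (`dim S = n²`).
`π = n⁻¹ ∑_(k,l) E_kl ⊗ op(E_lk)`.  `(a ⊗ op b)` acts on `S` by `x ↦ a x b`; this is a faithful
representation of `S ⊗ S^op` (it is a simple algebra; or compute with matrix units), and `π` acts as
`x ↦ n⁻¹ tr(x) 1`.  `v = ι(v) ⊗ op(ι(v)⁻¹)` acts by conjugation, so `v π = π = π v`; `π² = π`;
`π a π = (n⁻¹ tr(a · 1)) π`.  Direct formulas: `(a ⊗ op b) π = (1 ⊗ op (b a)) π`.. also give it. -/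
def QreStmt : Prop :=
  ∀ (F V : Type) [Field F] [CommGroup V] (S : IA F V), Mx S → (Module.finrank F S.A : F) ≠ 0 →
    Ret (S.tens S.op)

/-- QRT: `Ret` for tensor products.  Proof.  `π ⊗ π'`; a tensor product of nonzero vectors is not
zero; `(π ⊗ π') (a ⊗ b) (π ⊗ π') = c c' π ⊗ π'`, linear in `a ⊗ b`.  `F`: `π = 1`. -/
def QrtStmt : Prop :=
  ∀ (F V : Type) [Field F] [CommGroup V],
    (∀ X Y : IA F V, Ret X → Ret Y → Ret (X.tens Y)) ∧ Ret (IA.one F V)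

/-! ## Local idempotents -/

/-- QCX: the character of `X^V` if `X(V) = F V`, and its uniqueness.

Proof.  `b(x) = ` the sum of the coefficients of `β x`.  Any character `b` (`Chr`) kills `BK ⊤` (R1);
for fixed `x`: `x - s(β x) ∈ BK` (QKE), so `b(x) = b(s(β x))`, and `y ↦ b(s y)` is an algebra
homomorphism `F V → F` (`s(y) s(y') - s(y y') ∈ BK` because `β` of it is `0`), so it is the
augmentation: an element of the `ℓ`-group `V` goes to an element of `ℓ`-power order of `F`, i.e. `1`. -/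
def QcxStmt : Prop :=
  ∀ (ℓ : ℕ) [Fact ℓ.Prime] (F V : Type) [Field F] [CharP F ℓ] [CommGroup V] [Finite V]
    (X : IA F V), IsPGroup ℓ V → BQ X (IA.gr F V) ⊤ →
    (∃ b, Chr X b) ∧ ∀ b b', Chr X b → Chr X b' → ∀ x ∈ Fx (cj F X.ι) ⊤, b x = b' x

/-- QLX: existence of a local idempotent over a character.

Proof.  `C = Fx ⊤` is a finite-dimensional algebra, `b : C → F` a homomorphism.  `C/J(C)` is semisimple,
`b` is the projection to a factor `F`; lift the idempotent `(1, 0)` to `j ∈ C`; `j C j / j J j = F`.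
Or: among the idempotents `j` of `C` with `b(j) = 1` take one with `dim j C j` minimal; if
`x ∈ j C j`, `b(x) = 0`, is not nilpotent then `F[x]` contains an idempotent `f ≠ 0`, `f ∈ x F[x]`
(Fitting), so `b(f) = 0`, and `j - f` has `b(j - f) = 1` and a smaller corner: contradiction. -/
def QlxStmt : Prop :=
  ∀ (F V : Type) [Field F] [CommGroup V] (X : IA F V) (b : X.A →ₗ[F] F), Chr X b →
    ∃ j, Loc X b j

/-- QLU: uniqueness up to conjugation.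

Proof.  `C = Fx ⊤`.  `j j' j` is in `j C j` with `b = 1`, so it is a unit of `j C j` (`1` plus a nilpotent
element); the same for `j' j j'`.  Let `p ∈ j C j` be the inverse of `j j' j`, `x = p j'`, `y = j' j`:
`x y = p j' j = p (j j' j) = j`, and `y x = j' j p j'` is an idempotent of `j' C j'` with `b = 1`, so
`j' - y x` is an idempotent with `b = 0`, nilpotent, so `0`: `y x = j'`.  So `j` and `j'` are equivalent
idempotents of the finite-dimensional algebra `C`; then `1 - j` and `1 - j'` are equivalent too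
(Krull-Schmidt; or modulo the radical: for `c ∈ j C` in the kernel of `b`.. the images of `j` and `j'` in
`C/J(C)` are both the unit of the factor `F`, so `j - j' ∈ J(C)` and `u = j' j + (1 - j')(1 - j)` is a unit,
`u j = j' u`).  To see `j - j' ∈ J(C)`: `C = C/J × ..`; `b(z) = 0`, `z ∈ C`: `j z ∈ J(C)` because `j z w j` is
nilpotent for all `w ∈ C` (it is `j (z w) j`, `b = 0`), so `1 - j z w` is invertible for all `w`
(`j z w` is nilpotent: `(j z w)^(n+1) = (j z w j)^n z w`).  With `z = 1 - j'`: `j - j j' ∈ J(C)`, and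
`j' j - j ∈ J(C)` in the same way from the other side, `j' - j j' ∈ J(C)` with the roles exchanged, so
`j ≡ j j' ≡ j'`. -/
def QluStmt : Prop :=
  ∀ (F V : Type) [Field F] [CommGroup V] (X : IA F V) (b : X.A →ₗ[F] F) (j j' : X.A), Chr X b →
    Loc X b j → Loc X b j' → ∃ u : X.Aˣ, (∀ v, (u : X.A) * X.ι v = X.ι v * u) ∧ u * j = j' * u

/-- QLB: the image of a local idempotent in a Brauer quotient.

Proof.  `c = b s`.  `c(v y v⁻¹) = b(v s(y) v⁻¹) = c(y)`.  For fixed `x`: `x - s β x` is in `BK R` and fixed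
by `V`, so it is in `BK ⊤` (`CmpStmt`, key lemma), killed by `b` (R1): `c(β x) = b(x)`.  For `V`-fixed
`y, y'`: `s y`, `s y'` are fixed, `c(y y') = c(β(s y s y')) = b(s y s y') = c(y) c(y')`;
`c(1) = c(β 1) = 1`.  `β(j)`: idempotent, fixed, `c(β j) = 1`; if `y` is fixed, `x = s y`,
`c(β(j) y β(j)) = c(β(j x j)) = b(j x j) = 0` then `j x j` is nilpotent, and so is its image. -/
def QlbStmt : Prop :=
  ∀ (ℓ : ℕ) [Fact ℓ.Prime] (F V : Type) [Field F] [CharP F ℓ] [CommGroup V] [Finite V]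
    (X Y : IA F V) (R : Subgroup V) (b : X.A →ₗ[F] F) (j : X.A) (β : X.A →ₗ[F] Y.A)
    (s : Y.A →ₗ[F] X.A), IsPGroup ℓ V → CP X → Chr X b → Loc X b j → ABr X Y R β s →
    ∃ c : Y.A →ₗ[F] F, Chr Y c ∧ (∀ x ∈ Fx (cj F X.ι) ⊤, c (β x) = b x) ∧ Loc Y c (β j)

/-- QLW: the idempotent `π ⊗ 1`.

Proof.  `c_W(w) = c(w ⊗ 1)` is a character of `W` (`Chr W`).  `BQ W F ⊤` with `β, s`: `π - β(π) s(1) ∈ BK ⊤`,
`1 - s(1) ∈ BK ⊤`, so `c_W(π) = β(π) =: κ`, `κ² = κ`.  `κ ≠ 0`: otherwise `π ∈ BK ⊤`,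
`π = ∑_i ∑_x x m_i x⁻¹` (`m_i` fixed by `K_i < ⊤`), `π = π π π = ∑_i ∑_x x (π m_i π) x⁻¹` (`v π = π = π v`)
`= ∑_i |S_i| c_i π = 0`.  So `c(π ⊗ 1) = 1`.  `nil`: `(π ⊗ 1) x (π ⊗ 1) = π ⊗ y`, `y ∈ F V`
(`π W π = F π`); `y ↦ c(π ⊗ y)` is an algebra homomorphism `F V → F` (all `π ⊗ y` are fixed), so the
augmentation; `y` in the augmentation ideal is nilpotent. -/
def QlwStmt : Prop :=
  ∀ (ℓ : ℕ) [Fact ℓ.Prime] (F V : Type) [Field F] [CharP F ℓ] [CommGroup V] [Finite V]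
    (W : IA F V) (c : (W.tens (IA.gr F V)).A →ₗ[F] F) (π : W.A), IsPGroup ℓ V →
    BQ W (IA.one F V) ⊤ → Chr (W.tens (IA.gr F V)) c → π * π = π → π ≠ 0 →
    (∀ v, W.ι v * π = π) → (∀ v, π * W.ι v = π) → (∀ a, ∃ t : F, π * a * π = t • π) →
    Loc (W.tens (IA.gr F V)) c (π ⊗ₜ[F] (1 : (IA.gr F V).A))

/-- QZS: the corner at a local idempotent has the Brauer quotients `F V`.

Proof.  `Y = W ⊗ F V`, `β, s`.  QLB: `c`, `Loc Y c (β j)`.  QLW: `Loc Y c (π ⊗ 1)`.  QLU: `u (π ⊗ 1) = (β j) u`,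
`u` commutes with `V`.  `κy(y) = u (π ⊗ y) u⁻¹` is a corner `Cor Y (F V) (β j) κy`.  QCB. -/
def QzsStmt : Prop :=
  ∀ (ℓ : ℕ) [Fact ℓ.Prime] (F V : Type) [Field F] [CharP F ℓ] [CommGroup V] [Finite V]
    (X X' W : IA F V) (R : Subgroup V) (b : X.A →ₗ[F] F) (j : X.A) (κ : X'.A →ₗ[F] X.A),
    IsPGroup ℓ V → CP X → Chr X b → Loc X b j → Cor X X' j κ → BQ X (W.tens (IA.gr F V)) R →
    Ret W → BQ W (IA.one F V) ⊤ → BQ X' (IA.gr F V) R

/-- QSP: from `BQ` to the spanning form (`Spn`, `Tpv` of `DefsP2`, `StmtsB5b`).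

Proof.  `a` fixed, `β a = ∑ c_u u = β(∑ c_u ι(u))`, so the difference is in `BK` (QKE).  If
`∑ c_u ι(u) ∈ BK` then `∑ c_u u = β(..) = 0`. -/
def QspStmt : Prop :=
  ∀ (ℓ : ℕ) [Fact ℓ.Prime] (F V : Type) [Field F] [CharP F ℓ] [CommGroup V] [Fintype V]
    (X : IA F V) (R : Subgroup V), IsPGroup ℓ V → BQ X (IA.gr F V) R →
    (∀ a ∈ Fx (cj F X.ι) R, ∃ c : V → F, a - ∑ u, c u • X.ι u ∈ BK (cj F X.ι) R) ∧
    ∀ c : V → F, ∑ u, c u • X.ι u ∈ BK (cj F X.ι) R → c = 0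

/-- QLL: the fixed algebra of the corner is local.

Proof.  `κ(a)` is fixed, `κ(a) = j κ(a) j`; `t = b(κ a)`, `κ(a) - t j` is `j (..) j` with `b = 0`, nilpotent.
So every element of the fixed algebra is a scalar plus a nilpotent element, the elements with
`t = 0` are closed under addition because `t` is linear; `1 ≠ 0` because `b(j) = 1`. -/
def QllStmt : Prop :=
  ∀ (F V : Type) [Field F] [CommGroup V] (X X' : IA F V) (b : X.A →ₗ[F] F) (j : X.A)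
    (κ : X'.A →ₗ[F] X.A), Chr X b → Loc X b j → Cor X X' j κ →
    (∀ a ∈ Fx (cj F X'.ι) ⊤, ∃ t : F, IsNilpotent (a - algebraMap F X'.A t)) ∧
    IsLocalRing (Cz F X'.ι ⊤)

/-- QTJ: a unit which realises `σ` in the corner.

Proof.  `y` a unit of `X`, `y v = σ(v) y`.  `b'(a) = b(y a y⁻¹)` is a character (`Chr X b'`), so `b' = b` on
the fixed algebra (QCX); so `y j y⁻¹` is local over `b`.  QLU: a unit `u` which commutes with `V`,
`u (y j y⁻¹) = j u`.  `z = u y` commutes with `j`, `z v = σ(v) z`.  The unit of the corner: `κ⁻¹(z j)`, with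
inverse `κ⁻¹(z⁻¹ j)`. -/
def QtjStmt : Prop :=
  ∀ (ℓ : ℕ) [Fact ℓ.Prime] (F V : Type) [Field F] [CharP F ℓ] [CommGroup V] [Finite V]
    (X X' : IA F V) (b : X.A →ₗ[F] F) (j : X.A) (κ : X'.A →ₗ[F] X.A) (σ : MulAut V),
    IsPGroup ℓ V → BQ X (IA.gr F V) ⊤ → Chr X b → Loc X b j → Cor X X' j κ → Rz X σ → Rz X' σ

/-- QTA: a unit of finite order.

Proof.  `w = y^m` is fixed by `V` (`σ^m = 1`) and commutes with `y`; `w = t (1 + n)`, `t ≠ 0`, `n`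
nilpotent, `n` commutes with `y` and with `V`, `(1 + n)^(ℓ^a) = 1 + n^(ℓ^a) = 1` for large `a`.  Let
`k m = 1` modulo `ℓ^a`, `t = r^m` (`F` algebraically closed); `y' = r⁻¹ (1 + n)^(ℓ^a N - k) y`
(with `ℓ^a N ≥ k`), `y'^m = t⁻¹ (1 + n)^(-k m) w = 1`. -/
def QtaStmt : Prop :=
  ∀ (ℓ : ℕ) [Fact ℓ.Prime] (F V : Type) [Field F] [IsAlgClosed F] [CharP F ℓ] [CommGroup V]
    (X : IA F V) (σ : MulAut V) (m : ℕ), 0 < m → ¬ ℓ ∣ m → σ ^ m = 1 → Nontrivial X.A →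
    (∀ a ∈ Fx (cj F X.ι) ⊤, ∃ t : F, IsNilpotent (a - algebraMap F X.A t)) → Rz X σ →
    ∃ y : X.Aˣ, (∀ v, (y : X.A) * X.ι v = X.ι (σ v) * y) ∧ y ^ m = 1

/-- QSN: Skolem-Noether, and closure of `Rz`.

Proof.  An automorphism of `Mat_n(F)` is inner: `e(a) = y a y⁻¹`.  The rest: `y y'`, `1`, `y ⊗ y'`,
`op (y⁻¹)`. -/
def QsnStmt : Prop :=
  ∀ (F V : Type) [Field F] [CommGroup V],
    (∀ (X : IA F V) (σ : MulAut V), Mx X → IsoT σ X X → Rz X σ) ∧ (∀ X : IA F V, Rz X 1) ∧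
    (∀ (X : IA F V) (σ τ : MulAut V), Rz X σ → Rz X τ → Rz X (σ * τ)) ∧
    (∀ (X Y : IA F V) (σ : MulAut V), Rz X σ → Rz Y σ → Rz (X.tens Y) σ)

/-- QVP: the `V × V`-structure of `S ⊗ X`.

Proof (helper71).  Frame `b, c` of `cj S` on `Ω_S`, frame `b', c'` of `bi X` on `Ω`, stabilisers `tw σ_ω R_ω`,
`σ_ω` constant on orbits (choose it for every orbit; `V × V` is abelian so the stabiliser is constant
on orbits).  `t_ω` a unit of `S` with `t_ω S.ι(u) = S.ι(σ_ω u) t_ω`, constant on orbits.  Choose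
`d : Ω → V` with `d((u,v) ω) = u d(ω) σ(v)⁻¹` (representative `ω₀`: `d((x,y) ω₀) = x σ(y)⁻¹`, well defined
because `(σ r, r)` goes to `1`).  On `Ω_S × Ω` let `(u, v) (k, ω) = (v k, (u, v) ω)`; vectors
`S.ι(d ω) t_ω b_k ⊗ b'_ω`, functionals `s ⊗ a ↦ c_k(t_ω⁻¹ S.ι(d ω)⁻¹ s) c'_ω(a)`.  Check:
`S.ι(u) S.ι(d ω) t_ω b_k S.ι(v)⁻¹ = S.ι(u d(ω) σ(v)⁻¹) t_ω S.ι(v) b_k S.ι(v)⁻¹`.  The stabiliser of `(k, ω)` is
`tw σ (R ⊓ Stab k)`. -/
def QvpStmt : Prop :=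
  ∀ (F V E : Type) [Field F] [CommGroup V] [Finite V] [Group E] (φ : E →* MulAut V)
    (S X : IA F V), CP S → (∀ e, Rz S (φ e)) →
    PS (fun K => ∃ (e : E) (R : Subgroup V), K = tw (φ e).toMonoidHom R) (bi F X.ι) →
    PS (fun K => ∃ (e : E) (R : Subgroup V), K = tw (φ e).toMonoidHom R) (bi F (S.tens X).ι)

/-! ## Gluing -/

/-- QMO: the Moebius function of the subgroup lattice (Weisner).

Proof.  Define `μ` by recursion on `|S|`: `∑_(Q ≤ S) μ(Q) = 1` if `S = ⊥`, `0` otherwise; it is unique, so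
invariant under automorphisms; `μ(⊥) = 1`.  For `R ≠ ⊥`, `S ≥ R` let `f(S) = ∑_(Q ⊔ R = S) μ(Q)` (all `Q`).
`∑_(R ≤ S' ≤ S) f(S') = ∑_(Q ≤ S) μ(Q) = 0`, so `f(S) = 0` for all `S ≥ R` by induction.  The term
`Q = ⊥` occurs only for `S = R`, it is `1`. -/
def QmoStmt : Prop :=
  ∀ (V : Type) [CommGroup V] [Finite V], ∃ μ : Subgroup V → ℤ,
    (∀ (σ : MulAut V) (Q : Subgroup V), μ (Q.map σ.toMonoidHom) = μ Q) ∧
    ∀ R S : Subgroup V, R ≠ ⊥ →
      (S = R → ∑ᶠ Q ∈ {Q : Subgroup V | Q ≠ ⊥ ∧ Q ⊔ R = S}, μ Q = -1) ∧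
      (S ≠ R → ∑ᶠ Q ∈ {Q : Subgroup V | Q ≠ ⊥ ∧ Q ⊔ R = S}, μ Q = 0)

/-- QLP: products over permuted lists.  Proof.  Induction on `List.Perm` with QIS (swap: associativity,
commutativity, associativity). -/
def QlpStmt : Prop :=
  ∀ (F V ι : Type) [Field F] [CommGroup V] [Finite V] (S : ι → IA F V) (L L' : List (ι × Bool)),
    L.Perm L' → Iso (prd S L) (prd S L')

/-- QLA: products of concatenated lists.  Proof.  Induction with QIS. -/
def QlaStmt : Prop :=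
  ∀ (F V ι : Type) [Field F] [CommGroup V] [Finite V] (S : ι → IA F V) (L L' : List (ι × Bool)),
    Iso (prd S (L ++ L')) ((prd S L).tens (prd S L'))

/-- QLQ: properties of products over lists.  Proof.  Induction with QTE, QOP, QMX, QCP, QIS. -/
def QlqStmt : Prop :=
  ∀ (ℓ : ℕ) [Fact ℓ.Prime] (F V ι ι' : Type) [Field F] [CharP F ℓ] [CommGroup V] [Finite V]
    (S : ι → IA F V) (S' : ι' → IA F V) (f : ι → ι') (L : List (ι × Bool)), IsPGroup ℓ V →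
    ((∀ p ∈ L, Mx (S p.1)) → Mx (prd S L)) ∧ ((∀ p ∈ L, CP (S p.1)) → CP (prd S L)) ∧
    (∀ Q : Subgroup V, (∀ p ∈ L, BQ (S p.1) (S' (f p.1)) Q) →
      BQ (prd S L) (prd S' (L.map (fun p => (f p.1, p.2)))) Q) ∧
    (∀ σ : MulAut V, (∀ p ∈ L, IsoT σ (S p.1) (S' (f p.1))) →
      IsoT σ (prd S L) (prd S' (L.map (fun p => (f p.1, p.2))))) ∧
    ((∀ p ∈ L, Iso (S p.1) (IA.one F V)) → Iso (prd S L) (IA.one F V))

/-- QLR: a balanced product has the trivial summand.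

Proof.  Induction on the length.  `L = []`: `F`.  `L = (Q, ε) :: L₁`: `(Q, !ε)` occurs in `L₁`, so
`L` is a permutation of `(Q, true) :: (Q, false) :: L₂` with `L₂` balanced; the product is
isomorphic to `(S Q ⊗ (S Q)^op) ⊗ prd L₂` (QLP, QIS); QRE, QRT. -/
def QlrStmt : Prop :=
  ∀ (F V ι : Type) [Field F] [CommGroup V] [Finite V] [DecidableEq ι] (S : ι → IA F V)
    (L : List (ι × Bool)), (∀ p ∈ L, Mx (S p.1) ∧ (Module.finrank F (S p.1).A : F) ≠ 0) →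
    (∀ Q, L.count (Q, true) = L.count (Q, false)) → Ret (prd S L)

/-- QGL: gluing.

Proof.  `μ` from QMO; `L` the list which contains, for every `Q ≠ ⊥`, `|μ(Q)|` times the pair
`(Q, true)` if `μ(Q) > 0`, `(Q, false)` if `μ(Q) < 0`; `N = prd S L`.  `Mx`, `CP`: QLQ.  For `σ ∈ Sg`: `IsoT σ N (prd S L^σ)`
(QLQ, `f(Q) = Q.map σ`), `L^σ` is a permutation of `L` (invariance of `μ`), QLP: `IsoT σ N N`; QSN: `Rz`.
`R ≠ ⊥`: `N' = prd S L_R`, `L_R` = the image of `L` under `Q ↦ Q ⊔ R` (QLQ).  `N' ⊗ S_R` is isomorphic to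
`prd S ((R, true) :: L_R)` (QIS), which is balanced: the signed number of `S` in `L_R` is
`∑_(Q ≠ ⊥, Q ⊔ R = S) μ(Q) = -1` for `S = R` and `0` otherwise; QLR (`dim S_Q = 1` in `F` by QDI and
`BQ (S Q) (S ⊤) ⊤`, `S ⊤ = F`).  `(N' ⊗ S_R)(⊤)`: QLQ with `f(Q) = Q ⊔ ⊤ = ⊤`, `S ⊤ = F`; the same for
`N(⊤)`. -/
def QglStmt : Prop :=
  ∀ (ℓ : ℕ) [Fact ℓ.Prime] (F V : Type) [Field F] [CharP F ℓ] [CommGroup V] [Finite V]
    (Sg : Set (MulAut V)) (S : Subgroup V → IA F V), IsPGroup ℓ V →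
    (∀ Q, Q ≠ ⊥ → Mx (S Q) ∧ CP (S Q)) →
    (∀ Q, Q ≠ ⊥ → ∀ R : Subgroup V, BQ (S Q) (S (Q ⊔ R)) R) → Iso (S ⊤) (IA.one F V) →
    (∀ σ ∈ Sg, ∀ Q, Q ≠ ⊥ → IsoT σ (S Q) (S (Q.map σ.toMonoidHom))) →
    ∃ N : IA F V, Mx N ∧ CP N ∧ (∀ σ ∈ Sg, Rz N σ) ∧ BQ N (IA.one F V) ⊤ ∧
      ∀ R : Subgroup V, R ≠ ⊥ → ∃ N' : IA F V, BQ N N' R ∧ Ret (N'.tens (S R)) ∧
        BQ (N'.tens (S R)) (IA.one F V) ⊤

end Pool.Agent.PFC
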