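import Pool.Agent.PFC.StmtsB5c
import Pool.Agent.PFC.StmtsB4b

/-!
# Squad PFC, block B5d: the chain `PIn → PMid`, part 2 (helper43)

The gluing with the subgroup `W`, and small rows for the assembly.
-/

open scoped BigOperators TensorProduct

noncomputable section

namespace Pool.Agent.PFC.B5c

/-- QMW: the Moebius function of the subgroups which are not in `W` (QMO is the case `W = ⊥`).

Proof.  Define `c` on the subgroups `Q` not in `W` by recursion on `|Q|`: the sum of `c Q` over the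
`Q ≤ S` which are not in `W` is `1` for every `S` which is not in `W` (`c S = 1 - ∑_(Q < S) c Q`);
`c Q = 0` for `Q ≤ W`.  It is unique, so invariant under the automorphisms with `W.map σ = W`.  Let `R`
be not in `W`, `f(S) = ∑_(Q ⊔ R = S, Q not in W) c Q`.  For `S ≥ R` (so `S` is not in `W`):
`∑_(R ≤ S' ≤ S) f(S') = ∑_(Q ≤ S, Q not in W) c Q = 1` (`Q ⊔ R ≤ S` iff `Q ≤ S`).  `S = R`: `f(R) = 1`; by
induction on `|S|` then `f(S) = 0` for `S > R`.  If `S` does not contain `R` the sum is empty.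
`μ = -c`. -/
def QmwStmt : Prop :=
  ∀ (V : Type) [CommGroup V] [Finite V] (W : Subgroup V), ∃ μ : Subgroup V → ℤ,
    (∀ (σ : MulAut V), W.map σ.toMonoidHom = W → ∀ Q : Subgroup V,
      μ (Q.map σ.toMonoidHom) = μ Q) ∧
    ∀ R S : Subgroup V, ¬ R ≤ W →
      (S = R → ∑ᶠ Q ∈ {Q : Subgroup V | ¬ Q ≤ W ∧ Q ⊔ R = S}, μ Q = -1) ∧
      (S ≠ R → ∑ᶠ Q ∈ {Q : Subgroup V | ¬ Q ≤ W ∧ Q ⊔ R = S}, μ Q = 0)

/-- QGW: gluing over the subgroups which are not in `W` (QGL is the case `W = ⊥`).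

Proof.  As QGL with QMW: `L` the list which contains, for every `Q` not in `W`, `|μ(Q)|` times the pair
`(Q, true)` if `μ(Q) > 0`, `(Q, false)` if `μ(Q) < 0`; `N = prd S L`.  `Mx`, `CP`: QLQ.  For `σ ∈ Sg`:
`IsoT σ N (prd S L^σ)` (QLQ, `f(Q) = Q.map σ`), `L^σ` is a permutation of `L` (invariance of `μ`, `σ` maps
the subgroups not in `W` onto themselves), QLP: `IsoT σ N N`; QSN: `Rz`.  `R` not in `W`:
`N' = prd S L_R`, `L_R` = the image of `L` under `Q ↦ Q ⊔ R` (QLQ; `Q ⊔ R` is not in `W`).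
`N' ⊗ S_R` is isomorphic to `prd S ((R, true) :: L_R)` (QIS), which is balanced: the signed number of `S` in
`L_R` is `∑_(Q not in W, Q ⊔ R = S) μ(Q) = -1` for `S = R` and `0` otherwise; QLR (`dim S_Q = 1` in `F` by
QDI and `BQ (S Q) (S ⊤) ⊤`, `S ⊤ = F`).  `(N' ⊗ S_R)(⊤)`: QLQ with `f(Q) = Q ⊔ ⊤ = ⊤`, `S ⊤ = F`; the
same for `N(⊤)`. -/
def QgwStmt : Prop :=
  ∀ (ℓ : ℕ) [Fact ℓ.Prime] (F V : Type) [Field F] [CharP F ℓ] [CommGroup V] [Finite V]
    (W : Subgroup V) (Sg : Set (MulAut V)) (S : Subgroup V → IA F V), IsPGroup ℓ V →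
    ¬ (⊤ : Subgroup V) ≤ W → (∀ σ ∈ Sg, W.map σ.toMonoidHom = W) →
    (∀ Q, ¬ Q ≤ W → Mx (S Q) ∧ CP (S Q)) →
    (∀ Q, ¬ Q ≤ W → ∀ R : Subgroup V, BQ (S Q) (S (Q ⊔ R)) R) → Iso (S ⊤) (IA.one F V) →
    (∀ σ ∈ Sg, ∀ Q, ¬ Q ≤ W → IsoT σ (S Q) (S (Q.map σ.toMonoidHom))) →
    ∃ N : IA F V, Mx N ∧ CP N ∧ (∀ σ ∈ Sg, Rz N σ) ∧ BQ N (IA.one F V) ⊤ ∧
      ∀ R : Subgroup V, ¬ R ≤ W → ∃ N' : IA F V, BQ N N' R ∧ Ret (N'.tens (S R)) ∧
        BQ (N'.tens (S R)) (IA.one F V) ⊤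

/-- CPX: the conjugation module of `A`.

Proof.  The frame of `bi F α` over `V × V`, restricted along `u ↦ (u, u)`: `cj F α u = bi F α (u, u)`
(`MulAction.compHom`). -/
def CpxStmt : Prop :=
  ∀ (F V A : Type) [Field F] [CommGroup V] [Ring A] [Algebra F A] (α : V →* A)
    (P : Subgroup (V × V) → Prop), PS P (bi F α) → PS (fun _ => True) (cj F α)

/-- CMR: comparison of the local matrix algebras.

Proof.  (1) QTR: `BQ (S_Q ⊗ F V) (S_(QR) ⊗ F V) R`.  QAL: `T` with `BQ (S_Q) T R` (`CP (S Q)`); QTE with QOP: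
`BQ (S_Q ⊗ F V) (T ⊗ F V) R`; QUN: `T ⊗ F V = S_(QR) ⊗ F V`; QCA: `T = S_(QR)`; QIS.  (2) `BQ X (F V) ⊤` and
`BQ X (S_⊤ ⊗ F V) ⊤`; QUN and QIS (`F V = F ⊗ F V`), QCA with `S' = F` (QMX: `Mx F`). -/
def CmrStmt : Prop :=
  ∀ (ℓ : ℕ) [Fact ℓ.Prime] (F V E : Type) [Field F] [CharP F ℓ] [CommGroup V] [Finite V]
    [Group E] (X : IA F V) (φ : E →* MulAut V) (W : Subgroup V) (S : Subgroup V → IA F V),
    IsPGroup ℓ V → ¬ (⊤ : Subgroup V) ≤ W → CP X → BQ X (IA.gr F V) ⊤ → Fam X φ W S →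
    (∀ Q, ¬ Q ≤ W → ∀ R : Subgroup V, BQ (S Q) (S (Q ⊔ R)) R) ∧ Iso (S ⊤) (IA.one F V)

/-- LSN: `A` has at most as many simple modules as `N ⊗ A` (`LSC` with `j = e_11 ⊗ 1`,
`κ a = e_11 ⊗ a`). -/
def LsnStmt : Prop :=
  ∀ (F N A : Type) [Field F] [IsAlgClosed F] [Ring N] [Algebra F N] [Ring A] [Algebra F A]
    [FiniteDimensional F A] (n : ℕ), 0 < n → Nonempty (N ≃ₐ[F] Matrix (Fin n) (Fin n) F) →
    ls F A ≤ ls F (N ⊗[F] A)

/-- LCN: the elements of a local finite-dimensional algebra.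

Proof.  Let `x` be in `A`.  (1) If `x` is not a unit it is nilpotent: `x^k A = x^(k+1) A` for some `k`
(Fitting for left multiplication by `x` on `A`), so `x^k = x^(2k) y` for a `y` which is a polynomial
in `x` (minimal polynomial), `f = x^k y` is an idempotent; `f = 1` would make `x` a unit, so (local)
`f = 0` and `x^k = f x^k = 0`.  (2) `F` is algebraically closed: `x` has an eigenvalue `t` on `A` (left
multiplication, `A ≠ 0`), `x - t` is not injective on `A`, so it is not a unit, so it is nilpotent. -/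
def LcnStmt : Prop :=
  ∀ (F A : Type) [Field F] [IsAlgClosed F] [Ring A] [Algebra F A] [FiniteDimensional F A],
    IsLocalRing A → (∀ x : A, IsUnit x ∨ IsNilpotent x) ∧
      ∀ x : A, ∃ t : F, IsNilpotent (x - algebraMap F A t)

end Pool.Agent.PFC.B5c
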