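import Pool.Agent.WAX.Asm
import Pool.Agent.Helper22_PFC.LIX
import Pool.Agent.Helper70_PFC.LNV
import Pool.Agent.Helper32_PFC.CYQ
import Pool.Agent.Helper15_PFC.LFC
import Pool.Agent.Helper3_PFC.GEC
import Pool.Agent.Helper92_PFC.FNC

/-!
# Squad PFC, block B7: assembly

`fnc_of : FctStmt → FncStmt`.
-/

open scoped BigOperators

noncomputable section

namespace Pool.Agent.PFC

open Pool.Agent.PP Pool.Agent.PP.K9

theorem lix_ : LixStmt := H22.lix T3.psg_ K9.H34.inx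

theorem lnv_ : LnvStmt :=
  H70.lnv lix_ TV.clv_ K9.H34.inx TV.wat_ T3.loc_ T3.lsb_ T3.psg_ T8.qt3_ T8.fqt_ K9.H02.pug

theorem cyq_ : CyqStmt := H32.cyq

theorem lfc_of (fct : FctStmt) : LfcStmt :=
  H15.lfc fct lnv_ cyq_ TX.ln0_ TV.clv_ TV.cpv_ K9.H34.inx K9.H3.lbd

theorem gec_ : GecStmt := H3.gec T2.fst_ T8.ts8_

theorem tya_of (fct : FctStmt) : TyaStmt :=
  H15.tya gec_ (lfc_of fct) cyq_ TV.clv_ T8.fqt_ K9.H34.inx

theorem fnc_of (fct : FctStmt) : FncStmt :=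
  H92.fnc (tya_of fct) cyq_ TV.clv_ T3.flt_ T2.dza_ T8.qt3_ K9.H34.inx

end Pool.Agent.PFC
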