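import Mathlib

/-!
Squad PFC, part B1 (helper51): Frobenius systems, representations of orders, Higman projective
representations, coinduction, and the deformation data over `F[[t]]`.
Everything is written with explicit finite sums.
-/

namespace Pool.Agent.PFC.B1

/-- Frobenius system of an `R`-algebra `A`: a linear form with two dual families. -/
structure FS (R A I : Type) [CommRing R] [Ring A] [Algebra R A] [Fintype I] where
  lam : A →ₗ[R] R
  b : I → A
  b' : I → A
  h1 : ∀ x, ∑ i, lam (b' i * x) • b i = x
  h2 : ∀ x, ∑ i, lam (x * b i) • b' i = x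

/-- A representation of the `R`-algebra `A` on the `k`-module `M`, where `k` is a commutative
`R`-algebra (`k = R`: lattices, `k` the fraction field: generic fibre, `k` the residue field:
special fibre). -/
structure Rp (R A k M : Type) [CommRing R] [Ring A] [Algebra R A] [CommRing k] [Algebra R k]
    [AddCommGroup M] [Module k M] where
  ρ : A →+* Module.End k M
  sc : ∀ (r : R) (x : M), ρ (algebraMap R A r) x = algebraMap R k r • x

section
variable {R A Γ k M N S T I J : Type} [CommRing R] [Ring A] [Algebra R A] [Ring Γ] [Algebra R Γ]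
  [CommRing k] [Algebra R k] [AddCommGroup M] [Module k M] [AddCommGroup N] [Module k N]
  [AddCommGroup S] [Module k S] [AddCommGroup T] [Module k T] [Fintype I] [Fintype J]

/-- intertwiners -/
def IsHom (ρ : Rp R A k M) (σ : Rp R A k N) (f : M →ₗ[k] N) : Prop :=
  ∀ a x, f (ρ.ρ a x) = σ.ρ a (f x)

/-- the trace operator of a Frobenius system -/
def FS.tr (c : FS R A I) (ρ : Rp R A k M) (σ : Rp R A k N) (f : M →ₗ[k] N) : M →ₗ[k] N :=
  ∑ i, (σ.ρ (c.b i)) ∘ₗ f ∘ₗ (ρ.ρ (c.b' i))

/-- Higman projective representation -/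
def HP (c : FS R A I) (ρ : Rp R A k M) : Prop :=
  ∃ a : M →ₗ[k] M, c.tr ρ ρ a = LinearMap.id

/-- stably zero linear map -/
def SZ (c : FS R A I) (ρ : Rp R A k M) (σ : Rp R A k N) (f : M →ₗ[k] N) : Prop :=
  ∃ a : M →ₗ[k] N, c.tr ρ σ a = f

/-- restriction along an algebra map -/
def Rp.res (ρ : Rp R A k M) (j : Γ →ₐ[R] A) : Rp R Γ k M where
  ρ := ρ.ρ.comp j.toRingHom
  sc := fun r x => by
    have h : j.toRingHom (algebraMap R Γ r) = algebraMap R A r := j.commutes r
    rw [RingHom.comp_apply, h]
    exact ρ.sc r x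

/-- the underlying space of the coinduced representation `Hom_Γ(A, S)` -/
def Co (j : Γ →ₐ[R] A) (σ : Rp R Γ k S) : Submodule k (A → S) where
  carrier := {f | (∀ x y, f (x + y) = f x + f y) ∧ ∀ γ x, f (j γ * x) = σ.ρ γ (f x)}
  zero_mem' := ⟨fun _ _ => by simp, fun _ _ => by simp⟩
  add_mem' := fun {f g} hf hg => ⟨fun x y => by
      simp only [Pi.add_apply, hf.1, hg.1]; abel, fun γ x => by
      simp only [Pi.add_apply, hf.2, hg.2, map_add]⟩
  smul_mem' := fun c f hf => ⟨fun x y => by
      simp only [Pi.smul_apply, hf.1, smul_add], fun γ x => by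
      simp only [Pi.smul_apply, hf.2, map_smul]⟩

/-- the coinduced representation, `(a f)(x) = f (x a)` -/
def coRp (j : Γ →ₐ[R] A) (σ : Rp R Γ k S) : Rp R A k (Co j σ) where
  ρ :=
    { toFun := fun a =>
        { toFun := fun f => ⟨fun x => f.1 (x * a),
            fun x y => by
              show f.1 ((x + y) * a) = f.1 (x * a) + f.1 (y * a)
              rw [add_mul]; exact f.2.1 _ _,
            fun γ x => by
              show f.1 (j γ * x * a) = σ.ρ γ (f.1 (x * a))
              rw [mul_assoc]; exact f.2.2 _ _⟩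
          map_add' := fun f g => rfl
          map_smul' := fun c f => rfl }
      map_one' := by
        apply LinearMap.ext; intro f; apply Subtype.ext; funext x
        show f.1 (x * 1) = f.1 x
        rw [mul_one]
      map_mul' := fun a b => by
        apply LinearMap.ext; intro f; apply Subtype.ext; funext x
        show f.1 (x * (a * b)) = f.1 (x * a * b)
        rw [mul_assoc]
      map_zero' := by
        apply LinearMap.ext; intro f; apply Subtype.ext; funext x
        show f.1 (x * 0) = 0
        have h := f.2.1 0 0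
        rw [mul_zero]
        rw [add_zero] at h
        exact left_eq_add.mp h
      map_add' := fun a b => by
        apply LinearMap.ext; intro f; apply Subtype.ext; funext x
        show f.1 (x * (a + b)) = f.1 (x * a) + f.1 (x * b)
        rw [mul_add]; exact f.2.1 _ _ }
  sc := fun r f => by
    apply Subtype.ext; funext x
    show f.1 (x * algebraMap R A r) = algebraMap R k r • f.1 x
    rw [← Algebra.commutes r x]
    have h := f.2.2 (algebraMap R Γ r) x
    rw [j.commutes] at h
    rw [h]; exact σ.sc r _

/-- the underlying space of `Coind(T) / T`: the `Γ`-linear `f : A → T` with `f 1 = 0` -/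
def QQ (j : Γ →ₐ[R] A) (τ : Rp R A k T) : Submodule k (A → T) where
  carrier := {f | (∀ x y, f (x + y) = f x + f y) ∧ (∀ γ x, f (j γ * x) = τ.ρ (j γ) (f x)) ∧
    f 1 = 0}
  zero_mem' := ⟨fun _ _ => by simp, fun _ _ => by simp, rfl⟩
  add_mem' := fun {f g} hf hg => ⟨fun x y => by
      simp only [Pi.add_apply, hf.1, hg.1]; abel, fun γ x => by
      simp only [Pi.add_apply, hf.2.1, hg.2.1, map_add], by
      simp only [Pi.add_apply, hf.2.2, hg.2.2, add_zero]⟩
  smul_mem' := fun c f hf => ⟨fun x y => by
      simp only [Pi.smul_apply, hf.1, smul_add], fun γ x => by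
      simp only [Pi.smul_apply, hf.2.1, map_smul], by
      simp only [Pi.smul_apply, hf.2.2, smul_zero]⟩

/-- the representation on `QQ`, `(a f)(x) = f (x a) - x (f a)` -/
def qqRp (j : Γ →ₐ[R] A) (τ : Rp R A k T) : Rp R A k (QQ j τ) where
  ρ :=
    { toFun := fun a =>
        { toFun := fun f => ⟨fun x => f.1 (x * a) - τ.ρ x (f.1 a),
            fun x y => by
              show f.1 ((x + y) * a) - τ.ρ (x + y) (f.1 a) =
                (f.1 (x * a) - τ.ρ x (f.1 a)) + (f.1 (y * a) - τ.ρ y (f.1 a))
              rw [add_mul, f.2.1, map_add, LinearMap.add_apply]; abel,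
            fun γ x => by
              show f.1 (j γ * x * a) - τ.ρ (j γ * x) (f.1 a) =
                τ.ρ (j γ) (f.1 (x * a) - τ.ρ x (f.1 a))
              rw [mul_assoc, f.2.2.1, map_mul, map_sub]; rfl,
            by
              show f.1 (1 * a) - τ.ρ 1 (f.1 a) = 0
              rw [one_mul, map_one]; exact sub_self _⟩
          map_add' := fun f g => by
            apply Subtype.ext; funext x
            show (f.1 (x * a) + g.1 (x * a)) - τ.ρ x (f.1 a + g.1 a) =
              (f.1 (x * a) - τ.ρ x (f.1 a)) + (g.1 (x * a) - τ.ρ x (g.1 a))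
            rw [map_add]; abel
          map_smul' := fun c f => by
            apply Subtype.ext; funext x
            show (c • f.1 (x * a)) - τ.ρ x (c • f.1 a) =
              c • (f.1 (x * a) - τ.ρ x (f.1 a))
            rw [map_smul, smul_sub] }
      map_one' := by
        apply LinearMap.ext; intro f; apply Subtype.ext; funext x
        show f.1 (x * 1) - τ.ρ x (f.1 1) = f.1 x
        rw [mul_one, f.2.2.2, map_zero, sub_zero]
      map_mul' := fun a b => by
        apply LinearMap.ext; intro f; apply Subtype.ext; funext x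
        show f.1 (x * (a * b)) - τ.ρ x (f.1 (a * b)) =
          (f.1 (x * a * b) - τ.ρ (x * a) (f.1 b)) - τ.ρ x (f.1 (a * b) - τ.ρ a (f.1 b))
        rw [mul_assoc, map_mul, map_sub, Module.End.mul_apply]; abel
      map_zero' := by
        apply LinearMap.ext; intro f; apply Subtype.ext; funext x
        have h := f.2.1 0 0
        rw [add_zero] at h
        have h0 : f.1 0 = 0 := left_eq_add.mp h
        show f.1 (x * 0) - τ.ρ x (f.1 0) = 0
        rw [mul_zero, h0, map_zero, sub_zero]
      map_add' := fun a b => by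
        apply LinearMap.ext; intro f; apply Subtype.ext; funext x
        show f.1 (x * (a + b)) - τ.ρ x (f.1 (a + b)) =
          (f.1 (x * a) - τ.ρ x (f.1 a)) + (f.1 (x * b) - τ.ρ x (f.1 b))
        rw [mul_add, f.2.1, f.2.1, map_add]; abel }
  sc := fun r f => by
    apply Subtype.ext; funext x
    have h := f.2.2.1 (algebraMap R Γ r) x
    have h' := f.2.2.1 (algebraMap R Γ r) 1
    rw [j.commutes] at h
    rw [j.commutes, mul_one, f.2.2.2, map_zero] at h'
    show f.1 (x * algebraMap R A r) - τ.ρ x (f.1 (algebraMap R A r)) = algebraMap R k r • f.1 x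
    rw [← Algebra.commutes r x, h, h', map_zero, sub_zero]
    exact τ.sc r _

/-- `A = Γ ⊕ P` with `P` a (Higman) projective `Γ`-bimodule: `x ↦ x - j (pr x)` is the projector
onto `P`, and it is a two-sided trace. -/
structure Split (c : FS R Γ I) (A : Type) [Ring A] [Algebra R A] where
  j : Γ →ₐ[R] A
  pr : A →ₗ[R] Γ
  pr_j : ∀ γ, pr (j γ) = γ
  pr_l : ∀ γ x, pr (j γ * x) = γ * pr x
  pr_r : ∀ x γ, pr (x * j γ) = pr x * γ
  a : A →ₗ[R] A
  a_id : ∀ x, ∑ i, ∑ l, j (c.b i) * a (j (c.b' i) * x * j (c.b l)) * j (c.b' l) = x - j (pr x)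

/-- relative separability of `A` over (the image of) `Γ` -/
structure Sep (Γ A K : Type) [Ring Γ] [Ring A] [Fintype K] (j : Γ →+* A) where
  u : K → A
  v : K → A
  one : ∑ i, u i * v i = 1
  bal : ∀ (X : Type) [AddCommGroup X] (B : A →+ A →+ X),
    (∀ x γ y, B (x * j γ) y = B x (j γ * y)) →
    ∀ x, ∑ i, B (x * u i) (v i) = ∑ i, B (u i) (v i * x)

end

end Pool.Agent.PFC.B1
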