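import Pool.Agent.PFC.DefsP
import Pool.Agent.PFC.StmtsB1

/-!
Squad PFC, part B2 (helper57): representations over a field (irreducible representations,
homomorphism spaces, ranks of idempotents, multiplicities), generic and special fibres of lattices,
and the Nakayama data `Nk` of the generic fibre of `Γ` (output of part B3).

Conventions.  `R = F[[t]]` (`PowerSeries F`), `L` any fraction field of `R`.  A representation of an
`R`-order `A` over `L` is an `Rp R A L T` (no `L`-algebra is formed); a representation of the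
`F`-algebra `A` over `F` is an `Rp F A F T`.
-/

noncomputable section

namespace Pool.Agent.PFC.B2

open Pool.Agent.PFC.B1

section gen

variable {R A k M N : Type} [CommRing R] [Ring A] [Algebra R A] [CommRing k] [Algebra R k]
  [AddCommGroup M] [Module k M] [AddCommGroup N] [Module k N]

/-- stable subspaces -/
def Stb (ρ : Rp R A k M) (W : Submodule k M) : Prop := ∀ a, ∀ w ∈ W, ρ.ρ a w ∈ W

/-- the subrepresentation on a stable subspace -/
def subRp (ρ : Rp R A k M) (W : Submodule k M) (h : Stb ρ W) : Rp R A k W where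
  ρ :=
    { toFun := fun a => (ρ.ρ a).restrict (h a)
      map_one' := by
        apply LinearMap.ext; intro w; apply Subtype.ext
        show ρ.ρ 1 w.1 = w.1
        rw [map_one]; rfl
      map_mul' := fun a b => by
        apply LinearMap.ext; intro w; apply Subtype.ext
        show ρ.ρ (a * b) w.1 = ρ.ρ a (ρ.ρ b w.1)
        rw [map_mul]; rfl
      map_zero' := by
        apply LinearMap.ext; intro w; apply Subtype.ext
        show ρ.ρ 0 w.1 = 0
        rw [map_zero]; rfl
      map_add' := fun a b => by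
        apply LinearMap.ext; intro w; apply Subtype.ext
        show ρ.ρ (a + b) w.1 = ρ.ρ a w.1 + ρ.ρ b w.1
        rw [map_add]; rfl }
  sc := fun r w => by
    apply Subtype.ext
    exact ρ.sc r w.1

/-- the quotient representation by a stable subspace -/
def quRp (ρ : Rp R A k M) (W : Submodule k M) (h : Stb ρ W) : Rp R A k (M ⧸ W) where
  ρ :=
    { toFun := fun a => W.mapQ W (ρ.ρ a) (fun w hw => h a w hw)
      map_one' := by
        apply LinearMap.ext; intro y
        obtain ⟨x, rfl⟩ := W.mkQ_surjective y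
        show W.mkQ (ρ.ρ 1 x) = W.mkQ x
        rw [map_one]; rfl
      map_mul' := fun a b => by
        apply LinearMap.ext; intro y
        obtain ⟨x, rfl⟩ := W.mkQ_surjective y
        show W.mkQ (ρ.ρ (a * b) x) = W.mkQ (ρ.ρ a (ρ.ρ b x))
        rw [map_mul]; rfl
      map_zero' := by
        apply LinearMap.ext; intro y
        obtain ⟨x, rfl⟩ := W.mkQ_surjective y
        show W.mkQ (ρ.ρ 0 x) = 0
        rw [map_zero]; exact map_zero _
      map_add' := fun a b => by
        apply LinearMap.ext; intro y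
        obtain ⟨x, rfl⟩ := W.mkQ_surjective y
        show W.mkQ (ρ.ρ (a + b) x) = W.mkQ (ρ.ρ a x) + W.mkQ (ρ.ρ b x)
        rw [← map_add W.mkQ, map_add ρ.ρ]; rfl }
  sc := fun r y => by
    obtain ⟨x, rfl⟩ := W.mkQ_surjective y
    show W.mkQ (ρ.ρ (algebraMap R A r) x) = algebraMap R k r • W.mkQ x
    rw [ρ.sc, map_smul]

/-- irreducible representations -/
def Irr (ρ : Rp R A k M) : Prop :=
  Nontrivial M ∧ ∀ W : Submodule k M, Stb ρ W → W = ⊥ ∨ W = ⊤

/-- isomorphic representations -/
def Iso (ρ : Rp R A k M) (σ : Rp R A k N) : Prop :=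
  ∃ f : M ≃ₗ[k] N, IsHom ρ σ f.toLinearMap

/-- the space of intertwiners -/
def Hm (ρ : Rp R A k M) (σ : Rp R A k N) : Submodule k (M →ₗ[k] N) where
  carrier := {f | IsHom ρ σ f}
  zero_mem' := fun a x => by
    show (0 : N) = σ.ρ a 0
    rw [map_zero]
  add_mem' := fun {f g} hf hg a x => by
    show f (ρ.ρ a x) + g (ρ.ρ a x) = σ.ρ a (f x + g x)
    rw [map_add, hf a x, hg a x]
  smul_mem' := fun c f hf a x => by
    show c • f (ρ.ρ a x) = σ.ρ a (c • f x)
    rw [map_smul, hf a x]

/-- the dimension (rank) of the space of intertwiners -/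
def hd (ρ : Rp R A k M) (σ : Rp R A k N) : ℕ := Module.finrank k (Hm ρ σ)

/-- the rank of the action of an element -/
def rk (ρ : Rp R A k M) (a : A) : ℕ := Module.finrank k (LinearMap.range (ρ.ρ a))

/-- a complete family of (irreducible) representations: every irreducible finite-dimensional
representation is isomorphic to a member -/
def Cpl {ι : Type} {n : ι → ℕ} (S : ∀ i, Rp R A k (Fin (n i) → k)) : Prop :=
  ∀ (M : Type) [AddCommGroup M] [Module k M] [Module.Finite k M] (ρ : Rp R A k M),
    Irr ρ → ∃ i, Iso ρ (S i)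

/-- `m` are multiplicities of the `S i` in `ρ`, for homomorphisms to Higman projective
representations and for ranks of idempotents -/
structure Mlt {ι I : Type} [Fintype ι] [Fintype I] (c : FS R A I) {n : ι → ℕ}
    (S : ∀ i, Rp R A k (Fin (n i) → k)) (ρ : Rp R A k M) (m : ι → ℕ) : Prop where
  hom : ∀ (N : Type) [AddCommGroup N] [Module k N] [Module.Finite k N] (ν : Rp R A k N),
    HP c ν → hd ρ ν = ∑ i, m i * hd (S i) ν
  rnk : ∀ e : A, e * e = e → rk ρ e = ∑ i, m i * rk (S i) e

end gen

/-- `τ` is the generic fibre of the lattice `τ'`: an embedding with denominators. -/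
structure Gn {R A L T' T : Type} [CommRing R] [Ring A] [Algebra R A] [Field L] [Algebra R L]
    [AddCommGroup T'] [Module R T'] [AddCommGroup T] [Module L T]
    (τ' : Rp R A R T') (τ : Rp R A L T) where
  i : T' →+ T
  inj : Function.Injective i
  sm : ∀ (r : R) x, i (r • x) = algebraMap R L r • i x
  eqv : ∀ a x, i (τ'.ρ a x) = τ.ρ a (i x)
  den : ∀ t : T, ∃ (r : R) (x : T'), algebraMap R L r ≠ 0 ∧ algebraMap R L r • t = i x

/-- `τ0` is the special fibre of the lattice `τ'`. -/
structure Sf {F A' A T' T0 : Type} [Field F] [Ring A'] [Algebra (PowerSeries F) A'] [Ring A]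
    [Algebra F A] [AddCommGroup T'] [Module (PowerSeries F) T'] [AddCommGroup T0] [Module F T0]
    (fb : Fib F A' A) (τ' : Rp (PowerSeries F) A' (PowerSeries F) T') (τ0 : Rp F A F T0) where
  p : T' →+ T0
  sur : Function.Surjective p
  sm : ∀ (r : PowerSeries F) x, p (r • x) = PowerSeries.constantCoeff r • p x
  ker : ∀ x, p x = 0 → ∃ y, x = (PowerSeries.X : PowerSeries F) • y
  eqv : ∀ a x, p (τ'.ρ a x) = τ0.ρ (fb.q a) (p x)

/-- Nakayama data of the order `Γ` (output of part B3).  `x` is a normal nilpotent element, and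
up to powers of `t`, `Γ` is the sum of the `H x^i`, where `H` is generically semisimple. -/
structure Nk (F Γ H : Type) [Field F] [Ring Γ] [Algebra (PowerSeries F) Γ] [Ring H]
    [Algebra (PowerSeries F) H] where
  Q : ℕ
  hQ : 2 ≤ Q
  x : Γ
  xQ : x ^ Q = 0
  j : H →ₐ[PowerSeries F] Γ
  s : H ≃ₐ[PowerSeries F] H
  cm : ∀ h, x * j h = j (s h) * x
  gen : ∀ γ : Γ, ∃ (n : ℕ) (h : ℕ → H),
    (PowerSeries.X : PowerSeries F) ^ n • γ = ∑ i ∈ Finset.range Q, j (h i) * x ^ i
  ann : ∀ a : Γ, a * x = 0 →
    ∃ (n : ℕ) (b : Γ), (PowerSeries.X : PowerSeries F) ^ n • a = b * x ^ (Q - 1)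
  cr : ∀ (L T : Type) [Field L] [Algebra (PowerSeries F) L] [IsFractionRing (PowerSeries F) L]
    [AddCommGroup T] [Module L T] [Module.Finite L T] (τ : Rp (PowerSeries F) H L T)
    (U : Submodule L T), Stb τ U → ∃ U' : Submodule L T, Stb τ U' ∧ IsCompl U U'

/-- the group `E` in `Γ` and the one-dimensional representations `ag θ` (output of part B3) -/
structure Ed (F Γ E : Type) [Field F] [Ring Γ] [Algebra (PowerSeries F) Γ] [Group E] where
  ep : E →* Γ
  ag : (E →* Fˣ) → (Γ →ₐ[PowerSeries F] PowerSeries F)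
  ag_ep : ∀ θ e, ag θ (ep e) = PowerSeries.C (θ e : F)

/-- null homomorphisms: `f` vanishes on the kernel of `x^(Q-1)` -/
def Nul {F Γ H L T S : Type} [Field F] [Ring Γ] [Algebra (PowerSeries F) Γ] [Ring H]
    [Algebra (PowerSeries F) H] [Field L] [Algebra (PowerSeries F) L] [AddCommGroup T]
    [Module L T] [AddCommGroup S] [Module L S] (nk : Nk F Γ H) (τ : Rp (PowerSeries F) Γ L T)
    (f : T →ₗ[L] S) : Prop :=
  ∀ t, τ.ρ (nk.x ^ (nk.Q - 1)) t = 0 → f t = 0

end Pool.Agent.PFC.B2
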