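import Pool.Agent.PFC.DefsB1

/-!
# Squad PFC, block B3: the family of algebras over `F[[t]]` and its generic fibre (helper18)

`Pre`: algebras with generators `x i` (`i : I`, commuting) and `ε e` (`e : E`), relations
`x i ^ q i = c i • x (p i)`, `ε e * x i = η i e • (x i * ε e)`, with the basis
`x ^ α * ε e` (`α i < q i`) and the universal property.

`Nak`: the properties of the generic fibre (all blocks are Nakayama algebras without simple
projective modules), formulated for the order `Γ` over `F[[t]]`.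
-/

open scoped BigOperators

noncomputable section

namespace Pool.Agent.PFC.B3

open MvPolynomial

/-- the reduced monomial `x ^ α` -/
def mo (k I : Type) [CommRing k] [Fintype I] {q : I → ℕ} (α : ∀ i, Fin (q i)) :
    MvPolynomial I k :=
  ∏ i, X i ^ (α i : ℕ)

/-- the ideal generated by the `x i ^ q i - f i` -/
def JJ {k I : Type} [CommRing k] (q : I → ℕ) (f : I → MvPolynomial I k) :
    Ideal (MvPolynomial I k) :=
  Ideal.span (Set.range fun i => X i ^ q i - f i)

/-- presentation of the skew group algebra of `k[x] / (x i ^ q i - c i • x (p i))` and `E` -/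
structure Pre (k I E Λ : Type) [CommRing k] [Fintype I] [Group E] [Ring Λ] [Algebra k Λ]
    (q : I → ℕ) (p : I → I) (c : I → k) (η : I → E →* kˣ) where
  j : MvPolynomial I k →ₐ[k] Λ
  ε : E →* Λ
  rel : ∀ i, j (X i) ^ q i = c i • j (X (p i))
  cm : ∀ e i, ε e * j (X i) = (η i e : k) • (j (X i) * ε e)
  b : Module.Basis ((∀ i, Fin (q i)) × E) k Λ
  hb : ∀ α e, b (α, e) = j (mo k I α) * ε e
  up : ∀ (T : Type) [Ring T] (j' : MvPolynomial I k →+* T) (ε' : E →* T),
    (∀ i, j' (X i) ^ q i = j' (C (c i)) * j' (X (p i))) →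
    (∀ e i, ε' e * j' (X i) = j' (C (η i e : k)) * j' (X i) * ε' e) →
    (∀ e a, ε' e * j' (C a) = j' (C a) * ε' e) →
    ∃ h : Λ →+* T, (∀ f, h (j f) = j' f) ∧ ∀ e, h (ε e) = ε' e

/-- the constants of the family: `0` at `i0`, `t` elsewhere -/
def cc (k I : Type) [CommRing k] [DecidableEq I] (t : k) (i0 : I) (i : I) : k :=
  if i = i0 then 0 else t

/-- a character with values in a field, as a character with values in an algebra -/
def ηη {F I E : Type} [Field F] [Group E] (k : Type) [CommRing k] [Algebra F k]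
    (η : I → E →* Fˣ) (i : I) : E →* kˣ :=
  (Units.map (algebraMap F k : F →* k)).comp (η i)

/-- Properties of the generic fibre of an order `Γ` over `F[[t]]` (`t = PowerSeries.X`): `x` is a
normal nilpotent element, the annihilator of `x ^ i` is generated by `x ^ (Q - i)`, and the
representations with `x = 0` over the fraction field are semisimple.  `ε`, `aug`: all characters
of `E` occur over `F[[t]]`. -/
structure Nak (F E Γ : Type) [Field F] [Group E] [Ring Γ] [Algebra (PowerSeries F) Γ] where
  x : Γ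
  sg : Γ →+* Γ
  nrm : ∀ a, x * a = sg a * x
  sgs : Function.Surjective sg
  Q : ℕ
  two : 2 ≤ Q
  nil : x ^ Q = 0
  ann : ∀ i, i ≤ Q → ∀ a, x ^ i * a = 0 →
    ∃ (n : ℕ) (b : Γ), (PowerSeries.X : PowerSeries F) ^ n • a = x ^ (Q - i) * b
  ss : ∀ (L T : Type) [Field L] [Algebra (PowerSeries F) L] [IsFractionRing (PowerSeries F) L]
    [AddCommGroup T] [Module L T] [Module.Finite L T]
    (τ : B1.Rp (PowerSeries F) Γ L T), (∀ t, τ.ρ x t = 0) →
    ∀ U : Submodule L T, (∀ a, ∀ u ∈ U, τ.ρ a u ∈ U) →
      ∃ U' : Submodule L T, IsCompl U U' ∧ ∀ a, ∀ u ∈ U', τ.ρ a u ∈ U'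
  ε : E →* Γ
  aug : ∀ θ : E →* Fˣ, ∃ a : Γ →ₐ[PowerSeries F] PowerSeries F,
    a x = 0 ∧ ∀ e, a (ε e) = PowerSeries.C (θ e : F)

section FV

variable (F : Type) {V E : Type} [Field F] [CommGroup V] [Group E]

/-- the augmentation ideal of `F V`, as a subspace -/
def Au (F V : Type) [Field F] [CommGroup V] : Submodule F (MonoidAlgebra F V) :=
  Submodule.span F (Set.range fun v : V => MonoidAlgebra.of F V v - 1)

/-- the square of the augmentation ideal, as a subspace -/
def Au2 (F V : Type) [Field F] [CommGroup V] : Submodule F (MonoidAlgebra F V) :=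
  Submodule.span F {z | ∃ v w : V,
    z = (MonoidAlgebra.of F V v - 1) * (MonoidAlgebra.of F V w - 1)}

/-- the span of the `v - 1` with `v ^ (ℓ ^ a) = 1` -/
def Ia (F V : Type) [Field F] [CommGroup V] (ℓ a : ℕ) : Submodule F (MonoidAlgebra F V) :=
  Submodule.span F {z | ∃ v : V, v ^ ℓ ^ a = 1 ∧ z = MonoidAlgebra.of F V v - 1}

/-- the filtration of the augmentation ideal over its square -/
def Ua (F V : Type) [Field F] [CommGroup V] (ℓ a : ℕ) : Submodule F (MonoidAlgebra F V) :=
  Ia F V ℓ a ⊔ Au2 F V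

/-- the action of `E` on `F V` -/
def ac (φ : E →* MulAut V) (e : E) : MonoidAlgebra F V →ₐ[F] MonoidAlgebra F V :=
  MonoidAlgebra.mapDomainAlgHom F F (φ e : V ≃* V).toMonoidHom

/-- the eigenspace of the character `η` -/
def Eg {M : Type} [AddCommGroup M] [Module F M] (T : E → (M →ₗ[F] M)) (η : E →* Fˣ) :
    Submodule F M where
  carrier := {m | ∀ e, T e m = (η e : F) • m}
  add_mem' := by
    intro a b ha hb e
    rw [map_add, ha e, hb e, smul_add]
  zero_mem' := by
    intro e
    rw [map_zero, smul_zero]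
  smul_mem' := by
    intro c a ha e
    rw [map_smul, ha e, smul_comm]

/-- the subgroup generated by the elements of order dividing `ℓ ^ a` and the `ℓ`-th powers -/
def Ka (V : Type) [CommGroup V] (ℓ a : ℕ) : Subgroup V :=
  (powMonoidHom (ℓ ^ a) : V →* V).ker ⊔ (powMonoidHom ℓ : V →* V).range

end FV

end Pool.Agent.PFC.B3
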