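import Pool.Agent.PFC.DefsB4

/-!
# Squad PFC, block B4b: definitions (algebras with an interior action of an abelian group)

Theorem FC: blocks with abelian defect group `V` and cyclic inertial quotient acting freely on
`V - 1`.  Notes 3054, 3064 on MP_6a3f1a_al.  `F` is a field (of characteristic `ℓ`), `V` a finite
abelian `ℓ`-group.  Fixed vectors `Fx`, transversals `IsTv`, Brauer kernels `BK`, frames, `PS`, `bi`,
`cj`, `tw`: `DefsB4.lean`.
-/

open scoped BigOperators TensorProduct

noncomputable section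

namespace Pool.Agent.PFC

section modules

variable {F V M N : Type} [Field F] [Group V] [AddCommGroup M] [Module F M]
  [AddCommGroup N] [Module F N]

/-- the span of the relative traces from proper subgroups of `Q` to `Q` in `End(M)` -/
def PT (ρ : V →* (M →ₗ[F] M)) (Q : Subgroup V) : Submodule F (M →ₗ[F] M) :=
  Submodule.span F {T | ∃ (K : Subgroup V) (S : Finset V) (h : M →ₗ[F] M), K < Q ∧ IsTv K Q S ∧
    (∀ k ∈ K, ∀ m, ρ k (h m) = h (ρ k m)) ∧ ∀ m, T m = ∑ x ∈ S, ρ x (h (ρ x⁻¹ m))}

/-- `N` (with `β`, `s`) is the Brauer quotient `M(Q)`, and it is a direct summand of `M`: `M` is the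
sum of `s(N)` and a complement which is relatively projective for the proper subgroups of `Q`. -/
structure BrS (ρ : V →* (M →ₗ[F] M)) (ρ' : V →* (N →ₗ[F] N)) (Q : Subgroup V)
    (β : M →ₗ[F] N) (s : N →ₗ[F] M) : Prop where
  bs : ∀ n, β (s n) = n
  eb : ∀ v m, β (ρ v m) = ρ' v (β m)
  es : ∀ v n, s (ρ' v n) = ρ v (s n)
  tr : ∀ q ∈ Q, ∀ n, ρ' q n = n
  hg : LinearMap.id - s ∘ₗ β ∈ PT ρ Q

end modules

/-- interior `V`-algebra (bundled) -/
structure IA (F V : Type) [Field F] [CommGroup V] where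
  /-- the algebra -/
  A : Type
  [rg : Ring A]
  [al : Algebra F A]
  [fi : FiniteDimensional F A]
  /-- the structure homomorphism -/
  ι : V →* A

attribute [instance] IA.rg IA.al IA.fi

section algebras

variable {F V : Type} [Field F] [CommGroup V]

/-- `Y` (with `β`, `s`) is the Brauer quotient `X(Q)` as an interior `V`-algebra -/
structure ABr (X Y : IA F V) (Q : Subgroup V) (β : X.A →ₗ[F] Y.A) (s : Y.A →ₗ[F] X.A) : Prop
    extends BrS (cj F X.ι) (cj F Y.ι) Q β s where
  mul : ∀ a ∈ Fx (cj F X.ι) Q, ∀ b ∈ Fx (cj F X.ι) Q, β (a * b) = β a * β b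
  cov : ∀ v, β (X.ι v) = Y.ι v

/-- `Y` is isomorphic to `X(Q)` -/
def BQ (X Y : IA F V) (Q : Subgroup V) : Prop :=
  ∃ (β : X.A →ₗ[F] Y.A) (s : Y.A →ₗ[F] X.A), ABr X Y Q β s

/-- `X` is a direct summand of a permutation module for the conjugation action of `V` -/
def CP (X : IA F V) : Prop := PS (fun _ => True) (cj F X.ι)

/-- isomorphism of interior algebras -/
def Iso (X Y : IA F V) : Prop := ∃ e : X.A ≃ₐ[F] Y.A, ∀ v, e (X.ι v) = Y.ι v

/-- isomorphism which twists the action by the automorphism `σ` -/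
def IsoT (σ : MulAut V) (X Y : IA F V) : Prop := ∃ e : X.A ≃ₐ[F] Y.A, ∀ v, e (X.ι v) = Y.ι (σ v)

/-- tensor product -/
def IA.tens (X Y : IA F V) : IA F V where
  A := X.A ⊗[F] Y.A
  ι :=
    { toFun := fun v => X.ι v ⊗ₜ[F] Y.ι v
      map_one' := by
        rw [map_one, map_one, Algebra.TensorProduct.one_def]
      map_mul' := by
        intro u v
        rw [map_mul, map_mul, Algebra.TensorProduct.tmul_mul_tmul] }

/-- the opposite algebra, `v` acts as the opposite of `v⁻¹` -/
def IA.op (X : IA F V) : IA F V where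
  A := X.Aᵐᵒᵖ
  ι :=
    { toFun := fun v => MulOpposite.op (X.ι v⁻¹)
      map_one' := by simp
      map_mul' := by
        intro u v
        rw [← MulOpposite.op_mul, ← map_mul, mul_inv_rev] }

/-- the field -/
def IA.one (F V : Type) [Field F] [CommGroup V] : IA F V where
  A := F
  ι := 1

/-- the group algebra of `V` -/
def IA.gr (F V : Type) [Field F] [CommGroup V] [Finite V] : IA F V where
  A := MonoidAlgebra F V
  fi := by
    have : Fintype V := Fintype.ofFinite V
    exact inferInstance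
  ι := MonoidAlgebra.of F V

/-- `Y` is the corner `j X j` of `X`, `κ` the inclusion (`j` is an idempotent which commutes with
`V`) -/
structure Cor (X Y : IA F V) (j : X.A) (κ : Y.A →ₗ[F] X.A) : Prop where
  inj : Function.Injective κ
  mul : ∀ a b, κ (a * b) = κ a * κ b
  one : κ 1 = j
  ran : ∀ a, j * a = a → a * j = a → ∃ b, κ b = a
  com : ∀ v, X.ι v * j = j * X.ι v
  cov : ∀ v, κ (Y.ι v) = X.ι v * j

/-- full matrix algebra -/
def Mx (X : IA F V) : Prop := ∃ n : ℕ, 0 < n ∧ Nonempty (X.A ≃ₐ[F] Matrix (Fin n) (Fin n) F)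

/-- there is an idempotent `π` with `v π = π = π v` and corner `F`: for a matrix algebra `End(W)` this
means that the trivial module is a direct summand of `W` -/
def Ret (X : IA F V) : Prop :=
  ∃ π : X.A, π * π = π ∧ π ≠ 0 ∧ (∀ v, X.ι v * π = π) ∧ (∀ v, π * X.ι v = π) ∧
    ∀ a, ∃ c : F, π * a * π = c • π

/-- the automorphism `σ` of `V` is realised by a unit -/
def Rz (X : IA F V) (σ : MulAut V) : Prop :=
  ∃ y : X.Aˣ, ∀ v, (y : X.A) * X.ι v = X.ι (σ v) * y

/-- `b` is a character of the fixed algebra of `V`, extended to a functional which is invariant under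
conjugation -/
structure Chr (X : IA F V) (b : X.A →ₗ[F] F) : Prop where
  one : b 1 = 1
  mul : ∀ x ∈ Fx (cj F X.ι) ⊤, ∀ y ∈ Fx (cj F X.ι) ⊤, b (x * y) = b x * b y
  inv : ∀ v a, b (cj F X.ι v a) = b a

/-- `j` is a local idempotent of the fixed algebra of `V`, over the character `b` -/
structure Loc (X : IA F V) (b : X.A →ₗ[F] F) (j : X.A) : Prop where
  fx : j ∈ Fx (cj F X.ι) ⊤
  id : j * j = j
  bj : b j = 1
  nil : ∀ x ∈ Fx (cj F X.ι) ⊤, b (j * x * j) = 0 → IsNilpotent (j * x * j)

/-- the product over a signed list -/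
def prd {ι : Type} (S : ι → IA F V) : List (ι × Bool) → IA F V
  | [] => IA.one F V
  | (Q, true) :: L => (S Q).tens (prd S L)
  | (Q, false) :: L => (S Q).op.tens (prd S L)

/-- the twisted diagonal subgroups -/
def DD (E : Set (MulAut V)) : Subgroup (V × V) → Prop :=
  fun K => ∃ σ ∈ E, ∃ R : Subgroup V, K = tw σ.toMonoidHom R

end algebras

end Pool.Agent.PFC
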