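import Pool.Agent.AT6.Defs

/-!
# Squad PFC, block B6, part b: the local algebras `A(W)`, `1 ≠ W ≤ V`

`F = FF M`.  Elements of the group ring are functions with the product `mulF`.  `H = C(W)`, `f` the
block of `H` over `γ` (`T6.Lw`), `j` an idempotent of `F H` which is invariant under `V`, under `f` and
whose Brauer image at `V` is under `γ`, and on which the characters of `γ` do not vanish modulo `M`.
Then `j F H j` is mapped onto a full matrix algebra of size prime to `ℓ`, with nil kernel.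
Complete proofs in the docstrings; the rows are independent (a row may take the rows and the
statements of squads AT2, AT3, AT6, AT8 which it uses as hypotheses).
-/

open scoped BigOperators

noncomputable section

namespace Pool.Agent.PFC

open Pool.Agent.Helper51_AWC Pool.Agent.Helper79_WRA Pool.Agent.PP Pool.Agent.PP.KF
open Pool.Agent.PP.K9 Pool.Agent.PP.K9.H97 Pool.Agent.PP.H75 Pool.Agent.PP.T3

attribute [local instance] Ideal.Quotient.field

section defs

variable {F H : Type} [Field F] [Group H]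

/-- `π` maps the algebra `j F H j` onto the matrices of size `n`, the kernel is nil, and `n` is not
divisible by the characteristic. -/
structure Pj (j : H → F) (n : ℕ) (π : (H → F) →ₗ[F] Matrix (Fin n) (Fin n) F) : Prop where
  pos : 0 < n
  cop : (n : F) ≠ 0
  one : π j = 1
  mul : ∀ a b, mulF j a = a → mulF a j = a → mulF j b = b → mulF b j = b →
    π (mulF a b) = π a * π b
  sur : ∀ B, ∃ a, mulF j a = a ∧ mulF a j = a ∧ π a = B
  nil : ∀ a, mulF j a = a → mulF a j = a → π a = 0 → ∃ N : ℕ, (mulF a)^[N] a = 0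

end defs

/-- LNO: a block with an abelian defect group and inertial index one has one modular character.

Proof.  By `T3.NilStmt` all `κ ∈ IrrE M b` have the same degree `d`, and there are `|V|` of them; by
`T8.Rg1Stmt` they agree at the regular elements.  Let `κ₀` be one of them.  The lift
`eh M b (g) = |H|⁻¹ ∑_κ κ(1) κ(g⁻¹)` vanishes at the singular elements (`K9.WboStmt` or the lemma used
in `T3.NilStmt`; for example `Helper41_AT6/DIM.lean`), and `κ₀(eh M b) = κ₀(1) = d` (`KF.IdmStmt`,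
`T8.H14.chv_eh'` in `Helper14_AT8/FRY.lean`): so `|H|⁻¹ |V| d ∑_{s regular} κ₀(s⁻¹) κ₀(s) = d`.
By `T3.LrkStmt` `ln b = |H|⁻¹ ∑_{s regular} ∑_κ |κ(s)|² = |H|⁻¹ |V| ∑_{s regular} |κ₀(s)|² = 1`.
(Other way: `1 ≤ ln b` by `K9.LbdStmt` and `ln b ≤ ix = 1` by `T8.LfrStmt`, for `ℓ ≠ 2`.) -/
def LnoStmt : Prop := ∀ (ℓ : ℕ) [Fact ℓ.Prime] (M : Ideal (integralClosure ℤ ℂ)) [M.IsMaximal],
  (ℓ : integralClosure ℤ ℂ) ∈ M → ∀ (H : Type) [Group H] [Finite H] (b : H → FF M)
  (V : Subgroup H) (γ : H → FF M), Ld ℓ b V γ → ix V γ = 1 → ln b = 1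

/-- REP: the representation of a central idempotent with one modular character.

Proof.  `ln b = 1`: there is `tr ρ ∈ IBr F H` with `actF b (tr ρ) = tr ρ`, unique.  `EigStmt`
(`Helper94_PP/StmtsKR.lean`): `ev ρ b = 1` (the scalar is `0` or `1`, and `tr ρ ≠ 0`), and for an
irreducible `σ` with `tr σ ≠ tr ρ` the scalar `ev σ b` is `0`.  If `b a = a` and `ev ρ a = 0` then for
every irreducible `σ`: `ev σ a = ev σ b * ev σ a` is `0` if `tr σ ≠ tr ρ`; if `tr σ = tr ρ` then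
`ev σ a = 0` because `ρ`, `σ` are conjugate (`IbcStmt`).  `IbnStmt`.  Last claim: `φ = actL b φ` is in
`(TT F H ℓ).map (actL b)`, which has dimension `1` (`RnkStmt`) and contains `tr ρ ≠ 0`
(`BrtStmt`).  (All statements of `StmtsKR.lean` are proved, see `Helper94_PP`, `Helper20_PP`,
`Helper74_PP`.) -/
def RepStmt : Prop := ∀ (ℓ : ℕ) (F : Type) [Field F], GoodF ℓ F → ∀ (H : Type) [Group H] [Finite H]
  (b : H → F), IsIdem b → ln b = 1 →
  ∃ (N : ℕ) (ρ : H →* Matrix (Fin N) (Fin N) F), IsIrr ρ ∧ ev ρ b = 1 ∧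
    (∀ a, mulF b a = a → ev ρ a = 0 → ∃ k : ℕ, (mulF a)^[k] a = 0) ∧
    ∀ φ ∈ TT F H ℓ, actF b φ = φ → ∃ w : F, φ = w • tr ρ

/-- NNZ: the characters of a block of inertial index one do not vanish modulo `M` at `j`.

Proof.  Second half of `Helper14_AT8/FRY.lean` (for `Cu u = H`).  `T8.LftStmt` (`C = ⊤`): `i` over
the local ring with `Ip M V i`, `rd M i = j`.  Let `κ ∈ γ`, `χ ∈ b`, `c = κ(1)`, `d = χ(1)` (`DgcStmt`,
`NilStmt`), `C = C(V)`, `X = ∑_{t ∈ C} i(t) κ(t)`, `Y = chv i χ`.  `T8.OmiStmt` (for `e = b`): `|H| Y/(|V| d)`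
and `|C| X/(|V| c)` are in `RM M` with the same residue (`ix = 1`).  Multiply with
`q = |V| c/|C| ∈ RM M` (`T8.KnzStmt`): `|H| c Y/(|C| d)` has the residue of `X`, which is
`∑_t j(t) rr κ(t) ≠ 0`.  `|H| c/(|C| d)` is in `RM M` (`NitStmt`).  So the residue of `Y`, which is
`∑_h j(h) rr χ(h)`, is not zero. -/
def NnzStmt : Prop := ∀ (ℓ : ℕ) [Fact ℓ.Prime] (M : Ideal (integralClosure ℤ ℂ)) [M.IsMaximal],
  (ℓ : integralClosure ℤ ℂ) ∈ M → ∀ (H : Type) [Group H] [Finite H] (b : H → FF M)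
  (V : Subgroup H) (γ : H → FF M), Ld ℓ b V γ → ix V γ = 1 → ∀ j : H → FF M, mulF j j = j →
  (∀ v ∈ V, ∀ x, j (v * x * v⁻¹) = j x) → mulF (br V j) γ = br V j →
  (∀ κ ∈ IrrE M (fun t : Subgroup.centralizer (V : Set H) => γ t),
    ∑ᶠ t : Subgroup.centralizer (V : Set H), j t * rr M (κ t) ≠ 0) →
  ∀ χ ∈ IrrE M b, ∑ᶠ h, j h * rr M (χ h) ≠ 0

/-- PIC: from the representation of `F H` to the representation of `j F H j`.

Proof.  `P = ev ρ j` is an idempotent matrix; let `n` be its rank, `P = Y X`, `X Y = 1`, `Y : N × n`,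
`X : n × N` (basis of the range).  `tr P = tr (X Y) = n` in `F`, so `(n : F) ≠ 0`, `0 < n`.
`π a = X (ev ρ a) Y`.  `π j = X Y X Y = 1`.  For `a`, `b` in the corner `ev ρ a = ev ρ a P`, so
`π a π b = X (ev ρ a) Y X (ev ρ b) Y = X (ev ρ a)(ev ρ b) Y = π (a b)`.  Onto: `ev ρ x = Y B X` for some
`x` (`IsIrr ρ`: the matrices `ρ h` span), `a = j x j`, `π a = X P Y B X P Y = B`.  If `π a = 0` then
`ev ρ a = P (ev ρ a) P = Y (π a) X = 0`. -/
def PicStmt : Prop := ∀ (F : Type) [Field F] (H : Type) [Group H] [Finite H] (N : ℕ)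
  (ρ : H →* Matrix (Fin N) (Fin N) F), IsIrr ρ → ∀ j : H → F, mulF j j = j →
  (ev ρ j).trace ≠ 0 →
  (∀ a, mulF j a = a → mulF a j = a → ev ρ a = 0 → ∃ k : ℕ, (mulF a)^[k] a = 0) →
  ∃ n π, Pj j n π

/-- LPB: the local algebra.

Proof.  `Ld`, and the inertial group of `f` is the set of the elements of `H` in `Tg V γ`, by
`T6.LwdStmt`; an element `w ≠ 1` of `W` commutes with it, so by `Fr V γ` it is `C(V)`: the inertial
index of `f` is one.  LNO, REP: `ρ`.  Let `χ ∈ IrrE M f` (not empty, `T8.H14.irrE_nonempty`),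
`φ = rr ∘ χ`: it is in `TT` and `actF f φ = φ` (`KF.IdmStmt` at the functions `dl x`), so `φ = w • tr ρ`,
and NNZ gives `w tr (ev ρ j) = ∑_h j(h) φ(h) ≠ 0` (the centraliser of `V` in `H` is `C(V)`).  PIC. -/
def LpbStmt : Prop := ∀ (ℓ : ℕ) [Fact ℓ.Prime] (M : Ideal (integralClosure ℤ ℂ)) [M.IsMaximal],
  (ℓ : integralClosure ℤ ℂ) ∈ M → ∀ (G : Type) [Group G] [Finite G] (e : G → FF M)
  (V : Subgroup G) (γ : G → FF M), Ld ℓ e V γ → T8.Fr V γ → ∀ W : Subgroup G, W ≤ V → W ≠ ⊥ →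
  ∀ f, T6.Lw V γ W f → ∀ j : Subgroup.centralizer (W : Set G) → FF M, mulF j j = j →
  (∀ v : Subgroup.centralizer (W : Set G), (v : G) ∈ V → ∀ x, j (v * x * v⁻¹) = j x) →
  mulF (fun t : Subgroup.centralizer (W : Set G) => f t) j = j →
  mulF (br (V.subgroupOf (Subgroup.centralizer (W : Set G))) j)
    (fun t : Subgroup.centralizer (W : Set G) => γ t) =
      br (V.subgroupOf (Subgroup.centralizer (W : Set G))) j →
  (∀ κ ∈ IrrE M (fun t : Subgroup.centralizer (V : Set G) => γ t),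
    ∑ᶠ t : Subgroup.centralizer (V : Set G), PP.ext0 (Subgroup.centralizer (W : Set G)) j t *
      rr M (κ t) ≠ 0) →
  ∃ n π, Pj j n π

end Pool.Agent.PFC
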