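import Pool.Agent.PFC.Chain
import Pool.Agent.PFC.StmtsB6b
import Pool.Agent.Helper20_PP.Fun

/-!
# Squad PFC, block B6: definitions

The corner `j (F G) j` of the group ring as a ring (`Crn`), the homomorphism `V → Crn` (`jal`), the
local blocks of the subgroups of `V` (`Lq`), the coherent idempotents (`Jd`).  The elements of the
group ring are functions `G → F` with the product `mulF`; `dl F g` is the element `g`.
-/

open scoped BigOperators

noncomputable section

namespace Pool.Agent.PFC

open Pool.Agent.Helper51_AWC Pool.Agent.Helper79_WRA Pool.Agent.PP Pool.Agent.PP.KF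
open Pool.Agent.PP.K9 Pool.Agent.PP.K9.H97 Pool.Agent.PP.H75 Pool.Agent.PP.T3 Pool.Agent.PP.T2
open Pool.Agent.PP.T8 (Fr rs pw)

section corner

variable {F G : Type} [Field F] [Group G] [Finite G]

/-- the corner `j (F G) j`, a subspace -/
def CnS (j : G → F) : Submodule F (G → F) where
  carrier := {x | mulF j x = x ∧ mulF x j = x}
  add_mem' := by
    rintro a b ⟨h1, h2⟩ ⟨h3, h4⟩
    exact ⟨by rw [H20.mulF_add, h1, h3], by rw [H20.add_mulF, h2, h4]⟩
  zero_mem' := ⟨H20.mulF_zero j, H20.zero_mulF j⟩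
  smul_mem' := by
    rintro c a ⟨h1, h2⟩
    exact ⟨by rw [H20.mulF_smul, h1], by rw [H20.smul_mulF, h2]⟩

/-- The corner `j (F G) j`, `j` an idempotent: a ring with identity `j`. -/
def Crn {j : G → F} (_ : mulF j j = j) : Type := CnS j

variable {j : G → F} (hj : mulF j j = j)

instance : AddCommGroup (Crn hj) := inferInstanceAs (AddCommGroup (CnS j))

instance : Module F (Crn hj) := inferInstanceAs (Module F (CnS j))

/-- the element of the group ring -/
def cv {hj : mulF j j = j} (x : Crn hj) : G → F := x.1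

/-- an element of the group ring as an element of the corner -/
def mkc (x : G → F) (h : mulF j x = x ∧ mulF x j = x) : Crn hj := ⟨x, h⟩

theorem cv_mkc (x : G → F) (h : mulF j x = x ∧ mulF x j = x) : cv (mkc hj x h) = x := rfl

theorem cv_inj {x y : Crn hj} (h : cv x = cv y) : x = y := Subtype.ext h

theorem cv_l (x : Crn hj) : mulF j (cv x) = cv x := x.2.1

theorem cv_r (x : Crn hj) : mulF (cv x) j = cv x := x.2.2

instance : Mul (Crn hj) := ⟨fun x y => mkc hj (mulF (cv x) (cv y))
  ⟨by rw [← H20.mulF_assoc, cv_l], by rw [H20.mulF_assoc, cv_r]⟩⟩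

instance : One (Crn hj) := ⟨mkc hj j ⟨hj, hj⟩⟩

theorem cv_mul (x y : Crn hj) : cv (x * y) = mulF (cv x) (cv y) := rfl

theorem cv_one : cv (1 : Crn hj) = j := rfl

theorem cv_add (x y : Crn hj) : cv (x + y) = cv x + cv y := rfl

theorem cv_zero : cv (0 : Crn hj) = 0 := rfl

theorem cv_smul (c : F) (x : Crn hj) : cv (c • x) = c • cv x := rfl

instance : Ring (Crn hj) :=
  { (inferInstance : AddCommGroup (Crn hj)) with
    mul := fun x y => x * y
    one := 1
    mul_assoc := fun x y z => cv_inj hj (by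
      change mulF (mulF (cv x) (cv y)) (cv z) = mulF (cv x) (mulF (cv y) (cv z))
      exact H20.mulF_assoc _ _ _)
    one_mul := fun x => cv_inj hj (cv_l hj x)
    mul_one := fun x => cv_inj hj (cv_r hj x)
    left_distrib := fun x y z => cv_inj hj (H20.mulF_add _ _ _)
    right_distrib := fun x y z => cv_inj hj (H20.add_mulF _ _ _)
    zero_mul := fun x => cv_inj hj (H20.zero_mulF _)
    mul_zero := fun x => cv_inj hj (H20.mulF_zero _) }

instance : Algebra F (Crn hj) := Algebra.ofModule
  (fun c x y => cv_inj hj (H20.smul_mulF c (cv x) (cv y)))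
  (fun c x y => cv_inj hj (H20.mulF_smul c (cv x) (cv y)))

/-- the compression `j x j` -/
def mkj (x : G → F) : Crn hj := mkc hj (mulF j (mulF x j))
  ⟨by rw [← H20.mulF_assoc, hj], by rw [H20.mulF_assoc, H20.mulF_assoc, hj]⟩

theorem cv_mkj (x : G → F) : cv (mkj hj x) = mulF j (mulF x j) := rfl

theorem mulF_dl_l (g : G) (a : G → F) : mulF (dl F g) a = fun y => a (g⁻¹ * y) := by
  apply ma_injective
  rw [ma_mul, ma_dl]
  apply ma_ext
  intro y
  rw [ma_coeff]
  have := MonoidAlgebra.coeff_single_mul_apply (ma a) (1 : F) g y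
  rw [one_mul] at this
  exact this

theorem mulF_dl_r (g : G) (a : G → F) : mulF a (dl F g) = fun y => a (y * g⁻¹) := by
  apply ma_injective
  rw [ma_mul, ma_dl]
  apply ma_ext
  intro y
  rw [ma_coeff]
  have := MonoidAlgebra.coeff_mul_single_apply (ma a) (1 : F) g y
  rw [mul_one] at this
  exact this

theorem dl_comm {g : G} {a : G → F} (h : ∀ x, a (g * x * g⁻¹) = a x) :
    mulF (dl F g) a = mulF a (dl F g) := by
  rw [mulF_dl_l, mulF_dl_r]
  funext y
  rw [← h (g⁻¹ * y)]
  congr 1
  group

theorem dl_mul (g h : G) : mulF (dl F g) (dl F h) = dl F (g * h) := by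
  rw [mulF_dl_l]
  funext y
  unfold dl
  by_cases hy : y = g * h
  · subst hy
    simp
  · rw [if_neg hy, if_neg]
    intro h'
    apply hy
    rw [← h']
    group

/-- The interior structure of the corner: `w ↦ ι(w) j`. -/
def jal {W : Type} [Group W] (ι : W →* G) (hv : ∀ w x, j (ι w * x * (ι w)⁻¹) = j x) :
    W →* Crn hj where
  toFun := fun w => mkc hj (mulF (dl F (ι w)) j)
    ⟨by rw [dl_comm (hv w), ← H20.mulF_assoc, hj], by rw [H20.mulF_assoc, hj]⟩
  map_one' := by
    apply cv_inj
    rw [cv_mkc, cv_one, mulF_dl_l, map_one]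
    funext y
    simp
  map_mul' := by
    intro w w'
    apply cv_inj
    rw [cv_mkc, cv_mul, cv_mkc, cv_mkc, map_mul, ← dl_mul, H20.mulF_assoc, H20.mulF_assoc,
      ← H20.mulF_assoc j, ← dl_comm (hv w'), H20.mulF_assoc, hj]

theorem cv_jal {W : Type} [Group W] (ι : W →* G) (hv : ∀ w x, j (ι w * x * (ι w)⁻¹) = j x)
    (w : W) : cv (jal hj ι hv w) = mulF (dl F (ι w)) j := rfl

end corner

section loc

attribute [local instance] Ideal.Quotient.field

variable (M : Ideal (integralClosure ℤ ℂ)) [M.IsMaximal] {G : Type} [Group G]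

/-- A coherent local idempotent: it commutes with `V`, its Brauer images `br_W(j)`, `W ≤ V`, are under
the blocks over `γ` (for `W = V`: under `γ`), the characters of `γ` do not vanish modulo `M` at `j`,
and every element of the algebra of the elements of `j F G j` which commute with `V` has a power
which is `j` or `0`. -/
structure Jd (V : Subgroup G) (γ j : G → FF M) : Prop where
  id : mulF j j = j
  iv : ∀ v ∈ V, ∀ x, j (v * x * v⁻¹) = j x
  lb : ∀ W : Subgroup G, W ≤ V → ∀ f, T6.Lw V γ W f → mulF (br W j) f = br W j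
  nz : ∀ κ ∈ IrrE M (fun t : Subgroup.centralizer (V : Set G) => γ t),
    ∑ᶠ t : Subgroup.centralizer (V : Set G), j t * rr M (κ t) ≠ 0
  lo : ∀ w : G → FF M, (∀ v ∈ V, ∀ x, w (v * x * v⁻¹) = w x) → mulF j w = w → mulF w j = w →
    ∃ n : ℕ, 0 < n ∧ (pw w n = j ∨ pw w n = 0)

end loc

end Pool.Agent.PFC
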