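import Pool.Agent.PFC.DefsB2
import Pool.Agent.PFC.StmtsB3

/-!
# Squad PFC, part B2 (helper57): statements of the rows

From the deformation (B1) and the family (B3) to `|E| ≤ ls F A`.  `R = PowerSeries F`, `t = X`,
`L` a fraction field of `R`.  Definitions: `DefsB1.lean`, `DefsB2.lean`.  Proofs in the comments.
-/

noncomputable section

namespace Pool.Agent.PFC.B2

open Pool.Agent.PFC.B1

/-! ### Part 1: representations over a field -/

/-- SCH: Schur.  (Kernel and range are stable.) -/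
def SchStmt : Prop :=
  ∀ (R A k M N : Type) [CommRing R] [Ring A] [Algebra R A] [Field k] [Algebra R k]
    [AddCommGroup M] [Module k M] [AddCommGroup N] [Module k N] (ρ : Rp R A k M)
    (σ : Rp R A k N) (f : M →ₗ[k] N), Irr ρ → Irr σ → IsHom ρ σ f → f ≠ 0 →
    Function.Bijective f

/-- SIM: a nonzero finite-dimensional representation has an irreducible subrepresentation.
(Stable `W ≠ ⊥` of minimal `finrank`; a stable subspace of `W` maps to a stable subspace of
`M`.) -/
def SimStmt : Prop :=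
  ∀ (R A k M : Type) [CommRing R] [Ring A] [Algebra R A] [Field k] [Algebra R k]
    [AddCommGroup M] [Module k M] [Module.Finite k M] (ρ : Rp R A k M), Nontrivial M →
    ∃ (W : Submodule k M) (h : Stb ρ W), Irr (subRp ρ W h)

/-- INV: invariance under isomorphism. -/
def InvStmt : Prop :=
  ∀ (R A k M M' N J : Type) [CommRing R] [Ring A] [Algebra R A] [Field k] [Algebra R k]
    [Fintype J] [AddCommGroup M] [Module k M] [AddCommGroup M'] [Module k M'] [AddCommGroup N]
    [Module k N] (ρ : Rp R A k M) (ρ' : Rp R A k M') (ν : Rp R A k N), Iso ρ ρ' →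
    Iso ρ' ρ ∧ hd ρ ν = hd ρ' ν ∧ hd ν ρ = hd ν ρ' ∧ (∀ a, rk ρ a = rk ρ' a) ∧
    (Irr ρ → Irr ρ') ∧ (∀ c : FS R A J, HP c ρ → HP c ρ') ∧ (Iso ρ' ν → Iso ρ ν)

/-- FIN: every finite-dimensional representation is isomorphic to one on `Fin n → k`. -/
def FinStmt : Prop :=
  ∀ (R A k M : Type) [CommRing R] [Ring A] [Algebra R A] [Field k] [Algebra R k]
    [AddCommGroup M] [Module k M] [Module.Finite k M] (ρ : Rp R A k M),
    ∃ (n : ℕ) (ρ' : Rp R A k (Fin n → k)), Iso ρ ρ'

/-- HAD: homomorphisms to a Higman projective representation are exact.  (The restriction map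
`Hm ρ ν → Hm (subRp ρ W h) ν` is onto by PIN (extension, `W` has a linear complement), its kernel
is isomorphic to `Hm (quRp ρ W h) ν`.) -/
def HadStmt : Prop :=
  ∀ (R A I k M N : Type) [CommRing R] [Ring A] [Algebra R A] [Fintype I] [Field k] [Algebra R k]
    [AddCommGroup M] [Module k M] [Module.Finite k M] [AddCommGroup N] [Module k N]
    [Module.Finite k N] (c : FS R A I) (ρ : Rp R A k M) (ν : Rp R A k N) (W : Submodule k M)
    (h : Stb ρ W), HP c ν → hd ρ ν = hd (subRp ρ W h) ν + hd (quRp ρ W h) ν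

/-- RAD: ranks of idempotents are additive.  (`eM ∩ W = eW`, the image of `eM` in `M/W` is
`e(M/W)`.) -/
def RadStmt : Prop :=
  ∀ (R A k M : Type) [CommRing R] [Ring A] [Algebra R A] [Field k] [Algebra R k]
    [AddCommGroup M] [Module k M] [Module.Finite k M] (ρ : Rp R A k M) (W : Submodule k M)
    (h : Stb ρ W) (e : A), e * e = e → rk ρ e = rk (subRp ρ W h) e + rk (quRp ρ W h) e

/-- MUL: multiplicities exist.  (Strong induction on `finrank k M`: `M = 0`: all `m i = 0`;
otherwise an irreducible `W` (SIM), `Iso` to some `S i`; HAD, RAD, INV; the quotient has smaller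
dimension.) -/
def MulStmt : Prop :=
  ∀ (R A I k ι M : Type) [CommRing R] [Ring A] [Algebra R A] [Fintype I] [Field k] [Algebra R k]
    [Fintype ι] [AddCommGroup M] [Module k M] [Module.Finite k M] (c : FS R A I) (n : ι → ℕ)
    (S : ∀ i, Rp R A k (Fin (n i) → k)) (ρ : Rp R A k M), Cpl S → ∃ m : ι → ℕ, Mlt c S ρ m

/-- FML: finite complete families of pairwise nonisomorphic irreducible representations.  (For
every finite-dimensional `X` there is a finite list of irreducible representations containing up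
to isomorphism every irreducible `M` with a nonzero intertwiner `X → M`: induction on `finrank X`
with SIM (`W ≤ X` irreducible: the intertwiner is nonzero on `W`, then `W` is isomorphic to `M`,
or it factors through `X/W`).  Apply it to the regular representation on `k ⊗[R] A`, and remove
repetitions.) -/
def FmlStmt : Prop :=
  ∀ (R A k : Type) [CommRing R] [Ring A] [Algebra R A] [Module.Finite R A] [Field k]
    [Algebra R k], ∃ (l : ℕ) (n : Fin l → ℕ) (S : ∀ i, Rp R A k (Fin (n i) → k)),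
    (∀ i, Irr (S i)) ∧ Cpl S ∧ ∀ i i', Iso (S i) (S i') → i = i'

/-- QFI: finiteness and freeness of `Co` and `QQ`.  (A function in `Co j σ` or in `QQ j τ` is
additive and `R`-linear (via `algebraMap R k`), so it is determined by its values on finitely
many generators of the `R`-module `A`: submodule of `Fin n → T`, `k` noetherian.  Over
`PowerSeries F`: a finite torsion free module over a PID.) -/
def QfiStmt : Prop :=
  (∀ (R Γ A k S : Type) [CommRing R] [Ring Γ] [Algebra R Γ] [Ring A] [Algebra R A]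
    [Module.Finite R A] [CommRing k] [IsNoetherianRing k] [Algebra R k] [AddCommGroup S]
    [Module k S] [Module.Finite k S] (j : Γ →ₐ[R] A) (σ : Rp R Γ k S),
    Module.Finite k (Co j σ)) ∧
  (∀ (R Γ A k T : Type) [CommRing R] [Ring Γ] [Algebra R Γ] [Ring A] [Algebra R A]
    [Module.Finite R A] [CommRing k] [IsNoetherianRing k] [Algebra R k] [AddCommGroup T]
    [Module k T] [Module.Finite k T] (j : Γ →ₐ[R] A) (τ : Rp R A k T),
    Module.Finite k (QQ j τ)) ∧
  (∀ (F Γ A T : Type) [Field F] [Ring Γ] [Algebra (PowerSeries F) Γ] [Ring A]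
    [Algebra (PowerSeries F) A] [Module.Finite (PowerSeries F) A] [AddCommGroup T]
    [Module (PowerSeries F) T] [Module.Finite (PowerSeries F) T] [Module.Free (PowerSeries F) T]
    (j : Γ →ₐ[PowerSeries F] A) (τ : Rp (PowerSeries F) A (PowerSeries F) T),
    Module.Free (PowerSeries F) (QQ j τ))

/-- HUL: an irreducible `τ` has a Higman projective hull: an HP representation `μ` with a nonzero
intertwiner from `τ` and only zero intertwiners from the other irreducible representations.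

Proof.  Existence of HP `μ` with a nonzero intertwiner: `Co (Algebra.ofId R A) τ0`, where `τ0` is
`τ` restricted to `R`; it is HP by COH (`R` over itself has the Frobenius system `id, 1, 1` and
every representation of `R` is HP), and `t ↦ (x ↦ τ x t)`.  Choose such a `μ` with `finrank`
minimal.  Let `f : T → M` and `f' : T' → M` be nonzero, `T'` not isomorphic to `T`: both are
injective with `range f ⊓ range f' = ⊥` (Schur).  By PIN (extension along
`range f ⊔ range f' ≤ M`) there is an intertwiner `h : M → M` with `h = id` on `range f` and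
`h = 0` on `range f'`.  Fitting: `M = ker h^N ⊕ range h^N` (stable complements).  `range h^N` is
HP (retract, PIN), contains `range f`, and is not `M` since `range f' ≤ ker h`: this
contradicts minimality. -/
def HulStmt : Prop :=
  ∀ (R A J k T : Type) [CommRing R] [Ring A] [Algebra R A] [Module.Finite R A] [Fintype J]
    [Field k] [Algebra R k] [AddCommGroup T] [Module k T] [Module.Finite k T] (d : FS R A J)
    (τ : Rp R A k T), Irr τ →
    ∃ (M : Type) (_ : AddCommGroup M) (_ : Module k M) (_ : Module.Finite k M)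
      (μ : Rp R A k M), HP d μ ∧ (∃ f : T →ₗ[k] M, IsHom τ μ f ∧ f ≠ 0) ∧
      ∀ (T' : Type) [AddCommGroup T'] [Module k T'] [Module.Finite k T'] (τ' : Rp R A k T'),
        Irr τ' → ¬ Iso τ τ' → ∀ f : T' →ₗ[k] M, IsHom τ' μ f → f = 0

/-- BRI: over an algebraically closed field there is a complete family with `ls F A` members.
(An irreducible representation `ρ : A → End (Fin n → F)` is surjective by Burnside's theorem
(density; Mathlib), so its kernel is in `kers F A`; two irreducible representations with the same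
kernel are isomorphic: `Mat_n(F)` has one simple module; `kers F A` is finite: the kernels are
pairwise comaximal two-sided ideals of `A`, or use FML.) -/
def BriStmt : Prop :=
  ∀ (F A : Type) [Field F] [IsAlgClosed F] [Ring A] [Algebra F A] [FiniteDimensional F A],
    ∃ (n : Fin (ls F A) → ℕ) (S : ∀ i, Rp F A F (Fin (n i) → F)), Cpl S

/-- LNA: linear algebra.  (Let `W` be the span of the `w j` in `ι → ℚ`.  By the first hypothesis
`c ↦ ∑ s, c s • z s` is a surjection of `ι → ℚ` onto `(ι → ℚ) / W`; the `m ψ` are linearly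
independent (evaluate at `g ψ'`) and in its kernel; so `card ι - card κ ≤ dim ≤
card ι - card Ψ`.) -/
def LnaStmt : Prop :=
  ∀ (ι κ Ψ : Type) [Fintype ι] [Fintype κ] [Fintype Ψ] [DecidableEq ι] [DecidableEq Ψ]
    (z : ι → ι → ℚ) (w : κ → ι → ℚ) (a : ι → ι → ℚ) (b : ι → κ → ℚ) (δ : ι → ℚ)
    (m : Ψ → ι → ℚ) (m' : Ψ → κ → ℚ) (g : Ψ → ι), (∀ i, δ i ≠ 0) →
    (∀ i0 i, ∑ s, a i0 s * z s i = (if i = i0 then δ i0 else 0) + ∑ j, b i0 j * w j i) →
    (∀ ψ i, ∑ s, m ψ s * z s i = ∑ j, m' ψ j * w j i) →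
    (∀ ψ ψ', m ψ (g ψ') = if ψ = ψ' then 1 else 0) → Fintype.card Ψ ≤ Fintype.card κ

/-- CHR: the idempotents of the characters of `E`.  (`E` is commutative, `F` algebraically closed,
`|E| ≠ 0` in `F`: `CommGroup.card_monoidHom_of_hasEnoughRootsOfUnity`;
`ee θ = ∑ e, C (|E|⁻¹ * θ e⁻¹) • ep e`.) -/
def ChrStmt : Prop :=
  ∀ (F Γ E : Type) [Field F] [IsAlgClosed F] [Ring Γ] [Algebra (PowerSeries F) Γ] [Group E]
    [Finite E] (ed : Ed F Γ E), (∀ a b : E, a * b = b * a) → (Nat.card E : F) ≠ 0 →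
    Finite (E →* Fˣ) ∧ Nat.card (E →* Fˣ) = Nat.card E ∧
    ∃ ee : (E →* Fˣ) → Γ, (∀ θ, ee θ * ee θ = ee θ) ∧
      (∀ θ, ed.ag θ (ee θ) = 1) ∧ ∀ θ θ', θ ≠ θ' → ed.ag θ' (ee θ) = 0

/-! ### Part 2: generic and special fibres of lattices -/

section lat

/-- SPE: existence of the special fibre `T' / X T'`. -/
def SpeStmt : Prop :=
  ∀ (F A' A T' : Type) [Field F] [Ring A'] [Algebra (PowerSeries F) A'] [Ring A] [Algebra F A]
    [AddCommGroup T'] [Module (PowerSeries F) T'] [Module.Finite (PowerSeries F) T']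
    (fb : Fib F A' A) (τ' : Rp (PowerSeries F) A' (PowerSeries F) T'),
    ∃ (T0 : Type) (_ : AddCommGroup T0) (_ : Module F T0) (_ : Module.Finite F T0)
      (τ0 : Rp F A F T0), Nonempty (Sf fb τ' τ0)

/-- RDF: reduction of a Frobenius system. -/
def RdfStmt : Prop :=
  ∀ (F A' A J : Type) [Field F] [Ring A'] [Algebra (PowerSeries F) A'] [Ring A] [Algebra F A]
    [Fintype J] (d : FS (PowerSeries F) A' J) (fb : Fib F A' A),
    ∃ d0 : FS F A J, (∀ i, d0.b i = fb.q (d.b i)) ∧ (∀ i, d0.b' i = fb.q (d.b' i)) ∧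
      ∀ x, d0.lam (fb.q x) = PowerSeries.constantCoeff (d.lam x)

/-- HPR: the special fibre of a Higman projective lattice is Higman projective. -/
def HprStmt : Prop :=
  ∀ (F A' A J T' T0 : Type) [Field F] [Ring A'] [Algebra (PowerSeries F) A'] [Ring A]
    [Algebra F A] [Fintype J] [AddCommGroup T'] [Module (PowerSeries F) T'] [AddCommGroup T0]
    [Module F T0] (d : FS (PowerSeries F) A' J) (fb : Fib F A' A) (d0 : FS F A J)
    (τ' : Rp (PowerSeries F) A' (PowerSeries F) T') (τ0 : Rp F A F T0) (_ : Sf fb τ' τ0),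
    (∀ i, d0.b i = fb.q (d.b i)) → (∀ i, d0.b' i = fb.q (d.b' i)) → HP d τ' → HP d0 τ0

/-- HGN: rank of the intertwiners of lattices = dimension over the fraction field.  (Every
intertwiner of lattices extends uniquely to the generic fibres (`den`); a basis of `Hm τ' ν'`
(free of finite rank, a submodule of a finite free module over a PID) goes to a basis of
`Hm τ ν`: independence by clearing denominators, generation because a multiple of
`f : T → N` maps `i T'` to `i N'` (`T'` finitely generated).) -/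
def HgnStmt : Prop :=
  ∀ (F A' L T' N' T N : Type) [Field F] [Ring A'] [Algebra (PowerSeries F) A'] [Field L]
    [Algebra (PowerSeries F) L] [IsFractionRing (PowerSeries F) L] [AddCommGroup T']
    [Module (PowerSeries F) T'] [Module.Finite (PowerSeries F) T']
    [Module.Free (PowerSeries F) T'] [AddCommGroup N'] [Module (PowerSeries F) N']
    [Module.Finite (PowerSeries F) N'] [Module.Free (PowerSeries F) N'] [AddCommGroup T]
    [Module L T] [AddCommGroup N] [Module L N]
    (τ' : Rp (PowerSeries F) A' (PowerSeries F) T')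
    (ν' : Rp (PowerSeries F) A' (PowerSeries F) N') (τ : Rp (PowerSeries F) A' L T)
    (ν : Rp (PowerSeries F) A' L N) (_ : Gn τ' τ) (_ : Gn ν' ν), hd τ' ν' = hd τ ν

/-- HSP: rank of the intertwiners into a Higman projective lattice = dimension over the residue
field.  (Reduction `Hm τ' ν' → Hm τ0 ν0` is onto: lift `g0 : T0 → N0` to a linear `g : T' → N'`
(`T'` free), `Tr (a ∘ g)`, where `Tr a = id` on `N'`, reduces to `g0` (Casimir / TRH); its kernel
is `X • Hm τ' ν'`.) -/
def HspStmt : Prop :=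
  ∀ (F A' A J T' N' T0 N0 : Type) [Field F] [Ring A'] [Algebra (PowerSeries F) A'] [Ring A]
    [Algebra F A] [Fintype J] [AddCommGroup T'] [Module (PowerSeries F) T']
    [Module.Finite (PowerSeries F) T'] [Module.Free (PowerSeries F) T'] [AddCommGroup N']
    [Module (PowerSeries F) N'] [Module.Finite (PowerSeries F) N']
    [Module.Free (PowerSeries F) N'] [AddCommGroup T0] [Module F T0] [AddCommGroup N0]
    [Module F N0] (d : FS (PowerSeries F) A' J) (fb : Fib F A' A)
    (τ' : Rp (PowerSeries F) A' (PowerSeries F) T')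
    (ν' : Rp (PowerSeries F) A' (PowerSeries F) N') (τ0 : Rp F A F T0) (ν0 : Rp F A F N0)
    (_ : Sf fb τ' τ0) (_ : Sf fb ν' ν0), HP d ν' → hd τ' ν' = hd τ0 ν0

/-- RKI: the rank of an idempotent is the same on both fibres.  (Both are the rank of the free
`R`-module `e T'`, a direct summand of `T'`.) -/
def RkiStmt : Prop :=
  ∀ (F A' A L T' T T0 : Type) [Field F] [Ring A'] [Algebra (PowerSeries F) A'] [Ring A]
    [Algebra F A] [Field L] [Algebra (PowerSeries F) L] [IsFractionRing (PowerSeries F) L]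
    [AddCommGroup T'] [Module (PowerSeries F) T'] [Module.Finite (PowerSeries F) T']
    [Module.Free (PowerSeries F) T'] [AddCommGroup T] [Module L T] [AddCommGroup T0]
    [Module F T0] (fb : Fib F A' A) (τ' : Rp (PowerSeries F) A' (PowerSeries F) T')
    (τ : Rp (PowerSeries F) A' L T) (τ0 : Rp F A F T0) (_ : Gn τ' τ) (_ : Sf fb τ' τ0)
    (e : A'), e * e = e → rk τ e = rk τ0 (fb.q e)

/-- QGN: `QQ` commutes with the generic fibre.  (`f ↦ i ∘ f`; denominators: `A'` is finitely
generated over `R`.) -/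
def QgnStmt : Prop :=
  ∀ (F Γ A' L T' T : Type) [Field F] [Ring Γ] [Algebra (PowerSeries F) Γ] [Ring A']
    [Algebra (PowerSeries F) A'] [Module.Finite (PowerSeries F) A'] [Field L]
    [Algebra (PowerSeries F) L] [IsFractionRing (PowerSeries F) L] [AddCommGroup T']
    [Module (PowerSeries F) T'] [AddCommGroup T] [Module L T] (j : Γ →ₐ[PowerSeries F] A')
    (τ' : Rp (PowerSeries F) A' (PowerSeries F) T') (τ : Rp (PowerSeries F) A' L T)
    (_ : Gn τ' τ), Nonempty (Gn (qqRp j τ') (qqRp j τ))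

end lat

/-- ADJ: for `μ` Higman projective over `A`:
`dim Hom_A(τ, μ) + dim Hom_A(τ, QQ μ) = dim Hom_Γ(τ, μ)`.  (QEX: `0 → M → Co → QQ → 0`; it splits
over `A` by PIN (extension of `id` on `M`); so `dim Hom_A(τ, Co) = dim Hom_A(τ, μ) +
dim Hom_A(τ, QQ μ)`; and `Hom_A(τ, Co (μ.res j)) = Hom_Γ(τ.res j, μ.res j)` by `g ↦ (t ↦ g t 1)`,
inverse `f ↦ (t ↦ (x ↦ f (τ x t)))`.) -/
def AdjStmt : Prop :=
  ∀ (R Γ A J k T M : Type) [CommRing R] [Ring Γ] [Algebra R Γ] [Ring A] [Algebra R A]
    [Module.Finite R A] [Fintype J] [Field k] [Algebra R k] [AddCommGroup T] [Module k T]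
    [Module.Finite k T] [AddCommGroup M] [Module k M] [Module.Finite k M] (d : FS R A J)
    (j : Γ →ₐ[R] A) (τ : Rp R A k T) (μ : Rp R A k M), HP d μ →
    hd τ μ + hd τ (qqRp j μ) = hd (τ.res j) (μ.res j)

/-- CTR: for `μ` Higman projective over `A'` (generic fibre) there are `q i` with
`dim Hom_A(τ, μ) + ∑ m i q i = dim Hom_Γ(τ, μ)` for all `τ`, where `m` are the multiplicities of
the reduction of `τ`.

Proof.  LAT: a lattice `μ'` of `μ`; QGN: `QQ μ'` is a lattice of `QQ μ`, free and finite (QFI) and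
HP (hypothesis); SPE: its special fibre `κ0`, HP by HPR, finite; `q i = hd (S i) κ0`.  ADJ, HGN, HSP
(`hd τ (QQ μ) = hd τ' (QQ μ') = hd τ0 κ0`), and `Mlt.hom`. -/
def CtrStmt : Prop :=
  ∀ (F Γ A' A I J κ L M : Type) [Field F] [Ring Γ] [Algebra (PowerSeries F) Γ] [Ring A']
    [Algebra (PowerSeries F) A'] [Module.Finite (PowerSeries F) A'] [Ring A] [Algebra F A]
    [Fintype I] [Fintype J] [Fintype κ] [Field L] [Algebra (PowerSeries F) L]
    [IsFractionRing (PowerSeries F) L] [AddCommGroup M] [Module L M] [Module.Finite L M]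
    (c : FS (PowerSeries F) Γ I) (d : FS (PowerSeries F) A' J) (sp : Split c A')
    (fb : Fib F A' A) (d0 : FS F A J) (n : κ → ℕ) (S : ∀ i, Rp F A F (Fin (n i) → F))
    (μ : Rp (PowerSeries F) A' L M),
    (∀ i, d0.b i = fb.q (d.b i)) → (∀ i, d0.b' i = fb.q (d.b' i)) →
    (∀ (T : Type) [AddCommGroup T] [Module (PowerSeries F) T] [Module.Finite (PowerSeries F) T]
      [Module.Free (PowerSeries F) T] (τ : Rp (PowerSeries F) A' (PowerSeries F) T),
      HP d (qqRp sp.j τ)) → HP d μ →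
    ∃ q : κ → ℕ, ∀ (T' T T0 : Type) [AddCommGroup T'] [Module (PowerSeries F) T']
      [Module.Finite (PowerSeries F) T'] [Module.Free (PowerSeries F) T'] [AddCommGroup T]
      [Module L T] [Module.Finite L T] [AddCommGroup T0] [Module F T0]
      (τ' : Rp (PowerSeries F) A' (PowerSeries F) T') (τ : Rp (PowerSeries F) A' L T)
      (τ0 : Rp F A F T0) (_ : Gn τ' τ) (_ : Sf fb τ' τ0) (m : κ → ℕ), Mlt d0 S τ0 m →
      hd τ μ + ∑ i, m i * q i = hd (τ.res sp.j) (μ.res sp.j)

/-- COU: the count.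

Proof.  `ι = Fin l`, `κ = Fin (ls F A)`, `S0` the family of BRI, `Ψ = (E →* Fˣ)`, `ee` from CHR.
For every `i` a lattice `T' i` of `T i` (LAT; `Gn` with `r = X ^ n`) and its special fibre (SPE);
`d0` from RDF; `z s i` = multiplicity of `S s` in `(T i).res sp.j` (MUL over `Γ`), `w j i` =
multiplicity of `S0 j` in the special fibre of `T' i` (MUL over `A`, `Cpl S0`).  For `i0` let
`μ` be the hull of `T i0` (HUL): `μ.res sp.j` is HP over `Γ` (RES), so
`hd ((T i).res) (μ.res) = ∑ s, z s i * hd (S s) (μ.res)`, and CTR gives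
`hd (T i) μ + ∑ j, w j i * q j = ∑ s, z s i * hd (S s) (μ.res)`, where `hd (T i) μ = 0` for
`i ≠ i0` and `≠ 0` for `i = i0`.  For `ψ`: `rk (T i) (sp.j (ee ψ))` is
`∑ s, z s i * rk (S s) (ee ψ)` (`Mlt.rnk` over `Γ`) and, by RKI,
`∑ j, w j i * rk (S0 j) (fb.q (sp.j (ee ψ)))`.  For `ψ'` the one-dimensional representation of `Γ`
on `L` by `algebraMap ∘ ed.ag ψ'` is irreducible, so isomorphic to `S (g ψ')`, on which `ee ψ` has
rank `1` or `0` (INV).  LNA. -/
def CouStmt : Prop :=
  ∀ (F Γ A' A E I J L : Type) [Field F] [IsAlgClosed F] [Ring Γ] [Algebra (PowerSeries F) Γ]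
    [Ring A'] [Algebra (PowerSeries F) A'] [Module.Finite (PowerSeries F) A'] [Ring A]
    [Algebra F A] [Module.Finite F A] [Group E] [Finite E] [Fintype I] [Fintype J] [Field L]
    [Algebra (PowerSeries F) L] [IsFractionRing (PowerSeries F) L]
    (c : FS (PowerSeries F) Γ I) (d : FS (PowerSeries F) A' J) (sp : Split c A')
    (_ : Fib F A' A) (_ : Ed F Γ E) (l : ℕ) (n : Fin l → ℕ)
    (S : ∀ i, Rp (PowerSeries F) Γ L (Fin (n i) → L)) (p : Fin l → ℕ)
    (T : ∀ i, Rp (PowerSeries F) A' L (Fin (p i) → L)),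
    (∀ a b : E, a * b = b * a) → (Nat.card E : F) ≠ 0 →
    (∀ (T : Type) [AddCommGroup T] [Module (PowerSeries F) T] [Module.Finite (PowerSeries F) T]
      [Module.Free (PowerSeries F) T] (τ : Rp (PowerSeries F) A' (PowerSeries F) T),
      HP d (qqRp sp.j τ)) →
    Cpl S → (∀ i, Irr (T i)) → (∀ i i', Iso (T i) (T i') → i = i') →
    Nat.card E ≤ ls F A

/-! ### Part 3: the Auslander-Reiten part (over the fraction field `L`) -/

section ar

/-- XIR: `x` acts as `0` on irreducible representations of `Γ`.  (The range of `σ x` is stable: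
`γ x` is up to a power of `t` a sum of `j h x^i x = x^(i+1) j (s^-(i+1) h)`; it is not everything
because `x` is nilpotent.) -/
def XirStmt : Prop :=
  ∀ (F Γ H L S : Type) [Field F] [Ring Γ] [Algebra (PowerSeries F) Γ] [Ring H]
    [Algebra (PowerSeries F) H] [Field L] [Algebra (PowerSeries F) L]
    [IsFractionRing (PowerSeries F) L] [AddCommGroup S] [Module L S] (nk : Nk F Γ H)
    (σ : Rp (PowerSeries F) Γ L S), Irr σ → ∀ s, σ.ρ nk.x s = 0

/-- CRG: complete reducibility with projections, for `H`, and for `Γ` if `x` acts as `0`.  (The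
projection along a stable complement is an intertwiner; if `x` acts as `0` then `H`-stable subspaces
are `Γ`-stable, and `H`-intertwiners are `Γ`-intertwiners, by `gen`.) -/
def CrgStmt : Prop :=
  (∀ (F Γ H L T : Type) [Field F] [Ring Γ] [Algebra (PowerSeries F) Γ] [Ring H]
    [Algebra (PowerSeries F) H] [Field L] [Algebra (PowerSeries F) L]
    [IsFractionRing (PowerSeries F) L] [AddCommGroup T] [Module L T] [Module.Finite L T]
    (_ : Nk F Γ H) (τ : Rp (PowerSeries F) H L T) (U : Submodule L T), Stb τ U →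
    ∃ p : T →ₗ[L] T, IsHom τ τ p ∧ (∀ t, p t ∈ U) ∧ ∀ u ∈ U, p u = u) ∧
  (∀ (F Γ H L T : Type) [Field F] [Ring Γ] [Algebra (PowerSeries F) Γ] [Ring H]
    [Algebra (PowerSeries F) H] [Field L] [Algebra (PowerSeries F) L]
    [IsFractionRing (PowerSeries F) L] [AddCommGroup T] [Module L T] [Module.Finite L T]
    (nk : Nk F Γ H) (τ : Rp (PowerSeries F) Γ L T), (∀ t, τ.ρ nk.x t = 0) →
    ∀ U : Submodule L T, Stb τ U →
    ∃ p : T →ₗ[L] T, IsHom τ τ p ∧ (∀ t, p t ∈ U) ∧ ∀ u ∈ U, p u = u)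

/-- NHP: on a Higman projective representation of `Γ` the kernel of `x^(Q-1)` is the range of
`x`.  Hence intertwiners which factor through HP representations are null.

Proof.  `∑ b_i a(b_i' y) = y`, `φ(γ) = a(γ y)`, `Γ → P`, vanishes on `Γ x^(Q-1)`, so (by `ann`)
`φ(γ) = 0` if `γ x = 0`; hence `φ(γ) = φ'(γ x)` for an `R`-linear `φ' : Γ → P` (extend linearly to
`L ⊗[R] Γ` and use linear algebra over `L`).  By the Casimir identity
`y = ∑ b_i φ'(b_i' x) = ∑ x b_i φ'(b_i') = x y'`. -/
def NhpStmt : Prop :=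
  (∀ (F Γ H I L P : Type) [Field F] [Ring Γ] [Algebra (PowerSeries F) Γ] [Ring H]
    [Algebra (PowerSeries F) H] [Fintype I] [Field L] [Algebra (PowerSeries F) L]
    [IsFractionRing (PowerSeries F) L] [AddCommGroup P] [Module L P]
    (c : FS (PowerSeries F) Γ I) (nk : Nk F Γ H) (π : Rp (PowerSeries F) Γ L P), HP c π →
    ∀ y, π.ρ (nk.x ^ (nk.Q - 1)) y = 0 → ∃ y', y = π.ρ nk.x y') ∧
  (∀ (F Γ H I L T P S : Type) [Field F] [Ring Γ] [Algebra (PowerSeries F) Γ] [Ring H]
    [Algebra (PowerSeries F) H] [Fintype I] [Field L] [Algebra (PowerSeries F) L]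
    [IsFractionRing (PowerSeries F) L] [AddCommGroup T] [Module L T] [AddCommGroup P]
    [Module L P] [AddCommGroup S] [Module L S]
    (c : FS (PowerSeries F) Γ I) (nk : Nk F Γ H) (τ : Rp (PowerSeries F) Γ L T)
    (π : Rp (PowerSeries F) Γ L P) (σ : Rp (PowerSeries F) Γ L S) (g : T →ₗ[L] P)
    (h : P →ₗ[L] S), HP c π → Irr σ → IsHom τ π g → IsHom π σ h → Nul nk τ (h ∘ₗ g))

/-- AEX: a null intertwiner to an irreducible `σ` extends to a null intertwiner.

Proof.  `f w = g0 (x^(Q-1) w)` for a linear `g0` on `x^(Q-1) W` (`f` is null).  `x^(Q-1) V` is a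
`Γ`-stable subspace on which `x` acts as `0`, `x^(Q-1) W` a stable subspace, `p` a `Γ`-projection onto it
(CRG); `g v = g0 (p (x^(Q-1) v))`.  It is an intertwiner: for `j h` because
`x^(Q-1) j h = j (s^(Q-1) h) x^(Q-1)` and `g0 (j (s^(Q-1) h) m) = j h g0 m` on `x^(Q-1) W`; for `x`
both sides are `0`; then `gen`. -/
def AexStmt : Prop :=
  ∀ (F Γ H L V S : Type) [Field F] [Ring Γ] [Algebra (PowerSeries F) Γ] [Ring H]
    [Algebra (PowerSeries F) H] [Field L] [Algebra (PowerSeries F) L]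
    [IsFractionRing (PowerSeries F) L] [AddCommGroup V] [Module L V] [Module.Finite L V]
    [AddCommGroup S] [Module L S] (nk : Nk F Γ H) (τ : Rp (PowerSeries F) Γ L V)
    (σ : Rp (PowerSeries F) Γ L S) (W : Submodule L V) (h : Stb τ W) (f : W →ₗ[L] S),
    Irr σ → IsHom (subRp τ W h) σ f → Nul nk (subRp τ W h) f →
    ∃ g : V →ₗ[L] S, IsHom τ σ g ∧ Nul nk τ g ∧ ∀ w : W, g w = f w

/-- AIN: if all `Γ`-intertwiners from irreducible representations of `A'` to `σ` are null, then all
those from finite-dimensional representations are null.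

Proof.  Induction on `finrank L V`; `V ≠ 0`: irreducible subrepresentation `W` (SIM); `f` on `W` is null,
extend it to a null `g` (AEX); `f - g` is zero on `W`, factors through `V/W` and is null by
induction; so `f = g + (f - g)` is null. -/
def AinStmt : Prop :=
  ∀ (F Γ A' H L S : Type) [Field F] [Ring Γ] [Algebra (PowerSeries F) Γ] [Ring A']
    [Algebra (PowerSeries F) A'] [Ring H] [Algebra (PowerSeries F) H] [Field L]
    [Algebra (PowerSeries F) L] [IsFractionRing (PowerSeries F) L] [AddCommGroup S]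
    [Module L S] (j : Γ →ₐ[PowerSeries F] A') (nk : Nk F Γ H)
    (σ : Rp (PowerSeries F) Γ L S), Irr σ →
    (∀ (T : Type) [AddCommGroup T] [Module L T] [Module.Finite L T]
      (τ : Rp (PowerSeries F) A' L T), Irr τ → ∀ f : T →ₗ[L] S, IsHom (τ.res j) σ f →
      Nul nk (τ.res j) f) →
    ∀ (V : Type) [AddCommGroup V] [Module L V] [Module.Finite L V]
      (υ : Rp (PowerSeries F) A' L V) (f : V →ₗ[L] S), IsHom (υ.res j) σ f →
      Nul nk (υ.res j) f

/-- CLA: claim A: every irreducible `σ` of `Γ` has an irreducible `τ` of `A'` with a `Γ`-intertwiner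
`τ → σ` which is not null.

Proof.  Otherwise all `p : Co sp.j σ → S` are null by AIN (QFI: `Co` is finite); but `p ∘ i = id`
(COS) and `x` is `0` on `S` (XIR), `Q ≥ 2`: `x^(Q-1) (i s) = i (x^(Q-1) s) = 0`, so
`s = p (i s) = 0`. -/
def ClaStmt : Prop :=
  ∀ (F Γ A' H I L S : Type) [Field F] [Ring Γ] [Algebra (PowerSeries F) Γ] [Ring A']
    [Algebra (PowerSeries F) A'] [Module.Finite (PowerSeries F) A'] [Ring H]
    [Algebra (PowerSeries F) H] [Fintype I] [Field L]
    [Algebra (PowerSeries F) L] [IsFractionRing (PowerSeries F) L] [AddCommGroup S]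
    [Module L S] [Module.Finite L S] (c : FS (PowerSeries F) Γ I) (sp : Split c A')
    (nk : Nk F Γ H) (σ : Rp (PowerSeries F) Γ L S), Irr σ →
    ∃ (T : Type) (_ : AddCommGroup T) (_ : Module L T) (_ : Module.Finite L T)
      (τ : Rp (PowerSeries F) A' L T) (f : T →ₗ[L] S), Irr τ ∧ IsHom (τ.res sp.j) σ f ∧
      ¬ Nul nk (τ.res sp.j) f

/-- THA: the local data of an intertwiner which is not null.

Proof.  Let `m + 1` be minimal with `f ≠ 0` on `ker x^(m+1)` (so `m + 1 ≤ Q - 1`).
`K = ker x^(m+1)` is `H`-stable, `f` maps it onto `S` (the image is stable under `H`, and under `x`,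
which is `0` on `S` (XIR): so under `Γ`); `W` = an `H`-complement of `K ⊓ ker f` in `K` (CRG): `f` is
bijective from `W` to `S`.  If `x^m w = x^(m+1) z` with `w ∈ W` then `x^m (w - x z) = 0`, so
`f (w - x z) = 0` by minimality (`ker x^m`), and `f (x z) = 0`, so `w = 0`.  Hence `x^m` is injective on
`W` and `x^m W ⊓ x^(m+1) T = ⊥`.  `x^m W` and `x^(m+1) T` are `H`-stable; `π` = an `H`-projection
onto `x^m W` which kills `x^(m+1) T` (project onto `x^m W ⊔ x^(m+1) T`, or work with an `H`-complement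
`C` of `x^m W ⊔ x^(m+1) T`); `ψ t` = the element of `W` with `x^m (ψ t) = π t`; `ψ` is twisted
`H`-linear because `x^m j h = j (s^m h) x^m`. -/
def ThaStmt : Prop :=
  ∀ (F Γ H L T S : Type) [Field F] [Ring Γ] [Algebra (PowerSeries F) Γ] [Ring H]
    [Algebra (PowerSeries F) H] [Field L] [Algebra (PowerSeries F) L]
    [IsFractionRing (PowerSeries F) L] [AddCommGroup T] [Module L T] [Module.Finite L T]
    [AddCommGroup S] [Module L S] (nk : Nk F Γ H) (τ : Rp (PowerSeries F) Γ L T)
    (σ : Rp (PowerSeries F) Γ L S) (f : T →ₗ[L] S), Irr σ → IsHom τ σ f → ¬ Nul nk τ f →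
    ∃ (m : ℕ) (W : Submodule L T) (ψ : T →ₗ[L] T), m + 1 < nk.Q ∧
      (∀ h, ∀ w ∈ W, τ.ρ (nk.j h) w ∈ W) ∧ (∀ w ∈ W, τ.ρ (nk.x ^ (m + 1)) w = 0) ∧
      (∀ y, ∃ w ∈ W, f w = y) ∧ (∀ w ∈ W, f w = 0 → w = 0) ∧ (∀ t, ψ t ∈ W) ∧
      (∀ t, ψ (τ.ρ (nk.x ^ (m + 1)) t) = 0) ∧ (∀ w ∈ W, ψ (τ.ρ (nk.x ^ m) w) = w) ∧
      ∀ h t, ψ (τ.ρ (nk.j ((nk.s)^[m] h)) t) = τ.ρ (nk.j h) (ψ t)

/-- THE: if `f : τ → σ` is not null there is an endomorphism `θ` of `τ` over `Γ` with `f ∘ θ` not
null and `f' ∘ θ = 0` for all `f'` to irreducible representations not isomorphic to `σ`.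

Proof.  THA, `θ t = ∑ k ∈ range (m+1), x^k (ψ (x^(m-k) t))`.  `H`-linear: `x^(m-k) j h =
j (s^(m-k) h) x^(m-k)`, `s^(m-k) h = s^m (s^(-k) h)`, `x^k j (s^(-k) h) = j h x^k`.  Commutes with `x`:
`θ (x t) = ∑ x^k ψ (x^(m+1-k) t)`, the term `k = 0` vanishes, and `x^(m+1) ψ t = 0`.  `gen` gives
`Γ`-linear.  `f (x _) = 0` (XIR), so `f (θ t) = f (ψ (x^m t))`; for `w ∈ W` this is `f w`, and
`x^(Q-1) w = 0` (`m + 1 ≤ Q - 1`), `f` is not zero on `W` (`S` nontrivial).  `f' (θ t) =
f' (ψ (x^m t))` and `f' = 0` on `W`: `f' ∘ (f|W)⁻¹ : S → S'` is `H`-linear and `x` is `0` on both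
sides, so it is a `Γ`-intertwiner, and not bijective, so `0` (SCH). -/
def TheStmt : Prop :=
  ∀ (F Γ H L T S : Type) [Field F] [Ring Γ] [Algebra (PowerSeries F) Γ] [Ring H]
    [Algebra (PowerSeries F) H] [Field L] [Algebra (PowerSeries F) L]
    [IsFractionRing (PowerSeries F) L] [AddCommGroup T] [Module L T] [Module.Finite L T]
    [AddCommGroup S] [Module L S] (nk : Nk F Γ H) (τ : Rp (PowerSeries F) Γ L T)
    (σ : Rp (PowerSeries F) Γ L S) (f : T →ₗ[L] S), Irr σ → IsHom τ σ f → ¬ Nul nk τ f →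
    ∃ θ : T →ₗ[L] T, IsHom τ τ θ ∧ ¬ Nul nk τ (f ∘ₗ θ) ∧
      ∀ (S' : Type) [AddCommGroup S'] [Module L S'] (σ' : Rp (PowerSeries F) Γ L S')
        (f' : T →ₗ[L] S'), Irr σ' → ¬ Iso σ σ' → IsHom τ σ' f' → f' ∘ₗ θ = 0

/-- BSE: a `Γ`-endomorphism of a representation of `A` is an `A`-endomorphism plus a map which factors
through a Higman projective representation of `Γ`.

Proof.  QEX for `τ`: `ι, π, s`; `QQ` is HP over `A`: PIN (lifting of `id` along `π`, section `s`) gives
an `A`-intertwiner `u : QQ → Co` with `π u = id`, and `r : Co → T` with `ι r = id - u π`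
(`ker π = range ι`, `ι` injective).  `Θ t = (x ↦ θ (τ x t)) : T → Co (τ.res j)` is an `A`-intertwiner;
`Θ = ι r Θ + u π Θ`; evaluate at `1`: `θ = r Θ + (ev_1 u) (π Θ)`, `ev_1` is a `Γ`-intertwiner. -/
def BseStmt : Prop :=
  ∀ (R Γ A I J k T : Type) [CommRing R] [Ring Γ] [Algebra R Γ] [Ring A] [Algebra R A]
    [Fintype I] [Fintype J] [CommRing k] [Algebra R k] [AddCommGroup T] [Module k T]
    (c : FS R Γ I) (d : FS R A J) (sp : Split c A) (τ : Rp R A k T) (θ : T →ₗ[k] T),
    HP d (qqRp sp.j τ) → IsHom (τ.res sp.j) (τ.res sp.j) θ →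
    ∃ (g0 : T →ₗ[k] T) (P : Type) (_ : AddCommGroup P) (_ : Module k P) (π : Rp R Γ k P)
      (g : T →ₗ[k] P) (h : P →ₗ[k] T), IsHom τ τ g0 ∧ HP c π ∧ IsHom (τ.res sp.j) π g ∧
      IsHom π (τ.res sp.j) h ∧ θ = g0 + h ∘ₗ g

/-- CLB: claim B: an irreducible `τ` of `A'` has intertwiners which are not null to at most one
irreducible representation of `Γ`.

Proof.  THE: `θ`; BSE: `θ = g0 + h g`; `f h g` is null (NHP), so `f g0` is not null, `g0 ≠ 0`, `g0` is
bijective (SCH).  `0 = f' θ = f' g0 + f' h g`, so `f' g0` is null (NHP); `g0` and its inverse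
preserve the kernel of `x^(Q-1)`, so `f'` is null. -/
def ClbStmt : Prop :=
  ∀ (F Γ A' H I J L T S S' : Type) [Field F] [Ring Γ] [Algebra (PowerSeries F) Γ] [Ring A']
    [Algebra (PowerSeries F) A'] [Ring H] [Algebra (PowerSeries F) H] [Fintype I] [Fintype J]
    [Field L] [Algebra (PowerSeries F) L] [IsFractionRing (PowerSeries F) L] [AddCommGroup T]
    [Module L T] [Module.Finite L T] [AddCommGroup S] [Module L S] [AddCommGroup S']
    [Module L S'] (c : FS (PowerSeries F) Γ I) (d : FS (PowerSeries F) A' J) (sp : Split c A')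
    (nk : Nk F Γ H) (τ : Rp (PowerSeries F) A' L T) (σ : Rp (PowerSeries F) Γ L S)
    (σ' : Rp (PowerSeries F) Γ L S') (f : T →ₗ[L] S) (f' : T →ₗ[L] S'),
    HP d (qqRp sp.j τ) → Irr τ → Irr σ → Irr σ' → ¬ Iso σ σ' → IsHom (τ.res sp.j) σ f →
    IsHom (τ.res sp.j) σ' f' → ¬ Nul nk (τ.res sp.j) f → Nul nk (τ.res sp.j) f'

/-- ARC: pairwise nonisomorphic irreducible representations of `Γ` give as many pairwise
nonisomorphic irreducible representations of `A'`.  (CLA, FIN for the `T i`; CLB: an isomorphism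
`T i → T i'` composed with the intertwiner to `S i'` is not null.) -/
def ArcStmt : Prop :=
  ∀ (F Γ A' H I J L : Type) [Field F] [Ring Γ] [Algebra (PowerSeries F) Γ] [Ring A']
    [Algebra (PowerSeries F) A'] [Module.Finite (PowerSeries F) A'] [Ring H]
    [Algebra (PowerSeries F) H] [Fintype I] [Fintype J] [Field L]
    [Algebra (PowerSeries F) L] [IsFractionRing (PowerSeries F) L]
    (c : FS (PowerSeries F) Γ I) (d : FS (PowerSeries F) A' J) (sp : Split c A')
    (_ : Nk F Γ H) (l : ℕ) (n : Fin l → ℕ)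
    (S : ∀ i, Rp (PowerSeries F) Γ L (Fin (n i) → L)),
    (∀ (T : Type) [AddCommGroup T] [Module L T] [Module.Finite L T]
      (τ : Rp (PowerSeries F) A' L T), HP d (qqRp sp.j τ)) →
    (∀ i, Irr (S i)) → (∀ i i', Iso (S i) (S i') → i = i') →
    ∃ (p : Fin l → ℕ) (T : ∀ i, Rp (PowerSeries F) A' L (Fin (p i) → L)),
      (∀ i, Irr (T i)) ∧ ∀ i i', Iso (T i) (T i') → i = i'

end ar

/-- GEN: the lower bound from the deformation data of B1 and the family of B3.  (`L =
FractionRing (PowerSeries F)`; FML for `Γ`; QHR, QHK; ARC; COU.) -/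
def GenStmt : Prop :=
  ∀ (F Γ Γ0 A A' I I0 J' K H E : Type) [Field F] [IsAlgClosed F] [Ring Γ]
    [Algebra (PowerSeries F) Γ] [Module.Finite (PowerSeries F) Γ]
    [Ring Γ0] [Algebra F Γ0] [Ring A] [Algebra F A] [Module.Finite F A] [Ring A']
    [Algebra (PowerSeries F) A'] [Module.Finite (PowerSeries F) A']
    [Module.Free (PowerSeries F) A'] [Fintype I] [Fintype I0] [Fintype J'] [Fintype K]
    [Ring H] [Algebra (PowerSeries F) H] [Group E] [Finite E]
    (c : FS (PowerSeries F) Γ I) (c0 : FS F Γ0 I0) (f : Fib F Γ Γ0) (sp0 : Split c0 A)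
    (_ : B1.Sep Γ0 A K sp0.j.toRingHom) (_ : Dfm F Γ Γ0 A A' I I0 J' c c0 f sp0)
    (_ : Nk F Γ H) (_ : Ed F Γ E),
    (∀ a b : E, a * b = b * a) → (Nat.card E : F) ≠ 0 → Nat.card E ≤ ls F A

/-! ### Part 4: the Nakayama data of the presented order of B3 -/

/-- HCR: representations over the fraction field of a presented order all of whose relations are
`x i ^ q i = t • x (p i)` are completely reducible.  (As `B3.SsrStmt`: `τ (j (X i))` is `t⁻¹` times the
`ℓ`-power of `τ (j (X i'))^(ℓ^(a i' - 1))`, `i' = p⁻¹ i`; SST, then AVG; the order is spanned by the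
`j f * ε e`.) -/
def HcrStmt : Prop :=
  ∀ (ℓ : ℕ) [Fact ℓ.Prime] (F I E Λ : Type) [Field F] [CharP F ℓ] [Fintype I]
    [Group E] [Fintype E] [Ring Λ] [Algebra (PowerSeries F) Λ] (a : I → ℕ) (p : Equiv.Perm I)
    (η : I → E →* (PowerSeries F)ˣ)
    (_ : B3.Pre (PowerSeries F) I E Λ (fun i => ℓ ^ a i) p (fun _ => PowerSeries.X) η),
    (∀ i, 1 ≤ a i) → (Fintype.card E : F) ≠ 0 →
    ∀ (L T : Type) [Field L] [Algebra (PowerSeries F) L] [IsFractionRing (PowerSeries F) L]
      [AddCommGroup T] [Module L T] [Module.Finite L T]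
      (τ : Rp (PowerSeries F) Λ L T) (U : Submodule L T), Stb τ U →
      ∃ U' : Submodule L T, Stb τ U' ∧ IsCompl U U'

/-- HRD: the suborder `H` of the variables outside the cycle of `i0`, and `E`.

Proof.  `I' = {i // ¬ p.SameCycle i0 i}`, stable under `p`; `H` = the presented order of SKE for `I'`
(all constants are `t`); `j` by `up` (`X i ↦ P.j (X i)`, `ε e ↦ P.ε e`), `s` by `up`
(`X i ↦ X i`, `ε e ↦ (η (p i0) e)⁻¹ • ε e`), inverse with `η`; `cm` on the basis; `gen` on the basis of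
`Λ`: by CYC, `t^n • x i = x^m` for `i` in the cycle, `x = P.j (X (p i0))` commutes with all
`P.j f` and up to units with `P.ε e`, and `x^Q = 0`. -/
def HrdStmt : Prop :=
  ∀ (F I E Λ : Type) [Field F] [Fintype I] [DecidableEq I] [Group E] [Finite E] [Ring Λ]
    [Algebra (PowerSeries F) Λ] (q : I → ℕ) (p : Equiv.Perm I) (i0 : I)
    (η : I → E →* (PowerSeries F)ˣ)
    (P : B3.Pre (PowerSeries F) I E Λ q p (B3.cc (PowerSeries F) I PowerSeries.X i0) η),
    (∀ i, 2 ≤ q i) → (∀ i e, η i e ^ q i = η (p i) e) →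
    ∃ (H : Type) (_ : Ring H) (_ : Algebra (PowerSeries F) H) (I' : Type) (_ : Fintype I')
      (v : I' → I) (p' : Equiv.Perm I')
      (_ : B3.Pre (PowerSeries F) I' E H (fun i => q (v i)) p' (fun _ => PowerSeries.X)
        (fun i => η (v i)))
      (j : H →ₐ[PowerSeries F] Λ) (s : H ≃ₐ[PowerSeries F] H),
      (∀ h, P.j (MvPolynomial.X (p i0)) * j h = j (s h) * P.j (MvPolynomial.X (p i0))) ∧
      ∀ γ : Λ, ∃ (n : ℕ) (h : ℕ → H), (PowerSeries.X : PowerSeries F) ^ n • γ =
        ∑ i ∈ Finset.range (∏ i ∈ Finset.univ.filter (fun i => p.SameCycle i0 i), q i),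
          j (h i) * P.j (MvPolynomial.X (p i0)) ^ i

/-- ANR: the right annihilator of `x`.  (As `B3.AnnStmt` with right multiplication; or from it: the
kernel and the range of right multiplication by `x` have the same dimensions as for left
multiplication because `x Λ = Λ x` generically, and `Λ x^(Q-1)` is in the kernel.) -/
def AnrStmt : Prop :=
  ∀ (F I E Λ : Type) [Field F] [Fintype I] [DecidableEq I] [Group E] [Finite E] [Ring Λ]
    [Algebra (PowerSeries F) Λ] (q : I → ℕ) (p : Equiv.Perm I) (i0 : I)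
    (η : I → E →* (PowerSeries F)ˣ)
    (P : B3.Pre (PowerSeries F) I E Λ q p (B3.cc (PowerSeries F) I PowerSeries.X i0) η),
    (∀ i, 2 ≤ q i) → (∀ i e, η i e ^ q i = η (p i) e) →
    ∀ a, a * P.j (MvPolynomial.X (p i0)) = 0 → ∃ (n : ℕ) (b : Λ),
      (PowerSeries.X : PowerSeries F) ^ n • a = b * P.j (MvPolynomial.X (p i0)) ^
        ((∏ i ∈ Finset.univ.filter (fun i => p.SameCycle i0 i), q i) - 1)

/-- NKH: the data `Nk` and `Ed` for the presented order (HRD, HCR, ANR, CYC, AUG; `Q` is the product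
over the cycle, `2 ≤ Q` because every factor is at least `2` and `i0` is in the cycle). -/
def NkhStmt : Prop :=
  ∀ (ℓ : ℕ) [Fact ℓ.Prime] (F I E Λ : Type) [Field F] [CharP F ℓ] [Fintype I] [DecidableEq I]
    [Group E] [Fintype E] [Ring Λ] [Algebra (PowerSeries F) Λ] (a : I → ℕ) (p : Equiv.Perm I)
    (i0 : I) (η : I → E →* Fˣ)
    (_ : B3.Pre (PowerSeries F) I E Λ (fun i => ℓ ^ a i) p
      (B3.cc (PowerSeries F) I PowerSeries.X i0) (B3.ηη (PowerSeries F) η)),
    (∀ i, 1 ≤ a i) → (∀ i e, η i e ^ ℓ ^ a i = η (p i) e) → (Fintype.card E : F) ≠ 0 →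
    Nonempty (Ed F Λ E) ∧
    ∃ (H : Type) (_ : Ring H) (_ : Algebra (PowerSeries F) H), Nonempty (Nk F Λ H)

/-- FM2: the output of block B3 used by B2 (SKE, EIG, FIB, NKH). -/
def Fm2Stmt : Prop :=
  ∀ (ℓ : ℕ) [Fact ℓ.Prime] (F V E : Type) [Field F] [CharP F ℓ] [IsAlgClosed F] [CommGroup V]
    [Group E] (φ : E →* MulAut V) [Fintype (V ⋊[φ] E)],
    (∀ a b : E, a * b = b * a) → IsPGroup ℓ V → Nontrivial V → ¬ ℓ ∣ Nat.card E →
    ∃ (Γ : Type) (_ : Ring Γ) (_ : Algebra (PowerSeries F) Γ)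
      (_ : Module.Finite (PowerSeries F) Γ) (_ : Module.Free (PowerSeries F) Γ)
      (_ : Fib F Γ (MonoidAlgebra F (V ⋊[φ] E))) (_ : Ed F Γ E)
      (H : Type) (_ : Ring H) (_ : Algebra (PowerSeries F) H), Nonempty (Nk F Γ H)

end Pool.Agent.PFC.B2
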