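import Pool.Agent.PFC.DefsP2
import Pool.Agent.PFC.StmtsB4a

/-!
# Squad PFC, block B5b, part 1: number of simple modules of corners; the last step of part (0)

Definitions: `DefsP.lean` (`kers`, `ls`, `Sep`, `cpr`, `SExt`), `DefsP2.lean` (`Ctx`, `Cz`, `Frm`,
`Tpv`, `Lcq`, `PIn`, `PuiStmt`), `DefsB4.lean` (`Fx`, `BK`, `IsFr`, `PS`, `Hig`, `bi`, `cj`, `tw`).
-/

open scoped BigOperators TensorProduct

noncomputable section

namespace Pool.Agent.PFC

/-- `Y` is the corner `j X j` of the algebra `X`, with inclusion `κ`. -/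
structure Cnr {F X Y : Type} [Field F] [Ring X] [Algebra F X] [Ring Y] [Algebra F Y]
    (j : X) (κ : Y →ₗ[F] X) : Prop where
  inj : Function.Injective κ
  mul : ∀ a b, κ (a * b) = κ a * κ b
  one : κ 1 = j
  ran : ∀ a, j * a = a → a * j = a → ∃ b, κ b = a

/-- LSC: a corner has at most as many simple modules.

Proof.  Let `ρ : Y → Mat_d(F)` be surjective, `K` its kernel; `K` is a maximal ideal (`Mat_d(F)` is
simple).  Put `K^ = {x ∈ X : j a x b j ∈ κ(K) for all a, b ∈ X}`, a two-sided ideal of `X`;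
`K^ ∩ κ(Y) = κ(K)` (so `K` is determined by `K^`, and `j ∉ K^`).  The algebra `Z = X/K^` is simple up
to the following argument: every ideal `I` of `X` which contains `K^` properly contains some
`j a x b j ∉ κ(K)`, so `κ⁻¹(I)` is an ideal of `Y` which contains `K` properly, so `j ∈ I`.  Hence the
image of `j` is in every nonzero ideal of `Z`; the radical of `Z` is nilpotent and does not contain
the idempotent `j ≠ 0`, so it is zero; `Z` is semisimple and all its nonzero ideals contain the image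
of `j`, so `Z` is simple, `Z = Mat_n(F)` (`F` is algebraically closed, `Z` is finite-dimensional).  So
`K^ ∈ kers F X`, and `K ↦ K^` is injective; `kers F X` is finite (`X` is finite-dimensional: the
maximal ideals `K_1, …, K_r` are pairwise comaximal, so `r ≤ dim X`).
Or: a simple `Y`-module `U` gives the simple quotient of `X j ⊗ U`. -/
def LscStmt : Prop :=
  ∀ (F X Y : Type) [Field F] [IsAlgClosed F] [Ring X] [Algebra F X] [FiniteDimensional F X]
    [Ring Y] [Algebra F Y] (j : X) (κ : Y →ₗ[F] X), Cnr j κ → ls F Y ≤ ls F X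

/-- LSF: a full corner (`X j X = X`) has at least as many simple modules.

Proof.  Let `ρ : X → Mat_n(F)` be surjective, `K` its kernel.  `ρ(j)` is an idempotent, it is not `0`
because `1 ∈ X j X`.  Let `r > 0` be its rank; choose an isomorphism of `ρ(j) Mat_n(F) ρ(j)` with
`Mat_r(F)` (conjugate `ρ(j)` to a diagonal idempotent).  So `Y → Mat_r(F)` is surjective with kernel
`κ⁻¹(K)`.  `K` is determined by `κ⁻¹(K)`: `x ∈ K` if and only if all `j a x b j` are in `K` (if
`ρ(x) ≠ 0` then `ρ(j) Mat_n ρ(x) Mat_n ρ(j) ≠ 0`, elementary matrices).  `kers F Y` is finite. -/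
def LsfStmt : Prop :=
  ∀ (F X Y : Type) [Field F] [IsAlgClosed F] [Ring X] [Algebra F X] [FiniteDimensional F X]
    [Ring Y] [Algebra F Y] (j : X) (κ : Y →ₗ[F] X), Cnr j κ →
    (1 : X) ∈ Submodule.span F {x | ∃ a b : X, x = a * j * b} → ls F X ≤ ls F Y

/-- LSM: `N ⊗ A` has at most as many simple modules as `A` if `N` is a full matrix algebra.

Proof.  `LSF` with `X = N ⊗ A`, `Y = A`, `j = e_11 ⊗ 1`, `κ(a) = e_11 ⊗ a`:
`1 = ∑ (e_i1 ⊗ 1) j (e_1i ⊗ 1)`, and `j (x ⊗ a) j = x_11 e_11 ⊗ a` (identify `N ⊗ A` with the matrices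
over `A`, or use the `F`-linear map `x ⊗ a ↦ x_11 a`). -/
def LsmStmt : Prop :=
  ∀ (F N A : Type) [Field F] [IsAlgClosed F] [Ring N] [Algebra F N] [Ring A] [Algebra F A]
    [FiniteDimensional F A] (n : ℕ), 0 < n → Nonempty (N ≃ₐ[F] Matrix (Fin n) (Fin n) F) →
    ls F (N ⊗[F] A) ≤ ls F A

/-- SMD: a homomorphism of the semidirect product.

Proof.  `E` is cyclic with generator `e0`; the units of `A`: `u ↦ α(u)`, `e0^k ↦ y^k` is well defined
because `y^|E| = 1`; `y^k α(u) = α(φ(e0^k) u) y^k`.  `SemidirectProduct.lift` to the units of `A`. -/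
def SmdStmt : Prop :=
  ∀ (V E A : Type) [CommGroup V] [Group E] [Finite E] [Ring A] (φ : E →* MulAut V) (e0 : E)
    (α : V →* A) (y : A), (∀ e : E, e ∈ Subgroup.zpowers e0) →
    (∀ u, y * α u = α (φ e0 u) * y) → y ^ Nat.card E = 1 →
    ∃ γ : V ⋊[φ] E →* A, (∀ u, γ (SemidirectProduct.inl u) = α u) ∧
      γ (SemidirectProduct.inr e0) = y

/-- the Higman maps for all the invariant retractions -/
def HigA (F : Type) {Γ A : Type} [Field F] [Ring A] [Algebra F A] [Group Γ] [Fintype Γ]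
    (γ : Γ →* A) : Prop :=
  ∀ lam : A →ₗ[F] F, lam 1 = 1 → (∀ g, g ≠ 1 → lam (γ g) = 0) →
    (∀ g a, lam (γ g * a) = lam (a * γ g)) →
    ∃ al : A →ₗ[F] A, ∀ x, ∑ g, ∑ h, γ g * al (γ g⁻¹ * x * γ h⁻¹) * γ h = cpr F γ lam x

/-- `A(R) = F V` for all `R ≠ 1`, in the spanning form -/
def Spn (F : Type) {V A : Type} [Field F] [CommGroup V] [Fintype V] [Ring A] [Algebra F A]
    (α : V →* A) : Prop :=
  ∀ R : Subgroup V, R ≠ ⊥ → ∀ a ∈ Fx (cj F α) R, ∃ c : V → F,
    a - ∑ u, c u • α u ∈ BK (cj F α) R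

/-- HGP: the complement of `F Γ` is a projective bimodule.

Proof.  Write `α = γ ∘ inl`, `n_e = γ(inr e)`.  `cpr` is an idempotent linear map which commutes with
left and right multiplication by `γ(Γ)`, and it is `0` on the span of `γ(Γ)` (formal from the three
properties of `lam`).  Let `P` be its image, a retract of `A` as `V × V`-module, so `PS X` holds for `P`
(row `PSM`).  Let `C ≤ V × V` have order `ℓ`.  Claim: every `C`-fixed vector of `P` is in the Brauer
kernel at `C`.  If no stabiliser of the frame of `A` contains `C` this is the key lemma on frames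
(`frame_iff`: no fixed points in `Ω`), for `A` and so for the retract.  Otherwise `C ≤ tw e R`, so
`C = tw e R'` with `R' ≤ R` of order `ℓ` (`tw e` is injective on subgroups).  Let `x ∈ P` be fixed by `C`:
`α(e u) x = x α(u)` for `u ∈ R'`.  Then `n_e⁻¹ x` commutes with `α(R')` (`n_e α(u) n_e⁻¹ = α(e u)`), so
`n_e⁻¹ x = ∑ c_u α(u) + z`, `z ∈ BK (cj) R'`; hence `x = ∑ c_u n_e α(u) + n_e z`, and `n_e z` is in
`BK (bi) C` (left multiplication by `n_e` carries conjugation by `u` to `(e u, u)`; subgroups of `R'` and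
transversals correspond; `R'` has order `ℓ`, so only the traces from `1` occur).  Apply `cpr`:
`x = cpr x = cpr (n_e z)`, in the Brauer kernel of `P` at `C`.  So the projectivity test `PRJ` gives
`Hig` for `V × V` on `P`, and `HGX` (index of `V × V` in `Γ × Γ` is `|E|²`, prime to `ℓ`) gives `Hig` for
`Γ × Γ` on `P` with `(g, h) x = g x h⁻¹`.  With `a : P → P` put `al = ι ∘ a ∘ cpr`, replace `h` by
`h⁻¹` in the sum. -/
def HgpStmt : Prop :=
  ∀ (F V E A : Type) [Field F] [CommGroup V] [Fintype V] [Group E] [Fintype E]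
    [Ring A] [Algebra F A] (ℓ : ℕ) [CharP F ℓ] (φ : E →* MulAut V) (e0 : E)
    [Fintype (V ⋊[φ] E)] (γ : V ⋊[φ] E →* A), Ctx ℓ φ e0 →
    PS (fun K => ∃ (e : E) (R : Subgroup V), K = tw (φ e).toMonoidHom R)
      (bi F (γ.comp SemidirectProduct.inl)) →
    Spn F (γ.comp (SemidirectProduct.inl : V →* V ⋊[φ] E)) → HigA F γ

/-- SEX (author helper79): separability and the form.

`mu` symmetrising with `mu(∑ V) ≠ 0`, the centraliser of `V` is local, `1` is not in the Brauer kernel,
the complement is projective: all of `SExt`. -/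
def SexStmt : Prop :=
  ∀ (F V E A : Type) [Field F] [IsAlgClosed F] [CommGroup V] [Fintype V] [Group E] [Fintype E]
    [Ring A] [Algebra F A] [FiniteDimensional F A] (ℓ : ℕ) [CharP F ℓ] (φ : E →* MulAut V)
    (e0 : E) [Fintype (V ⋊[φ] E)] (γ : V ⋊[φ] E →* A) (mu : A →ₗ[F] F), Ctx ℓ φ e0 →
    Frm F (γ.comp (SemidirectProduct.inl : V →* V ⋊[φ] E)) mu →
    IsLocalRing (Cz F (γ.comp (SemidirectProduct.inl : V →* V ⋊[φ] E)) ⊤) →
    (1 : A) ∉ BK (cj F (γ.comp (SemidirectProduct.inl : V →* V ⋊[φ] E))) ⊤ →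
    HigA F γ → SExt F γ

/-- The result of the chain before the last step. -/
structure Mid (F : Type) {V E A : Type} [Field F] [CommGroup V] [Fintype V] [Group E]
    [Ring A] [Algebra F A] (φ : E →* MulAut V) (e0 : E) (α : V →* A) : Prop where
  fin : FiniteDimensional F A
  frm : ∃ lam, Frm F α lam
  loc : IsLocalRing (Cz F α ⊤)
  one : (1 : A) ∉ BK (cj F α) ⊤
  ps : PS (fun K => ∃ (e : E) (R : Subgroup V), K = tw (φ e).toMonoidHom R) (bi F α)
  spn : Spn F α
  uni : ∃ y : A, (∀ u, y * α u = α (φ e0 u) * y) ∧ y ^ Nat.card E = 1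

/-- MID: the last step.  Proof: `SMD` gives `γ`, `HGP` the Higman maps, `SEX` the rest. -/
def MidStmt : Prop :=
  ∀ (F V E A : Type) [Field F] [IsAlgClosed F] [CommGroup V] [Fintype V] [Group E] [Fintype E]
    [Ring A] [Algebra F A] (ℓ : ℕ) [CharP F ℓ] (φ : E →* MulAut V) (e0 : E) (α : V →* A)
    [Fintype (V ⋊[φ] E)], Ctx ℓ φ e0 → Mid F φ e0 α → ∃ γ : V ⋊[φ] E →* A, SExt F γ

end Pool.Agent.PFC
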