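import Pool.Agent.PFC.StmtsB5a
import Pool.Agent.PFC.DefsB4b

/-!
# Squad PFC, block B5c: the chain `PIn → PMid`, part 1 (helper43)

Definitions: `DefsP2.lean` (`Ctf`, `Cz`, `Frm`, `Tpv`, `Lcq`, `PIn`, `PMid`, `PmdStmt`, `PmzStmt`),
`DefsB4.lean` (frames, `PS`, `Fx`, `BK`, `bi`, `cj`, `tw`), `DefsB4b.lean` (`IA`, `BrS`, `ABr`, `BQ`, `CP`,
`Iso`, `IsoT`, `tens`, `gr`, `Cor`, `Mx`, `Rz`, `Chr`, `Loc`), `StmtsB5a.lean` (`zin`).
-/

open scoped BigOperators TensorProduct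

noncomputable section

namespace Pool.Agent.PFC.B5c

open Pool.Agent.PFC.B5a (zin)

section defs

variable (F : Type) {V A E : Type} [Field F] [CommGroup V] [Group E] [Ring A] [Algebra F A]

/-- the bundle of an interior algebra -/
def bd [FiniteDimensional F A] (α : V →* A) : IA F V where
  A := A
  ι := α

variable {F} in
/-- the bundle of a matrix algebra -/
def mx {n : ℕ} (τ : V →* Matrix (Fin n) (Fin n) F) : IA F V where
  A := Matrix (Fin n) (Fin n) F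
  ι := τ

/-- `V → A(Q)/J(A(Q)) = Mat_n(F)` -/
def sg (α : V →* A) (Q : Subgroup V) {n : ℕ} (π : Cz F α Q →ₐ[F] Matrix (Fin n) (Fin n) F) :
    V →* Matrix (Fin n) (Fin n) F :=
  (π : Cz F α Q →* Matrix (Fin n) (Fin n) F).comp (zin F α Q)

variable {F} in
/-- The family of the matrix algebras `S_Q`: `X(Q) = S_Q ⊗ F V` for the subgroups `Q` not in `W`. -/
structure Fam [Finite V] (X : IA F V) (φ : E →* MulAut V) (W : Subgroup V)
    (S : Subgroup V → IA F V) : Prop where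
  mx : ∀ Q, ¬ Q ≤ W → Mx (S Q)
  cp : ∀ Q, ¬ Q ≤ W → CP (S Q)
  bq : ∀ Q, ¬ Q ≤ W → BQ X ((S Q).tens (IA.gr F V)) Q
  tw : ∀ Q, ¬ Q ≤ W → ∀ e, IsoT (φ e) (S Q) (S (Q.map (φ e).toMonoidHom))

end defs

/-- The output of block B5a (`LoqStmt` without its hypotheses). -/
def LoqOut : Prop :=
  ∀ (F V E A : Type) [Field F] [CommGroup V] [Fintype V] [Group E] [Ring A] [Algebra F A]
    (ℓ : ℕ) [CharP F ℓ] (φ : E →* MulAut V) (W : Subgroup V) (α : V →* A) (Q : Subgroup V) (n : ℕ)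
    (π : Cz F α Q →ₐ[F] Matrix (Fin n) (Fin n) F),
    Ctf ℓ φ W → PIn F φ W α → ¬ Q ≤ W → Lcq F α Q n π →
    PS (fun _ => True) (cj F ((π : Cz F α Q →* Matrix (Fin n) (Fin n) F).comp (zin F α Q))) ∧
    ∃ q : Cz F α Q →ₐ[F] Matrix (Fin n) (Fin n) F ⊗[F] MonoidAlgebra F V,
      Function.Surjective q ∧ (∀ a : Cz F α Q, q a = 0 ↔ (a : A) ∈ BK (cj F α) Q) ∧
      ∀ u, q (zin F α Q u) = π (zin F α Q u) ⊗ₜ[F] MonoidAlgebra.of F V u

/-! ## 1. Brauer quotients -/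

/-- TRB: a model of the Brauer quotient of a summand of a permutation module is split.

Proof.  Frame `b ω`, `c ω` for `cj F X.ι` (`CP`).  Put `Ω' = {ω fixed by Q}`; it is stable under `V`
(`V` is commutative), `b ω ∈ Fx Q` for `ω ∈ Ω'` (so `b ω` is in the centraliser `Cz F X.ι Q`).
`e m = ∑_{ω ∈ Ω'} c ω m • b ω`, a `V`-equivariant map, `β m = ∑_{ω ∈ Ω'} c ω m • q (b ω)`.  By the key
lemma on frames (`PFC/B4/Key.lean`: `frame_sub`, `frame_iff`) `m - e m ∈ BK` for `m ∈ Fx Q`, so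
`β m = q m` for `m ∈ Fx Q`; and `c ω m = 0` for `ω ∈ Ω'`, `m ∈ BK`.  Section: `s (q m) = e m` for
`m ∈ Fx Q`, well defined because `e` kills `BK`; it is linear and equivariant (use a linear right
inverse of `q`).  `β (s (q m)) = β (e m) = q (e m) = q m`.  `s (β m) = ∑ c ω m • e (b ω) = e (e m)`.
`LinearMap.id - e ∘ e = (id - e) ∘ (id + e)`, and `id - e = ∑_{ω ∉ Ω'} c ω (·) • b ω` is the sum over the
orbits of `Q` on the complement of `Ω'` of the relative traces of `h = c ω (·) • b ω` from the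
stabiliser of `ω` in `Q` (a proper subgroup); replace `h` by `h ∘ (id + e)` (`id + e` commutes with
`V`).  `tr`: elements of `Q` act trivially on `Y` by conjugation because `q` is onto from the
centraliser of `Q`.  `mul`, `cov`: `β = q` on `Fx Q`. -/
def TrbStmt : Prop :=
  ∀ (ℓ : ℕ) [Fact ℓ.Prime] (F V : Type) [Field F] [CharP F ℓ] [CommGroup V] [Finite V]
    (X Y : IA F V) (Q : Subgroup V) (q : Cz F X.ι Q →ₐ[F] Y.A), IsPGroup ℓ V → CP X →
    Function.Surjective q → (∀ a : Cz F X.ι Q, q a = 0 ↔ (a : X.A) ∈ BK (cj F X.ι) Q) →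
    (∀ u, q (zin F X.ι Q u) = Y.ι u) → BQ X Y Q

/-- BRK: the kernel of a split Brauer quotient on the fixed vectors is the Brauer kernel.

Proof.  If `m ∈ Fx Q` and `β m = 0` then `m = (id - s ∘ β) m`, and an element of `PT ρ Q` maps a vector
fixed by `Q` into `BK ρ Q`: `∑_{x ∈ S} ρ x (h (ρ x⁻¹ m)) = ∑ ρ x (h m)`, `h m ∈ Fx K`.  Conversely
`β (∑_{x ∈ S} ρ x m) = |S| β m = 0` for `m ∈ Fx K`, `K < Q`: the elements of `Q` act trivially on the
quotient, and `ℓ` divides `|S|` (`card_tv`). -/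
def BrkStmt : Prop :=
  ∀ (ℓ : ℕ) [Fact ℓ.Prime] (F V M N : Type) [Field F] [CharP F ℓ] [CommGroup V] [Finite V]
    [AddCommGroup M] [Module F M] [AddCommGroup N] [Module F N]
    (ρ : V →* (M →ₗ[F] M)) (ρ' : V →* (N →ₗ[F] N)) (Q : Subgroup V) (β : M →ₗ[F] N)
    (s : N →ₗ[F] M), IsPGroup ℓ V → BrS ρ ρ' Q β s → ∀ m ∈ Fx ρ Q, β m = 0 ↔ m ∈ BK ρ Q

/-- TPB: `A(V) = F V` as a split Brauer quotient.

Proof.  `q : Cz F X.ι ⊤ → F V`: `q a = ∑ c u • u` if `a - ∑ c u • X.ι u ∈ BK ⊤` (`Tpv.span`, unique by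
`Tpv.free`; `BK ⊤` is stable under multiplication with elements of the centraliser of `V`, and
`V` is commutative, so `q` is multiplicative).  `TRB`. -/
def TpbStmt : Prop :=
  ∀ (ℓ : ℕ) [Fact ℓ.Prime] (F V : Type) [Field F] [CharP F ℓ] [CommGroup V] [Fintype V]
    (X : IA F V), IsPGroup ℓ V → CP X → Tpv F X.ι → BQ X (IA.gr F V) ⊤

/-! ## 2. The family `S_Q` -/

/-- ITW: conjugation by the unit `y`.

Proof.  `c(a) = y a y'` is an automorphism of `A`, `c(α u) = α(σ u)`; it maps `Cz F α Q` onto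
`Cz F α (σ Q)` and `BK (cj) Q` onto `BK (cj) (σ Q)` (transversals are mapped by `σ`).  `π' ∘ c` and
`π` are surjections of `Cz F α Q` to simple algebras; `π (ker (π' ∘ c))` is a two-sided ideal of
`Mat_n(F)` in which every element is nilpotent (`Lcq.nil` for `π'`: `c(a)^N ∈ BK (σ Q)`, so
`a^N ∈ BK Q`, `π(a)^N = 0` by `Lcq.bk`), so it is not everything (`n > 0`), so it is `0`
(`Mat_n(F)` is simple): `ker (π' ∘ c) ≤ ker π`, and the other inclusion in the same way.  Hence the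
isomorphism `Mat_n(F) → Mat_n'(F)` with `π a ↦ π' (c a)`. -/
def ItwStmt : Prop :=
  ∀ (F V A : Type) [Field F] [CommGroup V] [Finite V] [Ring A] [Algebra F A] (α : V →* A)
    (σ : MulAut V) (y y' : A) (Q : Subgroup V) (n n' : ℕ)
    (π : Cz F α Q →ₐ[F] Matrix (Fin n) (Fin n) F)
    (π' : Cz F α (Q.map σ.toMonoidHom) →ₐ[F] Matrix (Fin n') (Fin n') F),
    y * y' = 1 → y' * y = 1 → (∀ u, y * α u = α (σ u) * y) → Lcq F α Q n π →
    Lcq F α (Q.map σ.toMonoidHom) n' π' →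
    IsoT σ (mx (sg F α Q π)) (mx (sg F α (Q.map σ.toMonoidHom) π'))

/-- FAM: the family `S_Q`.

Proof.  For `Q` not in `W` choose `n`, `π` by `PIn.lcq` and put `S Q = mx (sg F α Q π)` (`IA.one` for the
other `Q`).  `LoqOut` and `TRB` (with `CP (bd F α)` from `PIn.ps`: restrict the frame to the diagonal,
row `PSR` of B4a; `cj F α u = bi F α (u, u)`) give `bq`, `ITW` gives `tw` (if `Q` is not in `W` then
`φ e Q` is not in `W`, by `Ctf.stab` for `e⁻¹`). -/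
def FamStmt : Prop :=
  ∀ (F V E A : Type) [Field F] [CommGroup V] [Fintype V] [Group E] [Ring A] [Algebra F A]
    [FiniteDimensional F A] (ℓ : ℕ) [CharP F ℓ] (φ : E →* MulAut V) (W : Subgroup V)
    (α : V →* A), Ctf ℓ φ W → PIn F φ W α → ∃ S : Subgroup V → IA F V, Fam (bd F α) φ W S

/-! ## 3. Forms, local rings, the last data of `PMid` -/

/-- NDM: the degree of `N` is prime to `ℓ`.

Proof.  `finrank N = n²`, and `finrank N = finrank F = 1` in `F` (row `DIM` of B4a for `cj F N.ι`, `P = ⊤`;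
`BQ N one ⊤` gives a model `IsBQ` by `BRK`). -/
def NdmStmt : Prop :=
  ∀ (ℓ : ℕ) [Fact ℓ.Prime] (F V : Type) [Field F] [CharP F ℓ] [CommGroup V] [Finite V]
    (N : IA F V), IsPGroup ℓ V → Mx N → CP N → BQ N (IA.one F V) ⊤ →
    ∃ n : ℕ, 0 < n ∧ (n : F) ≠ 0 ∧ Nonempty (N.A ≃ₐ[F] Matrix (Fin n) (Fin n) F)

/-- FRT: the form on `N ⊗ X`.

Proof.  `lam' (x ⊗ a) = tr(e x) lam(a)`, `e : N ≃ Mat_n(F)`.  Symmetric and nondegenerate (trace form of
`Mat_n(F)`).  `u ∈ V` has order a power of `ℓ`, so `e(N.ι u) - 1` is nilpotent, `tr e(N.ι u) = n`;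
`lam'(∑ u) = n lam(∑ u) ≠ 0`. -/
def FrtStmt : Prop :=
  ∀ (ℓ : ℕ) [Fact ℓ.Prime] (F V : Type) [Field F] [CharP F ℓ] [CommGroup V] [Fintype V]
    (N X : IA F V) (n : ℕ), IsPGroup ℓ V → (n : F) ≠ 0 →
    Nonempty (N.A ≃ₐ[F] Matrix (Fin n) (Fin n) F) → ∀ lam, Frm F X.ι lam →
    ∃ lam', Frm F (N.tens X).ι lam'

/-- JBK: an idempotent outside of the Brauer kernel is `1` modulo the Brauer kernel.

Proof.  `β : X → F V` multiplicative on `Fx ⊤`; `β j` is an idempotent of the local ring `F V`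
(`V` an `ℓ`-group: the augmentation ideal is nil), so it is `0` or `1`; it is not `0` by `BRK`; so
`β (1 - j) = 0`, `1 - j ∈ BK ⊤` by `BRK`. -/
def JbkStmt : Prop :=
  ∀ (ℓ : ℕ) [Fact ℓ.Prime] (F V : Type) [Field F] [CharP F ℓ] [CommGroup V] [Finite V]
    (X : IA F V) (j : X.A), IsPGroup ℓ V → BQ X (IA.gr F V) ⊤ → j ∈ Fx (cj F X.ι) ⊤ →
    j * j = j → j ∉ BK (cj F X.ι) ⊤ → 1 - j ∈ BK (cj F X.ι) ⊤

/-- FRC: the form on a corner.

Proof.  `lam' = lam ∘ κ`.  Symmetric.  Nondegenerate: if `lam(κ a κ b) = 0` for all `b` then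
`lam(κ a x) = lam(j κ a j x) = lam(κ a (j x j)) = 0` for all `x`, so `κ a = 0`.  With `s = ∑ X.ι u`:
`lam(s (1 - j)) = 0` because `s ∑_{x ∈ S} x m x⁻¹ = ∑ x (s m) x⁻¹` has `lam` equal to
`|S| lam(s m) = 0`; so `lam'(∑ Y.ι u) = lam(s j) = lam(s) ≠ 0`. -/
def FrcStmt : Prop :=
  ∀ (ℓ : ℕ) [Fact ℓ.Prime] (F V : Type) [Field F] [CharP F ℓ] [CommGroup V] [Fintype V]
    (X Y : IA F V) (j : X.A) (κ : Y.A →ₗ[F] X.A), IsPGroup ℓ V → Cor X Y j κ →
    1 - j ∈ BK (cj F X.ι) ⊤ → ∀ lam, Frm F X.ι lam → ∃ lam', Frm F Y.ι lam'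

/-- LCR: the centraliser of `V` in the corner of a local idempotent is a local ring.

Proof.  `y ↦ b (κ y)` is a homomorphism of the centraliser of `V` in `Y` to `F` (`Chr.mul`, `b j = 1`), an
element of its kernel is nilpotent (`Loc.nil`, `κ y = j κ(y) j`).  So an element `y` with
`b (κ y) = c ≠ 0` is a unit (`y - c` is nilpotent), and of `y`, `z` with `y + z = 1` one has `b ≠ 0`. -/
def LcrStmt : Prop :=
  ∀ (F V : Type) [Field F] [CommGroup V] (X Y : IA F V) (b : X.A →ₗ[F] F) (j : X.A)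
    (κ : Y.A →ₗ[F] X.A), Chr X b → Loc X b j → Cor X Y j κ → IsLocalRing (Cz F Y.ι ⊤)

/-- SPN: from the split quotients to the last fields of `PMid`.

Proof.  (1) `a ∈ Fx R`, `β a = ∑ c u • u`; then `a - ∑ c u • Y.ι u` is in `Fx R` and in the kernel of `β`,
`BRK`.  (2) `β 1 = 1 ≠ 0`, `BRK`. -/
def SpnStmt : Prop :=
  ∀ (ℓ : ℕ) [Fact ℓ.Prime] (F V : Type) [Field F] [CharP F ℓ] [CommGroup V] [Fintype V]
    (Y : IA F V) (R : Subgroup V), IsPGroup ℓ V → BQ Y (IA.gr F V) R →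
    (∀ a ∈ Fx (cj F Y.ι) R, ∃ c : V → F, a - ∑ u, c u • Y.ι u ∈ BK (cj F Y.ι) R) ∧
    (1 : Y.A) ∉ BK (cj F Y.ι) R

/-! ## 4. Fullness and centres (only for `PmzStmt`) -/

/-- FUL: an idempotent which is `1` modulo the Brauer kernel of `V` is full.

Proof.  Frame `b ω`, `c ω` of `bi F α` over `Ω`, stabilisers `tw (φ e) R`; `c ω x = lam(s ω * x)` with
unique `s ω ∈ A`.  For `v ∈ V`: `b ((1,v) ω) = b ω α(v)⁻¹`, `s ((1,v) ω) = α(v) s ω`.  Let `Z` be the set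
of orbits of `1 × V` on `Ω`, and for `w ∈ Cz F α ⊤` put `T w = ∑_{ω ∈ Z} b ω * w * s ω` (well defined, `w`
commutes with `V`).
(1) `T w` is central: `y b ω = ∑_{ω' ∈ Z} b ω' E(s ω' y b ω)`, `E x = ∑_v lam(α v x) α(v)⁻¹`, and
`∑_{ω ∈ Z} E(x b ω) s ω = ∑_{ω ∈ Ω} lam(x b ω) s ω = x`; `E(..)` commutes with `w` (its values are in the
span of `V`, which commutes with `w`): `y T w = ∑_{ω'} b ω' w ∑_ω E(s ω' y b ω) s ω = T w y`.
(2) For an orbit of `V × V` with stabiliser `tw (φ e) R` the part of `T w` is the relative trace from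
`φ e R` to `V` of `b ω w s ω`: in `BK ⊤` if `R ≠ ⊤`.  If `R = ⊤`: `α(φ e u) b ω = b ω α(u)`,
`α(u) s ω = s ω α(φ e u)`, so for `w = ∑_{x ∈ S} x m x⁻¹`, `m` in the centraliser of `K < V`,
`b ω w s ω = ∑ φ_e(x) (b ω m s ω) φ_e(x)⁻¹ ∈ BK ⊤`.  So `T (BK ⊤) ≤ BK ⊤`.
(3) `T 1 ∉ BK ⊤`.  Let `chi : Cz F α ⊤ → F` be the character `aug ∘ β` (kernel: nilpotent modulo
`BK ⊤`; it is invariant under conjugation by `y_e`).  `E` vanishes on `BK ⊤` and `E(x) = q(x) E(1)` for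
`x` in the centraliser with `β x = q(x)`.  For `e = 1`: `1 = ∑ c ω 1 • b ω` over the points fixed by the
diagonal of `V`, modulo `BK ⊤`, i.e. `1 = ∑_{O} b_O E(s_O)` over the orbits of type `(e, R) = (1, ⊤)`,
so `1 = chi(∑ b_O s_O) chi(E 1)`, `chi(E 1) = lam(∑ α u) ≠ 0`.  For general `e` the same with the
vectors `y_e⁻¹ b ω` and `s ω y_e` (a frame for the twisted action, the orbits of type `(e, ⊤)` become
those of type `(1, ⊤)`): `chi(∑_{O of type (e, ⊤)} b_O s_O) = chi(E 1)⁻¹`.  The types are disjoint for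
different `e` (`φ` is injective: `Ctf.free`, `Ctf.nt`).  So `chi(T 1) = |E| chi(E 1)⁻¹ ≠ 0`.
(4) `1 - j ∈ BK ⊤`: `T j = T 1 - T (1 - j)`, `chi(T j) ≠ 0`; `T j` is central and all central elements
are units or nilpotent (hypothesis); so `T j` is a unit `z` and `1 = ∑ (z⁻¹ b ω) j (s ω)`. -/
def FulStmt : Prop :=
  ∀ (ℓ : ℕ) [Fact ℓ.Prime] (F V E A : Type) [Field F] [CharP F ℓ] [CommGroup V] [Fintype V]
    [Group E] [Fintype E] [Ring A] [Algebra F A] [FiniteDimensional F A] (φ : E →* MulAut V)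
    (W : Subgroup V) (α : V →* A) (lam : A →ₗ[F] F) (j : A), Ctf ℓ φ W → Frm F α lam →
    PS (fun K => ∃ (e : E) (R : Subgroup V), K = tw (φ e).toMonoidHom R) (bi F α) →
    BQ (bd F α) (IA.gr F V) ⊤ →
    (∀ e : E, ∃ y y' : A, y * y' = 1 ∧ y' * y = 1 ∧ ∀ u, y * α u = α (φ e u) * y) →
    (∀ z : A, (∀ a, z * a = a * z) → IsUnit z ∨ IsNilpotent z) →
    j ∈ Fx (cj F α) ⊤ → j * j = j → 1 - j ∈ BK (cj F α) ⊤ →
    (1 : A) ∈ Submodule.span F {x | ∃ a b : A, x = a * j * b}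

/-- ZCN: the centre of a full corner.

Proof.  `z ↦ z j` from the centre of `X` to the centre of `j X j`: injective because `z j = 0` gives
`z a j b = 0` and `1 = ∑ a j b`; surjective: for `c` in the centre of `j X j` and
`1 = ∑_k a_k j b_k` put `z = ∑ a_k c b_k`; then `x z = ∑_{k,l} a_l j b_l x a_k c b_k =
∑ a_l c (j b_l x a_k j) b_k = z x` and `z j = ∑ a_k c b_k j = ∑ a_k j c j b_k j = ..= c`
(`j b_k j` commutes with `c`: insert `j = ∑_l j a_l j b_l j`). -/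
def ZcnStmt : Prop :=
  ∀ (F X Y : Type) [Field F] [Ring X] [Algebra F X] [Ring Y] [Algebra F Y] (j : X)
    (κ : Y →ₗ[F] X), Cnr j κ → (1 : X) ∈ Submodule.span F {x | ∃ a b : X, x = a * j * b} →
    Module.finrank F (Subalgebra.center F Y) = Module.finrank F (Subalgebra.center F X)

/-- ZMX: the centre of `N ⊗ A` for a matrix algebra `N`.

Proof.  (1) `Z(Mat_n(F) ⊗ A) = 1 ⊗ Z(A)` (for example `Subalgebra.centralizer` of tensor products,
`Algebra.IsCentral`, or matrix units, or `ZCN` with `j = e_11 ⊗ 1`).  (2) So if the elements of the centre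
of `A` are units or nilpotent the same holds for `N ⊗ A`. -/
def ZmxStmt : Prop :=
  ∀ (F N A : Type) [Field F] [Ring N] [Algebra F N] [Ring A] [Algebra F A] (n : ℕ), 0 < n →
    Nonempty (N ≃ₐ[F] Matrix (Fin n) (Fin n) F) →
    (∀ z : N ⊗[F] A, (∀ a, z * a = a * z) → ∃ c : A, (∀ a, c * a = a * c) ∧ z = 1 ⊗ₜ[F] c) ∧
    Module.finrank F (Subalgebra.center F (N ⊗[F] A)) = Module.finrank F (Subalgebra.center F A)

end Pool.Agent.PFC.B5c
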