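import Pool.Agent.PFC.DefsB6
import Pool.Agent.PFC.StmtsB4a

/-!
# Squad PFC, block B6, part a: from the block to the input `PIn` of part (0)

`F = FF M`, `e` a block of `G` with the abelian defect group `V`, `γ` a block of `C(V)` under `e`,
`T = Tg V γ`.  `j` is a coherent local idempotent (`Jd`), `A = Crn hj` the corner `j (F G) j` as a ring
(`cv` = the element as a function, `cv_mul`, `cv_one`, `mkj` = compression), `jal` the homomorphism
`w ↦ ι(w) j` from `W ≅ V`.  Elements of the group ring are functions with the product `mulF`, `dl F g`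
is the element `g` (`mulF_dl_l`, `mulF_dl_r`, `dl_comm` in `DefsB6.lean`), `pw x n` the power,
`br Q x` the restriction of `x` to `C(Q)`, `H75.cj g b` the conjugate `g b g⁻¹` (the name `cj` alone is
the conjugation representation of `DefsB4.lean`).  Complete proofs in the docstrings.

Tools.  `H75.br_mulF` and its relatives: the restriction to `C(Q)` is multiplicative on the elements
of `F G` which commute with the `ℓ`-group `Q` (`char F = ℓ`).  `T8.H…min_` and `Helper…/MIN.lean`: the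
proof of `T8.MinStmt`.  The rows are independent: a row may take other rows as hypotheses.
-/

open scoped BigOperators

noncomputable section

namespace Pool.Agent.PFC

open Pool.Agent.Helper51_AWC Pool.Agent.Helper79_WRA Pool.Agent.PP Pool.Agent.PP.KF
open Pool.Agent.PP.K9 Pool.Agent.PP.K9.H97 Pool.Agent.PP.H75 Pool.Agent.PP.T3 Pool.Agent.PP.T2
open Pool.Agent.PP.T8 (Fr rs pw)

attribute [local instance] Ideal.Quotient.field

/-! ## 1. Fusion -/

/-- FUW: the inertial group controls the fusion of the subgroups of `V`.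

Proof.  As `T3.FusStmt` (`Helper79_AT3`, `H79.fus`), with `C(Q)`, `C(Q')` instead of `C(u)`, `C(u')`, and
`T6.LwdStmt` instead of LSB.  `g C(Q') g⁻¹ = C(Q)`, `V ≤ C(Q')` (`V` is abelian), so `g V g⁻¹ ≤ C(Q)` is
good for `cj g b' = b`, in the group `C(Q)`, and it has the order of `V`, so by `FmgStmt` (first part,
for `C(Q)`, `b`, `V`) there is `c ∈ C(Q)` with `c g V g⁻¹ c⁻¹ = V`.  `n = c g` is in `N(V)`,
`n x n⁻¹ = g x g⁻¹` for `x ∈ Q'` (as `g x g⁻¹ ∈ Q`), and `cj n γ` is a block of `C(V)` with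
`br_V(b) cj n γ = cj n γ` (apply `cj n` to `br_V(b') γ = γ`; `cj n b' = cj c b = b`).  `br_V(b)` is a
block of `N(V) ∩ C(Q)` (`FmgStmt`, second part), so by `K9.OrbStmt` (`N = N(V) ∩ C(Q)`, `X = C(V)`)
there is `m ∈ N(V) ∩ C(Q)` with `cj n γ = cj m γ`.  `t = m⁻¹ n ∈ T`,
`t x t⁻¹ = m⁻¹ (g x g⁻¹) m = g x g⁻¹` for `x ∈ Q'`. -/
def FuwStmt : Prop := ∀ (ℓ : ℕ) [Fact ℓ.Prime] (M : Ideal (integralClosure ℤ ℂ)) [M.IsMaximal],
  (ℓ : integralClosure ℤ ℂ) ∈ M → ∀ (G : Type) [Group G] [Finite G] (e : G → FF M)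
  (V : Subgroup G) (γ : G → FF M), Ld ℓ e V γ → ∀ Q Q' : Subgroup G, Q ≤ V → Q' ≤ V →
  ∀ b b', T6.Lw V γ Q b → T6.Lw V γ Q' b' → ∀ g : G, (∀ x, x ∈ Q' ↔ g * x * g⁻¹ ∈ Q) →
  H75.cj g b' = b → ∃ t ∈ Tg V γ, ∀ x ∈ Q', t * x * t⁻¹ = g * x * g⁻¹

/-! ## 2. The coherent local idempotent -/

/-- JEX: existence of `j`.

Proof.  As `T8.MinStmt` (see its docstring and its Lean proof, cited in `AT8/Asm.lean` as `min__`):
`Φ(a) = ∑_{t ∈ C(V)} a(t) rr(κ t)`; let `j` be an idempotent of `F G` which commutes with `V`, with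
`Φ(j) ≠ 0`, such that the rank of `a ↦ j a` is minimal.  `lb`: for `W ≤ V` the local block `f` is a class
function of `C(W)`, extended by zero; it commutes with `V ≤ C(W)`, `br_V(f) γ = γ`.  By IDP
`j' = (j f j) ^ n` is an idempotent for some `n ≥ 1`, it commutes with `V`, `j j' = j' = j' j`;
`br_V(j') γ = br_V(j) γ` (`br_V` is multiplicative on the elements which commute with `V`; as in the
claim in MIN with `w = f`: `br_V(f)` is a class function of `C(V)` and `br_V(f) γ = γ`), so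
`Φ(j') = Φ(j) ≠ 0`, and by minimality `j' = j`: `(j f j) ^ n = j`.  The restriction to `C(W)` is
multiplicative on the elements which commute with `W`, so with `x = br_W(j)`:
`x = (x f x) ^ n = x f` (`f` is a central idempotent of `F C(W)`).  `lo`: let `w` be as in `lo`.  By IDP
`j' = pw w n` is an idempotent for some `n ≥ 1`, it commutes with `V`, `j j' = j' = j' j`.  If
`Φ(j') ≠ 0` then `j' = j` by minimality.  If `Φ(j') = 0` then `Φ(j - j') ≠ 0`, `j - j'` is an idempotent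
which commutes with `V`, so `j - j' = j`, `j' = 0`. -/
def JexStmt : Prop := ∀ (ℓ : ℕ) [Fact ℓ.Prime] (M : Ideal (integralClosure ℤ ℂ)) [M.IsMaximal],
  (ℓ : integralClosure ℤ ℂ) ∈ M → ∀ (G : Type) [Group G] [Finite G] (e : G → FF M)
  (V : Subgroup G) (γ : G → FF M), Ld ℓ e V γ → ∃ j : G → FF M, Jd M V γ j

/-- JUN: `j` is under `e` and `br_V(j)` is under `γ`.

Proof.  `e` is the local block of `⊥` (`C(⊥) = ⊤`, `br ⊥ j = j`; `Bx ⊤ e` by transport along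
`⊤ ≅ G`; `Ld.und`), and `γ` is the local block of `V` (`Ld.gam`, `br V γ = γ`, `γ γ = γ`). -/
def JunStmt : Prop := ∀ (ℓ : ℕ) [Fact ℓ.Prime] (M : Ideal (integralClosure ℤ ℂ)) [M.IsMaximal],
  (ℓ : integralClosure ℤ ℂ) ∈ M → ∀ (G : Type) [Group G] [Finite G] (e : G → FF M)
  (V : Subgroup G) (γ : G → FF M), Ld ℓ e V γ → ∀ j : G → FF M, Jd M V γ j →
  mulF j e = j ∧ mulF e j = j ∧ mulF (br V j) γ = br V j

/-- JCJ: the conjugates of `j` under the inertial group.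

Proof.  Transport of structure along the automorphism `x ↦ t⁻¹ x t` of `G`, which fixes `V` and `γ`
(`cj t γ = γ`).  `lb`: `cj t⁻¹` maps the local block of `W` to a local block of `t⁻¹ W t`.  `nz`:
`κ ∘ (conjugation)` is again in `γ`. -/
def JcjStmt : Prop := ∀ (ℓ : ℕ) [Fact ℓ.Prime] (M : Ideal (integralClosure ℤ ℂ)) [M.IsMaximal],
  (ℓ : integralClosure ℤ ℂ) ∈ M → ∀ (G : Type) [Group G] [Finite G] (e : G → FF M)
  (V : Subgroup G) (γ : G → FF M), Ld ℓ e V γ → ∀ j : G → FF M, Jd M V γ j → ∀ t ∈ Tg V γ,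
  Jd M V γ (H75.cj t j)

/-! ## 3. The Brauer image at `V` -/

/-- NPH: a modular character vanishes at the nilpotent elements of the group ring.

Proof.  `φ(a) = ∑_h a(h) rr(κ h)`.  By (1), (2) in the proof of `T8.Rk1Stmt` (see its Lean proof
`H53.rk1`, `AT8/Asm.lean`): `φ(a ^ ℓ) = φ(a) ^ ℓ`.  So `φ(x) ^ (ℓ ^ k) = φ(x ^ (ℓ ^ k)) = 0` for
`ℓ ^ k ≥ n`.  Second claim: `φ` is a trace: `φ(a b) = φ(b a)`, because `κ` is a class function. -/
def NphStmt : Prop := ∀ (ℓ : ℕ) [Fact ℓ.Prime] (M : Ideal (integralClosure ℤ ℂ)) [M.IsMaximal],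
  (ℓ : integralClosure ℤ ℂ) ∈ M → ∀ (H : Type) [Group H] [Finite H], ∀ κ ∈ Irr H,
  (∀ (x : H → FF M) (n : ℕ), pw x n = 0 → ∑ᶠ h, x h * rr M (κ h) = 0) ∧
  ∀ a b : H → FF M, ∑ᶠ h, mulF a b h * rr M (κ h) = ∑ᶠ h, mulF b a h * rr M (κ h)

/-- LMB: the sum of the coefficients at the elements of `V`.

Proof.  `C = C(V)`, `q = rr (|V| c/|C|)`.  By the proof of `T8.KnzStmt` (`H87.knz`): `γ(s) = q rr κ(s⁻¹)`
for `s ∈ C` regular, `γ` vanishes at the singular elements (`K9`: a central idempotent is supported on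
the regular elements), and `rr κ(y s) = rr κ(s)` if the `ℓ`-part `y` is in `V`, `κ(y s) = 0` if
`y ∉ V`.  `q ≠ 0` as `γ ≠ 0`.  Let `a` be supported on `C`, `a γ = a`.  For `v ∈ V`:
`a(v) = ∑_{t ∈ C} a(t) γ(t⁻¹ v)`.  For `t ∈ C` with `ℓ`-part `y` and regular part `s`, `t⁻¹ v` is regular
iff `v = y` (`v` is a central `ℓ`-element of `C`), and then `γ(t⁻¹ v) = γ(s⁻¹) = q rr κ(s) = q rr κ(t)`.
So the sum over `v ∈ V` is the sum of `a(t) q rr κ(t)` over the `t ∈ C` with `y ∈ V`, and for `y ∉ V`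
`κ(t) = 0`. -/
def LmbStmt : Prop := ∀ (ℓ : ℕ) [Fact ℓ.Prime] (M : Ideal (integralClosure ℤ ℂ)) [M.IsMaximal],
  (ℓ : integralClosure ℤ ℂ) ∈ M → ∀ (G : Type) [Group G] [Finite G] (e : G → FF M)
  (V : Subgroup G) (γ : G → FF M), Ld ℓ e V γ → ∃ q : FF M, q ≠ 0 ∧
  ∀ κ ∈ IrrE M (fun t : Subgroup.centralizer (V : Set G) => γ t), ∀ a : G → FF M,
    (∀ x, x ∉ Subgroup.centralizer (V : Set G) → a x = 0) → mulF a γ = a →
    ∑ᶠ v : V, a v = q * ∑ᶠ t : Subgroup.centralizer (V : Set G), a t * rr M (κ t)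

/-- CFA: `br_V(j) F C(V) br_V(j)` modulo the augmentation ideal of `F V`.

Proof.  Let `C = C(V)`, `j' = br V j`, `L` the set of the `x` in the statement (functions supported on
`C` with `j' x = x = x j'`), `Φ(a) = ∑_{t ∈ C} a(t) rr(κ t)`, a trace function on `F C`.  (1) Every `x ∈ L`
has a power (with positive exponent) which is `j'` or `0`: `w = j x j` commutes with `V`
(`x` is supported on `C(V)`), `br_V(w) = j' x j' = x`, apply `Jd.lo` to `w` and take `br_V`.  (2) If `n ∈ L`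
is nilpotent and `y ∈ L` then `n y` is nilpotent: otherwise `(n y) ^ k = j'`, so `n z = j'` with `z ∈ L`, and
`n ^ m = 0`, `m` minimal, gives `n ^ (m-1) = n ^ (m-1) n z = 0`, a contradiction (`j' ≠ 0` by `nz`).
(3) For `x ∈ L` there is `c ∈ F` such that `x - c j'` is nilpotent: the linear map `y ↦ x y` of `L ≠ 0`
has an eigenvalue `c` (`F` is algebraically closed), so `x - c j'` has no inverse in `L`; (1).
(4) Let `n ∈ L` be nilpotent.  For `g ∈ C`: `∑_{v ∈ V} n(v g) = 0`: it is `∑_v (n g⁻¹)(v)`, `n g⁻¹ γ = n γ g⁻¹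
= n g⁻¹` (`n = n j' = n j' γ` by JUN, `γ` is central in `F C`), so by LMB it is
`q Φ(n g⁻¹) = q Φ(n j' g⁻¹ j')` (trace, `n = j' n j'`), and `n (j' g⁻¹ j')` is nilpotent by (2), so the value
is `0` by NPH.  (5) So `n = ∑_{g} ∑_{v ∈ V} n(v g) (v - 1) g`, `g` over representatives of `V\C`, and
`n = j' n j' = ∑_{v ∈ V} (v - 1) y_v`, `y_v = j' (∑_g n(v g) g) j' ∈ L` (`V` is central in `F C`). -/
def CfaStmt : Prop := ∀ (ℓ : ℕ) [Fact ℓ.Prime] (M : Ideal (integralClosure ℤ ℂ)) [M.IsMaximal],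
  (ℓ : integralClosure ℤ ℂ) ∈ M → ∀ (G : Type) [Group G] [Finite G] (e : G → FF M)
  (V : Subgroup G) (γ : G → FF M), Ld ℓ e V γ → ∀ j : G → FF M, Jd M V γ j → ∀ x : G → FF M,
  (∀ g, g ∉ Subgroup.centralizer (V : Set G) → x g = 0) → mulF (br V j) x = x →
  mulF x (br V j) = x → ∃ (c : FF M) (y : G → G → FF M),
    (∀ v, (∀ g, g ∉ Subgroup.centralizer (V : Set G) → y v g = 0) ∧
      mulF (br V j) (y v) = y v ∧ mulF (y v) (br V j) = y v) ∧
    x = c • br V j + ∑ᶠ v : V, (mulF (dl (FF M) (v : G)) (y v) - y v)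

/-- NKA: Nakayama's lemma for a finite `ℓ`-group in characteristic `ℓ`.

Proof.  `L` is a finite-dimensional space on which the abelian `ℓ`-group `W` acts, `N` a submodule with
`L = N + ∑_w (w - 1) L`.  If `N ≠ L`: the dual of `L/N` is a nonzero representation of `W`, so it has a
nonzero fixed vector `λ` (an `ℓ`-group acting linearly on a nonzero space over a field of
characteristic `ℓ` fixes a nonzero vector; Mathlib for finite fields, or: the product of commuting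
unipotent operators; induction over the elements: `(w - 1) ^ (ℓ ^ a) = w ^ (ℓ ^ a) - 1 = 0`, so
`ker (w - 1) ≠ 0` on every stable nonzero subspace).  `λ` vanishes on `N` and on all `(w - 1) x`, so
`λ = 0`.  Second claim (the same fact): a nonzero stable subspace contains a nonzero fixed vector. -/
def NkaStmt : Prop := ∀ (ℓ : ℕ) [Fact ℓ.Prime] (F W L : Type) [Field F] [CharP F ℓ] [CommGroup W]
  [Finite W] [AddCommGroup L] [Module F L] [FiniteDimensional F L] (ρ : W →* (L →ₗ[F] L)),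
  IsPGroup ℓ W →
  (∀ N : Submodule F L, (∀ w, ∀ x ∈ N, ρ w x ∈ N) →
    (∀ x : L, ∃ n ∈ N, ∃ y : W → L, x = n + ∑ᶠ w, (ρ w (y w) - y w)) → N = ⊤) ∧
  ∀ N : Submodule F L, (∀ w, ∀ x ∈ N, ρ w x ∈ N) → N ≠ ⊥ → ∃ x ∈ N, x ≠ 0 ∧ ∀ w, ρ w x = x

/-- CFB: `br_V(j) F C(V) br_V(j) = F V`.

Proof.  Spanning: CFA and NKA for `L` (as in CFA, a finite-dimensional space on which `V` acts by
`x ↦ v x`), `N` = the span of the `v br_V(j)`.  Free: let `x = ∑ c_v v ≠ 0` in `F V` and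
`x br_V(j) = 0`.  `F V x ≠ 0` is a subspace of the functions on `V` stable under multiplication with
`V`, so by NKA (second claim) it contains a nonzero fixed vector, a multiple of `∑ v` (`V` acts
transitively).  So `∑_v v br_V(j) = 0`; value at `1`: `∑_v br_V(j)(v) = 0`, against LMB
(`a = br_V(j)`, JUN, `Jd.nz`). -/
def CfbStmt : Prop := ∀ (ℓ : ℕ) [Fact ℓ.Prime] (M : Ideal (integralClosure ℤ ℂ)) [M.IsMaximal],
  (ℓ : integralClosure ℤ ℂ) ∈ M → ∀ (G : Type) [Group G] [Finite G] (e : G → FF M)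
  (V : Subgroup G) (γ : G → FF M), Ld ℓ e V γ → ∀ j : G → FF M, Jd M V γ j →
  (∀ x : G → FF M, (∀ g, g ∉ Subgroup.centralizer (V : Set G) → x g = 0) →
    mulF (br V j) x = x → mulF x (br V j) = x →
    ∃ c : V → FF M, x = ∑ᶠ v : V, c v • mulF (dl (FF M) (v : G)) (br V j)) ∧
  (∀ c : V → FF M, ∑ᶠ v : V, c v • mulF (dl (FF M) (v : G)) (br V j) = 0 → c = 0) ∧
  ∑ᶠ v : V, j v ≠ 0

/-! ## 4. The corner as an interior algebra -/

/-- CPS: the corner is a summand of a permutation module, with the frame `g ↦ j g j`.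

Proof.  `Ω = G` with the action `(u, v) g = ι(u) g ι(v)⁻¹`, `b(g) = j g j`, `c_g(a) = a(g)`: equivariant
because `j` commutes with `ι(W)`, and `∑_g a(g) j g j = j a j = a`.  For the second claim the key lemma
on frames (`B4/Key.lean`, `frame_BK`, `frame_iff`; `K` is an `ℓ`-group as a subgroup of `W × W`): the
Brauer kernel at `K` is the set of the fixed elements `a` with `c_g(a) = 0` for all `g ∈ Ω^K`. -/
def CpsStmt : Prop := ∀ (ℓ : ℕ) [Fact ℓ.Prime] (F : Type) [Field F] [CharP F ℓ] (G W : Type)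
  [Group G] [Finite G] [CommGroup W] [Fintype W] (ι : W →* G), Function.Injective ι →
  IsPGroup ℓ W → ∀ (j : G → F) (hj : mulF j j = j) (hv : ∀ w x, j (ι w * x * (ι w)⁻¹) = j x),
  PS (fun K => ∃ g : G, ∀ w : W × W, w ∈ K ↔ ι w.1 * g = g * ι w.2) (bi F (jal hj ι hv)) ∧
  (∀ (K : Subgroup (W × W)) (a : Crn hj), a ∈ Fx (bi F (jal hj ι hv)) K →
    (a ∈ BK (bi F (jal hj ι hv)) K ↔
      ∀ g : G, (∀ w ∈ K, ι w.1 * g = g * ι w.2) → cv a g = 0)) ∧
  ∀ (Q : Subgroup W) (a : Crn hj), a ∈ Fx (cj F (jal hj ι hv)) Q →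
    (a ∈ BK (cj F (jal hj ι hv)) Q ↔
      ∀ g ∈ Subgroup.centralizer ((Q.map ι : Subgroup G) : Set G), cv a g = 0)

/-- CBR: the Brauer map of the corner at a subgroup `Q`.

Proof.  `C = C(ι(Q))`, `β(a) = ` the restriction of `cv a` to `C`.  `a` in the centraliser of
`α(Q) = ι(Q) j`: `ι(u) a = ι(u) j a = a ι(u) j = a ι(u)` for `u ∈ Q`, so `cv a` commutes with `ι(Q)`, and
the restriction to `C` is multiplicative on such elements (`H75.br_mulF`), so `β` is a homomorphism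
of algebras into the corner of `j|C`, `β(1) = j|C`.  Onto: let `x` be in the corner of `j|C`, `x'` its
extension by zero; it commutes with `ι(Q)`; `a = mkj x'`, `β(a) = (j|C) x (j|C) = x`.  Kernel: CPS.  (The
proof that `j|C` is an idempotent of `F C` is part of the row.) -/
def CbrStmt : Prop := ∀ (ℓ : ℕ) [Fact ℓ.Prime] (F : Type) [Field F] [CharP F ℓ] (G W : Type)
  [Group G] [Finite G] [CommGroup W] [Fintype W] (ι : W →* G), Function.Injective ι →
  IsPGroup ℓ W → ∀ (j : G → F) (hj : mulF j j = j) (hv : ∀ w x, j (ι w * x * (ι w)⁻¹) = j x)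
  (Q : Subgroup W), ∃ (hc : mulF
      (fun t : Subgroup.centralizer ((Q.map ι : Subgroup G) : Set G) => j t)
      (fun t : Subgroup.centralizer ((Q.map ι : Subgroup G) : Set G) => j t) =
      (fun t : Subgroup.centralizer ((Q.map ι : Subgroup G) : Set G) => j t))
    (β : Cz F (jal hj ι hv) Q →ₐ[F] Crn hc), Function.Surjective β ∧
    (∀ a t, cv (β a) t = cv (a : Crn hj) t) ∧
    ∀ a, β a = 0 ↔ (a : Crn hj) ∈ BK (cj F (jal hj ι hv)) Q

/-- LCP: from the local algebra to the local data `Lcq`.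

Proof.  CBR: `β`; `π'(a) = π (cv (β a))` is a homomorphism of algebras (`Pj.mul`, `Pj.one`, linear), onto
(`Pj.sur`, `β` onto), it kills `BK`; if `π'(a) = 0` then `β(a)` is nilpotent (`Pj.nil`, the iterated
product is a power in `Crn hc`), so `β(a ^ N) = 0` and `a ^ N ∈ BK`. -/
def LcpStmt : Prop := ∀ (ℓ : ℕ) [Fact ℓ.Prime] (F : Type) [Field F] [CharP F ℓ] (G W : Type)
  [Group G] [Finite G] [CommGroup W] [Fintype W] (ι : W →* G), Function.Injective ι →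
  IsPGroup ℓ W → ∀ (j : G → F) (hj : mulF j j = j) (hv : ∀ w x, j (ι w * x * (ι w)⁻¹) = j x)
  (Q : Subgroup W) (n : ℕ)
  (π : (Subgroup.centralizer ((Q.map ι : Subgroup G) : Set G) → F) →ₗ[F]
    Matrix (Fin n) (Fin n) F),
  Pj (fun t : Subgroup.centralizer ((Q.map ι : Subgroup G) : Set G) => j t) n π →
  ∃ π', Lcq F (jal hj ι hv) Q n π'

/-- JLQ: the restriction of `j` to `C(W)` satisfies the hypotheses of `LpbStmt`.

Proof.  `C = C(W)`, `j₁ = j|C`.  Idempotent: `H75.br_mulF` for the `ℓ`-group `W ≤ V`.  `f j₁ = j₁`: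
`Jd.lb`, `f` is a class function of `C`.  `br_V(j₁) γ = br_V(j₁)`: JUN restricted to `C(V) ≤ C` (the
centraliser of `V.subgroupOf C` in `C` is `C(V)`, as in `Helper39_AT6/LWD.lean`,
`Helper97_K9/NZR.lean`).  The last hypothesis is `Jd.nz` (`C(V) ≤ C`).  LPB. -/
def JlqStmt : Prop := ∀ (ℓ : ℕ) [Fact ℓ.Prime] (M : Ideal (integralClosure ℤ ℂ)) [M.IsMaximal],
  (ℓ : integralClosure ℤ ℂ) ∈ M → ∀ (G : Type) [Group G] [Finite G] (e : G → FF M)
  (V : Subgroup G) (γ : G → FF M), Ld ℓ e V γ → Fr V γ → ∀ j : G → FF M, Jd M V γ j →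
  ∀ W : Subgroup G, W ≤ V → W ≠ ⊥ →
  ∃ n π, Pj (fun t : Subgroup.centralizer (W : Set G) => j t) n π

/-! ## 5. The fields of `PIn` -/

/-- FFA: the fields `fin`, `frm`, `loc`, `top`.

Proof.  `fin`: `Crn hj` is a subspace of the functions.  `frm`: `lam(a) = (cv a)(1)`.  Symmetric:
`(x y)(1) = ∑_t x(t) y(t⁻¹) = (y x)(1)`.  Nondegenerate: if `lam(a b) = 0` for all `b ∈ A` then for
`g ∈ G`, `b = mkj (dl g⁻¹)`: `a(g) = (a g⁻¹)(1) = (j a j g⁻¹)(1) = (a j g⁻¹ j)(1) = 0`.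
`lam(∑_w α(w)) = ∑_w (ι(w) j)(1) = ∑_w j(ι(w)⁻¹) = ∑_{v ∈ V} j(v) ≠ 0` (CFB).  `loc`: `Jd.lo`: every element
of the centraliser has a power (positive exponent) which is `1` or `0`, so it is a unit or
nilpotent, and `1 - a` is a unit if `a` is nilpotent; `1 ≠ 0` (`Jd.nz`).  `top`: `a ∈ Fx (cj α) ⊤` means that
`cv a` commutes with `V`; `x = br_V(cv a)` satisfies the hypotheses of CFB (`br_V` multiplicative), so
`x = ∑ c_v v br_V(j)`, and `a - ∑ c_w α(w)` vanishes on `C(V)`, so it is in `BK` (CPS); if `∑ c_w α(w)`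
is in `BK` then it vanishes on `C(V)`, so `∑ c_v v br_V(j) = 0`, `c = 0` (CFB). -/
def FfaStmt : Prop := ∀ (ℓ : ℕ) [Fact ℓ.Prime] (M : Ideal (integralClosure ℤ ℂ)) [M.IsMaximal],
  (ℓ : integralClosure ℤ ℂ) ∈ M → ∀ (G : Type) [Group G] [Finite G] (e : G → FF M)
  (V : Subgroup G) (γ : G → FF M), Ld ℓ e V γ → ∀ j : G → FF M, Jd M V γ j →
  ∀ (W : Type) [CommGroup W] [Fintype W] (ι : W →* G), Function.Injective ι → ι.range = V →
  ∀ (hj : mulF j j = j) (hv : ∀ w x, j (ι w * x * (ι w)⁻¹) = j x),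
  FiniteDimensional (FF M) (Crn hj) ∧ (∃ lam, Frm (FF M) (jal hj ι hv) lam) ∧
  IsLocalRing (Cz (FF M) (jal hj ι hv) ⊤) ∧ Tpv (FF M) (jal hj ι hv)

/-- FSN: the twisted diagonal subgroups with nonzero Brauer quotient come from `T`.

Proof.  Let `Q' = {v ∈ V | g v g⁻¹ ∈ V}`, `Q = g Q' g⁻¹ ≤ V`, `X = {h | g v g⁻¹ h = h v, v ∈ Q'}`
`= g C(Q') = C(Q) g`.  By hypothesis `x(h₀) ≠ 0` for some `h₀ ∈ X`.  Let `x'` be the restriction of `x` to
`X`, `f`, `f'` the local blocks of `Q`, `Q'` (`T6.LwdStmt`).  (1) `x' = br_Q(j) x' br_{Q'}(j)`: for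
`h ∈ X`, `x(h) = (j x j)(h) = ∑ j(a) x(y) j(c)` over `a y c = h`.  The `ℓ`-group `Q'` acts on these
triples by `(a, y, c) ↦ (v₁ a v₁⁻¹, v₁ y v⁻¹, v c v⁻¹)`, `v₁ = g v g⁻¹`, and the terms are invariant, so
only the fixed triples contribute (`OrbStmt` of `StmtsKR`, `char F = ℓ`): `a ∈ C(Q)`, `y ∈ X`,
`c ∈ C(Q')`.  (2) So `x' = f x' f'` (`Jd.lb`; `f` is central in `F C(Q)`).  Write `x' = y g`, `y` supported on
`C(Q)`: `x' = f y g f' = f y (cj g f') g = y f (cj g f') g`, so `f (cj g f') ≠ 0`; both are blocks of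
`C(Q) = g C(Q') g⁻¹`, so `cj g f' = f` (`Bx.dich`; `Bx` of a conjugate as in `H97.Bx.cj`, with the
conjugated subgroup).  FUW. -/
def FsnStmt : Prop := ∀ (ℓ : ℕ) [Fact ℓ.Prime] (M : Ideal (integralClosure ℤ ℂ)) [M.IsMaximal],
  (ℓ : integralClosure ℤ ℂ) ∈ M → ∀ (G : Type) [Group G] [Finite G] (e : G → FF M)
  (V : Subgroup G) (γ : G → FF M), Ld ℓ e V γ → ∀ j : G → FF M, Jd M V γ j → ∀ (g : G)
  (x : G → FF M), mulF j x = x → mulF x j = x →
  (∀ v ∈ V, g * v * g⁻¹ ∈ V → ∀ h, x (g * v * g⁻¹ * h * v⁻¹) = x h) →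
  (∃ h, (∀ v ∈ V, g * v * g⁻¹ ∈ V → g * v * g⁻¹ * h = h * v) ∧ x h ≠ 0) →
  ∃ t ∈ Tg V γ, ∀ v ∈ V, g * v * g⁻¹ ∈ V → t * v * t⁻¹ = g * v * g⁻¹

/-- FPS: the field `ps`.

Proof.  CPS (first claim), `PsxStmt` (B4a, `H = W × W` is an abelian `ℓ`-group): the stabilisers `K` of
the new frame are `K = {w | ι w.1 g = g ι w.2}` with `¬ Fx K ≤ BK K`.  By CPS (second claim) there is
`a ∈ A` fixed by `K` and `h` with `ι w.1 h = h ι w.2` for `w ∈ K` and `cv a h ≠ 0`.  For `v ∈ V` with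
`g v g⁻¹ ∈ V` the pair `(g v g⁻¹, v)` is in `K`, so FSN applies: `t ∈ T` with `t v t⁻¹ = g v g⁻¹` for these
`v`.  By hypothesis there is `x : E` with `ι (φ x w) = t ι(w) t⁻¹`.  `K = tw (φ x) R`,
`R = {w | g ι(w) g⁻¹ ∈ V}`: `(u, w) ∈ K` iff `ι u = g ι(w) g⁻¹`, iff `w ∈ R` and `u = φ x w`. -/
def FpsStmt : Prop := ∀ (ℓ : ℕ) [Fact ℓ.Prime] (M : Ideal (integralClosure ℤ ℂ)) [M.IsMaximal],
  (ℓ : integralClosure ℤ ℂ) ∈ M → ∀ (G : Type) [Group G] [Finite G] (e : G → FF M)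
  (V : Subgroup G) (γ : G → FF M), Ld ℓ e V γ → ∀ j : G → FF M, Jd M V γ j →
  ∀ (W E : Type) [CommGroup W] [Fintype W] [Group E] (ι : W →* G), Function.Injective ι →
  ι.range = V → ∀ φ : E →* MulAut W, (∀ t ∈ Tg V γ, ∃ x : E, ∀ w, ι (φ x w) = t * ι w * t⁻¹) →
  ∀ (hj : mulF j j = j) (hv : ∀ w x, j (ι w * x * (ι w)⁻¹) = j x),
  PS (fun K => ∃ (x : E) (R : Subgroup W), K = tw (φ x).toMonoidHom R)
    (bi (FF M) (jal hj ι hv))

/-- CJJ: two coherent local idempotents are conjugate.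

Proof.  `C = C(V)`, `Φ(a) = ∑_{t ∈ C} a(t) rr(κ t)`.  The function `rr ∘ κ` on `C` is `w • tr τ` with an
irreducible `τ` of `C` and `w ≠ 0` (`LnoStmt`, `RepStmt` for `C`, `γ|C`, of inertial index one, see the
proof of `LpbStmt`; `w ≠ 0` by `T8.KnzStmt` or `Jd.nz`), so for functions `a` on `C`
`Φ(a) = w tr(ev τ a)`.  `P = ev τ (j|C)`, `P' = ev τ (j'|C)` are not `0` (`Jd.nz`).  Choose matrices with
`tr(P X P' Y) ≠ 0`, and `x, y` supported on `C` with `ev τ x = X`, `ev τ y = Y` (`IsIrr`).  All of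
`j, j', x, y` commute with `V`, and `br_V` is multiplicative on such elements.  `u = j x j' y j`:
`Φ(u) = w tr(P X P' Y P) = w tr(P X P' Y) ≠ 0`, so `u` is not nilpotent (NPH and `br_V`), so
`pw u n = j`, `n > 0` (`Jd.lo`).  `a = j x j'`, `b = j' y j u ^ (n-1)` (`b = j' y j` if `n = 1`):
`a b = u ^ n = j`.  `b a` is an idempotent (`b a b a = b j a = b a`) of `j' F G j'` which commutes with `V`
and is not `0` (`a (b a) b = j ≠ 0`); by `Jd.lo` for `j'` a power of it is `j'` or `0`, so `b a = j'`. -/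
def CjjStmt : Prop := ∀ (ℓ : ℕ) [Fact ℓ.Prime] (M : Ideal (integralClosure ℤ ℂ)) [M.IsMaximal],
  (ℓ : integralClosure ℤ ℂ) ∈ M → ∀ (G : Type) [Group G] [Finite G] (e : G → FF M)
  (V : Subgroup G) (γ : G → FF M), Ld ℓ e V γ → ∀ j j' : G → FF M, Jd M V γ j → Jd M V γ j' →
  ∃ a b : G → FF M, (∀ v ∈ V, ∀ x, a (v * x * v⁻¹) = a x) ∧
    (∀ v ∈ V, ∀ x, b (v * x * v⁻¹) = b x) ∧ mulF j a = a ∧ mulF a j' = a ∧ mulF j' b = b ∧
    mulF b j = b ∧ mulF a b = j ∧ mulF b a = j'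

/-- UNT: the units of `A` which come from the inertial group.

Proof.  `j' = cj t j = t j t⁻¹` satisfies `Jd` (JCJ).  CJJ: `a, b` with `a b = j`, `b a = j'`, `a ∈ j F G j'`,
`b ∈ j' F G j`.  `y = a t`, `y' = t⁻¹ b`: `y = a j' t = a t j`, so `y, y' ∈ A`; `y y' = a b = j`,
`y' y = t⁻¹ b a t = t⁻¹ j' t = j`.  `a` commutes with `V`: `y ι(w) j = a t ι(w) j = a (t ι(w) t⁻¹) t j =
(t ι(w) t⁻¹) a t j = ι(s w) j y`. -/
def UntStmt : Prop := ∀ (ℓ : ℕ) [Fact ℓ.Prime] (M : Ideal (integralClosure ℤ ℂ)) [M.IsMaximal],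
  (ℓ : integralClosure ℤ ℂ) ∈ M → ∀ (G : Type) [Group G] [Finite G] (e : G → FF M)
  (V : Subgroup G) (γ : G → FF M), Ld ℓ e V γ → ∀ j : G → FF M, Jd M V γ j →
  ∀ (W : Type) [CommGroup W] [Fintype W] (ι : W →* G), Function.Injective ι → ι.range = V →
  ∀ (hj : mulF j j = j) (hv : ∀ w x, j (ι w * x * (ι w)⁻¹) = j x), ∀ t ∈ Tg V γ,
  ∀ s : MulAut W, (∀ w, ι (s w) = t * ι w * t⁻¹) →
  ∃ y y' : Crn hj, y * y' = 1 ∧ y' * y = 1 ∧
    ∀ w, y * jal hj ι hv w = jal hj ι hv (s w) * y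

/-- ROT: the finite order of the unit (abstract).

Proof.  `R` (the centraliser of `α(V)`) is local with nil maximal ideal and residue field `F`
(finite-dimensional over an algebraically closed field), `m` the order of `s`.  `z = y ^ m` is in `R`
(`y ^ m α(u) = α(s ^ m u) y ^ m`), a unit, `z = c (1 + n)`, `c ∈ F`, `n` nilpotent.  `(1 + n) ^ (ℓ ^ k) = 1`
for large `k`.  `y` commutes with `z`, so with `1 + n`.  Choose `b` with `b m = 1` modulo `ℓ ^ k` (`ℓ ∤ m`)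
and `y₁ = y (1 + n) ^ (ℓ ^ k (m + 1) (b + 1) - b)` (a positive exponent congruent to `-b`):
`y₁ ^ m = z (1 + n) ^ (- b m) = c`.  `c ≠ 0`, so `c ^ r = 1` for some `r > 0` (`GoodF.tors`), and one can
take `ℓ ∤ r` (`c ^ r = 1`, `r = ℓ r'` implies `c ^ r' = 1` in characteristic `ℓ`).  `o = m r`.  `1 + n ∈ R`
commutes with `α(V)`. -/
def RotStmt : Prop := ∀ (ℓ : ℕ) (F : Type) [Field F], GoodF ℓ F → ∀ (W A : Type) [CommGroup W]
  [Fintype W] [Ring A] [Algebra F A] [FiniteDimensional F A] (α : W →* A),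
  IsLocalRing (Cz F α ⊤) → ∀ (s : MulAut W) (m : ℕ), 0 < m → ¬ ℓ ∣ m → s ^ m = 1 →
  ∀ y y' : A, y * y' = 1 → y' * y = 1 → (∀ u, y * α u = α (s u) * y) →
  ∃ (y₁ y₁' : A) (o : ℕ), y₁ * y₁' = 1 ∧ y₁' * y₁ = 1 ∧ (∀ u, y₁ * α u = α (s u) * y₁) ∧
    y₁ ^ o = 1 ∧ ¬ ℓ ∣ o

/-- LSE: the number of simple modules of `A` is at most the number of modular characters in `e`.

Proof.  Let `K` be the kernel of a surjection `ρ : A → Mat_n(F)`, `n > 0`; `S₀ = F ^ n` is a simple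
`A`-module, `S₀ = A x₀`, `L₀ = {a | ρ(a) x₀ = 0}` a maximal left ideal of `A`.  In the left ideal
`P = F G j` (functions `x` with `x j = x`) let `N₀ = F G L₀` (span of the `x a`, `a ∈ L₀`); `j N₀ ⊆ L₀`
(`j x a = (j x j) a`), and `j ∉ N₀` (else `j ∈ L₀`).  Let `N` be a maximal left submodule of `P` with
`N₀ ≤ N`, `j ∉ N` (finite dimension); it is a maximal submodule of `P`, because `P = F G j`, so `P/N` is
simple: an irreducible representation `σ` of `G` (Burnside: `IsIrr`, compare `Helper20_PP/Ibr.lean`).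
`{a ∈ A | a ∈ N} = L₀` (it contains `L₀`, is not `A`, and `L₀` is maximal).  So `j (P/N) ≅ A/L₀ ≅ S₀`, and
`K = {a ∈ A | ev σ a = 0}`: if `ev σ a = 0` then `a j(P/N) = 0`, so `ρ(a) = 0`; if `ρ(a) = 0` then
`a A ⊆ L₀`, so `a (P/N) = a j (P/N) = 0`.  `actF e (tr σ) = tr σ`: `e j = j` (JUN), so `e` is the identity of
`P/N`.  The function `tr σ` determines `K`: `ev σ a = 0` iff `∑_g (a x)(g) tr σ(g) = 0` for all `x ∈ F G`
(the trace form of the matrix algebra, `ev σ` is onto).  So `K ↦ tr σ` is injective from the set of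
the kernels to the finite set `{f ∈ IBr | actF e f = f}` (`IbfStmt`). -/
def LseStmt : Prop := ∀ (ℓ : ℕ) (F : Type) [Field F], GoodF ℓ F → ∀ (G : Type) [Group G]
  [Finite G] (e j : G → F), IsIdem e → mulF e j = j → ∀ hj : mulF j j = j,
  ls F (Crn hj) ≤ ln e

/-- EGR: the groups `W` and `E`.

Proof.  `W = V` (a type; commutative by `Ld.ab`), `ι` the inclusion.  For `t ∈ T` let `s_t` be the
automorphism `v ↦ t v t⁻¹` of `W` (`T ≤ N(V)`); `t ↦ s_t` is a homomorphism `T → MulAut W` with kernel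
`C(V)` (`C(V) ≤ T`), `E` its range, `φ` the inclusion; `|E| = |T : C(V)| = ix V γ`.  `Cy`: the class of `t₀`
generates `T/C(V)`, `e0 = s_{t₀}`.  `Ctx`: `V` is an `ℓ`-group (`Tp`), not trivial, `ℓ ∤ ix`
(`K9.InxStmt`), free by `Fr`. -/
def EgrStmt : Prop := ∀ (ℓ : ℕ) [Fact ℓ.Prime] (M : Ideal (integralClosure ℤ ℂ)) [M.IsMaximal],
  (ℓ : integralClosure ℤ ℂ) ∈ M → ∀ (G : Type) [Group G] [Finite G] (e : G → FF M)
  (V : Subgroup G) (γ : G → FF M), Ld ℓ e V γ → V ≠ ⊥ → Fr V γ → Cy V γ →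
  ∃ (W E : Type) (_ : CommGroup W) (_ : Fintype W) (_ : Group E) (_ : Fintype E) (ι : W →* G)
    (φ : E →* MulAut W) (e0 : E), Function.Injective ι ∧ ι.range = V ∧ Ctx ℓ φ e0 ∧
    Nat.card E = ix V γ ∧ (∀ t ∈ Tg V γ, ∃ x : E, ∀ w, ι (φ x w) = t * ι w * t⁻¹) ∧
    ∀ x : E, ∃ t ∈ Tg V γ, ∀ w, ι (φ x w) = t * ι w * t⁻¹

/-- PBF: the input of part (0) for blocks (`PibStmt` of `Chain.lean`), from the rows.

Proof.  EGR, JEX: `j`, `hj = Jd.id`, `hv` from `Jd.iv` (`ι w ∈ V`), `A = Crn hj`, `α = jal`.  `fin`, `frm`,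
`loc`, `top`: FFA.  `ps`: FPS.  `lcq`: for `¬ Q ≤ ⊥` the subgroup `Q.map ι` of `V` is not `⊥`: JLQ, LCP.
`uni`: UNT for every `x ∈ E` (`t ∈ T` from EGR; ROT is not needed).  `ls F A ≤ ln e`: LSE, JUN. -/
def PbfStmt : Prop := PibStmt

end Pool.Agent.PFC
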