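import Pool.Agent.PFC.Chain
import Pool.Agent.Helper47_PP.Osi

/-!
# Squad PFC, block B7: from theorem FC to the theorem for blocks and the final statement

`PFC.FctStmt` (`Chain.lean`): `ln e = ix V γ` if the inertial quotient is cyclic (`Cy V γ`) and acts
freely on `V - 1` (`Fr V γ`).  Here: the same if it acts freely on `[T, V]` (`Fc V γ`, squad WAT), by the
theorem of Watanabe; the alternating sum is zero; the final theorem.

Notation: `V` abelian, `T = Tg V γ`, `ix V γ = |T : C(V)|`, `Vc V γ = [T, V]`, `Zf V γ = C_V(T)`,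
`Fq V γ V' γ'`: there is a surjective `π : V → V'` such that every `t' ∈ T'` is induced by some `t ∈ T`.
All rows are independent (a row may take the rows which it uses as hypotheses).
-/

open scoped BigOperators

noncomputable section

namespace Pool.Agent.PFC

open Pool.Agent.Helper51_AWC Pool.Agent.Helper79_WRA Pool.Agent.PP Pool.Agent.PP.KF
open Pool.Agent.PP.K9 Pool.Agent.PP.K9.H97 Pool.Agent.PP.H75 Pool.Agent.PP.T3 Pool.Agent.PP.T2
open Pool.Agent.PP.T5 Pool.Agent.PP.TB Pool.Agent.PP.TV Pool.Agent.PP.TX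
open Pool.Agent.PP.T8 (Fq Fr In Iq)

attribute [local instance] Ideal.Quotient.field

/-! ## 1. The inertial index in central quotients -/

/-- LIX: the inertial index does not become smaller in a central quotient.

Proof.  `Z = ker p`, `V' = p(V)`, `K = C(V')`, `X = {x : [x, V] ≤ Z}` the preimage of `K`, `C(V) ≤ X`,
`R = p(C(V)) ≤ K`, `f = push p e`.  (a) Let `x ∈ X`.  For `v ∈ V`: `x v x⁻¹ = v z`, `z ∈ Z` central, so
`x ^ k v x ^ (-k) = v z ^ k`; with `|Z| = q`, a power of `ℓ` (`Z ≤ V`): `x ^ q ∈ C(V)`.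
(b) Every central idempotent `a` of `F K` (extended by zero) is supported on `R`: by OSI
(`Helper47_PP/Osi.lean`; `SmaStmt`, `RglStmt` are proved) it is supported on elements `k ∈ K` of order
prime to `ℓ`; `k = p x`, `x ∈ X`, `k ^ q ∈ R` by (a), and `k` is a power of `k ^ q`.
(c) As in the proof of `T8.Qt3Stmt` (`Helper86_AT8/QT3.lean`, with `Q = Z`, `br Q e = e`):
`br_{V'}(f) = push (e|C(V))`, `γ' br_{V'}(f) = γ'`, so there is a block `δ` of `C(V)` under `e` with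
`γ' push δ ≠ 0`, and `δ = cj n₀ γ` with `n₀ ∈ N(V)` (`orb_main`).  Put `γ₁ = cj (p n₀)⁻¹ γ'`, a block of
`K`; `Tg V' γ₁` is the conjugate of `Tg V' γ'` with `(p n₀)⁻¹ ∈ N(V')`, so `ix V' γ₁ = ix V' γ'`, and
`γ₁ push γ ≠ 0`.  `push γ` is a block of `R` (`T3.PsgStmt` for `C(V) → R`, see `push_blk` there), and `γ₁` is by
(b) a central idempotent of `F R` (it is invariant under `K`), so `γ₁ push γ = push γ`.
(d) For `t ∈ T`: `p t ∈ N(V')`, `γ₂ = cj (p t) γ₁` is a block of `K` with `γ₂ push γ = cj (p t) (push γ) =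
push (cj t γ) = push γ`.  If `γ₂ ≠ γ₁` then `γ₁ γ₂ = 0` (`Bx.dich`) and `push γ = γ₁ γ₂ push γ = 0`, a
contradiction.  So `p t ∈ Tg V' γ₁`.
(e) `p` maps `T` to `Tg V' γ₁`; if `p t ∈ K` then `t ∈ X`, `t ^ q ∈ C(V)` by (a), and `t ^ m ∈ C(V)`, `m = ix V γ`
prime to `ℓ` (`K9.InxStmt`; `C(V)` is normal in `T`), so `t ∈ C(V)`.  So the cosets of `C(V)` in `T` are
mapped injectively to the cosets of `K` in `Tg V' γ₁`: `ix V γ ≤ ix V' γ₁`. -/
def LixStmt : Prop := ∀ (ℓ : ℕ) [Fact ℓ.Prime] (M : Ideal (integralClosure ℤ ℂ)) [M.IsMaximal],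
  (ℓ : integralClosure ℤ ℂ) ∈ M → ∀ (G : Type) [Group G] [Finite G] (e : G → FF M)
  (V : Subgroup G) (γ : G → FF M), Ld ℓ e V γ → ∀ (A : Type) [Group A] [Finite A] (p : G →* A),
  Function.Surjective p → p.ker ≤ V → p.ker ≤ Subgroup.center G → ∀ γ' : A → FF M,
  Ld ℓ (push p e) (V.map p) γ' → ix V γ ≤ ix (V.map p) γ'

/-- LNV: a block with the same number of modular characters, without fixed points, and with the same
inertial index.

Proof.  Copy of `TX.LnwStmt` (`Helper84_WAX/LNW.lean`: `step`, `lnw`), with one more property.  In the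
first case `A = G`.  In `step` (central element `z ∈ V`): `ix V' γ' = ix V γ` by LIX and `TV.ClvStmt` (third
part, for `Fq`; `K9.InxStmt`).  For `G` and `C = Cu z`, `z ∈ Zf V γ`: `T ≤ C`, and by `T3.H85.Tg_eq` and
`cent_sub` (`Helper85_AT3/LSB.lean`) `Tg (V.subgroupOf C) _ = (T ⊓ C).subgroupOf C`, the centraliser of
`V.subgroupOf C` is `C(V).subgroupOf C`, so the indices are equal. -/
def LnvStmt : Prop := ∀ (ℓ : ℕ) [Fact ℓ.Prime] (M : Ideal (integralClosure ℤ ℂ)) [M.IsMaximal],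
  (ℓ : integralClosure ℤ ℂ) ∈ M → ∀ (G : Type) [Group G] [Finite G] (e : G → FF M)
  (V : Subgroup G) (γ : G → FF M), Ld ℓ e V γ →
  ∃ (A : Type) (_ : Group A) (_ : Finite A) (f : A → FF M) (V' : Subgroup A) (γ' : A → FF M),
    Ld ℓ f V' γ' ∧ ln f = ln e ∧ Fq V γ V' γ' ∧ Zf V' γ' = ⊥ ∧ ix V' γ' = ix V γ

/-- CYQ: cyclic inertial quotients are closed under quotients.

Proof.  `π : V → V'` surjective, `t₀` a generator for `T` as in `Cy`.  Let `S` be the set of the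
integers `k` such that some `t' ∈ T'` is induced by `t₀ ^ k` (`(w : G) = t₀ ^ k v t₀ ^ (-k)` implies
`π w = t' π v t'⁻¹`): a subgroup of `ℤ` (products and inverses of the `t'`; `t₀ ^ k` permutes `V`).
`S = d ℤ` (`Int.subgroup_cyclic` or `AddSubgroup.zmultiples`), `t₁ ∈ T'` induced by `t₀ ^ d`.  If `t' ∈ T'` is
induced by `t ∈ T` and `t₀ ^ k t⁻¹ ∈ C(V)` then `t'` is induced by `t₀ ^ k`, `k ∈ S`, `k = d m`, and `t₁ ^ m`,
`t'` act in the same way on `V' = π(V)`: `t₁ ^ m t'⁻¹ ∈ C(V')`; replace `m` by a natural number modulo the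
order of `t₁`. -/
def CyqStmt : Prop := ∀ (F : Type) [Field F] (G A : Type) [Group G] [Finite G] [Group A]
  [Finite A] (V : Subgroup G) (γ : G → F) (V' : Subgroup A) (γ' : A → F),
  Fq V γ V' γ' → Cy V γ → Cy V' γ'

/-- LFC: theorem FC for inertial quotients which act freely on `[T, V]`.

Proof.  LNV: `A`, `f`, `V'`, `γ'` with `ln f = ln e`, `Zf V' γ' = ⊥`, `ix V' γ' = ix V γ`.  `K9.InxStmt`,
`TV.ClvStmt`, CYQ: `Fc V' γ'`, `Cy V' γ'`.  If `V' = ⊥`: `TX.Ln0Stmt` and `K9.LbdStmt` give `ln f = 1`, and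
`ix V' γ' = 1` (`C(V') = ⊤`).  Otherwise `Vc V' γ' = V'` by `TV.CpvStmt` (see `Helper58_WAX/LTX.lean`), so
`Fr V' γ'`, and FCT: `ln f = ix V' γ'`. -/
def LfcStmt : Prop := ∀ (ℓ : ℕ) [Fact ℓ.Prime] (M : Ideal (integralClosure ℤ ℂ)) [M.IsMaximal],
  (ℓ : integralClosure ℤ ℂ) ∈ M → ℓ ≠ 2 → ∀ (G : Type) [Group G] [Finite G] (e : G → FF M)
  (V : Subgroup G) (γ : G → FF M), Ld ℓ e V γ → Fc V γ → Cy V γ → ln e = ix V γ

/-! ## 2. The recursion -/

/-- GEC: the recursion for a class of blocks which is closed under quotients with the same exponent,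
if the numbers of modular characters of `e` and of its local block are equal.

Proof.  Copy of `TX.GenStmt` (`Helper17_WAX/GEN.lean`): up to `h1` (the alternating sum is a multiple of
`ln e - ln f`), and the difference is `0` by the hypothesis (`DVX` and the bounds are not needed). -/
def GecStmt : Prop := ∀ (ℓ : ℕ) [Fact ℓ.Prime] (M : Ideal (integralClosure ℤ ℂ)) [M.IsMaximal],
  (ℓ : integralClosure ℤ ℂ) ∈ M → ∀ a : ℕ, 0 < a →
  ∀ P : ∀ (G : Type) [Group G], (G → FF M) → Subgroup G → (G → FF M) → Prop,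
  (∀ (G A : Type) [Group G] [Finite G] [Group A] [Finite A] (e : G → FF M) (V : Subgroup G)
    (γ : G → FF M) (f : A → FF M) (V' : Subgroup A) (γ' : A → FF M), Ld ℓ e V γ →
    Ld ℓ f V' γ' → Fq V γ V' γ' → Monoid.exponent V = ℓ ^ a → Monoid.exponent V' = ℓ ^ a →
    P G e V γ → P A f V' γ') →
  (∀ (G : Type) [Group G] [Finite G] (e : G → FF M) (V : Subgroup G) (γ : G → FF M),
    opCore ℓ G = ⊥ → Ld ℓ e V γ → Monoid.exponent V = ℓ ^ a → P G e V γ →
    Iq M ℓ a (Nat.card G) V γ → ∀ f : G → FF M, Fs ℓ e V (Uw (ℓ ^ (a - 1)) V) γ f →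
    ln e = ln (fun t : Subgroup.normalizer ((Uw (ℓ ^ (a - 1)) V : Subgroup G) : Set G) => f t)) →
  ∀ (G : Type) [Group G] [Finite G] (e : G → FF M) (V : Subgroup G) (γ : G → FF M),
    Ld ℓ e V γ → Monoid.exponent V = ℓ ^ a → P G e V γ → YY ℓ ⊤ e = 0

/-- TYA: the theorem for blocks with cyclic inertial quotients which act freely on `[T, V]`.

Proof.  GEC with `P G e V γ = (Fc V γ ∧ Cy V γ)`: closed under quotients by `TV.ClvStmt` (`K9.InxStmt`)
and CYQ.  For `f` as there: `Fq` by `T8.FqtStmt` (iii), so `Fc` and `Cy` for `f` (`Fs.ld`); LFC for `e` and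
for `f`, and `Fs.ix`. -/
def TyaStmt : Prop := ∀ (ℓ : ℕ) [Fact ℓ.Prime] (M : Ideal (integralClosure ℤ ℂ)) [M.IsMaximal],
  (ℓ : integralClosure ℤ ℂ) ∈ M → ℓ ≠ 2 → ∀ (G : Type) [Group G] [Finite G] (e : G → FF M)
  (V : Subgroup G) (γ : G → FF M), Ld ℓ e V γ → ∀ a : ℕ, 0 < a →
  Monoid.exponent V = ℓ ^ a → Fc V γ → Cy V γ → YY ℓ ⊤ e = 0

/-- FNC: the final theorem for cyclic inertial quotients.  `D` is an abelian defect group of the block
of `χ`, larger than `O_ℓ(G)`, `th` belongs to a block of `C(D)` under the block of `χ`, `Iner M D th` is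
its inertial group; `Iner M D th / C(D)` is cyclic and acts freely on `Dc M D th = [Iner M D th, D]`.

Proof.  As `TX.FnxStmt` (`Helper20_WAX/FNX.lean`, the last alternative): `TV.H66.core`
(`Helper66_WAT/FNW.lean`) gives the block of `G/O_ℓ(G)` with `V' = D.map p ≠ 1`, `Fq D γ V' γ'`;
`Fc D γ` as there, `Cy D γ` from `Tg D γ = Iner M D th`; `TV.ClvStmt`, CYQ for `V'`; the exponent of `V'` is
`ℓ ^ a`, `a > 0`; TYA. -/
def FncStmt : Prop := ∀ (ℓ : ℕ) [Fact ℓ.Prime] (M : Ideal (integralClosure ℤ ℂ)) [M.IsMaximal],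
  (ℓ : integralClosure ℤ ℂ) ∈ M → ℓ ≠ 2 → ∀ (G : Type) [Group G] [Finite G],
  opCore ℓ G ≤ Subgroup.center G → ∀ χ ∈ Irr G, ∀ D : Subgroup G, ML.IsDef ℓ M χ D →
  D ≠ opCore ℓ G → (∀ x ∈ D, ∀ y ∈ D, x * y = y * x) →
  ∀ th ∈ IrrBlock M (Subgroup.centralizer (D : Set G)).subtype χ,
  (∃ t ∈ Iner M D th, ∀ x ∈ Iner M D th, ∃ k : ℕ,
    t ^ k * x⁻¹ ∈ Subgroup.centralizer (D : Set G)) →
  (∀ t ∈ Iner M D th, ∀ v ∈ Dc M D th, v ≠ 1 → t * v = v * t →
    t ∈ Subgroup.centralizer (D : Set G)) → altSum ℓ M χ = 0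

end Pool.Agent.PFC
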